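import Mathlib

/-!
MP_b365ef_an, Lip_0(R x A): definitions. Spaces with a predicate `bd K v` (norm of `v` at most `K`),
l_infty sums, complemented subspaces, isomorphisms.
-/

set_option autoImplicit false

namespace H50LP

/-- A real vector space with a norm given by the predicate `bd K v` (norm of `v` at most `K`). -/
class BD (V : Type) [AddCommGroup V] [Module ℝ V] where
  bd : ℝ → V → Prop
  nonneg : ∀ {K : ℝ} {v : V}, bd K v → 0 ≤ K
  mono : ∀ {K L : ℝ} {v : V}, bd K v → K ≤ L → bd L v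
  add : ∀ {K L : ℝ} {v w : V}, bd K v → bd L w → bd (K + L) (v + w)
  smul : ∀ {K : ℝ} {v : V} (a : ℝ), bd K v → bd (|a| * K) (a • v)
  zero : bd 0 0
  ex : ∀ v : V, ∃ K, bd K v

export BD (bd)

section
variable {V W : Type} [AddCommGroup V] [Module ℝ V] [BD V] [AddCommGroup W] [Module ℝ W] [BD W]

/-- A linear map with norm at most `C`. -/
def Bdd (C : ℝ) (T : V →ₗ[ℝ] W) : Prop := ∀ (K : ℝ) (v : V), bd K v → bd (C * K) (T v)

end

/-- `V` is complemented in `W` with constant `C`. -/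
def Cpl (C : ℝ) (V W : Type) [AddCommGroup V] [Module ℝ V] [BD V] [AddCommGroup W] [Module ℝ W]
    [BD W] : Prop :=
  ∃ (J : V →ₗ[ℝ] W) (P : W →ₗ[ℝ] V), (∀ v, P (J v) = v) ∧ Bdd C J ∧ Bdd C P

/-- `V` and `W` are isomorphic. -/
def Iso (V W : Type) [AddCommGroup V] [Module ℝ V] [BD V] [AddCommGroup W] [Module ℝ W]
    [BD W] : Prop :=
  ∃ (T : V ≃ₗ[ℝ] W) (C : ℝ), Bdd C (T : V →ₗ[ℝ] W) ∧ Bdd C (T.symm : W →ₗ[ℝ] V)

instance : BD ℝ where
  bd K x := |x| ≤ K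
  nonneg h := (abs_nonneg _).trans h
  mono h h' := h.trans h'
  add h h' := (abs_add_le _ _).trans (add_le_add h h')
  smul a h := by
    rw [smul_eq_mul, abs_mul]
    exact mul_le_mul_of_nonneg_left h (abs_nonneg a)
  zero := by simp
  ex v := ⟨|v|, le_rfl⟩

instance {V W : Type} [AddCommGroup V] [Module ℝ V] [BD V] [AddCommGroup W] [Module ℝ W] [BD W] :
    BD (V × W) where
  bd K v := bd K v.1 ∧ bd K v.2
  nonneg h := BD.nonneg h.1
  mono h h' := ⟨BD.mono h.1 h', BD.mono h.2 h'⟩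
  add h h' := ⟨BD.add h.1 h'.1, BD.add h.2 h'.2⟩
  smul a h := ⟨BD.smul a h.1, BD.smul a h.2⟩
  zero := ⟨BD.zero, BD.zero⟩
  ex v := by
    obtain ⟨K, hK⟩ := BD.ex v.1
    obtain ⟨L, hL⟩ := BD.ex v.2
    exact ⟨max K L, BD.mono hK (le_max_left _ _), BD.mono hL (le_max_right _ _)⟩

/-- The l_infty sum of the spaces `V i`. -/
def Linf (ι : Type) (V : ι → Type) [∀ i, AddCommGroup (V i)] [∀ i, Module ℝ (V i)]
    [∀ i, BD (V i)] : Submodule ℝ (∀ i, V i) where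
  carrier := {v | ∃ K, 0 ≤ K ∧ ∀ i, bd K (v i)}
  add_mem' := by
    rintro v w ⟨K, hK, h⟩ ⟨L, hL, h'⟩
    exact ⟨K + L, by positivity, fun i => BD.add (h i) (h' i)⟩
  zero_mem' := ⟨0, le_rfl, fun _ => BD.zero⟩
  smul_mem' := by
    rintro a v ⟨K, hK, h⟩
    exact ⟨|a| * K, by positivity, fun i => BD.smul a (h i)⟩

instance (ι : Type) (V : ι → Type) [∀ i, AddCommGroup (V i)] [∀ i, Module ℝ (V i)]
    [∀ i, BD (V i)] : BD (Linf ι V) where
  bd K v := 0 ≤ K ∧ ∀ i, bd K (v.1 i)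
  nonneg h := h.1
  mono h h' := ⟨h.1.trans h', fun i => BD.mono (h.2 i) h'⟩
  add h h' := ⟨add_nonneg h.1 h'.1, fun i => BD.add (h.2 i) (h'.2 i)⟩
  smul a h := ⟨mul_nonneg (abs_nonneg a) h.1, fun i => BD.smul a (h.2 i)⟩
  zero := ⟨le_rfl, fun _ => BD.zero⟩
  ex v := v.2

theorem bd_Linf {ι : Type} {V : ι → Type} [∀ i, AddCommGroup (V i)] [∀ i, Module ℝ (V i)]
    [∀ i, BD (V i)] {K : ℝ} {v : Linf ι V} : bd K v ↔ 0 ≤ K ∧ ∀ i, bd K (v.1 i) := Iff.rfl

theorem bd_real {K x : ℝ} : bd K x ↔ |x| ≤ K := Iff.rfl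

theorem bd_prod {V W : Type} [AddCommGroup V] [Module ℝ V] [BD V] [AddCommGroup W] [Module ℝ W]
    [BD W] {K : ℝ} {v : V × W} : bd K v ↔ bd K v.1 ∧ bd K v.2 := Iff.rfl

/-- The space l_infty. -/
abbrev Ell : Type := Linf ℕ (fun _ => ℝ)

/-- `K`-Lipschitz in each variable (that is, `K`-Lipschitz for the sum metric). -/
def lipB {A : Set ℝ} (K : ℝ) (f : ℝ → A → ℝ) : Prop :=
  0 ≤ K ∧ (∀ x x' a, |f x a - f x' a| ≤ K * |x - x'|) ∧
    ∀ x a a', |f x a - f x a'| ≤ K * |(a : ℝ) - a'|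

theorem lipB.mono {A : Set ℝ} {K L : ℝ} {f : ℝ → A → ℝ} (h : lipB K f) (h' : K ≤ L) :
    lipB L f :=
  ⟨h.1.trans h', fun x x' a => (h.2.1 x x' a).trans (mul_le_mul_of_nonneg_right h' (abs_nonneg _)),
    fun x a a' => (h.2.2 x a a').trans (mul_le_mul_of_nonneg_right h' (abs_nonneg _))⟩

theorem lipB.add {A : Set ℝ} {K L : ℝ} {f g : ℝ → A → ℝ} (h : lipB K f) (h' : lipB L g) :
    lipB (K + L) (f + g) := by
  refine ⟨add_nonneg h.1 h'.1, fun x x' a => ?_, fun x a a' => ?_⟩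
  · have e : (f + g) x a - (f + g) x' a = (f x a - f x' a) + (g x a - g x' a) := by
      simp only [Pi.add_apply]; ring
    rw [e, add_mul]
    exact (abs_add_le _ _).trans (add_le_add (h.2.1 x x' a) (h'.2.1 x x' a))
  · have e : (f + g) x a - (f + g) x a' = (f x a - f x a') + (g x a - g x a') := by
      simp only [Pi.add_apply]; ring
    rw [e, add_mul]
    exact (abs_add_le _ _).trans (add_le_add (h.2.2 x a a') (h'.2.2 x a a'))

theorem lipB.smul {A : Set ℝ} {K : ℝ} {f : ℝ → A → ℝ} (c : ℝ) (h : lipB K f) :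
    lipB (|c| * K) (c • f) := by
  refine ⟨mul_nonneg (abs_nonneg c) h.1, fun x x' a => ?_, fun x a a' => ?_⟩
  · have e : (c • f) x a - (c • f) x' a = c * (f x a - f x' a) := by
      simp only [Pi.smul_apply, smul_eq_mul]; ring
    rw [e, abs_mul, mul_assoc]
    exact mul_le_mul_of_nonneg_left (h.2.1 x x' a) (abs_nonneg c)
  · have e : (c • f) x a - (c • f) x a' = c * (f x a - f x a') := by
      simp only [Pi.smul_apply, smul_eq_mul]; ring
    rw [e, abs_mul, mul_assoc]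
    exact mul_le_mul_of_nonneg_left (h.2.2 x a a') (abs_nonneg c)

theorem lipB.zero {A : Set ℝ} : lipB 0 (0 : ℝ → A → ℝ) := by
  refine ⟨le_rfl, fun x x' a => ?_, fun x a a' => ?_⟩ <;> simp

/-- Lipschitz functions on `ℝ × A` which vanish at `(0, a0)`. -/
def LX (A : Set ℝ) (a0 : A) : Submodule ℝ (ℝ → A → ℝ) where
  carrier := {f | f 0 a0 = 0 ∧ ∃ K, lipB K f}
  add_mem' := by
    rintro f g ⟨h0, K, h⟩ ⟨h0', L, h'⟩
    exact ⟨by simp [h0, h0'], K + L, h.add h'⟩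
  zero_mem' := ⟨rfl, 0, lipB.zero⟩
  smul_mem' := by
    rintro c f ⟨h0, K, h⟩
    exact ⟨by simp [h0], |c| * K, h.smul c⟩

instance (A : Set ℝ) (a0 : A) : BD (LX A a0) where
  bd K f := lipB K f.1
  nonneg h := h.1
  mono h h' := h.mono h'
  add h h' := h.add h'
  smul a h := h.smul a
  zero := lipB.zero
  ex f := f.2.2

theorem bd_LX {A : Set ℝ} {a0 : A} {K : ℝ} {f : LX A a0} : bd K f ↔ lipB K f.1 := Iff.rfl

/-- Lipschitz functions on `ℝ × B` with norm `max (Lip h, sup |h| / R)`. -/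
def HX (B : Set ℝ) (R : ℝ) : Submodule ℝ (ℝ → B → ℝ) where
  carrier := {h | ∃ K, lipB K h ∧ ∀ x b, |h x b| ≤ K * |R|}
  add_mem' := by
    rintro f g ⟨K, h, hs⟩ ⟨L, h', hs'⟩
    refine ⟨K + L, h.add h', fun x b => ?_⟩
    rw [add_mul]
    exact (abs_add_le _ _).trans (add_le_add (hs x b) (hs' x b))
  zero_mem' := ⟨0, lipB.zero, by simp⟩
  smul_mem' := by
    rintro c f ⟨K, h, hs⟩
    refine ⟨|c| * K, h.smul c, fun x b => ?_⟩
    simp only [Pi.smul_apply, smul_eq_mul, abs_mul, mul_assoc]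
    exact mul_le_mul_of_nonneg_left (hs x b) (abs_nonneg c)

instance (B : Set ℝ) (R : ℝ) : BD (HX B R) where
  bd K h := lipB K h.1 ∧ ∀ x b, |h.1 x b| ≤ K * |R|
  nonneg h := h.1.1
  mono h h' := ⟨h.1.mono h', fun x b => (h.2 x b).trans
    (mul_le_mul_of_nonneg_right h' (abs_nonneg _))⟩
  add {K L f g} h h' := by
    refine ⟨h.1.add h'.1, fun x b => ?_⟩
    rw [add_mul]
    exact (abs_add_le _ _).trans (add_le_add (h.2 x b) (h'.2 x b))
  smul {K f} c h := by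
    refine ⟨h.1.smul c, fun x b => ?_⟩
    have : |(c • f).1 x b| = |c| * |f.1 x b| := by
      simp [abs_mul]
    rw [this, mul_assoc]
    exact mul_le_mul_of_nonneg_left (h.2 x b) (abs_nonneg c)
  zero := ⟨lipB.zero, by simp⟩
  ex f := f.2

theorem bd_HX {B : Set ℝ} {R K : ℝ} {f : HX B R} :
    bd K f ↔ lipB K f.1 ∧ ∀ x b, |f.1 x b| ≤ K * |R| := Iff.rfl

/-- Lipschitz functions on `ℝ × B` with `|f x b| ≤ K |b - b0|`. -/
def SX (B : Set ℝ) (b0 : ℝ) : Submodule ℝ (ℝ → B → ℝ) where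
  carrier := {h | ∃ K, lipB K h ∧ ∀ x (b : B), |h x b| ≤ K * |(b : ℝ) - b0|}
  add_mem' := by
    rintro f g ⟨K, h, hs⟩ ⟨L, h', hs'⟩
    refine ⟨K + L, h.add h', fun x b => ?_⟩
    rw [add_mul]
    exact (abs_add_le _ _).trans (add_le_add (hs x b) (hs' x b))
  zero_mem' := ⟨0, lipB.zero, by simp⟩
  smul_mem' := by
    rintro c f ⟨K, h, hs⟩
    refine ⟨|c| * K, h.smul c, fun x b => ?_⟩
    simp only [Pi.smul_apply, smul_eq_mul, abs_mul, mul_assoc]
    exact mul_le_mul_of_nonneg_left (hs x b) (abs_nonneg c)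

instance (B : Set ℝ) (b0 : ℝ) : BD (SX B b0) where
  bd K h := lipB K h.1 ∧ ∀ x (b : B), |h.1 x b| ≤ K * |(b : ℝ) - b0|
  nonneg h := h.1.1
  mono h h' := ⟨h.1.mono h', fun x b => (h.2 x b).trans
    (mul_le_mul_of_nonneg_right h' (abs_nonneg _))⟩
  add {K L f g} h h' := by
    refine ⟨h.1.add h'.1, fun x b => ?_⟩
    rw [add_mul]
    exact (abs_add_le _ _).trans (add_le_add (h.2 x b) (h'.2 x b))
  smul {K f} c h := by
    refine ⟨h.1.smul c, fun x b => ?_⟩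
    have : |(c • f).1 x b| = |c| * |f.1 x b| := by
      simp [abs_mul]
    rw [this, mul_assoc]
    exact mul_le_mul_of_nonneg_left (h.2 x b) (abs_nonneg c)
  zero := ⟨lipB.zero, by simp⟩
  ex f := f.2

theorem bd_SX {B : Set ℝ} {b0 K : ℝ} {f : SX B b0} :
    bd K f ↔ lipB K f.1 ∧ ∀ x (b : B), |f.1 x b| ≤ K * |(b : ℝ) - b0| := Iff.rfl

/-- `K`-Lipschitz real functions. -/
def lipR (K : ℝ) (f : ℝ → ℝ) : Prop := 0 ≤ K ∧ ∀ x x', |f x - f x'| ≤ K * |x - x'|

theorem lipR.mono {K L : ℝ} {f : ℝ → ℝ} (h : lipR K f) (h' : K ≤ L) : lipR L f :=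
  ⟨h.1.trans h', fun x x' => (h.2 x x').trans (mul_le_mul_of_nonneg_right h' (abs_nonneg _))⟩

theorem lipR.add {K L : ℝ} {f g : ℝ → ℝ} (h : lipR K f) (h' : lipR L g) :
    lipR (K + L) (f + g) := by
  refine ⟨add_nonneg h.1 h'.1, fun x x' => ?_⟩
  have e : (f + g) x - (f + g) x' = (f x - f x') + (g x - g x') := by
    simp only [Pi.add_apply]; ring
  rw [e, add_mul]
  exact (abs_add_le _ _).trans (add_le_add (h.2 x x') (h'.2 x x'))

theorem lipR.smul {K : ℝ} {f : ℝ → ℝ} (c : ℝ) (h : lipR K f) : lipR (|c| * K) (c • f) := by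
  refine ⟨mul_nonneg (abs_nonneg c) h.1, fun x x' => ?_⟩
  have e : (c • f) x - (c • f) x' = c * (f x - f x') := by
    simp only [Pi.smul_apply, smul_eq_mul]; ring
  rw [e, abs_mul, mul_assoc]
  exact mul_le_mul_of_nonneg_left (h.2 x x') (abs_nonneg c)

theorem lipR.zero : lipR 0 (0 : ℝ → ℝ) := by
  refine ⟨le_rfl, fun x x' => ?_⟩; simp

/-- Lip_0 of the line. -/
def L1 : Submodule ℝ (ℝ → ℝ) where
  carrier := {f | f 0 = 0 ∧ ∃ K, lipR K f}
  add_mem' := by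
    rintro f g ⟨h0, K, h⟩ ⟨h0', L, h'⟩
    exact ⟨by simp [h0, h0'], K + L, h.add h'⟩
  zero_mem' := ⟨rfl, 0, lipR.zero⟩
  smul_mem' := by
    rintro c f ⟨h0, K, h⟩
    exact ⟨by simp [h0], |c| * K, h.smul c⟩

instance : BD L1 where
  bd K f := lipR K f.1
  nonneg h := h.1
  mono h h' := h.mono h'
  add h h' := h.add h'
  smul a h := h.smul a
  zero := lipR.zero
  ex f := f.2.2

theorem bd_L1 {K : ℝ} {f : L1} : bd K f ↔ lipR K f.1 := Iff.rfl

/-- Bounded Lipschitz functions on the line, norm `max (Lip h, sup |h| / R)`. -/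
def HP (R : ℝ) : Submodule ℝ (ℝ → ℝ) where
  carrier := {f | ∃ K, lipR K f ∧ ∀ x, |f x| ≤ K * |R|}
  add_mem' := by
    rintro f g ⟨K, h, hs⟩ ⟨L, h', hs'⟩
    refine ⟨K + L, h.add h', fun x => ?_⟩
    rw [add_mul]
    exact (abs_add_le _ _).trans (add_le_add (hs x) (hs' x))
  zero_mem' := ⟨0, lipR.zero, by simp⟩
  smul_mem' := by
    rintro c f ⟨K, h, hs⟩
    refine ⟨|c| * K, h.smul c, fun x => ?_⟩
    simp only [Pi.smul_apply, smul_eq_mul, abs_mul, mul_assoc]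
    exact mul_le_mul_of_nonneg_left (hs x) (abs_nonneg c)

instance (R : ℝ) : BD (HP R) where
  bd K h := lipR K h.1 ∧ ∀ x, |h.1 x| ≤ K * |R|
  nonneg h := h.1.1
  mono h h' := ⟨h.1.mono h', fun x => (h.2 x).trans
    (mul_le_mul_of_nonneg_right h' (abs_nonneg _))⟩
  add {K L f g} h h' := by
    refine ⟨h.1.add h'.1, fun x => ?_⟩
    rw [add_mul]
    exact (abs_add_le _ _).trans (add_le_add (h.2 x) (h'.2 x))
  smul {K f} c h := by
    refine ⟨h.1.smul c, fun x => ?_⟩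
    have : |(c • f).1 x| = |c| * |f.1 x| := by
      simp [abs_mul]
    rw [this, mul_assoc]
    exact mul_le_mul_of_nonneg_left (h.2 x) (abs_nonneg c)
  zero := ⟨lipR.zero, by simp⟩
  ex f := f.2

theorem bd_HP {R K : ℝ} {f : HP R} : bd K f ↔ lipR K f.1 ∧ ∀ x, |f.1 x| ≤ K * |R| := Iff.rfl

/-- `Fat L K A`: `A` contains the points of a binary tree of depth `K`, separated with ratio
`L`. -/
def Fat (L : ℝ) : ℕ → Set ℝ → Prop
  | 0, A => A.Nonempty
  | K + 1, A => ∃ r > 0, ∃ B ⊆ A, ∃ C ⊆ A, Fat L K B ∧ Fat L K C ∧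
      (∀ b ∈ B, ∀ b' ∈ B, |b - b'| ≤ r) ∧ (∀ c ∈ C, ∀ c' ∈ C, |c - c'| ≤ r) ∧
      ∀ b ∈ B, ∀ c ∈ C, L * r ≤ |b - c|

/-- Binary words of length `K`. -/
abbrev D (K : ℕ) : Type := Fin K → ZMod 2

/-- Words whose first `j` letters vanish. -/
def V {K : ℕ} (j : ℕ) : Finset (D K) := Finset.univ.filter fun u => ∀ i : Fin K, i.1 < j → u i = 0

/-- Average over the letters `c_i`, `i ≥ j`, and `x_i`, `i ≥ l`. -/
noncomputable def Ee {K : ℕ} (j l : ℕ) : (D K × D K → ℝ) →ₗ[ℝ] (D K × D K → ℝ) where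
  toFun g := fun p => (∑ u ∈ (V j : Finset (D K)), ∑ v ∈ (V l : Finset (D K)),
    g (p.1 + u, p.2 + v)) / (((V j : Finset (D K)).card : ℝ) * ((V l : Finset (D K)).card : ℝ))
  map_add' g h := by
    funext p
    simp only [Pi.add_apply, Finset.sum_add_distrib, add_div]
  map_smul' a g := by
    funext p
    simp only [Pi.smul_apply, smul_eq_mul, ← Finset.mul_sum, RingHom.id_apply, mul_div_assoc]

/-- The functions on pairs of words `(c, x)` for which the average over `x_i`, `i ≥ j`, depends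
only on `c_i`, `i < j`. -/
def Tri (K : ℕ) : Submodule ℝ (D K × D K → ℝ) where
  carrier := {g | ∀ (j : ℕ) (c c' x : D K), (∀ i : Fin K, i.1 < j → c i = c' i) →
    ∑ v ∈ (V j : Finset (D K)), g (c, x + v) = ∑ v ∈ (V j : Finset (D K)), g (c', x + v)}
  add_mem' := by
    intro g h hg hh j c c' x hc
    simp only [Pi.add_apply, Finset.sum_add_distrib]
    rw [hg j c c' x hc, hh j c c' x hc]
  zero_mem' := by
    intro j c c' x _
    simp
  smul_mem' := by
    intro a g hg j c c' x hc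
    simp only [Pi.smul_apply, smul_eq_mul, ← Finset.mul_sum]
    rw [hg j c c' x hc]

/-- The orthogonal projection onto `Tri K` (martingale transform). -/
noncomputable def Oo (K : ℕ) : (D K × D K → ℝ) →ₗ[ℝ] (D K × D K → ℝ) :=
  Ee 0 0 + ∑ j : Fin K, (Ee (j.1 + 1) (j.1 + 1) - Ee (j.1 + 1) j.1)

/-- Functions on the grid `{0..N}²`. -/
def Gr (N : ℕ) : Submodule ℝ (Fin (N + 1) → Fin (N + 1) → ℝ) where
  carrier := {F | F 0 0 = 0}
  add_mem' := by
    intro F G hF hG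
    have hF' : F 0 0 = 0 := hF
    have hG' : G 0 0 = 0 := hG
    show F 0 0 + G 0 0 = 0
    rw [hF', hG', add_zero]
  zero_mem' := rfl
  smul_mem' := by
    intro c F hF
    have hF' : F 0 0 = 0 := hF
    show c * F 0 0 = 0
    rw [hF', mul_zero]

/-- `K`-Lipschitz on the grid. -/
def lipG {N : ℕ} (K : ℝ) (F : Fin (N + 1) → Fin (N + 1) → ℝ) : Prop :=
  0 ≤ K ∧ (∀ i i' j, |F i j - F i' j| ≤ K * |(i.1 : ℝ) - i'.1|) ∧
    ∀ i j j', |F i j - F i j'| ≤ K * |(j.1 : ℝ) - j'.1|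

theorem lipG.ex {N : ℕ} (F : Fin (N + 1) → Fin (N + 1) → ℝ) : ∃ K, lipG K F := by
  have hS : ∀ i j, |F i j| ≤ ∑ i, ∑ j, |F i j| := fun i j =>
    (Finset.single_le_sum (f := fun j => |F i j|) (fun _ _ => abs_nonneg _)
      (Finset.mem_univ j)).trans
      (Finset.single_le_sum (f := fun i => ∑ j, |F i j|)
        (fun _ _ => Finset.sum_nonneg fun _ _ => abs_nonneg _) (Finset.mem_univ i))
  have h0 : 0 ≤ ∑ i, ∑ j, |F i j| :=
    Finset.sum_nonneg fun _ _ => Finset.sum_nonneg fun _ _ => abs_nonneg _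
  have key : ∀ (i i' : Fin (N + 1)), i ≠ i' → (1 : ℝ) ≤ |(i.1 : ℝ) - i'.1| := by
    intro i i' h
    have h1 : ((i.1 : ℤ) - (i'.1 : ℤ)) ≠ 0 := by
      intro h2
      exact h (Fin.ext (by omega))
    have h2 : (1 : ℤ) ≤ |(i.1 : ℤ) - (i'.1 : ℤ)| := Int.one_le_abs h1
    exact_mod_cast h2
  refine ⟨2 * ∑ i, ∑ j, |F i j|, by positivity, fun i i' j => ?_, fun i j j' => ?_⟩
  · by_cases h : i = i'
    · subst h; simp
    · calc |F i j - F i' j| ≤ |F i j| + |F i' j| := abs_sub _ _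
        _ ≤ 2 * ∑ i, ∑ j, |F i j| := by linarith [hS i j, hS i' j]
        _ = 2 * (∑ i, ∑ j, |F i j|) * 1 := by ring
        _ ≤ _ := mul_le_mul_of_nonneg_left (key i i' h) (by positivity)
  · by_cases h : j = j'
    · subst h; simp
    · calc |F i j - F i j'| ≤ |F i j| + |F i j'| := abs_sub _ _
        _ ≤ 2 * ∑ i, ∑ j, |F i j| := by linarith [hS i j, hS i j']
        _ = 2 * (∑ i, ∑ j, |F i j|) * 1 := by ring
        _ ≤ _ := mul_le_mul_of_nonneg_left (key j j' h) (by positivity)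

instance (N : ℕ) : BD (Gr N) where
  bd K F := lipG K F.1
  nonneg h := h.1
  mono h h' := ⟨h.1.trans h', fun i i' j => (h.2.1 i i' j).trans
    (mul_le_mul_of_nonneg_right h' (abs_nonneg _)), fun i j j' => (h.2.2 i j j').trans
    (mul_le_mul_of_nonneg_right h' (abs_nonneg _))⟩
  add {K L F G} h h' := by
    refine ⟨add_nonneg h.1 h'.1, fun i i' j => ?_, fun i j j' => ?_⟩
    · have e : (F + G).1 i j - (F + G).1 i' j = (F.1 i j - F.1 i' j) + (G.1 i j - G.1 i' j) := by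
        simp only [Submodule.coe_add, Pi.add_apply]; ring
      rw [e, add_mul]
      exact (abs_add_le _ _).trans (add_le_add (h.2.1 i i' j) (h'.2.1 i i' j))
    · have e : (F + G).1 i j - (F + G).1 i j' = (F.1 i j - F.1 i j') + (G.1 i j - G.1 i j') := by
        simp only [Submodule.coe_add, Pi.add_apply]; ring
      rw [e, add_mul]
      exact (abs_add_le _ _).trans (add_le_add (h.2.2 i j j') (h'.2.2 i j j'))
  smul {K F} c h := by
    refine ⟨mul_nonneg (abs_nonneg c) h.1, fun i i' j => ?_, fun i j j' => ?_⟩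
    · have e : (c • F).1 i j - (c • F).1 i' j = c * (F.1 i j - F.1 i' j) := by
        simp only [Submodule.coe_smul, Pi.smul_apply, smul_eq_mul]; ring
      rw [e, abs_mul, mul_assoc]
      exact mul_le_mul_of_nonneg_left (h.2.1 i i' j) (abs_nonneg c)
    · have e : (c • F).1 i j - (c • F).1 i j' = c * (F.1 i j - F.1 i j') := by
        simp only [Submodule.coe_smul, Pi.smul_apply, smul_eq_mul]; ring
      rw [e, abs_mul, mul_assoc]
      exact mul_le_mul_of_nonneg_left (h.2.2 i j j') (abs_nonneg c)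
  zero := ⟨le_rfl, by simp, by simp⟩
  ex F := lipG.ex F.1

theorem bd_Gr {N : ℕ} {K : ℝ} {F : Gr N} : bd K F ↔ lipG K F.1 := Iff.rfl

/-- The l_infty sum of all grid spaces, each one infinitely often. -/
def ZG : Type := Linf (ℕ × ℕ) (fun p => Gr p.1)

noncomputable instance : AddCommGroup ZG :=
  inferInstanceAs (AddCommGroup (Linf (ℕ × ℕ) (fun p => Gr p.1)))

noncomputable instance : Module ℝ ZG :=
  inferInstanceAs (Module ℝ (Linf (ℕ × ℕ) (fun p => Gr p.1)))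

instance : BD ZG := inferInstanceAs (BD (Linf (ℕ × ℕ) (fun p => Gr p.1)))

/-- The identity map between `ZG` and the l_infty sum. -/
noncomputable def toZG : Linf (ℕ × ℕ) (fun p => Gr p.1) ≃ₗ[ℝ] ZG := LinearEquiv.refl ℝ _

theorem bd_toZG {K : ℝ} {v : Linf (ℕ × ℕ) (fun p => Gr p.1)} :
    bd K (toZG v) ↔ 0 ≤ K ∧ ∀ p, bd K (v.1 p) := Iff.rfl

theorem bd_ZG {K : ℝ} {w : ZG} : bd K w ↔ 0 ≤ K ∧ ∀ p, bd K ((toZG.symm w).1 p) := Iff.rfl

/-- The base point of the line. -/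
def o1 : (Set.univ : Set ℝ) := ⟨0, trivial⟩

end H50LP
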