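import Pool.Agent.H50.LP.Defs

/-!
MP_b365ef_an [H50 LP AVG]. Averaging a projection over a finite group of exponent 2 (Mathlib only).
Let `τ t f = fun g => f (g + t)`. Define `R f = (1/|G|) ∑ t, τ t (Q (τ t f))` (`τ t` is its own inverse because `t + t = 0`). Then
(1) `R f ∈ E`, `R f = f` for `f ∈ E`, `|R f| ≤ C M` if `|f| ≤ M`; (2) `R (τ s f) = τ s (R f)`: substitute `t → t + s` (use `s + s = 0`).
(3) Both `R` and `O` commute with all translations, hence are symmetric: for a linear `T` with `T (τ t f) = τ t (T f)` put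
`k g = T δ_0 g` (`δ_0 = Pi.single 0 1`); then `T f g = ∑ h, f h * k (g + h)` (write `f = ∑ h, f h • δ_h`, `δ_h = τ h δ_0` as `-h = h`), so
`∑ g, (T f g) * (f' g) = ∑ g, (f g) * (T f' g)` by symmetry of `k (g + h)`.
(4) `O (R f) = R f` (as `R f ∈ E`), `R (O f) = O f`. Taking the transposed of the first identity:
`<R f, O f'> = <O (R f), f'> = <R f, f'>`, that is `<f, R (O f')> = <f, R f'>` for all `f`, so `R O f' = R f'` (test with `f = δ_g`).
With `R (O f') = O f'`: `O f' = R f'`. So `O = R` and the bound (1) holds for `O`.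
-/

set_option autoImplicit false

namespace H50LP

theorem avg_comb {G : Type} [AddCommGroup G] [Fintype G] [DecidableEq G]
    (h2 : ∀ g : G, g + g = 0) (T : (G → ℝ) →ₗ[ℝ] (G → ℝ))
    (hT : ∀ (f : G → ℝ) (t : G), T (fun g => f (g + t)) = fun g => T f (g + t))
    (f : G → ℝ) : T f = ∑ h : G, (T (Pi.single 0 1) h) • (fun g => f (g + h)) := by
  have h1 : f = ∑ h : G, f h • (fun g => (Pi.single (0 : G) (1 : ℝ) : G → ℝ) (g + h)) := by
    funext g
    rw [Finset.sum_apply, Finset.sum_eq_single g]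
    · rw [Pi.smul_apply, smul_eq_mul, h2 g, Pi.single_eq_same, mul_one]
    · intro b _ hb
      rw [Pi.smul_apply, smul_eq_mul, Pi.single_eq_of_ne, mul_zero]
      intro h
      apply hb
      have h3 : g = -b := eq_neg_of_add_eq_zero_left h
      have h4 : b = -b := eq_neg_of_add_eq_zero_left (h2 b)
      rw [h3, ← h4]
    · intro h
      exact absurd (Finset.mem_univ g) h
  have h3 : T f = ∑ h : G, f h • (fun g => T (Pi.single 0 1) (g + h)) := by
    conv_lhs => rw [h1]
    rw [map_sum]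
    refine Finset.sum_congr rfl fun h _ => ?_
    rw [map_smul, hT]
  rw [h3]
  funext g
  rw [Finset.sum_apply, Finset.sum_apply]
  refine Finset.sum_nbij' (fun h => g + h) (fun h => g + h) ?_ ?_ ?_ ?_ ?_
  · exact fun _ _ => Finset.mem_univ _
  · exact fun _ _ => Finset.mem_univ _
  · intro h _
    rw [← add_assoc, h2, zero_add]
  · intro h _
    rw [← add_assoc, h2, zero_add]
  · intro h _
    simp only [Pi.smul_apply, smul_eq_mul]
    rw [← add_assoc, h2, zero_add, mul_comm]

theorem avg_projection {G : Type} [AddCommGroup G] [Fintype G] [DecidableEq G]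
    (h2 : ∀ g : G, g + g = 0) (E : Submodule ℝ (G → ℝ))
    (hE : ∀ f ∈ E, ∀ t : G, (fun g => f (g + t)) ∈ E)
    (Q O : (G → ℝ) →ₗ[ℝ] (G → ℝ)) (hQ : ∀ f, Q f ∈ E) (hQ' : ∀ f ∈ E, Q f = f)
    (hO : ∀ f, O f ∈ E) (hO' : ∀ f ∈ E, O f = f)
    (hOt : ∀ (f : G → ℝ) (t : G), O (fun g => f (g + t)) = fun g => O f (g + t)) (C : ℝ)
    (hC : ∀ (f : G → ℝ) (M : ℝ), (∀ g, |f g| ≤ M) → ∀ g, |Q f g| ≤ C * M) :
    ∀ (f : G → ℝ) (M : ℝ), (∀ g, |f g| ≤ M) → ∀ g, |O f g| ≤ C * M := by
  set n : ℝ := (Fintype.card G : ℝ) with hn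
  have hn0 : 0 < n := by
    have : 0 < Fintype.card G := Fintype.card_pos
    rw [hn]
    exact_mod_cast this
  set τ : G → (G → ℝ) →ₗ[ℝ] (G → ℝ) := fun t => LinearMap.funLeft ℝ ℝ (fun g => g + t) with hτ
  have hτa : ∀ t f g, τ t f g = f (g + t) := fun t f g => rfl
  set R : (G → ℝ) →ₗ[ℝ] (G → ℝ) := (1 / n) • ∑ t : G, (τ t).comp (Q.comp (τ t)) with hR
  have hRa : ∀ f g, R f g = (1 / n) * ∑ t : G, Q (fun g' => f (g' + t)) (g + t) := by
    intro f g
    simp only [hR, LinearMap.smul_apply, LinearMap.sum_apply, Pi.smul_apply, Finset.sum_apply,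
      smul_eq_mul, LinearMap.comp_apply]
    rfl
  have hRE : ∀ f, R f ∈ E := by
    intro f
    rw [hR, LinearMap.smul_apply, LinearMap.sum_apply]
    refine E.smul_mem _ (E.sum_mem fun t _ => ?_)
    exact hE _ (hQ (τ t f)) t
  have hRid : ∀ f ∈ E, R f = f := by
    intro f hf
    funext g
    rw [hRa]
    have h1 : ∀ t ∈ (Finset.univ : Finset G), Q (fun g' => f (g' + t)) (g + t) = f g := by
      intro t _
      rw [hQ' _ (hE f hf t)]
      simp only
      rw [add_assoc, h2, add_zero]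
    rw [Finset.sum_congr rfl h1, Finset.sum_const, Finset.card_univ, nsmul_eq_mul, ← hn,
      ← mul_assoc, one_div, inv_mul_cancel₀ hn0.ne', one_mul]
  have hRt : ∀ (f : G → ℝ) (s : G), R (fun g => f (g + s)) = fun g => R f (g + s) := by
    intro f s
    funext g
    rw [hRa, hRa]
    congr 1
    refine Finset.sum_nbij' (fun t => t + s) (fun t => t + s) ?_ ?_ ?_ ?_ ?_
    · exact fun _ _ => Finset.mem_univ _
    · exact fun _ _ => Finset.mem_univ _
    · intro t _
      rw [add_assoc, h2, add_zero]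
    · intro t _
      rw [add_assoc, h2, add_zero]
    · intro t _
      have e1 : g + s + (t + s) = g + t := by
        have : g + s + (t + s) = g + t + (s + s) := by abel
        rw [this, h2, add_zero]
      have e2 : (fun g' => f (g' + t + s)) = fun g' => f (g' + (t + s)) := by
        funext g'
        rw [add_assoc]
      rw [e1, e2]
  have hcomm : ∀ f, O (R f) = R (O f) := by
    intro f
    rw [avg_comb h2 R hRt f, map_sum, avg_comb h2 R hRt (O f)]
    refine Finset.sum_congr rfl fun h _ => ?_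
    rw [map_smul, hOt]
  have hOR : ∀ f, O f = R f := by
    intro f
    rw [← hO' _ (hRE f), hcomm, hRid _ (hO f)]
  intro f M hf g
  rw [hOR, hRa, abs_mul, abs_of_pos (by positivity : (0 : ℝ) < 1 / n)]
  have h1 : |∑ t : G, Q (fun g' => f (g' + t)) (g + t)| ≤ n * (C * M) := by
    refine (Finset.abs_sum_le_sum_abs _ _).trans ?_
    have h3 : ∀ t ∈ (Finset.univ : Finset G), |Q (fun g' => f (g' + t)) (g + t)| ≤ C * M :=
      fun t _ => hC _ M (fun g' => hf _) _
    refine (Finset.sum_le_sum h3).trans (le_of_eq ?_)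
    rw [Finset.sum_const, Finset.card_univ, nsmul_eq_mul]
  calc 1 / n * |∑ t : G, Q (fun g' => f (g' + t)) (g + t)| ≤ 1 / n * (n * (C * M)) :=
        mul_le_mul_of_nonneg_left h1 (by positivity)
    _ = C * M := by
        field_simp

end H50LP
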