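import Pool.Agent.H50.LP.LinfBasic

/-!
MP_b365ef_an [H50 LP BUMP]. `ℓ_∞` is complemented in `LX A a0` and in `L1`, constant 1.
Proof. For `a : ℕ → ℝ` let `T a x = a ⌊x⌋ * tent (x - ⌊x⌋)` if `0 ≤ x`, and `0` if `x < 0` (`⌊x⌋₊` for the index), with
`tent t = min t (1 - t)` on `[0, 1]`. If `|a| ≤ K` then `T a` is `K`-Lipschitz (each summand `a_n tent_n` with
`tent_n x = max 0 (min (x - n) (n + 1 - x))` is `K`-Lipschitz; for `x ≤ y` in different unit intervals insert the first integer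
`m ∈ [x, y]` after `x` and the last integer `m'` before `y`: `T a m = T a m' = 0`, so `|T a x - T a y| ≤ K (m - x) + K (y - m')`),
`T a 0 = 0`, linear in `a`. `J a = fun x _ => T a x`, `P f = (n ↦ 2 (f (n + 1/2) a0 - f n a0))`, `|P f| ≤ K`,
`P (J a) n = 2 (a_n / 2 - 0) = a_n`. The same for `L1`.
-/

set_option autoImplicit false

namespace H50LP

/-- Tent functions on the unit intervals. -/
noncomputable def TBump (a : ℕ → ℝ) (x : ℝ) : ℝ :=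
  a ⌊x⌋₊ * max 0 (min (x - (⌊x⌋₊ : ℝ)) ((⌊x⌋₊ : ℝ) + 1 - x))

theorem TBump_add (a b : ℕ → ℝ) (x : ℝ) : TBump (a + b) x = TBump a x + TBump b x := by
  unfold TBump
  rw [Pi.add_apply, add_mul]

theorem TBump_smul (c : ℝ) (a : ℕ → ℝ) (x : ℝ) : TBump (c • a) x = c * TBump a x := by
  unfold TBump
  rw [Pi.smul_apply, smul_eq_mul, mul_assoc]

theorem TBump_nat (a : ℕ → ℝ) (n : ℕ) : TBump a (n : ℝ) = 0 := by
  unfold TBump
  rw [Nat.floor_natCast, sub_self]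
  have h : min (0 : ℝ) ((n : ℝ) + 1 - n) = 0 := min_eq_left (by linarith)
  rw [h, max_self, mul_zero]

theorem TBump_half (a : ℕ → ℝ) (n : ℕ) : TBump a ((n : ℝ) + 1 / 2) = a n / 2 := by
  unfold TBump
  have h : ⌊(n : ℝ) + 1 / 2⌋₊ = n := by
    rw [Nat.floor_eq_iff (by positivity)]
    constructor <;> linarith
  rw [h]
  have h1 : min ((n : ℝ) + 1 / 2 - n) ((n : ℝ) + 1 - (n + 1 / 2)) = 1 / 2 := by
    rw [min_eq_left (by linarith)]
    ring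
  rw [h1, max_eq_right (by norm_num)]
  ring

theorem TBump_lip_le {a : ℕ → ℝ} {K : ℝ} (hK : 0 ≤ K) (ha : ∀ n, |a n| ≤ K) {x y : ℝ}
    (hxy : x ≤ y) : |TBump a x - TBump a y| ≤ K * (y - x) := by
  have hmn : ⌊x⌋₊ ≤ ⌊y⌋₊ := Nat.floor_mono hxy
  rcases hmn.eq_or_lt with h | h
  · unfold TBump
    rw [← h, ← mul_sub, abs_mul]
    have h1 : |max 0 (min (x - (⌊x⌋₊ : ℝ)) ((⌊x⌋₊ : ℝ) + 1 - x)) -
        max 0 (min (y - (⌊x⌋₊ : ℝ)) ((⌊x⌋₊ : ℝ) + 1 - y))| ≤ y - x := by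
      rw [abs_le]
      constructor <;>
      · rcases max_cases 0 (min (x - (⌊x⌋₊ : ℝ)) ((⌊x⌋₊ : ℝ) + 1 - x)) with h2 | h2 <;>
        rcases max_cases 0 (min (y - (⌊x⌋₊ : ℝ)) ((⌊x⌋₊ : ℝ) + 1 - y)) with h3 | h3 <;>
        rcases min_cases (x - (⌊x⌋₊ : ℝ)) ((⌊x⌋₊ : ℝ) + 1 - x) with h4 | h4 <;>
        rcases min_cases (y - (⌊x⌋₊ : ℝ)) ((⌊x⌋₊ : ℝ) + 1 - y) with h5 | h5 <;>
        linarith [h2.1, h3.1, h4.1, h5.1, h2.2, h3.2, h4.2, h5.2]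
    exact mul_le_mul (ha _) h1 (abs_nonneg _) hK
  · have h1 : x < (⌊x⌋₊ : ℝ) + 1 := Nat.lt_floor_add_one x
    have h0 : 0 < ⌊y⌋₊ := by omega
    have h2 : (⌊y⌋₊ : ℝ) ≤ y := by
      apply Nat.floor_le
      by_contra hcon
      push Not at hcon
      rw [Nat.floor_of_nonpos hcon.le] at h0
      exact lt_irrefl _ h0
    have h3 : (⌊x⌋₊ : ℝ) + 1 ≤ (⌊y⌋₊ : ℝ) := by exact_mod_cast h
    have h4 : |TBump a x| ≤ K * ((⌊x⌋₊ : ℝ) + 1 - x) := by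
      unfold TBump
      rw [abs_mul]
      refine mul_le_mul (ha _) ?_ (abs_nonneg _) hK
      rw [abs_of_nonneg (le_max_left _ _)]
      exact max_le (by linarith) (min_le_right _ _)
    have h5 : |TBump a y| ≤ K * (y - (⌊y⌋₊ : ℝ)) := by
      unfold TBump
      rw [abs_mul]
      refine mul_le_mul (ha _) ?_ (abs_nonneg _) hK
      rw [abs_of_nonneg (le_max_left _ _)]
      exact max_le (by linarith) (min_le_left _ _)
    have h6 : |TBump a x - TBump a y| ≤ |TBump a x| + |TBump a y| := abs_sub _ _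
    nlinarith

theorem TBump_lip {a : ℕ → ℝ} {K : ℝ} (hK : 0 ≤ K) (ha : ∀ n, |a n| ≤ K) (x y : ℝ) :
    |TBump a x - TBump a y| ≤ K * |x - y| := by
  rcases le_total x y with h | h
  · rw [abs_sub_comm x y, abs_of_nonneg (sub_nonneg.2 h)]
    exact TBump_lip_le hK ha h
  · rw [abs_sub_comm, abs_of_nonneg (sub_nonneg.2 h)]
    exact TBump_lip_le hK ha h

theorem cpl_ell_LX (A : Set ℝ) (a0 : A) : Cpl 1 Ell (LX A a0) := by
  have hl : ∀ (v : ℕ → ℝ) (K : ℝ), 0 ≤ K → (∀ n, |v n| ≤ K) →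
      lipB K (fun (x : ℝ) (_ : A) => TBump v x) := by
    intro v K hK hv
    refine ⟨hK, fun x x' a => TBump_lip hK hv x x', fun x a a' => ?_⟩
    rw [sub_self, abs_zero]
    positivity
  have hP : ∀ (f : ℝ → A → ℝ) (K : ℝ), lipB K f → ∀ n : ℕ,
      |2 * (f ((n : ℝ) + 1 / 2) a0 - f (n : ℝ) a0)| ≤ K := by
    intro f K hf n
    have h := hf.2.1 ((n : ℝ) + 1 / 2) (n : ℝ) a0
    have h1 : |(n : ℝ) + 1 / 2 - n| = 1 / 2 := by
      rw [add_sub_cancel_left, abs_of_pos (by norm_num)]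
    rw [h1] at h
    rw [abs_mul, abs_two]
    linarith
  refine ⟨{ toFun := fun v => ⟨fun x _ => TBump v.1 x, ?_, ?_⟩, map_add' := ?_, map_smul' := ?_ },
    { toFun := fun f => ⟨fun n => 2 * (f.1 ((n : ℝ) + 1 / 2) a0 - f.1 (n : ℝ) a0), ?_⟩,
      map_add' := ?_, map_smul' := ?_ }, ?_, ?_, ?_⟩
  · have := TBump_nat v.1 0
    rwa [Nat.cast_zero] at this
  · obtain ⟨K, hK, hv⟩ := v.2
    exact ⟨K, hl v.1 K hK hv⟩
  · intro v w
    apply Subtype.ext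
    funext x a
    exact TBump_add v.1 w.1 x
  · intro c v
    apply Subtype.ext
    funext x a
    exact TBump_smul c v.1 x
  · obtain ⟨K, hK⟩ := f.2.2
    exact ⟨K, hK.1, fun n => hP f.1 K hK n⟩
  · intro f g
    apply Subtype.ext
    funext n
    show 2 * ((f.1 ((n : ℝ) + 1 / 2) a0 + g.1 ((n : ℝ) + 1 / 2) a0) -
      (f.1 (n : ℝ) a0 + g.1 (n : ℝ) a0)) = 2 * (f.1 ((n : ℝ) + 1 / 2) a0 - f.1 (n : ℝ) a0) +
        2 * (g.1 ((n : ℝ) + 1 / 2) a0 - g.1 (n : ℝ) a0)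
    ring
  · intro c f
    apply Subtype.ext
    funext n
    show 2 * (c * f.1 ((n : ℝ) + 1 / 2) a0 - c * f.1 (n : ℝ) a0) =
      c * (2 * (f.1 ((n : ℝ) + 1 / 2) a0 - f.1 (n : ℝ) a0))
    ring
  · intro v
    apply Subtype.ext
    funext n
    show 2 * (TBump v.1 ((n : ℝ) + 1 / 2) - TBump v.1 (n : ℝ)) = v.1 n
    rw [TBump_half, TBump_nat]
    ring
  · intro K v hv
    rw [one_mul]
    exact hl v.1 K hv.1 hv.2
  · intro K f hf
    rw [one_mul]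
    exact ⟨hf.1, fun n => hP f.1 K hf n⟩

theorem cpl_ell_L1 : Cpl 1 Ell L1 := by
  have hl : ∀ (v : ℕ → ℝ) (K : ℝ), 0 ≤ K → (∀ n, |v n| ≤ K) →
      lipR K (fun (x : ℝ) => TBump v x) := by
    intro v K hK hv
    exact ⟨hK, fun x x' => TBump_lip hK hv x x'⟩
  have hP : ∀ (f : ℝ → ℝ) (K : ℝ), lipR K f → ∀ n : ℕ,
      |2 * (f ((n : ℝ) + 1 / 2) - f (n : ℝ))| ≤ K := by
    intro f K hf n
    have h := hf.2 ((n : ℝ) + 1 / 2) (n : ℝ)
    have h1 : |(n : ℝ) + 1 / 2 - n| = 1 / 2 := by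
      rw [add_sub_cancel_left, abs_of_pos (by norm_num)]
    rw [h1] at h
    rw [abs_mul, abs_two]
    linarith
  refine ⟨{ toFun := fun v => ⟨fun x => TBump v.1 x, ?_, ?_⟩, map_add' := ?_, map_smul' := ?_ },
    { toFun := fun f => ⟨fun n => 2 * (f.1 ((n : ℝ) + 1 / 2) - f.1 (n : ℝ)), ?_⟩,
      map_add' := ?_, map_smul' := ?_ }, ?_, ?_, ?_⟩
  · have := TBump_nat v.1 0
    rwa [Nat.cast_zero] at this
  · obtain ⟨K, hK, hv⟩ := v.2
    exact ⟨K, hl v.1 K hK hv⟩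
  · intro v w
    apply Subtype.ext
    funext x
    exact TBump_add v.1 w.1 x
  · intro c v
    apply Subtype.ext
    funext x
    exact TBump_smul c v.1 x
  · obtain ⟨K, hK⟩ := f.2.2
    exact ⟨K, hK.1, fun n => hP f.1 K hK n⟩
  · intro f g
    apply Subtype.ext
    funext n
    show 2 * ((f.1 ((n : ℝ) + 1 / 2) + g.1 ((n : ℝ) + 1 / 2)) -
      (f.1 (n : ℝ) + g.1 (n : ℝ))) = 2 * (f.1 ((n : ℝ) + 1 / 2) - f.1 (n : ℝ)) +
        2 * (g.1 ((n : ℝ) + 1 / 2) - g.1 (n : ℝ))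
    ring
  · intro c f
    apply Subtype.ext
    funext n
    show 2 * (c * f.1 ((n : ℝ) + 1 / 2) - c * f.1 (n : ℝ)) =
      c * (2 * (f.1 ((n : ℝ) + 1 / 2) - f.1 (n : ℝ)))
    ring
  · intro v
    apply Subtype.ext
    funext n
    show 2 * (TBump v.1 ((n : ℝ) + 1 / 2) - TBump v.1 (n : ℝ)) = v.1 n
    rw [TBump_half, TBump_nat]
    ring
  · intro K v hv
    rw [one_mul]
    exact hl v.1 K hv.1 hv.2
  · intro K f hf
    rw [one_mul]
    exact ⟨hf.1, fun n => hP f.1 K hf n⟩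

end H50LP
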