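import Pool.Agent.H50.LP.Defs

/-!
MP_b365ef_an [H50 LP CPLB]. Elementary properties of `Cpl` (complemented) and `Iso`.
All proofs are direct: `Cpl.trans`: compose `J' ∘ J` and `P ∘ P'`; `Bdd C T` means `bd K v → bd (C * K) (T v)` (the
constants multiply, use `BD.mono` with `le_of_eq (by ring)`). `Cpl.mono`: `0 ≤ K` by `BD.nonneg`.
`Iso.cpl`: `J = T`, `P = T.symm`, constant `max C 0` (`Bdd.mono`). Products: `LinearMap.prodMap`, `LinearEquiv.prodCongr`;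
if one of the constants differs take the maximum.
`iso_const_symm`: the inverse of an isomorphism is one.
-/

set_option autoImplicit false

namespace H50LP

section
variable {V W X Y : Type} [AddCommGroup V] [Module ℝ V] [BD V] [AddCommGroup W] [Module ℝ W] [BD W]
  [AddCommGroup X] [Module ℝ X] [BD X] [AddCommGroup Y] [Module ℝ Y] [BD Y]

theorem Bdd.mono {C D : ℝ} {T : V →ₗ[ℝ] W} (h : Bdd C T) (hCD : C ≤ D) : Bdd D T :=
  fun K v hv => BD.mono (h K v hv) (mul_le_mul_of_nonneg_right hCD (BD.nonneg hv))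

theorem Bdd.comp {C D : ℝ} {T : V →ₗ[ℝ] W} {S : W →ₗ[ℝ] X} (h : Bdd C T) (h' : Bdd D S) :
    Bdd (D * C) (S.comp T) :=
  fun K v hv => BD.mono (h' (C * K) (T v) (h K v hv)) (le_of_eq (mul_assoc _ _ _).symm)

theorem Cpl.refl : Cpl 1 V V :=
  ⟨LinearMap.id, LinearMap.id, fun _ => rfl,
    fun K v hv => BD.mono (show bd K ((LinearMap.id : V →ₗ[ℝ] V) v) from hv)
      (le_of_eq (one_mul K).symm),
    fun K v hv => BD.mono (show bd K ((LinearMap.id : V →ₗ[ℝ] V) v) from hv)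
      (le_of_eq (one_mul K).symm)⟩

theorem Cpl.mono {C D : ℝ} (h : Cpl C V W) (hCD : C ≤ D) : Cpl D V W := by
  obtain ⟨J, P, h1, h2, h3⟩ := h
  exact ⟨J, P, h1, h2.mono hCD, h3.mono hCD⟩

theorem Cpl.trans {C D : ℝ} (h : Cpl C V W) (h' : Cpl D W X) : Cpl (C * D) V X := by
  obtain ⟨J, P, h1, h2, h3⟩ := h
  obtain ⟨J', P', h1', h2', h3'⟩ := h'
  refine ⟨J'.comp J, P.comp P', fun v => ?_, ?_, h3'.comp h3⟩
  · show P (P' (J' (J v))) = v
    rw [h1', h1]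
  · exact (h2.comp h2').mono (le_of_eq (mul_comm _ _))

private theorem cplb_bdd_prod {C D : ℝ} {T : V →ₗ[ℝ] W} {S : X →ₗ[ℝ] Y} (h : Bdd C T)
    (h' : Bdd D S) : Bdd (max C D) (LinearMap.prodMap T S) := by
  intro K v hv
  exact ⟨(h.mono (le_max_left C D)) K v.1 hv.1, (h'.mono (le_max_right C D)) K v.2 hv.2⟩

theorem Cpl.prod {C D : ℝ} (h : Cpl C V W) (h' : Cpl D X Y) : Cpl (max C D) (V × X) (W × Y) := by
  obtain ⟨J, P, h1, h2, h3⟩ := h
  obtain ⟨J', P', h1', h2', h3'⟩ := h'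
  refine ⟨LinearMap.prodMap J J', LinearMap.prodMap P P', fun v => ?_, cplb_bdd_prod h2 h2',
    cplb_bdd_prod h3 h3'⟩
  show (P (J v.1), P' (J' v.2)) = v
  rw [h1, h1']

theorem Iso.refl : Iso V V :=
  ⟨LinearEquiv.refl ℝ V, 1,
    fun K v hv => BD.mono (show bd K v from hv) (le_of_eq (one_mul K).symm),
    fun K v hv => BD.mono (show bd K v from hv) (le_of_eq (one_mul K).symm)⟩

theorem Iso.symm (h : Iso V W) : Iso W V := by
  obtain ⟨T, C, h1, h2⟩ := h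
  exact ⟨T.symm, C, h2, by rw [LinearEquiv.symm_symm]; exact h1⟩

theorem Iso.trans (h : Iso V W) (h' : Iso W X) : Iso V X := by
  obtain ⟨T, C, h1, h2⟩ := h
  obtain ⟨S, D, h1', h2'⟩ := h'
  refine ⟨T.trans S, C * D, ?_, ?_⟩
  · intro K v hv
    exact BD.mono (h1' (C * K) (T v) (h1 K v hv)) (le_of_eq (by ring))
  · intro K v hv
    exact BD.mono (h2 (D * K) (S.symm v) (h2' K v hv)) (le_of_eq (by ring))

theorem Iso.prod (h : Iso V W) (h' : Iso X Y) : Iso (V × X) (W × Y) := by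
  obtain ⟨T, C, h1, h2⟩ := h
  obtain ⟨S, D, h1', h2'⟩ := h'
  refine ⟨LinearEquiv.prodCongr T S, max C D, ?_, ?_⟩
  · intro K v hv
    exact ⟨(h1.mono (le_max_left C D)) K v.1 hv.1, (h1'.mono (le_max_right C D)) K v.2 hv.2⟩
  · intro K v hv
    exact ⟨(h2.mono (le_max_left C D)) K v.1 hv.1, (h2'.mono (le_max_right C D)) K v.2 hv.2⟩

theorem Iso.cpl (h : Iso V W) : ∃ C, 0 ≤ C ∧ Cpl C V W := by
  obtain ⟨T, C, h1, h2⟩ := h
  exact ⟨max C 0, le_max_right _ _, (T : V →ₗ[ℝ] W), (T.symm : W →ₗ[ℝ] V),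
    fun v => T.symm_apply_apply v, h1.mono (le_max_left _ _), h2.mono (le_max_left _ _)⟩

theorem Iso.prodComm : Iso (V × W) (W × V) := by
  refine ⟨LinearEquiv.prodComm ℝ V W, 1, ?_, ?_⟩
  · intro K v hv
    rw [one_mul]
    exact ⟨hv.2, hv.1⟩
  · intro K v hv
    rw [one_mul]
    exact ⟨hv.2, hv.1⟩

theorem Iso.prodAssoc : Iso ((V × W) × X) (V × (W × X)) := by
  refine ⟨LinearEquiv.prodAssoc ℝ V W X, 1, ?_, ?_⟩
  · intro K v hv
    rw [one_mul]
    exact ⟨hv.1.1, hv.1.2, hv.2⟩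
  · intro K v hv
    rw [one_mul]
    exact ⟨⟨hv.1, hv.2.1⟩, hv.2.2⟩

end

end H50LP
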