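import Pool.Agent.H50.LP.OoBasic

/-!
MP_b365ef_an [H50 LP DIG]. Binary digits at the places `N k` are equidistributed on dyadic blocks.
`dg N i k = 1` if the bit number `N k` of `i` is set, else `0`.
Proof of `block_sum`. Block: `Finset.Ico (m 2^b) ((m+1) 2^b)`, i.e. `i / 2^b = m`. (a) For `i, i'` in the block and `p ≥ b` the bits number `p`
agree (`Nat.testBit` of `i` at `p` is the bit `p - b` of `i / 2^b = m`), so `dg N i k = dg N i0 k` for `k < j`, i.e. `dg N i = dg N i0 + w` with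
`w ∈ V j`. (b) For `v ∈ V j` let `μ = ∑ k with v k = 1, 2^(N k)` (or an iterated xor); since `N` is injective and `N k < b` for `k ≥ j`,
`μ < 2^b` and the bit `p` of `μ` is set iff `p = N k` with `v k = 1`. The map `i ↦ i ^^^ μ` is an involution of the block (the bits `≥ b` do
not change) and `dg N (i ^^^ μ) = dg N i + v` (`Nat.testBit_xor`; in `ZMod 2` addition is xor). A simpler way to do (b): it is enough
to have it for `v = Pi.single k 1` (one bit, `μ = 2^(N k)`, `Nat.testBit_two_pow`), and to note that the set of `v` for which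
`∑ i in block, h (dg N i + v) = ∑ i in block, h (dg N i)` for all `h` is closed under addition and that the `Pi.single k 1`, `k ≥ j`,
generate `V j` (`v = ∑ k, Pi.single k (v k)`, `Finset.univ_sum_single`). (c) So
`(V j).card * ∑ i, h (dg N i) = ∑ i, ∑ v ∈ V j, h (dg N i + v) = ∑ i, ∑ v ∈ V j, h (dg N i0 + v) = 2^b * ∑ v ∈ V j, h (dg N i0 + v)`,
by (a) and translation invariance of `V j`.
`count_dg`: `block_sum` with `j = 0`, `m = 0`, `b = n`, `h` = indicator of `{x}`, `(V 0).card = 2^K`.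
-/

set_option autoImplicit false

namespace H50LP

theorem dig_mem (m b i : ℕ) : i ∈ Finset.Ico (m * 2 ^ b) ((m + 1) * 2 ^ b) ↔ i / 2 ^ b = m := by
  have hb : 0 < 2 ^ b := by positivity
  rw [Finset.mem_Ico]
  constructor
  · rintro ⟨h1, h2⟩
    exact Nat.div_eq_of_lt_le h1 h2
  · rintro rfl
    refine ⟨Nat.div_mul_le_self i _, ?_⟩
    have := Nat.lt_div_mul_add (a := i) hb
    rw [Nat.add_mul, one_mul]
    exact this

theorem dig_block_aux (b p : ℕ) (hp : b ≤ p) (i i' : ℕ) (h : i / 2 ^ b = i' / 2 ^ b) :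
    Nat.testBit i p = Nat.testBit i' p := by
  obtain ⟨q, rfl⟩ := Nat.exists_eq_add_of_le hp
  have h1 : ∀ x : ℕ, Nat.testBit x (b + q) = Nat.testBit (x / 2 ^ b) q := by
    intro x
    rw [Nat.testBit_div_two_pow, add_comm]
  rw [h1, h1, h]

/-- The digits of `i` at the places `N k`. -/
def dg {K : ℕ} (N : Fin K → ℕ) (i : ℕ) : D K := fun k => if Nat.testBit i (N k) then 1 else 0

theorem dig_card (m b : ℕ) : ((Finset.Ico (m * 2 ^ b) ((m + 1) * 2 ^ b)).card : ℝ) = 2 ^ b := by
  rw [Nat.card_Ico]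
  have : (m + 1) * 2 ^ b - m * 2 ^ b = 2 ^ b := by
    rw [Nat.add_mul, one_mul, Nat.add_sub_cancel_left]
  rw [this]
  push_cast
  rfl

theorem dig_xor {K : ℕ} (N : Fin K → ℕ) (hN : StrictAnti N) (k : Fin K) (i : ℕ) :
    dg N (i ^^^ 2 ^ (N k)) = dg N i + Pi.single k 1 := by
  funext k'
  unfold dg
  rw [Nat.testBit_xor, Nat.testBit_two_pow, Pi.add_apply]
  by_cases hk : k' = k
  · subst hk
    rw [Pi.single_eq_same]
    cases h : Nat.testBit i (N k')
    · simp
    · simp only [decide_true, Bool.xor_true, Bool.not_true, Bool.false_eq_true, if_false, if_true]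
      decide
  · rw [Pi.single_eq_of_ne hk, add_zero]
    have h1 : N k ≠ N k' := fun h => hk (hN.injective h).symm
    simp [h1]

theorem dig_single {K : ℕ} (N : Fin K → ℕ) (hN : StrictAnti N) (b m : ℕ) (k : Fin K)
    (hk : N k < b) (h : D K → ℝ) :
    ∑ i ∈ Finset.Ico (m * 2 ^ b) ((m + 1) * 2 ^ b), h (dg N i + Pi.single k 1) =
      ∑ i ∈ Finset.Ico (m * 2 ^ b) ((m + 1) * 2 ^ b), h (dg N i) := by
  have hmem : ∀ i ∈ Finset.Ico (m * 2 ^ b) ((m + 1) * 2 ^ b),
      i ^^^ 2 ^ (N k) ∈ Finset.Ico (m * 2 ^ b) ((m + 1) * 2 ^ b) := by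
    intro i hi
    rw [dig_mem] at hi ⊢
    rw [← Nat.shiftRight_eq_div_pow, Nat.shiftRight_xor_distrib, Nat.shiftRight_eq_div_pow,
      Nat.shiftRight_eq_div_pow, hi, Nat.div_eq_of_lt (Nat.pow_lt_pow_right one_lt_two hk),
      Nat.xor_zero]
  refine Finset.sum_nbij' (fun i => i ^^^ 2 ^ (N k)) (fun i => i ^^^ 2 ^ (N k)) hmem hmem ?_ ?_ ?_
  · intro i _
    rw [Nat.xor_assoc, Nat.xor_self, Nat.xor_zero]
  · intro i _
    rw [Nat.xor_assoc, Nat.xor_self, Nat.xor_zero]
  · intro i _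
    rw [dig_xor N hN]

theorem dig_V {K : ℕ} (N : Fin K → ℕ) (hN : StrictAnti N) (j b m : ℕ)
    (h2 : ∀ k : Fin K, j ≤ k.1 → N k < b) (v : D K) (hv : v ∈ (V j : Finset (D K)))
    (h : D K → ℝ) :
    ∑ i ∈ Finset.Ico (m * 2 ^ b) ((m + 1) * 2 ^ b), h (dg N i + v) =
      ∑ i ∈ Finset.Ico (m * 2 ^ b) ((m + 1) * 2 ^ b), h (dg N i) := by
  have key : ∀ (s : Finset (Fin K)) (h : D K → ℝ),
      ∑ i ∈ Finset.Ico (m * 2 ^ b) ((m + 1) * 2 ^ b),
        h (dg N i + ∑ k ∈ s, Pi.single k (v k)) =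
      ∑ i ∈ Finset.Ico (m * 2 ^ b) ((m + 1) * 2 ^ b), h (dg N i) := by
    intro s
    induction s using Finset.induction_on with
    | empty =>
      intro h
      simp
    | insert k s hk ih =>
      intro h
      rw [Finset.sum_insert hk]
      have e : ∀ i, dg N i + ((Pi.single k (v k) : D K) + ∑ k ∈ s, Pi.single k (v k)) =
          dg N i + (Pi.single k (v k) : D K) + ∑ k ∈ s, Pi.single k (v k) := by
        intro i
        rw [add_assoc]
      simp only [e]
      have hvk : v k = 0 ∨ v k = 1 := by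
        generalize v k = z
        revert z
        decide
      rcases hvk with hvk | hvk
      · simp only [hvk, Pi.single_zero, add_zero]
        exact ih h
      · have hjk : j ≤ k.1 := by
          by_contra hcon
          have h3 := (oo_mem_V.1 hv) k (by omega)
          rw [h3] at hvk
          exact absurd hvk (by decide)
        rw [hvk]
        have h3 := dig_single N hN b m k (h2 k hjk)
          (fun u => h (u + ∑ k ∈ s, Pi.single k (v k)))
        rw [h3]
        exact ih h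
  have e : v = ∑ k ∈ (Finset.univ : Finset (Fin K)), Pi.single k (v k) :=
    (Finset.univ_sum_single v).symm
  have h3 := key Finset.univ h
  rw [← e] at h3
  exact h3

theorem block_sum {K : ℕ} (N : Fin K → ℕ) (hN : StrictAnti N) (j b : ℕ)
    (h1 : ∀ k : Fin K, k.1 < j → b ≤ N k) (h2 : ∀ k : Fin K, j ≤ k.1 → N k < b) (m i0 : ℕ)
    (hi : i0 ∈ Finset.Ico (m * 2 ^ b) ((m + 1) * 2 ^ b)) (h : D K → ℝ) :
    ∑ i ∈ Finset.Ico (m * 2 ^ b) ((m + 1) * 2 ^ b), h (dg N i) =
      (2 : ℝ) ^ b / ((V j : Finset (D K)).card : ℝ) *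
        ∑ v ∈ (V j : Finset (D K)), h (dg N i0 + v) := by
  have hV := oo_card_pos (K := K) j
  rw [dig_mem] at hi
  have hc : ((V j : Finset (D K)).card : ℝ) *
      ∑ i ∈ Finset.Ico (m * 2 ^ b) ((m + 1) * 2 ^ b), h (dg N i) =
      (2 : ℝ) ^ b * ∑ v ∈ (V j : Finset (D K)), h (dg N i0 + v) := by
    calc ((V j : Finset (D K)).card : ℝ) *
        ∑ i ∈ Finset.Ico (m * 2 ^ b) ((m + 1) * 2 ^ b), h (dg N i)
        = ∑ v ∈ (V j : Finset (D K)),
          ∑ i ∈ Finset.Ico (m * 2 ^ b) ((m + 1) * 2 ^ b), h (dg N i + v) := by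
          rw [Finset.sum_congr rfl fun v hv => dig_V N hN j b m h2 v hv h, Finset.sum_const,
            nsmul_eq_mul]
      _ = ∑ i ∈ Finset.Ico (m * 2 ^ b) ((m + 1) * 2 ^ b),
          ∑ v ∈ (V j : Finset (D K)), h (dg N i + v) := Finset.sum_comm
      _ = ∑ i ∈ Finset.Ico (m * 2 ^ b) ((m + 1) * 2 ^ b),
          ∑ v ∈ (V j : Finset (D K)), h (dg N i0 + v) := by
          refine Finset.sum_congr rfl fun i hi' => ?_
          rw [dig_mem] at hi'
          have hag : ∀ k : Fin K, k.1 < j → dg N i0 k = dg N i k := by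
            intro k hk
            unfold dg
            rw [dig_block_aux b (N k) (h1 k hk) i0 i (by rw [hi, hi'])]
          obtain ⟨g1, g2⟩ := oo_agree hag
          rw [g2]
          exact oo_S g1 h (dg N i0)
      _ = _ := by
          rw [Finset.sum_const, nsmul_eq_mul, dig_card]
  rw [div_mul_eq_mul_div, eq_div_iff hV.ne', ← hc]
  ring

theorem dg_block {K : ℕ} (N : Fin K → ℕ) (b : ℕ) (k : Fin K) (hk : b ≤ N k) (m i i' : ℕ)
    (hi : i ∈ Finset.Ico (m * 2 ^ b) ((m + 1) * 2 ^ b))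
    (hi' : i' ∈ Finset.Ico (m * 2 ^ b) ((m + 1) * 2 ^ b)) : dg N i k = dg N i' k := by
  rw [dig_mem] at hi hi'
  unfold dg
  rw [dig_block_aux b (N k) hk i i' (by rw [hi, hi'])]

theorem count_dg {K : ℕ} (N : Fin K → ℕ) (hN : StrictAnti N) (n : ℕ) (hn : ∀ k, N k < n)
    (x : D K) :
    ((((Finset.range (2 ^ n)).filter fun i => dg N i = x).card : ℕ) : ℝ) * 2 ^ K = 2 ^ n := by
  classical
  have h := block_sum N hN 0 n (fun k hk => absurd hk (by omega)) (fun k _ => hn k) 0 0
    (by rw [dig_mem]; simp) (fun u => if u = x then 1 else 0)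
  have hV : ((V 0 : Finset (D K)).card : ℝ) = 2 ^ K := by
    have h1 : (V 0 : Finset (D K)) = Finset.univ := by
      ext u
      rw [oo_mem_V]
      simp
    rw [h1, Finset.card_univ, Fintype.card_fun, ZMod.card, Fintype.card_fin]
    push_cast
    rfl
  rw [hV, zero_mul, zero_add, one_mul] at h
  have h1 : ∑ v ∈ (V 0 : Finset (D K)), (if dg N 0 + v = x then (1 : ℝ) else 0) = 1 := by
    have h2 : ∀ v ∈ (V 0 : Finset (D K)), (if dg N 0 + v = x then (1 : ℝ) else 0) =
        if v = dg N 0 + x then 1 else 0 := by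
      intro v _
      have : dg N 0 + v = x ↔ v = dg N 0 + x := by
        constructor
        · rintro rfl
          rw [← add_assoc, oo_two, zero_add]
        · rintro rfl
          rw [← add_assoc, oo_two, zero_add]
      simp only [this]
    rw [Finset.sum_congr rfl h2, Finset.sum_ite_eq', if_pos]
    rw [oo_mem_V]
    intro i hi
    exact absurd hi (by omega)
  rw [h1, mul_one, ← Finset.range_eq_Ico, Finset.sum_boole] at h
  rw [h]
  field_simp

end H50LP
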