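import Pool.Agent.H50.LP.Sel

/-!
MP_b365ef_an [H50 LP FATB]. A set which is `K`-fat for all `K` with ratio 2 is so with every ratio.
(a) `Fat L K A` and `L' ≤ L` imply `Fat L' K A` (induction; `L' r ≤ L r`). (b) Descent: if `Fat 2 (t + k) B` and `B` has diameter `≤ ρ`
(`∀ b b' ∈ B, |b - b'| ≤ ρ`) then there is `B' ⊆ B` with `Fat 2 k B'` and diameter `≤ ρ / 2^t`: induction on `t`; `Fat 2 (t + 1 + k) B`: get `r, B1, C1`, both
nonempty, so `2 r ≤ |b - c| ≤ ρ`, `r ≤ ρ / 2`; apply the induction to `B1` with `ρ / 2`. (c) For `m ≥ 1`: `Fat 2 (m * K) A → Fat (2^m) K A` by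
induction on `K`: `m (K + 1) = (m - 1) + m K + 1`: get `r, B, C` with `Fat 2 ((m - 1) + m K)`, by (b) `B' ⊆ B`, `C' ⊆ C` with `Fat 2 (m K)` and diameter
`≤ r / 2^(m-1) =: r'`, and `2^m r' = 2 r ≤ |b - c|`. (d) Given `L` choose `m ≥ 1` with `L ≤ 2^m`.
-/

set_option autoImplicit false

namespace H50LP

theorem fb_mono {L L' : ℝ} (h : L' ≤ L) : ∀ (K : ℕ) (A : Set ℝ), Fat L K A → Fat L' K A := by
  intro K
  induction K with
  | zero => exact fun A hA => hA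
  | succ K ih =>
    rintro A ⟨r, hr, B, hB, C, hC, h1, h2, h3, h4, h5⟩
    refine ⟨r, hr, B, hB, C, hC, ih B h1, ih C h2, h3, h4, fun b hb c hc => ?_⟩
    exact (mul_le_mul_of_nonneg_right h (le_of_lt hr)).trans (h5 b hb c hc)

theorem fb_nonempty {L : ℝ} : ∀ (K : ℕ) (A : Set ℝ), Fat L K A → A.Nonempty := by
  intro K
  induction K with
  | zero => exact fun A hA => hA
  | succ K ih =>
    rintro A ⟨r, hr, B, hB, C, hC, h1, h2, h3, h4, h5⟩
    exact (ih B h1).mono hB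

theorem fb_desc (k : ℕ) : ∀ (t : ℕ) (ρ : ℝ) (B : Set ℝ), Fat 2 (t + k) B →
    (∀ b ∈ B, ∀ b' ∈ B, |b - b'| ≤ ρ) →
    ∃ B' ⊆ B, Fat 2 k B' ∧ ∀ b ∈ B', ∀ b' ∈ B', |b - b'| ≤ ρ / 2 ^ t := by
  intro t
  induction t with
  | zero =>
    intro ρ B h1 h2
    rw [zero_add] at h1
    refine ⟨B, subset_rfl, h1, ?_⟩
    rw [pow_zero, div_one]
    exact h2
  | succ t ih =>
    intro ρ B h1 h2
    have e : t + 1 + k = (t + k) + 1 := by ring
    rw [e] at h1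
    obtain ⟨r, hr, B1, hB1, C1, hC1, g1, g2, g3, g4, g5⟩ := h1
    obtain ⟨b, hb⟩ := fb_nonempty _ _ g1
    obtain ⟨c, hc⟩ := fb_nonempty _ _ g2
    have h3 := (g5 b hb c hc).trans (h2 b (hB1 hb) c (hC1 hc))
    obtain ⟨B', hB', k1, k2⟩ := ih (ρ / 2) B1 g1 (fun b hb b' hb' => by
      have := g3 b hb b' hb'
      linarith)
    refine ⟨B', hB'.trans hB1, k1, fun b hb b' hb' => ?_⟩
    have e2 : ρ / 2 ^ (t + 1) = ρ / 2 / 2 ^ t := by
      rw [pow_succ, div_div, mul_comm]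
    rw [e2]
    exact k2 b hb b' hb'

theorem fb_pow (m : ℕ) : ∀ (K : ℕ) (A : Set ℝ), Fat 2 ((m + 1) * K) A →
    Fat ((2 : ℝ) ^ (m + 1)) K A := by
  intro K
  induction K with
  | zero =>
    intro A h
    exact h
  | succ K ih =>
    intro A h
    have e : (m + 1) * (K + 1) = (m + (m + 1) * K) + 1 := by ring
    rw [e] at h
    obtain ⟨r, hr, B, hB, C, hC, g1, g2, g3, g4, g5⟩ := h
    obtain ⟨B', hB', b1, b2⟩ := fb_desc _ m r B g1 g3
    obtain ⟨C', hC', c1, c2⟩ := fb_desc _ m r C g2 g4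
    have hr' : (0 : ℝ) < r / 2 ^ m := div_pos hr (by positivity)
    refine ⟨r / 2 ^ m, hr', B', hB'.trans hB, C', hC'.trans hC, ih B' b1, ih C' c1, b2, c2,
      fun b hb c hc => ?_⟩
    have e2 : (2 : ℝ) ^ (m + 1) * (r / 2 ^ m) = 2 * r := by
      rw [pow_succ]
      field_simp
    rw [e2]
    exact g5 b (hB' hb) c (hC' hc)

theorem fat_big {A : Set ℝ} (h : ∀ K, Fat 2 K A) (L : ℝ) (K : ℕ) : Fat L K A := by
  obtain ⟨m, hm⟩ := pow_unbounded_of_one_lt L (one_lt_two (α := ℝ))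
  have h1 : L ≤ (2 : ℝ) ^ (m + 1) := by
    rw [pow_succ]
    have : (0 : ℝ) < 2 ^ m := by positivity
    linarith
  exact fb_mono h1 K A (fb_pow m K A (h _))

end H50LP
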