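import Pool.Agent.H50.LP.Defs

/-!
MP_b365ef_an [H50 LP INTP]. Linear interpolation from finite sets of the line, and from finite product sets (Mathlib only).
`interp`: proof by induction on the cardinality (for finite index types; e.g. state it for `t '' univ = B : Finset ℝ` and use
`Finset.induction_on_max`, or use `Fin (m+1)` with a strictly increasing enumeration). For increasing nodes `t_0 < ... < t_m` the
interpolation of `h` is `H y = h_0 + ∑_{k<m} (h_(k+1) - h_k) * clamp ((y - t_k) / (t_(k+1) - t_k))`, `clamp u = max 0 (min 1 u)`. Weights: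
`w y k = clamp ((y - t_(k-1)) / (t_k - t_(k-1))) - clamp ((y - t_k) / (t_(k+1) - t_k))` (first term `1` if `k = 0`, second term `0` if `k = m`);
they are `≥ 0` because the clamps are decreasing in `k`; the sum telescopes to 1; `w (t_i) k = δ`. Lipschitz: for `y < y'` the differences
`clamp_k y' - clamp_k y ≥ 0` and `∑_k (t_(k+1) - t_k) (clamp_k y' - clamp_k y) ≤ y' - y` (the function
`∑_k (t_(k+1) - t_k) clamp_k y = (y clamped to [t_0, t_m]) - t_0` by telescoping), and `|h_(k+1) - h_k| ≤ K (t_(k+1) - t_k)`.
A general `ι` is reduced to `Fin (m+1)` by sorting: `Finset.orderEmbOfFin` for `Finset.univ.image t` (`t` injective).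
`interp2`: `Ext F x y = ∑ i, ∑ k, w x i * w' y k * F i k`. For fixed `y` the function `i ↦ ∑ k, w' y k * F i k` satisfies the hypothesis with `K`
(convex combination), so `Ext F · y` is `K`-Lipschitz; in the same way for `y`; `|Ext F x y| ≤ B` since the weights are `≥ 0` with sum 1.
-/

set_option autoImplicit false

namespace H50LP

theorem ip_core (B : Finset ℝ) (hB : B.Nonempty) : ∃ w : ℝ → ℝ → ℝ,
    (∀ y, ∀ b ∈ B, 0 ≤ w y b) ∧ (∀ y, ∑ b ∈ B, w y b = 1) ∧
      (∀ b ∈ B, ∀ b' ∈ B, w b b' = if b = b' then 1 else 0) ∧
      ∀ (h : ℝ → ℝ) (K : ℝ), 0 ≤ K → (∀ b ∈ B, ∀ b' ∈ B, |h b - h b'| ≤ K * |b - b'|) →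
        ∀ y y', |∑ b ∈ B, w y b * h b - ∑ b ∈ B, w y' b * h b| ≤ K * |y - y'| := by
  induction B using Finset.induction_on_max with
  | empty => exact absurd hB Finset.not_nonempty_empty
  | insert a B hlt ih =>
    by_cases hB' : B.Nonempty
    · obtain ⟨w, h1, h2, h3, h4⟩ := ih hB'
      obtain ⟨m, hm, hmax⟩ : ∃ m ∈ B, ∀ b ∈ B, b ≤ m :=
        ⟨B.max' hB', B.max'_mem hB', fun b hb => B.le_max' b hb⟩
      have hma : m < a := hlt m hm
      have haB : a ∉ B := fun h => lt_irrefl a (hlt a h)
      have hpos : 0 < a - m := sub_pos.2 hma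
      obtain ⟨c, hc⟩ : ∃ c : ℝ → ℝ, ∀ y, c y = (min (max y m) a - m) / (a - m) := ⟨_, fun _ => rfl⟩
      have hc0 : ∀ y, 0 ≤ c y := by
        intro y
        rw [hc]
        apply div_nonneg _ hpos.le
        rw [sub_nonneg]
        exact le_min (le_max_right _ _) hma.le
      have hc1 : ∀ y, c y ≤ 1 := by
        intro y
        rw [hc, div_le_one hpos]
        have := min_le_right (max y m) a
        linarith
      have hcm : ∀ y, y ≤ m → c y = 0 := by
        intro y hy
        rw [hc, max_eq_right hy, min_eq_left hma.le, sub_self, zero_div]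
      have hca : c a = 1 := by
        rw [hc, max_eq_left hma.le, min_self, div_self hpos.ne']
      refine ⟨fun y b => if b = a then c y else (1 - c y) * w (min y m) b, ?_, ?_, ?_, ?_⟩
      · intro y b hb
        show 0 ≤ if b = a then c y else (1 - c y) * w (min y m) b
        by_cases hba : b = a
        · rw [if_pos hba]
          exact hc0 y
        · rw [if_neg hba]
          have hb' : b ∈ B := (Finset.mem_insert.1 hb).resolve_left hba
          exact mul_nonneg (sub_nonneg.2 (hc1 y)) (h1 _ b hb')
      · intro y
        show ∑ b ∈ insert a B, (if b = a then c y else (1 - c y) * w (min y m) b) = 1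
        rw [Finset.sum_insert haB, if_pos rfl]
        have e : ∑ b ∈ B, (if b = a then c y else (1 - c y) * w (min y m) b) =
            ∑ b ∈ B, (1 - c y) * w (min y m) b := by
          refine Finset.sum_congr rfl fun b hb => ?_
          rw [if_neg (fun h9 : b = a => haB (h9 ▸ hb))]
        rw [e, ← Finset.mul_sum, h2, mul_one]
        ring
      · intro b hb b' hb'
        show (if b' = a then c b else (1 - c b) * w (min b m) b') = if b = b' then 1 else 0
        by_cases hba : b = a
        · rw [hba, hca]
          by_cases hb'a : b' = a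
          · rw [if_pos hb'a, if_pos hb'a.symm]
          · rw [if_neg hb'a, if_neg (fun h => hb'a h.symm), sub_self, zero_mul]
        · have hbB : b ∈ B := (Finset.mem_insert.1 hb).resolve_left hba
          rw [hcm b (hmax b hbB), min_eq_left (hmax b hbB)]
          by_cases hb'a : b' = a
          · rw [if_pos hb'a, if_neg (fun h => hba (h.trans hb'a))]
          · have hb'B : b' ∈ B := (Finset.mem_insert.1 hb').resolve_left hb'a
            rw [if_neg hb'a, sub_zero, one_mul, h3 b hbB b' hb'B]
      · intro h K hK hh
        have hhB : ∀ b ∈ B, ∀ b' ∈ B, |h b - h b'| ≤ K * |b - b'| := fun b hb b' hb' =>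
          hh b (Finset.mem_insert_of_mem hb) b' (Finset.mem_insert_of_mem hb')
        have h5 := h4 h K hK hhB
        have hmm : ∑ b ∈ B, w m b * h b = h m := by
          rw [Finset.sum_eq_single m]
          · rw [h3 m hm m hm, if_pos rfl, one_mul]
          · intro b hb hbm
            rw [h3 m hm b hb, if_neg (fun h => hbm h.symm), zero_mul]
          · intro h
            exact absurd hm h
        have hform : ∀ y, ∑ b ∈ insert a B, (if b = a then c y else (1 - c y) * w (min y m) b) * h b =
            ∑ b ∈ B, w (min y m) b * h b + c y * (h a - h m) := by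
          intro y
          rw [Finset.sum_insert haB, if_pos rfl]
          have e : ∑ b ∈ B, (if b = a then c y else (1 - c y) * w (min y m) b) * h b =
              (1 - c y) * ∑ b ∈ B, w (min y m) b * h b := by
            rw [Finset.mul_sum]
            refine Finset.sum_congr rfl fun b hb => ?_
            rw [if_neg (fun h9 : b = a => haB (h9 ▸ hb)), mul_assoc]
          rw [e]
          rcases le_total y m with hy | hy
          · rw [hcm y hy]
            ring
          · rw [min_eq_right hy, hmm]
            ring
        -- ordered case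
        have hord : ∀ y y', y ≤ y' →
            |∑ b ∈ insert a B, (if b = a then c y else (1 - c y) * w (min y m) b) * h b -
              ∑ b ∈ insert a B, (if b = a then c y' else (1 - c y') * w (min y' m) b) * h b| ≤
              K * (y' - y) := by
          intro y y' hyy
          rw [hform, hform]
          have hA := h5 (min y m) (min y' m)
          have hmono : min y m ≤ min y' m := min_le_min_right m hyy
          rw [abs_sub_comm (min y m), abs_of_nonneg (sub_nonneg.2 hmono)] at hA
          have hcm' : c y ≤ c y' := by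
            rw [hc, hc]
            apply div_le_div_of_nonneg_right _ hpos.le
            apply sub_le_sub_right
            exact min_le_min_right a (max_le_max_right m hyy)
          have hha := hh a (Finset.mem_insert_self a B) m (Finset.mem_insert_of_mem hm)
          rw [abs_of_pos hpos] at hha
          have hB2 : |c y * (h a - h m) - c y' * (h a - h m)| ≤ (c y' - c y) * (K * (a - m)) := by
            rw [← sub_mul, abs_mul, abs_sub_comm, abs_of_nonneg (sub_nonneg.2 hcm')]
            exact mul_le_mul_of_nonneg_left hha (sub_nonneg.2 hcm')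
          have hid : ∀ z, min z m + c z * (a - m) = min z a := by
            intro z
            rw [hc, div_mul_cancel₀ _ hpos.ne']
            rcases le_total z m with hz | hz
            · rw [min_eq_left hz, max_eq_right hz, min_eq_left hma.le,
                min_eq_left (hz.trans hma.le)]
              ring
            · rw [min_eq_right hz, max_eq_left hz]
              ring
          have hi1 := hid y
          have hi2 := hid y'
          have hfin : min y' a - min y a ≤ y' - y := by
            rcases le_total y' a with hy' | hy'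
            · rw [min_eq_left hy', min_eq_left (hyy.trans hy')]
            · rw [min_eq_right hy']
              rcases le_total y a with hy | hy
              · rw [min_eq_left hy]
                linarith
              · rw [min_eq_right hy]
                linarith
          have e2 : ∑ b ∈ B, w (min y m) b * h b + c y * (h a - h m) -
              (∑ b ∈ B, w (min y' m) b * h b + c y' * (h a - h m)) =
              (∑ b ∈ B, w (min y m) b * h b - ∑ b ∈ B, w (min y' m) b * h b) +
              (c y * (h a - h m) - c y' * (h a - h m)) := by ring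
          rw [e2]
          calc _ ≤ |∑ b ∈ B, w (min y m) b * h b - ∑ b ∈ B, w (min y' m) b * h b| +
                |c y * (h a - h m) - c y' * (h a - h m)| := abs_add_le _ _
            _ ≤ K * (min y' m - min y m) + (c y' - c y) * (K * (a - m)) := add_le_add hA hB2
            _ = K * (min y' a - min y a) := by rw [← hi1, ← hi2]; ring
            _ ≤ K * (y' - y) := mul_le_mul_of_nonneg_left hfin hK
        intro y y'
        rcases le_total y y' with hyy | hyy
        · have := hord y y' hyy
          rw [abs_sub_comm y y', abs_of_nonneg (sub_nonneg.2 hyy)]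
          exact this
        · have := hord y' y hyy
          rw [abs_of_nonneg (sub_nonneg.2 hyy), abs_sub_comm]
          exact this
    · have hBe : B = ∅ := Finset.not_nonempty_iff_eq_empty.1 hB'
      subst hBe
      refine ⟨fun _ _ => 1, fun _ _ _ => zero_le_one, fun _ => by simp, ?_, ?_⟩
      · intro b hb b' hb'
        have e1 : b = a := by simpa using hb
        have e2 : b' = a := by simpa using hb'
        rw [e1, e2, if_pos rfl]
      · intro h K hK _ y y'
        rw [sub_self, abs_zero]
        positivity

theorem interp {ι : Type} [Fintype ι] [Nonempty ι] [DecidableEq ι] (t : ι → ℝ)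
    (ht : Function.Injective t) : ∃ w : ℝ → ι → ℝ, (∀ y i, 0 ≤ w y i) ∧ (∀ y, ∑ i, w y i = 1) ∧
      (∀ i i', w (t i) i' = if i = i' then 1 else 0) ∧
      ∀ (h : ι → ℝ) (K : ℝ), 0 ≤ K → (∀ i i', |h i - h i'| ≤ K * |t i - t i'|) →
        ∀ y y', |∑ i, w y i * h i - ∑ i, w y' i * h i| ≤ K * |y - y'| := by
  obtain ⟨w, h1, h2, h3, h4⟩ := ip_core (Finset.univ.image t)
    (Finset.univ_nonempty.image t)
  have hmem : ∀ i, t i ∈ Finset.univ.image t := fun i =>
    Finset.mem_image_of_mem t (Finset.mem_univ i)
  have hsum : ∀ F : ℝ → ℝ, ∑ b ∈ Finset.univ.image t, F b = ∑ i, F (t i) := fun F =>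
    Finset.sum_image (fun i _ j _ hij => ht hij)
  refine ⟨fun y i => w y (t i), fun y i => h1 y _ (hmem i), ?_, ?_, ?_⟩
  · intro y
    rw [← hsum (fun b => w y b)]
    exact h2 y
  · intro i i'
    show w (t i) (t i') = _
    rw [h3 _ (hmem i) _ (hmem i')]
    by_cases h : i = i'
    · rw [if_pos h, if_pos (congrArg t h)]
    · rw [if_neg h, if_neg (fun h' => h (ht h'))]
  · intro h K hK hh y y'
    have hext : ∀ i, Function.extend t h 0 (t i) = h i := fun i => ht.extend_apply h 0 i
    have h5 := h4 (Function.extend t h 0) K hK (by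
      intro b hb b' hb'
      obtain ⟨i, _, rfl⟩ := Finset.mem_image.1 hb
      obtain ⟨i', _, rfl⟩ := Finset.mem_image.1 hb'
      rw [hext, hext]
      exact hh i i') y y'
    rw [hsum (fun b => w y b * Function.extend t h 0 b),
      hsum (fun b => w y' b * Function.extend t h 0 b)] at h5
    simp only [hext] at h5
    exact h5

theorem ip_avg {κ : Type} [Fintype κ] (w : κ → ℝ) (h0 : ∀ k, 0 ≤ w k) (h1 : ∑ k, w k = 1)
    (F : κ → ℝ) (B : ℝ) (hF : ∀ k, |F k| ≤ B) : |∑ k, w k * F k| ≤ B := by
  calc |∑ k, w k * F k| ≤ ∑ k, |w k * F k| := Finset.abs_sum_le_sum_abs _ _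
    _ ≤ ∑ k, w k * B := by
        refine Finset.sum_le_sum fun k _ => ?_
        rw [abs_mul, abs_of_nonneg (h0 k)]
        exact mul_le_mul_of_nonneg_left (hF k) (h0 k)
    _ = B := by rw [← Finset.sum_mul, h1, one_mul]

theorem interp2 {ι κ : Type} [Fintype ι] [Nonempty ι] [DecidableEq ι] [Fintype κ] [Nonempty κ]
    [DecidableEq κ] (t : ι → ℝ) (ht : Function.Injective t) (u : κ → ℝ)
    (hu : Function.Injective u) : ∃ Ext : (ι → κ → ℝ) →ₗ[ℝ] (ℝ → ℝ → ℝ),
      (∀ F i k, Ext F (t i) (u k) = F i k) ∧
      (∀ F K, 0 ≤ K → (∀ i i' k, |F i k - F i' k| ≤ K * |t i - t i'|) →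
        ∀ x x' y, |Ext F x y - Ext F x' y| ≤ K * |x - x'|) ∧
      (∀ F K, 0 ≤ K → (∀ i k k', |F i k - F i k'| ≤ K * |u k - u k'|) →
        ∀ x y y', |Ext F x y - Ext F x y'| ≤ K * |y - y'|) ∧
      (∀ F B, (∀ i k, |F i k| ≤ B) → ∀ x y, |Ext F x y| ≤ B) := by
  obtain ⟨w, w0, w1, wd, wl⟩ := interp t ht
  obtain ⟨v, v0, v1, vd, vl⟩ := interp u hu
  let Ext : (ι → κ → ℝ) →ₗ[ℝ] (ℝ → ℝ → ℝ) :=
    { toFun := fun F x y => ∑ i, w x i * ∑ k, v y k * F i k
      map_add' := by
        intro F G
        funext x y
        simp only [Pi.add_apply, mul_add, Finset.sum_add_distrib]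
      map_smul' := by
        intro c F
        funext x y
        simp only [Pi.smul_apply, smul_eq_mul, RingHom.id_apply, Finset.mul_sum]
        refine Finset.sum_congr rfl fun i _ => Finset.sum_congr rfl fun k _ => ?_
        ring }
  have hE : ∀ F x y, Ext F x y = ∑ i, w x i * ∑ k, v y k * F i k := fun F x y => rfl
  have hE' : ∀ F x y, Ext F x y = ∑ k, v y k * ∑ i, w x i * F i k := by
    intro F x y
    rw [hE]
    simp only [Finset.mul_sum]
    rw [Finset.sum_comm]
    refine Finset.sum_congr rfl fun k _ => Finset.sum_congr rfl fun i _ => ?_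
    ring
  refine ⟨Ext, ?_, ?_, ?_, ?_⟩
  · intro F i k
    rw [hE, Finset.sum_eq_single i, wd, if_pos rfl, one_mul, Finset.sum_eq_single k, vd, if_pos rfl,
      one_mul]
    · intro k' _ hk'
      rw [vd, if_neg (fun h => hk' h.symm), zero_mul]
    · intro h
      exact absurd (Finset.mem_univ k) h
    · intro i' _ hi'
      rw [wd, if_neg (fun h => hi' h.symm), zero_mul]
    · intro h
      exact absurd (Finset.mem_univ i) h
  · intro F K hK hF x x' y
    rw [hE, hE]
    apply wl _ K hK
    intro i i'
    rw [← Finset.sum_sub_distrib]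
    have e : ∑ k, (v y k * F i k - v y k * F i' k) = ∑ k, v y k * (F i k - F i' k) :=
      Finset.sum_congr rfl fun k _ => by ring
    rw [e]
    exact ip_avg (v y) (v0 y) (v1 y) _ _ (fun k => hF i i' k)
  · intro F K hK hF x y y'
    rw [hE', hE']
    apply vl _ K hK
    intro k k'
    rw [← Finset.sum_sub_distrib]
    have e : ∑ i, (w x i * F i k - w x i * F i k') = ∑ i, w x i * (F i k - F i k') :=
      Finset.sum_congr rfl fun i _ => by ring
    rw [e]
    exact ip_avg (w x) (w0 x) (w1 x) _ _ (fun i => hF i k k')
  · intro F B hF x y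
    rw [hE]
    exact ip_avg (w x) (w0 x) (w1 x) _ _ (fun i => ip_avg (v y) (v0 y) (v1 y) _ _ (hF i))

end H50LP
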