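import Pool.Agent.H50.LP.Defs

/-!
MP_b365ef_an [H50 LP OOB]. The averaging operators `Ee j l`, the space `Tri K`, the projection `Oo K`.
`V j` is a subgroup of `D K` (closed under `+`, `-`; `u + u = 0`), `V j ⊆ V l` for `l ≤ j`, `V K = {0}`, `V 0 = univ`. Basic fact (S): if `w ∈ V l` then
`∑ v ∈ V l, f (x + w + v) = ∑ v ∈ V l, f (x + v)` (bijection `v ↦ w + v` of `V l`). Hence (T): for `l ≤ m`,
`∑ v ∈ V l, ∑ u ∈ V m, f (x + v + u) = (V m).card * ∑ v ∈ V l, f (x + v)` (exchange the sums, `u ∈ V m ⊆ V l`).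
`Ee_trans`, `Oo_trans`, `Tri_trans`: translations commute with the averages: unfold, `add_right_comm` / `abel`.
`Ee_bound`: a quotient of a sum of `card * card` terms by `card * card > 0` (`0 ∈ V j`).
`Oo_mem`: `Tri K` is a submodule. `Ee 0 0 g` is constant. For `d = Ee (j+1) (j+1) g - Ee (j+1) j g` and the defining condition of `Tri` with
index `l`: if `l ≤ j` then `∑ v ∈ V l, d (c, x + v) = 0`, since by (T) the sums of both terms are equal to
`∑ u ∈ V (j+1), ∑ v ∈ V l, g (c + u, x + v) / (V (j+1)).card` (the averages over `V (j+1)` resp. `V j` in the second variable are absorbed).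
If `l ≥ j + 1` and `c, c'` agree below `l` then `c' = c + w` with `w ∈ V l ⊆ V (j+1)`, so `d (c', ·) = d (c, ·)` by (S).
`Oo_id`: for `g ∈ Tri K` the inner average `I c = ∑ v ∈ V j, g (c, x + v)` is the same for `c` and `c + u`, `u ∈ V j`; so
`Ee j j g = Ee (j+1) j g` (both are `I c / (V j).card`), and `Oo K g = Ee 0 0 g + ∑ j, (Ee (j+1) (j+1) g - Ee j j g) = Ee K K g = g`
(telescoping, `Fin.sum_univ_eq_sum_range`, `Finset.sum_range_sub`).
`Oo_close`: for every `G`: `Oo K G - G = ∑ j, (Ee j j G - Ee (j+1) j G)` (same telescoping), and if the inner sums `I c` and `I c'` differ by at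
most `(V j).card * η` whenever `c, c'` agree below `j`, then `|Ee j j G - Ee (j+1) j G| ≤ η` (two averages of numbers in an interval of
length `η`).
-/

set_option autoImplicit false

namespace H50LP

theorem oo_mem_V {K : ℕ} {j : ℕ} {u : D K} :
    u ∈ (V j : Finset (D K)) ↔ ∀ i : Fin K, i.1 < j → u i = 0 := by
  unfold V
  rw [Finset.mem_filter]
  exact ⟨fun h => h.2, fun h => ⟨Finset.mem_univ _, h⟩⟩

theorem V_zero_mem {K : ℕ} (j : ℕ) : (0 : D K) ∈ (V j : Finset (D K)) :=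
  oo_mem_V.2 fun _ _ => rfl

theorem oo_add_V {K : ℕ} {j : ℕ} {u v : D K} (hu : u ∈ (V j : Finset (D K)))
    (hv : v ∈ (V j : Finset (D K))) : u + v ∈ (V j : Finset (D K)) := by
  rw [oo_mem_V] at *
  intro i hi
  rw [Pi.add_apply, hu i hi, hv i hi, add_zero]

theorem oo_mono_V {K : ℕ} {j l : ℕ} (h : l ≤ j) {u : D K} (hu : u ∈ (V j : Finset (D K))) :
    u ∈ (V l : Finset (D K)) := by
  rw [oo_mem_V] at *
  intro i hi
  exact hu i (lt_of_lt_of_le hi h)

theorem oo_two {K : ℕ} (u : D K) : u + u = 0 := by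
  funext i
  exact CharTwo.add_self_eq_zero (u i)

theorem oo_card_pos {K : ℕ} (j : ℕ) : (0 : ℝ) < ((V j : Finset (D K)).card : ℝ) := by
  have h : 0 < (V j : Finset (D K)).card := Finset.card_pos.2 ⟨0, V_zero_mem j⟩
  exact_mod_cast h

theorem oo_S {K : ℕ} {l : ℕ} {w : D K} (hw : w ∈ (V l : Finset (D K))) (f : D K → ℝ) (x : D K) :
    ∑ v ∈ (V l : Finset (D K)), f (x + w + v) = ∑ v ∈ (V l : Finset (D K)), f (x + v) := by
  refine Finset.sum_nbij' (fun v => w + v) (fun v => w + v) ?_ ?_ ?_ ?_ ?_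
  · exact fun v hv => oo_add_V hw hv
  · exact fun v hv => oo_add_V hw hv
  · intro v _
    rw [← add_assoc, oo_two, zero_add]
  · intro v _
    rw [← add_assoc, oo_two, zero_add]
  · intro v _
    rw [add_assoc]

theorem oo_T {K : ℕ} {l m : ℕ} (h : l ≤ m) (f : D K → ℝ) (x : D K) :
    ∑ v ∈ (V l : Finset (D K)), ∑ u ∈ (V m : Finset (D K)), f (x + v + u) =
      ((V m : Finset (D K)).card : ℝ) * ∑ v ∈ (V l : Finset (D K)), f (x + v) := by
  rw [Finset.sum_comm]
  have h1 : ∀ u ∈ (V m : Finset (D K)), ∑ v ∈ (V l : Finset (D K)), f (x + v + u) =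
      ∑ v ∈ (V l : Finset (D K)), f (x + v) := by
    intro u hu
    rw [← oo_S (oo_mono_V h hu) f x]
    refine Finset.sum_congr rfl fun v _ => ?_
    rw [add_right_comm]
  rw [Finset.sum_congr rfl h1, Finset.sum_const, nsmul_eq_mul]

theorem oo_agree {K : ℕ} {j : ℕ} {c c' : D K} (h : ∀ i : Fin K, i.1 < j → c i = c' i) :
    c + c' ∈ (V j : Finset (D K)) ∧ c' = c + (c + c') := by
  refine ⟨oo_mem_V.2 fun i hi => ?_, ?_⟩
  · rw [Pi.add_apply, h i hi]
    exact CharTwo.add_self_eq_zero _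
  · rw [← add_assoc, oo_two, zero_add]

theorem oo_Ee {K : ℕ} (j l : ℕ) (g : D K × D K → ℝ) (p : D K × D K) :
    Ee j l g p = (∑ u ∈ (V j : Finset (D K)), ∑ v ∈ (V l : Finset (D K)),
    g (p.1 + u, p.2 + v)) / (((V j : Finset (D K)).card : ℝ) * ((V l : Finset (D K)).card : ℝ)) :=
  rfl

theorem Ee_trans {K : ℕ} (j l : ℕ) (g : D K × D K → ℝ) (t : D K × D K) :
    Ee j l (fun p => g (p + t)) = fun p => Ee j l g (p + t) := by
  funext p
  rw [oo_Ee, oo_Ee]
  congr 1
  refine Finset.sum_congr rfl fun u _ => Finset.sum_congr rfl fun v _ => ?_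
  congr 1
  ext1
  · exact add_right_comm _ _ _
  · exact add_right_comm _ _ _

theorem oo_Oo {K : ℕ} (g : D K × D K → ℝ) (p : D K × D K) :
    Oo K g p = Ee 0 0 g p + ∑ j : Fin K, (Ee (j.1 + 1) (j.1 + 1) g p - Ee (j.1 + 1) j.1 g p) := by
  unfold Oo
  rw [LinearMap.add_apply, Pi.add_apply, LinearMap.sum_apply, Finset.sum_apply]
  rfl

theorem Oo_trans {K : ℕ} (g : D K × D K → ℝ) (t : D K × D K) :
    Oo K (fun p => g (p + t)) = fun p => Oo K g (p + t) := by
  funext p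
  rw [oo_Oo, oo_Oo]
  simp only [Ee_trans]

theorem Tri_trans {K : ℕ} (g : D K × D K → ℝ) (hg : g ∈ Tri K) (t : D K × D K) :
    (fun p => g (p + t)) ∈ Tri K := by
  intro j c c' x hc
  have h := hg j (c + t.1) (c' + t.1) (x + t.2) (fun i hi => by
    rw [Pi.add_apply, Pi.add_apply, hc i hi])
  have e : ∀ c v : D K, ((c, x + v) + t : D K × D K) = (c + t.1, x + t.2 + v) := by
    intro c v
    ext1
    · rfl
    · exact add_right_comm _ _ _
  simp only [e]
  exact h

theorem Ee_bound {K : ℕ} (j l : ℕ) (g : D K × D K → ℝ) (M : ℝ) (h : ∀ p, |g p| ≤ M) (p) :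
    |Ee j l g p| ≤ M := by
  have hj := oo_card_pos (K := K) j
  have hl := oo_card_pos (K := K) l
  rw [oo_Ee, abs_div, abs_of_pos (mul_pos hj hl), div_le_iff₀ (mul_pos hj hl)]
  refine (Finset.abs_sum_le_sum_abs _ _).trans ?_
  have h1 : ∀ u ∈ (V j : Finset (D K)),
      |∑ v ∈ (V l : Finset (D K)), g (p.1 + u, p.2 + v)| ≤ ((V l : Finset (D K)).card : ℝ) * M := by
    intro u _
    refine (Finset.abs_sum_le_sum_abs _ _).trans ?_
    refine (Finset.sum_le_sum fun v _ => h _).trans (le_of_eq ?_)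
    rw [Finset.sum_const, nsmul_eq_mul]
  refine (Finset.sum_le_sum h1).trans (le_of_eq ?_)
  rw [Finset.sum_const, nsmul_eq_mul]
  ring

theorem oo_E1 {K : ℕ} (j l : ℕ) (g : D K × D K → ℝ) {w : D K} (hw : w ∈ (V j : Finset (D K)))
    (c x : D K) : Ee j l g (c + w, x) = Ee j l g (c, x) := by
  rw [oo_Ee, oo_Ee]
  congr 1
  exact oo_S hw (fun c => ∑ v ∈ (V l : Finset (D K)), g (c, x + v)) c

theorem oo_E3 {K : ℕ} {j l l' : ℕ} (h : l' ≤ l) (g : D K × D K → ℝ) (c x : D K) :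
    ∑ v ∈ (V l' : Finset (D K)), Ee j l g (c, x + v) =
      (∑ u ∈ (V j : Finset (D K)), ∑ v ∈ (V l' : Finset (D K)), g (c + u, x + v)) /
        ((V j : Finset (D K)).card : ℝ) := by
  have hj := oo_card_pos (K := K) j
  have hl := oo_card_pos (K := K) l
  simp only [oo_Ee]
  rw [← Finset.sum_div, Finset.sum_comm]
  have h1 : ∀ u ∈ (V j : Finset (D K)), ∑ v ∈ (V l' : Finset (D K)),
      ∑ v' ∈ (V l : Finset (D K)), g (c + u, x + v + v') =
      ((V l : Finset (D K)).card : ℝ) * ∑ v ∈ (V l' : Finset (D K)), g (c + u, x + v) := by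
    intro u _
    exact oo_T h (fun y => g (c + u, y)) x
  rw [Finset.sum_congr rfl h1, ← Finset.mul_sum]
  field_simp

theorem Oo_mem {K : ℕ} (g : D K × D K → ℝ) : Oo K g ∈ Tri K := by
  have h0 : Ee 0 0 g ∈ Tri K := by
    intro j c c' x _
    refine Finset.sum_congr rfl fun v _ => ?_
    obtain ⟨h1, h2⟩ := oo_agree (j := 0) (c := c) (c' := c') (fun i hi => absurd hi (by omega))
    rw [h2]
    exact (oo_E1 0 0 g h1 c (x + v)).symm
  have hd : ∀ j : ℕ, Ee (j + 1) (j + 1) g - Ee (j + 1) j g ∈ Tri K := by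
    intro j l c c' x hc
    by_cases hl : l ≤ j
    · have h1 : ∀ c : D K, ∑ v ∈ (V l : Finset (D K)),
          (Ee (j + 1) (j + 1) g - Ee (j + 1) j g) (c, x + v) = 0 := by
        intro c
        simp only [Pi.sub_apply]
        rw [Finset.sum_sub_distrib, oo_E3 (by omega : l ≤ j + 1), oo_E3 hl, sub_self]
      rw [h1, h1]
    · refine Finset.sum_congr rfl fun v _ => ?_
      obtain ⟨h1, h2⟩ := oo_agree hc
      have h3 := oo_mono_V (by omega : j + 1 ≤ l) h1
      rw [h2]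
      simp only [Pi.sub_apply]
      rw [oo_E1 _ _ g h3, oo_E1 _ _ g h3]
  have e : Oo K g = Ee 0 0 g + ∑ j : Fin K, (Ee (j.1 + 1) (j.1 + 1) g - Ee (j.1 + 1) j.1 g) := by
    unfold Oo
    rw [LinearMap.add_apply, LinearMap.sum_apply]
    rfl
  rw [e]
  exact (Tri K).add_mem h0 ((Tri K).sum_mem fun j _ => hd j.1)

theorem oo_top {K : ℕ} (g : D K × D K → ℝ) (p : D K × D K) : Ee K K g p = g p := by
  have h1 : (V K : Finset (D K)) = {0} := by
    ext u
    rw [oo_mem_V, Finset.mem_singleton]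
    constructor
    · intro h
      funext i
      exact h i i.2
    · intro h i _
      rw [h]
      rfl
  rw [oo_Ee, h1, Finset.sum_singleton, Finset.sum_singleton, Finset.card_singleton]
  simp

theorem oo_tele {K : ℕ} (g : D K × D K → ℝ) (p : D K × D K) :
    ∑ j : Fin K, (Ee (j.1 + 1) (j.1 + 1) g p - Ee j.1 j.1 g p) = g p - Ee 0 0 g p := by
  rw [Fin.sum_univ_eq_sum_range (fun j => Ee (j + 1) (j + 1) g p - Ee j j g p) K,
    Finset.sum_range_sub (fun j => Ee j j g p), oo_top]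

theorem Oo_id {K : ℕ} (g : D K × D K → ℝ) (hg : g ∈ Tri K) : Oo K g = g := by
  have h1 : ∀ (j m : ℕ), j ≤ m → ∀ p : D K × D K, Ee m j g p =
      (∑ v ∈ (V j : Finset (D K)), g (p.1, p.2 + v)) / ((V j : Finset (D K)).card : ℝ) := by
    intro j m hjm p
    have hj := oo_card_pos (K := K) j
    have hm := oo_card_pos (K := K) m
    rw [oo_Ee]
    have h2 : ∀ u ∈ (V m : Finset (D K)), ∑ v ∈ (V j : Finset (D K)), g (p.1 + u, p.2 + v) =
        ∑ v ∈ (V j : Finset (D K)), g (p.1, p.2 + v) := by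
      intro u hu
      refine hg j (p.1 + u) p.1 p.2 (fun i hi => ?_)
      rw [Pi.add_apply, oo_mem_V.1 hu i (by omega), add_zero]
    rw [Finset.sum_congr rfl h2, Finset.sum_const, nsmul_eq_mul]
    field_simp
  funext p
  rw [oo_Oo]
  have h2 : ∑ j : Fin K, (Ee (j.1 + 1) (j.1 + 1) g p - Ee (j.1 + 1) j.1 g p) =
      ∑ j : Fin K, (Ee (j.1 + 1) (j.1 + 1) g p - Ee j.1 j.1 g p) := by
    refine Finset.sum_congr rfl fun j _ => ?_
    rw [h1 j.1 (j.1 + 1) (by omega), h1 j.1 j.1 le_rfl]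
  rw [h2, oo_tele]
  ring

theorem Oo_close {K : ℕ} (G : D K × D K → ℝ) (η : ℝ)
    (h : ∀ (j : ℕ) (c c' x : D K), (∀ i : Fin K, i.1 < j → c i = c' i) →
      |∑ v ∈ (V j : Finset (D K)), G (c, x + v) - ∑ v ∈ (V j : Finset (D K)), G (c', x + v)| ≤
        ((V j : Finset (D K)).card : ℝ) * η) (p : D K × D K) :
    |Oo K G p - G p| ≤ K * η := by
  have h1 : ∀ j : ℕ, |Ee j j G p - Ee (j + 1) j G p| ≤ η := by
    intro j
    have hj := oo_card_pos (K := K) j
    have hj1 := oo_card_pos (K := K) (j + 1)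
    set I : D K → ℝ := fun u => ∑ v ∈ (V j : Finset (D K)), G (p.1 + u, p.2 + v) with hI
    have e1 : Ee j j G p = (∑ u ∈ (V j : Finset (D K)), I u) /
        (((V j : Finset (D K)).card : ℝ) * ((V j : Finset (D K)).card : ℝ)) := oo_Ee _ _ _ _
    have e2 : Ee (j + 1) j G p = (∑ u ∈ (V (j + 1) : Finset (D K)), I u) /
        (((V (j + 1) : Finset (D K)).card : ℝ) * ((V j : Finset (D K)).card : ℝ)) :=
      oo_Ee _ _ _ _
    have e3 : Ee j j G p - Ee (j + 1) j G p =
        (∑ u ∈ (V j : Finset (D K)), ∑ u' ∈ (V (j + 1) : Finset (D K)), (I u - I u')) /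
        (((V j : Finset (D K)).card : ℝ) * ((V (j + 1) : Finset (D K)).card : ℝ) *
          ((V j : Finset (D K)).card : ℝ)) := by
      simp only [Finset.sum_sub_distrib, Finset.sum_const, nsmul_eq_mul]
      rw [← Finset.mul_sum, e1, e2]
      field_simp
    have hpos := mul_pos (mul_pos hj hj1) hj
    rw [e3, abs_div, abs_of_pos hpos, div_le_iff₀ hpos]
    refine (Finset.abs_sum_le_sum_abs _ _).trans ?_
    have h3 : ∀ u ∈ (V j : Finset (D K)), |∑ u' ∈ (V (j + 1) : Finset (D K)), (I u - I u')| ≤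
        ((V (j + 1) : Finset (D K)).card : ℝ) * (((V j : Finset (D K)).card : ℝ) * η) := by
      intro u hu
      refine (Finset.abs_sum_le_sum_abs _ _).trans ?_
      rw [← nsmul_eq_mul]
      refine Finset.sum_le_card_nsmul _ _ _ fun u' hu' => ?_
      refine h j (p.1 + u) (p.1 + u') p.2 (fun i hi => ?_)
      rw [Pi.add_apply, Pi.add_apply, oo_mem_V.1 hu i hi, oo_mem_V.1 hu' i (by omega)]
    refine (Finset.sum_le_sum h3).trans (le_of_eq ?_)
    rw [Finset.sum_const, nsmul_eq_mul]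
    ring
  have h2 : Oo K G p - G p = ∑ j : Fin K, (Ee j.1 j.1 G p - Ee (j.1 + 1) j.1 G p) := by
    have h3 := oo_tele G p
    have h4 : ∑ j : Fin K, (Ee j.1 j.1 G p - Ee (j.1 + 1) j.1 G p) =
        ∑ j : Fin K, (Ee (j.1 + 1) (j.1 + 1) G p - Ee (j.1 + 1) j.1 G p) -
          ∑ j : Fin K, (Ee (j.1 + 1) (j.1 + 1) G p - Ee j.1 j.1 G p) := by
      rw [← Finset.sum_sub_distrib]
      exact Finset.sum_congr rfl fun j _ => by ring
    rw [h4, h3, oo_Oo]
    ring
  rw [h2]
  refine (Finset.abs_sum_le_sum_abs _ _).trans ?_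
  refine (Finset.sum_le_sum fun j _ => h1 j.1).trans (le_of_eq ?_)
  rw [Finset.sum_const, Finset.card_univ, Fintype.card_fin, nsmul_eq_mul]

end H50LP
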