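import Pool.Agent.H50.LP.TData

/-!
MP_b365ef_an [H50 LP PB]. The left inverse: averages of increments over digit classes.
`Gf_bound`: `count_dg`: the sum has `2^n / 2^K` terms, each at most `M`. `Gf_Fg`: `Fg s (i+1) - Fg s i = g (s, dg i) = g (s, x)` on the filtered
set, number of terms `2^n / 2^K`.
`Gf_diff`: let `c, c'` agree below `j`. `∑ v ∈ V j, Gf f (c, x + v) = (2^K / 2^n) ∑_{i ∈ I} (f c (i+1) - f c i)` with
`I = {i < 2^n : dg i agrees with x below j}` (the sets for the different `v` are disjoint with union `I`; `y ∈ x + V j` iff `y` agrees with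
`x` below `j`). `I` depends only on `N k c`, `k < j`, and these are equal to `N k c'` by `dep` (`i < k < j`). Put `b = n` if `j = 0`,
`b = N (j-1) c` if `1 ≤ j ≤ K` (for `j > K` we have `c = c'` as all letters agree: nothing to prove; note that for `j = K` also `c = c'`). `I` is a union of blocks
`[t 2^b, (t+1) 2^b)` (`dg_block`: `N k c ≥ b` for `k < j`), `t < 2^(n-b)`; on a block the sum of the increments telescopes:
`∑ (f c (i+1) - f c i) = f c ((t+1) 2^b) - f c (t 2^b)` (`Finset.sum_Ico_consecutive`, `Finset.sum_range_sub`). So the difference of the block sums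
for `c` and `c'` is at most `2 M |a c - a c'| / δ ≤ 2 M ε 2^b` (`upp` for the index `j - 1`, resp. `all` if `j = 0`). Number of blocks in `I`: `|I| / 2^b`. So the difference of the
sums over `I` is at most `|I| 2 M ε`, and `|I| = (V j).card 2^n / 2^K` by `count_dg`. Result `(V j).card * (2 ε M)`.
(If it is more convenient sum over all `t < 2^(n-b)` with an indicator.)
-/

set_option autoImplicit false

namespace H50LP

theorem pb_card {ε δ : ℝ} {K n : ℕ} {A : Set ℝ} {a : D K → A} {N : Fin K → D K → ℕ}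
    (T : TData ε δ K n A a N) (p : D K × D K) :
    ((((Finset.range (2 ^ n)).filter fun i => dg (fun k => N k p.1) i = p.2).card : ℕ) : ℝ) *
      2 ^ K / 2 ^ n = 1 := by
  rw [count_dg (fun k => N k p.1) (T.dec p.1) n (fun k => T.top k p.1) p.2]
  exact div_self (by positivity)

theorem Gf_bound {ε δ : ℝ} {K n : ℕ} {A : Set ℝ} {a : D K → A} {N : Fin K → D K → ℕ}
    (T : TData ε δ K n A a N) (f : D K → ℕ → ℝ) (M : ℝ)
    (hf : ∀ s i, |f s (i + 1) - f s i| ≤ M) (p : D K × D K) : |Gf N n f p| ≤ M := by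
  have h1 := pb_card T p
  unfold Gf
  rw [abs_div, abs_mul, abs_of_nonneg (show (0 : ℝ) ≤ 2 ^ K by positivity),
    abs_of_nonneg (show (0 : ℝ) ≤ 2 ^ n by positivity)]
  have h2 : |∑ i ∈ (Finset.range (2 ^ n)).filter (fun i => dg (fun k => N k p.1) i = p.2),
      (f p.1 (i + 1) - f p.1 i)| ≤
      ((((Finset.range (2 ^ n)).filter fun i => dg (fun k => N k p.1) i = p.2).card : ℕ) : ℝ) *
        M := by
    refine (Finset.abs_sum_le_sum_abs _ _).trans ?_
    refine (Finset.sum_le_sum fun i _ => hf p.1 i).trans ?_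
    rw [Finset.sum_const, nsmul_eq_mul]
  calc _ ≤ (((((Finset.range (2 ^ n)).filter fun i => dg (fun k => N k p.1) i = p.2).card : ℕ) : ℝ)
        * M) * 2 ^ K / 2 ^ n := by gcongr
    _ = M * (((((Finset.range (2 ^ n)).filter fun i => dg (fun k => N k p.1) i = p.2).card : ℕ) :
        ℝ) * 2 ^ K / 2 ^ n) := by ring
    _ = M := by rw [h1, mul_one]

theorem Gf_Fg {ε δ : ℝ} {K n : ℕ} {A : Set ℝ} {a : D K → A} {N : Fin K → D K → ℕ}
    (T : TData ε δ K n A a N) (g : D K × D K → ℝ) : Gf N n (Fg N g) = g := by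
  funext p
  have h1 := pb_card T p
  unfold Gf
  have h2 : ∑ i ∈ (Finset.range (2 ^ n)).filter (fun i => dg (fun k => N k p.1) i = p.2),
      (Fg N g p.1 (i + 1) - Fg N g p.1 i) =
      ((((Finset.range (2 ^ n)).filter fun i => dg (fun k => N k p.1) i = p.2).card : ℕ) : ℝ) *
        g p := by
    rw [← nsmul_eq_mul, ← Finset.sum_const]
    refine Finset.sum_congr rfl fun i hi => ?_
    have h3 := (Finset.mem_filter.1 hi).2
    unfold Fg
    rw [Finset.sum_range_succ, add_sub_cancel_left, h3]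
  rw [h2]
  calc _ = g p * (((((Finset.range (2 ^ n)).filter fun i => dg (fun k => N k p.1) i = p.2).card :
        ℕ) : ℝ) * 2 ^ K / 2 ^ n) := by ring
    _ = g p := by rw [h1, mul_one]

theorem pb_blocks (G : ℕ → ℝ) (B q : ℕ) : ∑ i ∈ Finset.range (q * B), G i =
    ∑ t ∈ Finset.range q, ∑ i ∈ Finset.Ico (t * B) ((t + 1) * B), G i := by
  induction q with
  | zero => simp
  | succ q ih =>
    have h1 : q * B ≤ (q + 1) * B := Nat.mul_le_mul_right _ (Nat.le_succ q)
    rw [← Finset.sum_range_add_sum_Ico _ h1, ih, Finset.sum_range_succ]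

theorem pb_tele (P : ℕ → Prop) [DecidablePred P] (f : ℕ → ℝ) (B q : ℕ)
    (hP : ∀ t, ∀ i ∈ Finset.Ico (t * B) ((t + 1) * B), (P i ↔ P (t * B))) :
    ∑ i ∈ (Finset.range (q * B)).filter P, (f (i + 1) - f i) =
      ∑ t ∈ Finset.range q, if P (t * B) then (f ((t + 1) * B) - f (t * B)) else 0 := by
  rw [Finset.sum_filter, pb_blocks]
  refine Finset.sum_congr rfl fun t _ => ?_
  have h1 : t * B ≤ (t + 1) * B := Nat.mul_le_mul_right _ (Nat.le_succ t)
  by_cases h : P (t * B)
  · rw [if_pos h]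
    have h2 : ∀ i ∈ Finset.Ico (t * B) ((t + 1) * B),
        (if P i then f (i + 1) - f i else 0) = f (i + 1) - f i := by
      intro i hi
      rw [if_pos ((hP t i hi).2 h)]
    rw [Finset.sum_congr rfl h2, Finset.sum_Ico_eq_sub _ h1, Finset.sum_range_sub,
      Finset.sum_range_sub]
    ring
  · rw [if_neg h]
    refine Finset.sum_eq_zero fun i hi => ?_
    rw [if_neg (fun h3 => h ((hP t i hi).1 h3))]

theorem pb_fiber {K : ℕ} (Nc : Fin K → ℕ) (n j : ℕ) (x : D K) (F : ℕ → ℝ) :
    ∑ v ∈ (V j : Finset (D K)), ∑ i ∈ (Finset.range (2 ^ n)).filter (fun i => dg Nc i = x + v),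
      F i = ∑ i ∈ (Finset.range (2 ^ n)).filter (fun i => ∀ k : Fin K, k.1 < j → dg Nc i k = x k),
        F i := by
  have h1 := Finset.sum_fiberwise_of_maps_to
    (s := (Finset.range (2 ^ n)).filter (fun i => ∀ k : Fin K, k.1 < j → dg Nc i k = x k))
    (t := (V j : Finset (D K))) (g := fun i => dg Nc i - x)
    (by
      intro i hi
      have h2 := (Finset.mem_filter.1 hi).2
      rw [V, Finset.mem_filter]
      refine ⟨Finset.mem_univ _, fun k hk => ?_⟩
      rw [Pi.sub_apply, h2 k hk, sub_self]) F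
  rw [← h1]
  refine Finset.sum_congr rfl fun v hv => ?_
  have hv' := (Finset.mem_filter.1 hv).2
  refine Finset.sum_congr ?_ fun _ _ => rfl
  ext i
  simp only [Finset.mem_filter]
  constructor
  · rintro ⟨h3, h4⟩
    refine ⟨⟨h3, fun k hk => ?_⟩, ?_⟩
    · rw [h4, Pi.add_apply, hv' k hk, add_zero]
    · rw [h4, add_sub_cancel_left]
  · rintro ⟨⟨h3, _⟩, h4⟩
    refine ⟨h3, ?_⟩
    rw [← h4, add_sub_cancel]

theorem Gf_diff {ε δ : ℝ} {K n : ℕ} {A : Set ℝ} {a : D K → A} {N : Fin K → D K → ℕ}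
    (T : TData ε δ K n A a N) (f : D K → ℕ → ℝ) (M : ℝ) (hM : 0 ≤ M)
    (hf : ∀ s s' i, |f s i - f s' i| ≤ M * (|(a s : ℝ) - a s'| / δ)) (hε : 0 ≤ ε)
    (j : ℕ) (c c' x : D K) (hc : ∀ i : Fin K, i.1 < j → c i = c' i) :
    |∑ v ∈ (V j : Finset (D K)), Gf N n f (c, x + v) -
      ∑ v ∈ (V j : Finset (D K)), Gf N n f (c', x + v)| ≤
        ((V j : Finset (D K)).card : ℝ) * (2 * ε * M) := by
  by_cases hcc : c = c'
  · rw [hcc, sub_self, abs_zero]
    positivity
  -- the scale
  obtain ⟨b, hb1, hb2, hb3⟩ : ∃ b : ℕ, (∀ k : Fin K, k.1 < j → b ≤ N k c) ∧ b ≤ n ∧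
      |(a c : ℝ) - a c'| ≤ ε * (δ * 2 ^ b) := by
    rcases Nat.eq_zero_or_pos j with hj | hj
    · refine ⟨n, fun k hk => ?_, le_rfl, T.all c c'⟩
      omega
    · have hjK : j < K := by
        by_contra hK
        apply hcc
        funext i
        apply hc i
        have := i.2
        omega
      let k0 : Fin K := ⟨j - 1, by omega⟩
      refine ⟨N k0 c, fun k hk => ?_, (T.top k0 c).le, ?_⟩
      · apply (T.dec c).antitone
        show k.1 ≤ j - 1
        omega
      · apply T.upp k0 c c'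
        intro i hi
        apply hc i
        have : i.1 ≤ j - 1 := hi
        omega
  have hd := T.dpos
  have hdiff : |(a c : ℝ) - a c'| / δ ≤ ε * 2 ^ b := by
    rw [div_le_iff₀ hd]
    calc _ ≤ ε * (δ * 2 ^ b) := hb3
      _ = ε * 2 ^ b * δ := by ring
  have hN : ∀ k : Fin K, k.1 < j → N k c = N k c' := by
    intro k hk
    apply T.dep k c c'
    intro i hi
    apply hc i
    have : i.1 < k.1 := hi
    omega
  let P : ℕ → Prop := fun i => ∀ k : Fin K, k.1 < j → dg (fun k => N k c) i k = x k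
  have hP' : ∀ i, (∀ k : Fin K, k.1 < j → dg (fun k => N k c') i k = x k) ↔ P i := by
    intro i
    have e : ∀ k : Fin K, k.1 < j → dg (fun k => N k c') i k = dg (fun k => N k c) i k := by
      intro k hk
      have h5 := hN k hk
      show (if i.testBit (N k c') = true then (1 : ZMod 2) else 0) =
        if i.testBit (N k c) = true then 1 else 0
      rw [h5]
    constructor
    · intro h k hk
      rw [← e k hk]
      exact h k hk
    · intro h k hk
      rw [e k hk]
      exact h k hk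
  have hblk : ∀ t, ∀ i ∈ Finset.Ico (t * 2 ^ b) ((t + 1) * 2 ^ b), (P i ↔ P (t * 2 ^ b)) := by
    intro t i hi
    have hi0 : t * 2 ^ b ∈ Finset.Ico (t * 2 ^ b) ((t + 1) * 2 ^ b) := by
      rw [Finset.mem_Ico]
      refine ⟨le_rfl, ?_⟩
      rw [add_mul, one_mul]
      exact Nat.lt_add_of_pos_right (Nat.pow_pos (by norm_num))
    have e : ∀ k : Fin K, k.1 < j →
        dg (fun k => N k c) i k = dg (fun k => N k c) (t * 2 ^ b) k :=
      fun k hk => dg_block _ b k (hb1 k hk) t i _ hi hi0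
    constructor
    · intro h k hk
      rw [← e k hk]
      exact h k hk
    · intro h k hk
      rw [e k hk]
      exact h k hk
  have hrange : 2 ^ n = 2 ^ (n - b) * 2 ^ b := by
    rw [← pow_add]
    congr 1
    omega
  -- sums over the classes
  have hS : ∀ (s : D K) (I : Finset ℕ),
      I = (Finset.range (2 ^ n)).filter
        (fun i => ∀ k : Fin K, k.1 < j → dg (fun k => N k s) i k = x k) →
      ∑ v ∈ (V j : Finset (D K)), Gf N n f (s, x + v) =
        (∑ i ∈ I, (f s (i + 1) - f s i)) * 2 ^ K / 2 ^ n := by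
    intro s I hI
    rw [hI, ← pb_fiber, Finset.sum_mul, Finset.sum_div]
    rfl
  obtain ⟨I, hI⟩ : ∃ I : Finset ℕ, I = (Finset.range (2 ^ n)).filter
        (fun i => ∀ k : Fin K, k.1 < j → dg (fun k => N k c) i k = x k) := ⟨_, rfl⟩
  have hI' : I = (Finset.range (2 ^ n)).filter
        (fun i => ∀ k : Fin K, k.1 < j → dg (fun k => N k c') i k = x k) := by
    rw [hI]
    apply Finset.filter_congr
    intro i _
    exact (hP' i).symm
  rw [hS c I hI, hS c' I hI']
  have hcard : (I.card : ℝ) * 2 ^ K / 2 ^ n = ((V j : Finset (D K)).card : ℝ) := by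
    have h1 := pb_fiber (fun k => N k c) n j x (fun _ => 1)
    rw [← hI] at h1
    have h2 : (I.card : ℝ) = ∑ _i ∈ I, (1 : ℝ) := by simp
    rw [h2, ← h1, Finset.sum_mul, Finset.sum_div]
    have h3 : ∀ v ∈ (V j : Finset (D K)),
        (∑ _i ∈ (Finset.range (2 ^ n)).filter (fun i => dg (fun k => N k c) i = x + v), (1 : ℝ)) *
          2 ^ K / 2 ^ n = 1 := by
      intro v _
      have h4 := pb_card T (c, x + v)
      rw [Finset.sum_const, nsmul_eq_mul, mul_one]
      exact h4
    rw [Finset.sum_congr rfl h3, Finset.sum_const, nsmul_eq_mul, mul_one]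
  have hcardB : (I.card : ℝ) = ∑ t ∈ Finset.range (2 ^ (n - b)),
      if P (t * 2 ^ b) then (2 : ℝ) ^ b else 0 := by
    have h1 := pb_tele P (fun i => (i : ℝ)) (2 ^ b) (2 ^ (n - b)) hblk
    rw [← hrange] at h1
    have h2 : (I.card : ℝ) = ∑ i ∈ (Finset.range (2 ^ n)).filter P, (((i + 1 : ℕ) : ℝ) - (i : ℝ)) := by
      rw [hI]
      rw [Finset.card_eq_sum_ones]
      push_cast
      refine Finset.sum_congr rfl fun i _ => ?_
      ring
    rw [h2, h1]
    refine Finset.sum_congr rfl fun t _ => ?_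
    by_cases h : P (t * 2 ^ b)
    · rw [if_pos h, if_pos h]
      push_cast
      ring
    · rw [if_neg h, if_neg h]
  have hmain : |∑ i ∈ I, (f c (i + 1) - f c i) - ∑ i ∈ I, (f c' (i + 1) - f c' i)| ≤
      (I.card : ℝ) * (2 * ε * M) := by
    have h1 : ∑ i ∈ I, (f c (i + 1) - f c i) - ∑ i ∈ I, (f c' (i + 1) - f c' i) =
        ∑ i ∈ (Finset.range (2 ^ (n - b) * 2 ^ b)).filter P,
          ((fun i => f c i - f c' i) (i + 1) - (fun i => f c i - f c' i) i) := by
      rw [← Finset.sum_sub_distrib, hI, ← hrange]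
      refine Finset.sum_congr rfl fun i _ => ?_
      ring
    rw [h1, pb_tele P (fun i => f c i - f c' i) (2 ^ b) (2 ^ (n - b)) hblk, hcardB,
      Finset.sum_mul]
    refine (Finset.abs_sum_le_sum_abs _ _).trans (Finset.sum_le_sum fun t _ => ?_)
    by_cases h : P (t * 2 ^ b)
    · rw [if_pos h, if_pos h]
      have h2 := hf c c' ((t + 1) * 2 ^ b)
      have h3 := hf c c' (t * 2 ^ b)
      have h4 : M * (|(a c : ℝ) - a c'| / δ) ≤ M * (ε * 2 ^ b) :=
        mul_le_mul_of_nonneg_left hdiff hM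
      refine (abs_sub _ _).trans ?_
      calc _ ≤ M * (ε * 2 ^ b) + M * (ε * 2 ^ b) := add_le_add (h2.trans h4) (h3.trans h4)
        _ = 2 ^ b * (2 * ε * M) := by ring
    · rw [if_neg h, if_neg h, abs_zero, zero_mul]
  have e5 : (∑ i ∈ I, (f c (i + 1) - f c i)) * 2 ^ K / 2 ^ n -
      (∑ i ∈ I, (f c' (i + 1) - f c' i)) * 2 ^ K / 2 ^ n =
      (∑ i ∈ I, (f c (i + 1) - f c i) - ∑ i ∈ I, (f c' (i + 1) - f c' i)) * 2 ^ K / 2 ^ n := by
    ring
  rw [e5, abs_div, abs_mul, abs_of_nonneg (show (0 : ℝ) ≤ 2 ^ K by positivity),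
    abs_of_nonneg (show (0 : ℝ) ≤ 2 ^ n by positivity), ← hcard]
  calc _ ≤ ((I.card : ℝ) * (2 * ε * M)) * 2 ^ K / 2 ^ n := by gcongr
    _ = (I.card : ℝ) * 2 ^ K / 2 ^ n * (2 * ε * M) := by ring

end H50LP
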