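import Pool.Agent.H50.LP.Defs

/-!
MP_b365ef_an [H50 LP SEL]. The centre of a set which is not `(K+1)`-fat.
`Fat.nonempty`: induction (the set `B ⊆ A` is nonempty).
Proof of `sel`. If no `C ⊆ B` is `K`-fat take a constant sequence. Otherwise let
`D = {d : ℝ | ∃ C ⊆ B, Fat 2 K C ∧ ∀ c ∈ C, ∀ c' ∈ C, |c - c'| ≤ d}`. Elements of `D` are `≥ 0`. Case 1: there is `ρ > 0`
with `ρ ≤ d` for all `d ∈ D`, and (choose `ρ` = half of the infimum, or argue with the infimum `m > 0`) some `d0 ∈ D` with `d0 ≤ 2 m`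
where `m = sInf D > 0`. Let `C0` be a set for `d0`, `b ∈ C0`, constant sequence `b`, `b0 = b`. Let `C` be `K`-fat with diameter
bound `d` (so `d ∈ D`, `m ≤ d`); `r = max d0 d ≤ 2 d`, `r > 0`. Since `B` is not `(K+1)`-fat (witness `r`, `C0`, `C`) there are
`x ∈ C0`, `c1 ∈ C` with `|x - c1| < 2 r ≤ 4 d`. So `|c - b| ≤ |c - c1| + |c1 - x| + |x - b| ≤ d + 4 d + 2 d = 7 d` (for an unbounded
family with `D` having no positive lower bound see case 2). Case 2: `sInf D = 0`: for every `n` there is `d_n ∈ D`,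
`d_n ≤ 1/(n+1)`, set `C_n`, point `b n ∈ C_n`. For `n, m` let `r = max (1/(n+1)) (1/(m+1))`; not `(K+1)`-fat gives points at
distance `< 2 r`, so `|b n - b m| ≤ 4 r`: Cauchy, limit `b0` (`cauchySeq_tendsto_of_complete`). For `C` with bound `d` and
`c ∈ C`: with `r = max d (1/(n+1))`: `|c - b n| ≤ d + 2 r + 1/(n+1)`; let `n → ∞`: `|c - b0| ≤ 3 d ≤ 7 d` (`d ≥ 0`).
-/

set_option autoImplicit false

namespace H50LP

theorem Fat.nonempty {L : ℝ} {K : ℕ} {A : Set ℝ} (h : Fat L K A) : A.Nonempty := by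
  induction K generalizing A with
  | zero => exact h
  | succ K ih =>
    obtain ⟨r, hr, B, hB, C, hC, h1, h2, h3⟩ := h
    exact (ih h1).mono hB

theorem Fat.mono {L : ℝ} {K : ℕ} {A B : Set ℝ} (h : Fat L K A) (hAB : A ⊆ B) : Fat L K B := by
  cases K with
  | zero => exact Set.Nonempty.mono hAB h
  | succ K =>
    obtain ⟨r, hr, B', hB, C, hC, h1, h2, h3⟩ := h
    exact ⟨r, hr, B', hB.trans hAB, C, hC.trans hAB, h1, h2, h3⟩

/-- Two `K`-fat subsets of a set which is not `(K+1)`-fat are close. -/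
theorem close_SEL {K : ℕ} {B : Set ℝ} (h : ¬ Fat 2 (K + 1) B) {r : ℝ} (hr : 0 < r)
    {C C' : Set ℝ} (hC : C ⊆ B) (hC' : C' ⊆ B) (h1 : Fat 2 K C) (h2 : Fat 2 K C')
    (h3 : ∀ c ∈ C, ∀ c' ∈ C, |c - c'| ≤ r) (h4 : ∀ c ∈ C', ∀ c' ∈ C', |c - c'| ≤ r) :
    ∃ x ∈ C, ∃ y ∈ C', |x - y| < 2 * r := by
  by_contra hcon
  push Not at hcon
  exact h ⟨r, hr, C, hC, C', hC', h1, h2, h3, h4, fun b hb c hc => hcon b hb c hc⟩

theorem sel {K : ℕ} {B : Set ℝ} (hB : B.Nonempty) (h : ¬ Fat 2 (K + 1) B) :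
    ∃ (b : ℕ → B) (b0 : ℝ), Filter.Tendsto (fun n => (b n : ℝ)) Filter.atTop (nhds b0) ∧
      ∀ C ⊆ B, Fat 2 K C → ∀ d : ℝ, (∀ c ∈ C, ∀ c' ∈ C, |c - c'| ≤ d) →
        ∀ c ∈ C, |c - b0| ≤ 7 * d := by
  set D : Set ℝ := {d : ℝ | ∃ C ⊆ B, Fat 2 K C ∧ ∀ c ∈ C, ∀ c' ∈ C, |c - c'| ≤ d} with hD
  obtain ⟨b1, hb1⟩ := hB
  by_cases hne : D.Nonempty
  swap
  · refine ⟨fun _ => ⟨b1, hb1⟩, b1, tendsto_const_nhds, ?_⟩
    intro C hC hfat d hd c hc
    exact absurd ⟨d, C, hC, hfat, hd⟩ hne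
  have hnn : ∀ d ∈ D, 0 ≤ d := by
    rintro d ⟨C, hC, hfat, hd⟩
    obtain ⟨c, hc⟩ := hfat.nonempty
    exact (abs_nonneg _).trans (hd c hc c hc)
  have hbdd : BddBelow D := ⟨0, fun d hd => hnn d hd⟩
  have hm0 : 0 ≤ sInf D := Real.sInf_nonneg hnn
  rcases hm0.lt_or_eq with hm | hm
  · obtain ⟨d0, hd0D, hd0⟩ := exists_lt_of_csInf_lt hne (show sInf D < 2 * sInf D by linarith)
    obtain ⟨C0, hC0, hfat0, hd0'⟩ := hd0D
    obtain ⟨c0, hc0⟩ := hfat0.nonempty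
    refine ⟨fun _ => ⟨c0, hC0 hc0⟩, c0, tendsto_const_nhds, ?_⟩
    intro C hC hfat d hd c hc
    have hdD : sInf D ≤ d := csInf_le hbdd ⟨C, hC, hfat, hd⟩
    have hdpos : 0 < d := by linarith
    have hr1 : d0 ≤ max d0 d := le_max_left _ _
    have hr2 : d ≤ max d0 d := le_max_right _ _
    have hr3 : max d0 d ≤ 2 * d := max_le (by linarith) (by linarith)
    obtain ⟨x, hx, y, hy, hxy⟩ := close_SEL h (lt_of_lt_of_le hdpos hr2) hC0 hC hfat0 hfat
      (fun c hc c' hc' => (hd0' c hc c' hc').trans hr1)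
      (fun c hc c' hc' => (hd c hc c' hc').trans hr2)
    have e1 := hd c hc y hy
    have e2 := hd0' x hx c0 hc0
    rw [abs_le] at e1 e2 ⊢
    rw [abs_lt] at hxy
    constructor <;> linarith [e1.1, e1.2, e2.1, e2.2, hxy.1, hxy.2]
  · have hex : ∀ n : ℕ, ∃ C ⊆ B, Fat 2 K C ∧ ∀ c ∈ C, ∀ c' ∈ C, |c - c'| ≤ 1 / ((n : ℝ) + 1) := by
      intro n
      have hn : (0 : ℝ) < 1 / ((n : ℝ) + 1) := by positivity
      obtain ⟨d, ⟨C, hC, hfat, hd⟩, hlt⟩ := exists_lt_of_csInf_lt hne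
        (show sInf D < 1 / ((n : ℝ) + 1) by rw [← hm]; exact hn)
      exact ⟨C, hC, hfat, fun c hc c' hc' => (hd c hc c' hc').trans hlt.le⟩
    choose C hC hfat hd using hex
    choose b hb using fun n => (hfat n).nonempty
    -- distance from a point of a fat set
    have hdist : ∀ (C' : Set ℝ), C' ⊆ B → Fat 2 K C' → ∀ d : ℝ,
        (∀ c ∈ C', ∀ c' ∈ C', |c - c'| ≤ d) → ∀ c ∈ C', ∀ n : ℕ,
        |c - b n| ≤ 3 * d + 3 * (1 / ((n : ℝ) + 1)) := by
      intro C' hC' hfat' d hd' c hc n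
      have hn : (0 : ℝ) < 1 / ((n : ℝ) + 1) := by positivity
      have hd0 : 0 ≤ d := hnn d ⟨C', hC', hfat', hd'⟩
      obtain ⟨x, hx, y, hy, hxy⟩ := close_SEL h (add_pos_of_nonneg_of_pos hd0 hn) hC' (hC n)
        hfat' (hfat n) (fun c hc c' hc' => (hd' c hc c' hc').trans (by linarith))
        (fun c hc c' hc' => (hd n c hc c' hc').trans (by linarith))
      have e1 := hd' c hc x hx
      have e2 := hd n y hy (b n) (hb n)
      rw [abs_le] at e1 e2 ⊢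
      rw [abs_lt] at hxy
      constructor <;> linarith [e1.1, e1.2, e2.1, e2.2, hxy.1, hxy.2]
    have hcau : CauchySeq b := by
      refine cauchySeq_of_le_tendsto_0 (fun N : ℕ => 6 * (1 / ((N : ℝ) + 1))) ?_ ?_
      · intro n m N hn hm'
        have h1 := hdist (C n) (hC n) (hfat n) _ (hd n) (b n) (hb n) m
        have h2 : 1 / ((n : ℝ) + 1) ≤ 1 / ((N : ℝ) + 1) := by
          apply one_div_le_one_div_of_le (by positivity)
          have : (N : ℝ) ≤ n := by exact_mod_cast hn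
          linarith
        have h3 : 1 / ((m : ℝ) + 1) ≤ 1 / ((N : ℝ) + 1) := by
          apply one_div_le_one_div_of_le (by positivity)
          have : (N : ℝ) ≤ m := by exact_mod_cast hm'
          linarith
        rw [Real.dist_eq]
        linarith
      · have h1 := tendsto_one_div_add_atTop_nhds_zero_nat (𝕜 := ℝ)
        have h2 := h1.const_mul 6
        rwa [mul_zero] at h2
    obtain ⟨b0, hb0⟩ := cauchySeq_tendsto_of_complete hcau
    refine ⟨fun n => ⟨b n, hC n (hb n)⟩, b0, hb0, ?_⟩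
    intro C' hC' hfat' d hd' c hc
    have hd0 : 0 ≤ d := hnn d ⟨C', hC', hfat', hd'⟩
    have h1 : Filter.Tendsto (fun n => |c - b n|) Filter.atTop (nhds |c - b0|) :=
      (tendsto_const_nhds.sub hb0).abs
    have h2 : Filter.Tendsto (fun n : ℕ => 3 * d + 3 * (1 / ((n : ℝ) + 1))) Filter.atTop
        (nhds (3 * d + 3 * 0)) :=
      tendsto_const_nhds.add (tendsto_one_div_add_atTop_nhds_zero_nat.const_mul 3)
    have h3 := le_of_tendsto_of_tendsto' h1 h2 (fun n => hdist C' hC' hfat' d hd' c hc n)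
    linarith

end H50LP
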