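import Pool.Agent.H50.LP.TData
import Pool.Agent.H50.LP.Sel

/-!
MP_b365ef_an [H50 LP TREE]. Tree data from fatness.
First, real scales `2^e` with integer exponents: Claim. For `L ≥ 4`, `2 / L ≤ ε`, `Fat L K A` implies: there are `a : D K → A` and
`e : Fin K → D K → ℤ` such that (dep) `e k s` depends only on `s_i`, `i < k`; (dec) `e l s < e k s` for `k < l`; (low) if `s, s'` agree below `j` and
`s_j ≠ s'_j` then `2^(e j s) ≤ |a s - a s'|`; (upp) if `s, s'` agree up to `j` (inclusive) then `|a s - a s'| ≤ ε 2^(e j s)`.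
Induction on `K`. `K = 0`: any point. `K + 1`: `r, B, C` from `Fat`; `e0` = the integer with `2^e0 ≤ L r < 2^(e0+1)` (`exists_mem_Ico_zpow`). Data
`(aB, eB)` for `B`, `(aC, eC)` for `C` (same `K`). `a s = aB (tail s)` if `s 0 = 0`, `aC (tail s)` otherwise; `e 0 s = e0`, `e (k+1) s = eB k (tail s)` resp.
`eC k (tail s)` (`Fin.tail`, `Fin.cases`). (low) at `j = 0`: one point in `B`, one in `C`: `2^e0 ≤ L r ≤ |a s - a s'|`; (upp) at `j = 0`: both
in `B` (or `C`): `|a s - a s'| ≤ r < 2^(e0+1) / L ≤ ε 2^e0`. (dec): need `eB 0 s < e0` if `K ≥ 1`: take `s'` with `s' 0 ≠ s 0` (flip the first letter):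
`2^(eB 0 s) ≤ |aB s - aB s'| ≤ r < 2^(e0+1) / L < 2^e0` as `L ≥ 4`; then `eB k s ≤ eB 0 s < e0`. (low), (upp) for `j + 1` from the parts.
Then: `E = min` over the finitely many `e k s` (and `0`), `δ = 2^E`, `N k s = (e k s - E).toNat`, `n` larger than all `N k s` and such that the finitely many
`|a s - a s'|` are `≤ ε δ 2^n`. Apply the claim with `L = max 4 (2 / ε)`.
-/

set_option autoImplicit false

namespace H50LP

/-- Tree data with real scales `2^e`. -/
def TreeZ_TREE (ε : ℝ) (K : ℕ) (A : Set ℝ) (a : D K → ℝ) (e : Fin K → D K → ℤ) : Prop :=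
  (∀ s, a s ∈ A) ∧
  (∀ (k : Fin K) (s s' : D K), (∀ i : Fin K, i < k → s i = s' i) → e k s = e k s') ∧
  (∀ (s : D K) (k l : Fin K), k < l → e l s < e k s) ∧
  (∀ (j : Fin K) (s s' : D K), (∀ i : Fin K, i < j → s i = s' i) → s j ≠ s' j →
    (2 : ℝ) ^ (e j s) ≤ |a s - a s'|) ∧
  (∀ (j : Fin K) (s s' : D K), (∀ i : Fin K, i ≤ j → s i = s' i) →
    |a s - a s'| ≤ ε * (2 : ℝ) ^ (e j s))

theorem treeZ_TREE (ε L : ℝ) (hL : 4 ≤ L) (hε : 2 ≤ ε * L) (K : ℕ) (A : Set ℝ)
    (hA : Fat L K A) : ∃ a e, TreeZ_TREE ε K A a e := by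
  induction K generalizing A with
  | zero =>
    obtain ⟨x, hx⟩ := hA
    exact ⟨fun _ => x, fun k => k.elim0, fun _ => hx, fun k => k.elim0, fun _ k => k.elim0,
      fun j => j.elim0, fun j => j.elim0⟩
  | succ K ih =>
    obtain ⟨r, hr, B, hB, C, hC, fB, fC, dB, dC, sep⟩ := hA
    have hz2 : ∀ z z' : ZMod 2, z ≠ 0 → z' ≠ 0 → z = z' := by decide
    obtain ⟨S, hS⟩ : ∃ S : ZMod 2 → Set ℝ, ∀ z, S z = if z = 0 then B else C :=
      ⟨_, fun _ => rfl⟩
    have hSA : ∀ z, S z ⊆ A := by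
      intro z
      rw [hS]
      split_ifs
      · exact hB
      · exact hC
    have hSd : ∀ z, ∀ x ∈ S z, ∀ y ∈ S z, |x - y| ≤ r := by
      intro z
      rw [hS]
      split_ifs
      · exact dB
      · exact dC
    have hSs : ∀ z z', z ≠ z' → ∀ x ∈ S z, ∀ y ∈ S z', L * r ≤ |x - y| := by
      intro z z' hzz x hx y hy
      rw [hS] at hx hy
      by_cases h1 : z = 0
      · by_cases h2 : z' = 0
        · exact absurd (h1.trans h2.symm) hzz
        · rw [if_pos h1] at hx
          rw [if_neg h2] at hy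
          exact sep x hx y hy
      · by_cases h2 : z' = 0
        · rw [if_neg h1] at hx
          rw [if_pos h2] at hy
          rw [abs_sub_comm]
          exact sep y hy x hx
        · exact absurd (hz2 z z' h1 h2) hzz
    have hSt : ∀ z, ∃ a e, TreeZ_TREE ε K (S z) a e := by
      intro z
      apply ih
      rw [hS]
      split_ifs
      · exact fB
      · exact fC
    choose aX eX hX using hSt
    have hL0 : 0 < L := by linarith
    obtain ⟨e0, he0, he1⟩ := exists_mem_Ico_zpow (mul_pos hL0 hr) (one_lt_two (α := ℝ))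
    have hp : (0 : ℝ) < 2 ^ e0 := zpow_pos (by norm_num) _
    rw [zpow_add_one₀ (by norm_num : (2 : ℝ) ≠ 0)] at he1
    refine ⟨fun s => aX (s 0) (Fin.tail s),
      fun k s => Fin.cases e0 (fun k => eX (s 0) k (Fin.tail s)) k, ?_, ?_, ?_, ?_, ?_⟩
    · intro s
      exact hSA (s 0) ((hX (s 0)).1 _)
    · intro k s s' h
      induction k using Fin.cases with
      | zero => rfl
      | succ k =>
        have h0 : s 0 = s' 0 := h 0 (Fin.succ_pos k)
        show eX (s 0) k (Fin.tail s) = eX (s' 0) k (Fin.tail s')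
        rw [h0]
        apply (hX (s' 0)).2.1 k
        intro i hi
        exact h i.succ (Fin.succ_lt_succ_iff.2 hi)
    · intro s k l hkl
      induction l using Fin.cases with
      | zero => exact absurd hkl (Fin.not_lt_zero k)
      | succ l =>
        induction k using Fin.cases with
        | zero =>
          show eX (s 0) l (Fin.tail s) < e0
          let t : D K := Fin.tail s
          let t' : D K := Function.update t l (t l + 1)
          have h1 : ∀ i : Fin K, i < l → t i = t' i := by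
            intro i hi
            exact (Function.update_of_ne (ne_of_lt hi) _ _).symm
          have h2 : t l ≠ t' l := by
            intro h
            have h3 : t' l = t l + 1 := Function.update_self _ _ _
            rw [h3] at h
            exact (by decide : ∀ z : ZMod 2, z ≠ z + 1) _ h
          have h3 := (hX (s 0)).2.2.2.1 l t t' h1 h2
          have h4 := hSd (s 0) _ ((hX (s 0)).1 t) _ ((hX (s 0)).1 t')
          have h5 : (2 : ℝ) ^ (eX (s 0) l t) < 2 ^ e0 := by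
            have h6 : 4 * r ≤ L * r := mul_le_mul_of_nonneg_right hL hr.le
            linarith
          exact (zpow_lt_zpow_iff_right₀ (one_lt_two (α := ℝ))).1 h5
        | succ k =>
          exact (hX (s 0)).2.2.1 (Fin.tail s) k l (Fin.succ_lt_succ_iff.1 hkl)
    · intro j s s' h hne
      induction j using Fin.cases with
      | zero =>
        show (2 : ℝ) ^ e0 ≤ _
        exact he0.trans (hSs _ _ hne _ ((hX (s 0)).1 _) _ ((hX (s' 0)).1 _))
      | succ j =>
        have h0 : s 0 = s' 0 := h 0 (Fin.succ_pos j)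
        show (2 : ℝ) ^ (eX (s 0) j (Fin.tail s)) ≤
          |aX (s 0) (Fin.tail s) - aX (s' 0) (Fin.tail s')|
        rw [← h0]
        apply (hX (s 0)).2.2.2.1 j
        · intro i hi
          exact h i.succ (Fin.succ_lt_succ_iff.2 hi)
        · exact hne
    · intro j s s' h
      induction j using Fin.cases with
      | zero =>
        have h0 : s 0 = s' 0 := h 0 le_rfl
        show |aX (s 0) (Fin.tail s) - aX (s' 0) (Fin.tail s')| ≤ ε * (2 : ℝ) ^ e0
        rw [← h0]
        have h4 := hSd (s 0) _ ((hX (s 0)).1 (Fin.tail s)) _ ((hX (s 0)).1 (Fin.tail s'))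
        refine h4.trans ?_
        have h6 : L * r ≤ L * (ε * 2 ^ e0) := by
          have h7 : 2 * (2 : ℝ) ^ e0 ≤ ε * L * 2 ^ e0 := mul_le_mul_of_nonneg_right hε hp.le
          calc L * r ≤ 2 ^ e0 * 2 := he1.le
            _ = 2 * (2 : ℝ) ^ e0 := mul_comm _ _
            _ ≤ ε * L * 2 ^ e0 := h7
            _ = L * (ε * 2 ^ e0) := by ring
        exact le_of_mul_le_mul_left h6 hL0
      | succ j =>
        have h0 : s 0 = s' 0 := h 0 (Fin.zero_le _)
        show |aX (s 0) (Fin.tail s) - aX (s' 0) (Fin.tail s')| ≤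
          ε * (2 : ℝ) ^ (eX (s 0) j (Fin.tail s))
        rw [← h0]
        apply (hX (s 0)).2.2.2.2 j
        intro i hi
        exact h i.succ (Fin.succ_le_succ_iff.2 hi)

theorem tree {A : Set ℝ} (h : ∀ (L : ℝ) (K : ℕ), Fat L K A) (ε : ℝ) (hε : 0 < ε) (K : ℕ) :
    ∃ δ n a N, TData ε δ K n A a N := by
  have hL : 2 ≤ ε * max 4 (2 / ε) := by
    calc (2 : ℝ) = ε * (2 / ε) := by field_simp
      _ ≤ ε * max 4 (2 / ε) := mul_le_mul_of_nonneg_left (le_max_right _ _) hε.le
  obtain ⟨a, e, hmem, hdep, hdec, hlow, hupp⟩ := treeZ_TREE ε (max 4 (2 / ε)) (le_max_left _ _) hL K A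
    (h _ K)
  obtain ⟨E, hE⟩ : ∃ E : ℤ, ∀ (k : Fin K) (s : D K), E ≤ e k s := by
    obtain ⟨E, hE⟩ := (Set.finite_range (fun p : Fin K × D K => e p.1 p.2)).bddBelow
    exact ⟨E, fun k s => hE ⟨(k, s), rfl⟩⟩
  obtain ⟨R, hR⟩ : ∃ R : ℝ, ∀ s s' : D K, |a s - a s'| ≤ R := by
    obtain ⟨R, hR⟩ := (Set.finite_range (fun p : D K × D K => |a p.1 - a p.2|)).bddAbove
    exact ⟨R, fun s s' => hR ⟨(s, s'), rfl⟩⟩
  obtain ⟨n1, hn1⟩ : ∃ n1 : ℕ, ∀ (k : Fin K) (s : D K), (e k s - E).toNat ≤ n1 := by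
    obtain ⟨n1, hn1⟩ := (Set.finite_range (fun p : Fin K × D K => (e p.1 p.2 - E).toNat)).bddAbove
    exact ⟨n1, fun k s => hn1 ⟨(k, s), rfl⟩⟩
  have hδ : (0 : ℝ) < 2 ^ E := zpow_pos (by norm_num) _
  obtain ⟨n2, hn2⟩ := pow_unbounded_of_one_lt (R / (ε * 2 ^ E)) (one_lt_two (α := ℝ))
  have hscale : ∀ k s, (2 : ℝ) ^ E * 2 ^ ((e k s - E).toNat) = 2 ^ (e k s) := by
    intro k s
    rw [← zpow_natCast (2 : ℝ), ← zpow_add₀ (by norm_num : (2 : ℝ) ≠ 0)]
    congr 1
    have := hE k s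
    omega
  refine ⟨2 ^ E, max (n1 + 1) n2, fun s => ⟨a s, hmem s⟩, fun k s => (e k s - E).toNat, hδ, ?_, ?_,
    ?_, ?_, ?_, ?_⟩
  · intro k s s' h1
    show (e k s - E).toNat = (e k s' - E).toNat
    rw [hdep k s s' h1]
  · intro s k l hkl
    show (e l s - E).toNat < (e k s - E).toNat
    have h1 := hdec s k l hkl
    have h2 := hE l s
    omega
  · intro k s
    exact lt_of_lt_of_le (Nat.lt_succ_of_le (hn1 k s)) (le_max_left _ _)
  · intro j s s' h1 h2
    show (2 : ℝ) ^ E * 2 ^ ((e j s - E).toNat) ≤ |a s - a s'|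
    rw [hscale]
    exact hlow j s s' h1 h2
  · intro j s s' h1
    show |a s - a s'| ≤ ε * ((2 : ℝ) ^ E * 2 ^ ((e j s - E).toNat))
    rw [hscale]
    exact hupp j s s' h1
  · intro s s'
    show |a s - a s'| ≤ ε * ((2 : ℝ) ^ E * 2 ^ (max (n1 + 1) n2))
    refine (hR s s').trans ?_
    rw [div_lt_iff₀ (mul_pos hε hδ)] at hn2
    have h3 : (2 : ℝ) ^ n2 ≤ 2 ^ (max (n1 + 1) n2) :=
      pow_le_pow_right₀ (by norm_num) (le_max_right _ _)
    calc R ≤ 2 ^ n2 * (ε * 2 ^ E) := hn2.le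
      _ ≤ 2 ^ (max (n1 + 1) n2) * (ε * 2 ^ E) :=
          mul_le_mul_of_nonneg_right h3 (mul_pos hε hδ).le
      _ = ε * ((2 : ℝ) ^ E * 2 ^ (max (n1 + 1) n2)) := by ring

end H50LP
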