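import Pool.Agent.H50.LP.JBound
import Pool.Agent.H50.LP.PBound
import Pool.Agent.H50.LP.Interp
import Pool.Agent.H50.LP.FatBig
import Pool.Agent.H50.LP.Tree
import Pool.Agent.H50.LP.OoBasic

/-!
MP_b365ef_an [H50 LP EMB]. `Tri K` is complemented in `LX A a0`, with constants independent of `K`.
Proof. If `K = 0` everything is trivial but the general argument works too. Take `ε = 1 / (2 K + 2)` and tree data `δ, n, a, N`
(`tree`, `fat_big`). The points `a s` are distinct: for `s ≠ s'` take the first `j` with `s_j ≠ s'_j` (`Fin.find` or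
`Finset.exists_minimal`/ strong induction), `low` gives `0 < δ 2^.. ≤ |a s - a s'|`. Interpolation `interp2` with `ι = Fin (2^n + 1)`,
`t i = i δ`, `κ = D K`, `u s = a s` gives `Ext`.
`J g (x, y) = Ext Φ x y - Ext Φ 0 a0` with `Φ i s = δ * Fg N g s i` (linear in `g`). If `|g| ≤ M` (`M ≥ 0`): `|Φ i s - Φ i' s| ≤ M δ |i - i'|` (a sum of `|i - i'|` terms), and
for `s ≠ s'` with first difference `j`: `|Φ i s - Φ i s'| ≤ δ 4 M 2^(N j s) ≤ 4 M |a s - a s'|` (`J_bound`, `low`). So `bd (4 M) (J g)`; membership in `LX`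
with a bound `M` of the finitely many values `|g p|`.
`P f = Oo K (Gf N n F)` with `F s i = f (i δ) (a s) / δ` (linear in `f`). If `bd M f`: `|F s (i+1) - F s i| ≤ M`, `|F s i - F s' i| ≤ M |a s - a s'| / δ`. So
`|Gf| ≤ M` (`Gf_bound`) and `|Oo Gf - Gf| ≤ K * 2 ε M ≤ M` (`Gf_diff`, `Oo_close`). `P f ∈ Tri K` by `Oo_mem`.
`P (J g)`: `F s i = Fg N g s i - const` for `i ≤ 2^n`, and `Gf` only uses differences with `i + 1 ≤ 2^n`, so `Gf F = Gf (Fg N g) = g` (`Gf_Fg`), `Oo K g = g` (`Oo_id`).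
-/

set_option autoImplicit false

namespace H50LP

private theorem emb_first {K : ℕ} {s s' : D K} (h : s ≠ s') :
    ∃ j : Fin K, (∀ i : Fin K, i < j → s i = s' i) ∧ s j ≠ s' j := by
  obtain ⟨j0, hj0⟩ := Function.ne_iff.1 h
  obtain ⟨j, hj, hmin⟩ := WellFounded.has_min (wellFounded_lt (α := Fin K))
    {j | s j ≠ s' j} ⟨j0, hj0⟩
  exact ⟨j, fun i hi => by_contra fun h => hmin i h hi, hj⟩

private theorem emb_Fg {K : ℕ} (N : Fin K → D K → ℕ) (g : D K × D K → ℝ) {M : ℝ}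
    (hM : ∀ p, |g p| ≤ M) (s : D K) (m m' : ℕ) :
    |Fg N g s m - Fg N g s m'| ≤ M * |(m : ℝ) - m'| := by
  have key : ∀ m m' : ℕ, m ≤ m' → |Fg N g s m - Fg N g s m'| ≤ M * |(m : ℝ) - m'| := by
    intro m m' h
    rw [abs_sub_comm]
    unfold Fg
    rw [← Finset.sum_Ico_eq_sub _ h]
    refine (Finset.abs_sum_le_sum_abs _ _).trans
      ((Finset.sum_le_sum fun i _ => hM _).trans (le_of_eq ?_))
    rw [Finset.sum_const, Nat.card_Ico, nsmul_eq_mul, Nat.cast_sub h, abs_sub_comm,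
      abs_of_nonneg (sub_nonneg.2 (Nat.cast_le.2 h))]
    ring
  rcases le_total m m' with h | h
  · exact key m m' h
  · rw [abs_sub_comm, abs_sub_comm (m : ℝ)]
    exact key m' m h

private theorem emb_Fg_add {K : ℕ} (N : Fin K → D K → ℕ) (g h : D K × D K → ℝ) (s : D K)
    (m : ℕ) : Fg N (g + h) s m = Fg N g s m + Fg N h s m := by
  unfold Fg
  simp only [Pi.add_apply, Finset.sum_add_distrib]

private theorem emb_Fg_smul {K : ℕ} (N : Fin K → D K → ℕ) (c : ℝ) (g : D K × D K → ℝ)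
    (s : D K) (m : ℕ) : Fg N (c • g) s m = c * Fg N g s m := by
  unfold Fg
  simp only [Pi.smul_apply, smul_eq_mul, Finset.mul_sum]

private theorem emb_Gf_congr {K : ℕ} (N : Fin K → D K → ℕ) (n : ℕ) (f f' : D K → ℕ → ℝ)
    (h : ∀ s i, i < 2 ^ n → f s (i + 1) - f s i = f' s (i + 1) - f' s i) :
    Gf N n f = Gf N n f' := by
  funext p
  unfold Gf
  rw [Finset.sum_congr rfl]
  intro i hi
  exact h p.1 i (Finset.mem_range.1 (Finset.mem_filter.1 hi).1)

private theorem emb_Gf_add {K : ℕ} (N : Fin K → D K → ℕ) (n : ℕ) (f f' : D K → ℕ → ℝ) :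
    Gf N n (fun s i => f s i + f' s i) = Gf N n f + Gf N n f' := by
  funext p
  rw [Pi.add_apply]
  unfold Gf
  rw [← add_div, ← add_mul, ← Finset.sum_add_distrib]
  congr 2
  refine Finset.sum_congr rfl fun i _ => ?_
  ring

private theorem emb_Gf_smul {K : ℕ} (N : Fin K → D K → ℕ) (n : ℕ) (c : ℝ) (f : D K → ℕ → ℝ) :
    Gf N n (fun s i => c * f s i) = c • Gf N n f := by
  funext p
  rw [Pi.smul_apply, smul_eq_mul]
  unfold Gf
  rw [← mul_div_assoc, ← mul_assoc, Finset.mul_sum]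
  congr 2
  refine Finset.sum_congr rfl fun i _ => ?_
  ring

theorem emb (A : Set ℝ) (a0 : A) (hA : ∀ K, Fat 2 K A) (K : ℕ) :
    ∃ (J : Tri K →ₗ[ℝ] LX A a0) (P : LX A a0 →ₗ[ℝ] (D K × D K → ℝ)),
      (∀ f, P f ∈ Tri K) ∧ (∀ g : Tri K, P (J g) = g.1) ∧
      (∀ (g : Tri K) (M : ℝ), 0 ≤ M → (∀ p, |g.1 p| ≤ M) → bd (4 * M) (J g)) ∧
      ∀ (f : LX A a0) (M : ℝ), bd M f → ∀ p, |P f p| ≤ 2 * M := by
  have hε : (0 : ℝ) < 1 / (2 * K + 2) := by positivity
  obtain ⟨δ, n, a, N, T⟩ := tree (fun L K => fat_big hA L K) _ hε K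
  have hδ := T.dpos
  have hu : Function.Injective (fun s : D K => (a s : ℝ)) := by
    intro s s' h
    by_contra hne
    obtain ⟨j, hj, hj'⟩ := emb_first hne
    have h1 := T.low j s s' hj hj'
    have h2 : (a s : ℝ) - a s' = 0 := sub_eq_zero.2 h
    rw [h2, abs_zero] at h1
    have h3 : 0 < δ * 2 ^ (N j s) := by positivity
    linarith
  have ht : Function.Injective (fun i : Fin (2 ^ n + 1) => ((i : ℕ) : ℝ) * δ) := by
    intro i i' h
    have h1 : ((i : ℕ) : ℝ) = ((i' : ℕ) : ℝ) := mul_right_cancel₀ hδ.ne' h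
    exact Fin.ext (Nat.cast_injective h1)
  obtain ⟨Ext, hE0, hE1, hE2, -⟩ := interp2 (fun i : Fin (2 ^ n + 1) => ((i : ℕ) : ℝ) * δ) ht
    (fun s : D K => (a s : ℝ)) hu
  set Φ : (D K × D K → ℝ) →ₗ[ℝ] (Fin (2 ^ n + 1) → D K → ℝ) :=
    { toFun := fun g i s => δ * Fg N g s i
      map_add' := by
        intro g h
        funext i s
        show δ * Fg N (g + h) s i = δ * Fg N g s i + δ * Fg N h s i
        rw [emb_Fg_add, mul_add]
      map_smul' := by
        intro c g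
        funext i s
        show δ * Fg N (c • g) s i = c * (δ * Fg N g s i)
        rw [emb_Fg_smul, mul_left_comm] } with hΦ
  have hΦa : ∀ g i s, Φ g i s = δ * Fg N g s i := fun _ _ _ => rfl
  have hlip : ∀ (g : D K × D K → ℝ), g ∈ Tri K → ∀ M : ℝ, 0 ≤ M → (∀ p, |g p| ≤ M) →
      lipB (A := A) (4 * M) (fun x y => Ext (Φ g) x y - Ext (Φ g) 0 a0) := by
    intro g hg M hM hgM
    refine ⟨by positivity, ?_, ?_⟩
    · intro x x' y
      have e : (Ext (Φ g) x y - Ext (Φ g) 0 a0) - (Ext (Φ g) x' y - Ext (Φ g) 0 a0) =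
          Ext (Φ g) x y - Ext (Φ g) x' y := by ring
      rw [e]
      refine hE1 (Φ g) (4 * M) (by positivity) ?_ x x' y
      intro i i' s
      rw [hΦa, hΦa, ← mul_sub, ← sub_mul, abs_mul, abs_mul, abs_of_pos hδ]
      have h1 := emb_Fg N g hgM s i i'
      have h2 : M * |((i : ℕ) : ℝ) - ((i' : ℕ) : ℝ)| ≤ 4 * M * |((i : ℕ) : ℝ) - ((i' : ℕ) : ℝ)| :=
        mul_le_mul_of_nonneg_right (by linarith) (abs_nonneg _)
      calc δ * |Fg N g s i - Fg N g s i'| ≤ δ * (4 * M * |((i : ℕ) : ℝ) - ((i' : ℕ) : ℝ)|) :=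
            mul_le_mul_of_nonneg_left (h1.trans h2) hδ.le
        _ = 4 * M * (|((i : ℕ) : ℝ) - ((i' : ℕ) : ℝ)| * δ) := by ring
    · intro x y y'
      have e : (Ext (Φ g) x y - Ext (Φ g) 0 a0) - (Ext (Φ g) x y' - Ext (Φ g) 0 a0) =
          Ext (Φ g) x y - Ext (Φ g) x y' := by ring
      rw [e]
      refine hE2 (Φ g) (4 * M) (by positivity) ?_ x y y'
      intro i s s'
      rw [hΦa, hΦa, ← mul_sub, abs_mul, abs_of_pos hδ]
      by_cases hs : s = s'
      · subst hs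
        simp
      · obtain ⟨j, hj, hj'⟩ := emb_first hs
        have h1 := T.low j s s' hj hj'
        have h2 := J_bound T g hg M hgM j s s' hj i
        calc δ * |Fg N g s i - Fg N g s' i| ≤ δ * (4 * M * 2 ^ (N j s)) :=
              mul_le_mul_of_nonneg_left h2 hδ.le
          _ = 4 * M * (δ * 2 ^ (N j s)) := by ring
          _ ≤ 4 * M * |(a s : ℝ) - a s'| := mul_le_mul_of_nonneg_left h1 (by positivity)
  have hsup : ∀ g : D K × D K → ℝ, ∀ p, |g p| ≤ ∑ q, |g q| := fun g p =>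
    Finset.single_le_sum (f := fun q => |g q|) (fun _ _ => abs_nonneg _) (Finset.mem_univ p)
  have hsup0 : ∀ g : D K × D K → ℝ, 0 ≤ ∑ q, |g q| := fun g =>
    Finset.sum_nonneg fun _ _ => abs_nonneg _
  refine ⟨
    { toFun := fun g => ⟨fun x y => Ext (Φ g.1) x y - Ext (Φ g.1) 0 a0, sub_self _,
        4 * ∑ q, |g.1 q|, hlip g.1 g.2 _ (hsup0 g.1) (hsup g.1)⟩
      map_add' := ?_
      map_smul' := ?_ },
    (Oo K) ∘ₗ
    { toFun := fun f => Gf N n (fun s i => f.1 ((i : ℝ) * δ) (a s) / δ)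
      map_add' := ?_
      map_smul' := ?_ }, ?_, ?_, ?_, ?_⟩
  · intro g h
    apply Subtype.ext
    funext x y
    show Ext (Φ (g.1 + h.1)) x y - Ext (Φ (g.1 + h.1)) 0 a0 =
      (Ext (Φ g.1) x y - Ext (Φ g.1) 0 a0) + (Ext (Φ h.1) x y - Ext (Φ h.1) 0 a0)
    rw [map_add, map_add]
    simp only [Pi.add_apply]
    ring
  · intro c g
    apply Subtype.ext
    funext x y
    show Ext (Φ (c • g.1)) x y - Ext (Φ (c • g.1)) 0 a0 =
      c * (Ext (Φ g.1) x y - Ext (Φ g.1) 0 a0)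
    rw [map_smul, map_smul]
    simp only [Pi.smul_apply, smul_eq_mul]
    ring
  · intro f f'
    rw [← emb_Gf_add]
    refine emb_Gf_congr N n _ _ fun s i _ => ?_
    show (f.1 _ _ + f'.1 _ _) / δ - (f.1 _ _ + f'.1 _ _) / δ = _
    ring
  · intro c f
    rw [RingHom.id_apply, ← emb_Gf_smul]
    refine emb_Gf_congr N n _ _ fun s i _ => ?_
    show (c * f.1 _ _) / δ - (c * f.1 _ _) / δ = _
    ring
  · intro f
    exact Oo_mem _
  · intro g
    show Oo K (Gf N n (fun s i => (Ext (Φ g.1) ((i : ℝ) * δ) (a s) - Ext (Φ g.1) 0 a0) / δ)) = g.1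
    have h1 : Gf N n (fun s i => (Ext (Φ g.1) ((i : ℝ) * δ) (a s) - Ext (Φ g.1) 0 a0) / δ) =
        Gf N n (Fg N g.1) := by
      refine emb_Gf_congr N n _ _ fun s i hi => ?_
      have h2 : ∀ m : ℕ, m ≤ 2 ^ n → Ext (Φ g.1) ((m : ℝ) * δ) (a s) = δ * Fg N g.1 s m := by
        intro m hm
        exact hE0 (Φ g.1) ⟨m, Nat.lt_succ_of_le hm⟩ s
      rw [h2 i hi.le, h2 (i + 1) hi]
      field_simp
      ring
    rw [h1, Gf_Fg T g.1]
    exact Oo_id g.1 g.2
  · intro g M hM hgM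
    exact hlip g.1 g.2 M hM hgM
  · intro f M hf p
    have hM : 0 ≤ M := hf.1
    show |Oo K (Gf N n (fun s i => f.1 ((i : ℝ) * δ) (a s) / δ)) p| ≤ 2 * M
    set F : D K → ℕ → ℝ := fun s i => f.1 ((i : ℝ) * δ) (a s) / δ with hF
    have hF1 : ∀ s i, |F s (i + 1) - F s i| ≤ M := by
      intro s i
      have h1 := hf.2.1 (((i + 1 : ℕ) : ℝ) * δ) ((i : ℝ) * δ) (a s)
      have e : ((i + 1 : ℕ) : ℝ) * δ - (i : ℝ) * δ = δ := by
        push_cast
        ring
      rw [e, abs_of_pos hδ] at h1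
      show |f.1 (((i + 1 : ℕ) : ℝ) * δ) (a s) / δ - f.1 ((i : ℝ) * δ) (a s) / δ| ≤ M
      rw [← sub_div, abs_div, abs_of_pos hδ, div_le_iff₀ hδ]
      exact h1
    have hF2 : ∀ s s' i, |F s i - F s' i| ≤ M * (|(a s : ℝ) - a s'| / δ) := by
      intro s s' i
      have h1 := hf.2.2 ((i : ℝ) * δ) (a s) (a s')
      show |f.1 ((i : ℝ) * δ) (a s) / δ - f.1 ((i : ℝ) * δ) (a s') / δ| ≤ _
      rw [← sub_div, abs_div, abs_of_pos hδ, div_le_iff₀ hδ, mul_assoc, div_mul_cancel₀ _ hδ.ne']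
      exact h1
    have h1 := Gf_bound T F M hF1 p
    have h2 := Oo_close (Gf N n F) (2 * (1 / (2 * K + 2)) * M)
      (fun j c c' x hc => Gf_diff T F M hM hF2 hε.le j c c' x hc) p
    have h3 : (K : ℝ) * (2 * (1 / (2 * K + 2)) * M) ≤ M := by
      have h4 : (K : ℝ) * (2 * (1 / (2 * K + 2)) * M) = (2 * K / (2 * K + 2)) * M := by
        field_simp
      rw [h4]
      refine mul_le_of_le_one_left hM ?_
      rw [div_le_one (by positivity)]
      linarith
    have h5 : |Oo K (Gf N n F) p| ≤ |Oo K (Gf N n F) p - Gf N n F p| + |Gf N n F p| := by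
      have e : Oo K (Gf N n F) p = (Oo K (Gf N n F) p - Gf N n F p) + Gf N n F p := by ring
      calc |Oo K (Gf N n F) p| = |(Oo K (Gf N n F) p - Gf N n F p) + Gf N n F p| := by rw [← e]
        _ ≤ _ := abs_add_le _ _
    linarith

end H50LP
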