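import Pool.Agent.H50.LP.LinfBasic

/-!
MP_b365ef_an [H50 LP PELC]. The Pelczynski decomposition method.
Notation: `Z∞ = Linf ℕ (fun _ => Z)`. Assume `Z ≅ Z∞`, `X` complemented in `Z`, `Z` complemented in `X`.
(a) `compl_split`: if `Cpl C X Z` with `J : X → Z`, `P : Z → X`, let `W = ker P` (a submodule of `Z`, with the restricted
predicate `bd`: define the instance `BD W` locally, all axioms are inherited). The map `z ↦ (P z, z - J (P z))` is an isomorphism
`Z ≅ X × W` with inverse `(x, w) ↦ J x + w` (constants `max |C| (1 + C^2)` and so on). So there is a type `W` with all the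
instances and `Iso Z (X × W)`.
(b) `Z ≅ Z∞ ≅ Z × Z∞ ≅ Z × Z` (`linf_cons`).
(c) From `Z ≅ X × W`: `Z ≅ Z∞ ≅ (X × W)∞ ≅ X∞ × W∞ ≅ (X × X∞) × W∞ ≅ X × (X∞ × W∞) ≅ X × Z` (the last step backwards).
(d) From `X ≅ Z × W'`: `X ≅ Z × W' ≅ (Z × Z) × W' ≅ Z × (Z × W') ≅ Z × X`. So `X ≅ Z × X ≅ X × Z ≅ Z`.
-/

set_option autoImplicit false

namespace H50LP

section
variable {X Z : Type} [AddCommGroup X] [Module ℝ X] [BD X] [AddCommGroup Z] [Module ℝ Z] [BD Z]

/-- the restricted predicate on a submodule -/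
@[reducible] private def pelcBD (S : Submodule ℝ Z) : BD S where
  bd K v := bd K (v : Z)
  nonneg h := BD.nonneg h
  mono h h' := BD.mono h h'
  add h h' := BD.add h h'
  smul a h := BD.smul a h
  zero := BD.zero
  ex v := BD.ex (v : Z)

theorem compl_split {C : ℝ} (h : Cpl C X Z) :
    ∃ (W : Type) (_ : AddCommGroup W) (_ : Module ℝ W) (_ : BD W), Iso Z (X × W) := by
  obtain ⟨J, P, hPJ, hJ, hP⟩ := h
  letI : BD (LinearMap.ker P) := pelcBD (LinearMap.ker P)
  have hker : ∀ z : Z, (LinearMap.id - J.comp P : Z →ₗ[ℝ] Z) z ∈ LinearMap.ker P := by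
    intro z
    rw [LinearMap.mem_ker, LinearMap.sub_apply, LinearMap.id_apply, LinearMap.comp_apply, map_sub,
      hPJ, sub_self]
  have hC1 : 1 ≤ |C| + 1 + C ^ 2 := by nlinarith [abs_nonneg C, sq_nonneg C]
  refine ⟨LinearMap.ker P, inferInstance, inferInstance, inferInstance, ?_⟩
  let f : Z →ₗ[ℝ] X × LinearMap.ker P :=
    P.prod (LinearMap.codRestrict (LinearMap.ker P) (LinearMap.id - J.comp P) hker)
  let g : X × LinearMap.ker P →ₗ[ℝ] Z := LinearMap.coprod J (LinearMap.ker P).subtype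
  have hgf : g.comp f = LinearMap.id := by
    ext z
    show J (P z) + (z - J (P z)) = z
    abel
  have hfg : f.comp g = LinearMap.id := by
    apply LinearMap.ext
    rintro ⟨x, w⟩
    have hw : P (w : Z) = 0 := w.2
    show (P (J x + w), _) = (x, w)
    refine Prod.ext ?_ (Subtype.ext ?_)
    · show P (J x + w) = x
      rw [map_add, hPJ, hw, add_zero]
    · show (J x + (w : Z)) - J (P (J x + w)) = w
      rw [map_add, hPJ, hw, add_zero]
      abel
  refine ⟨LinearEquiv.ofLinearMap f g hfg hgf, |C| + 1 + C ^ 2, ?_, ?_⟩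
  · intro K z hz
    have hK := BD.nonneg hz
    have h1 := hP K z hz
    have h2 := hJ _ _ h1
    have h3 := BD.add hz (BD.smul (-1) h2)
    have hc := le_abs_self C
    refine ⟨BD.mono h1 ?_, ?_⟩
    · nlinarith [sq_nonneg C, mul_nonneg hK (sq_nonneg C), mul_nonneg hK (sub_nonneg.2 hc)]
    · have h4 : bd (K + |(-1 : ℝ)| * (C * (C * K))) (z - J (P z)) := by
        have : z - J (P z) = z + (-1 : ℝ) • J (P z) := by
          rw [neg_one_smul]
          abel
        rw [this]
        exact h3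
      refine BD.mono (V := Z) h4 ?_
      rw [abs_neg, abs_one, one_mul]
      nlinarith [mul_nonneg hK (abs_nonneg C)]
  · rintro K ⟨x, w⟩ ⟨h1, h2⟩
    have hK := BD.nonneg h1
    have h3 := hJ K x h1
    have h4 : bd (C * K + K) (J x + (w : Z)) := BD.add h3 h2
    have hc := le_abs_self C
    refine BD.mono (V := Z) h4 ?_
    nlinarith [mul_nonneg hK (sq_nonneg C), mul_nonneg hK (sub_nonneg.2 hc)]

theorem pelc {C D : ℝ} (h1 : Cpl C X Z) (h2 : Cpl D Z X) (h3 : Iso Z (Linf ℕ (fun _ => Z))) :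
    Iso X Z := by
  obtain ⟨W, i1, i2, i3, hW⟩ := compl_split h1
  obtain ⟨W', j1, j2, j3, hW'⟩ := compl_split h2
  have hb : Iso Z (Z × Z) := (h3.trans linf_cons.symm).trans (Iso.refl.prod h3.symm)
  have hc : Iso Z (X × Z) := by
    have e1 : Iso Z (Linf ℕ (fun _ => X × W)) := h3.trans (iso_linf hW)
    have e2 : Iso Z (Linf ℕ (fun _ => X) × Linf ℕ (fun _ => W)) := e1.trans linf_prod
    have e3 : Iso Z ((X × Linf ℕ (fun _ => X)) × Linf ℕ (fun _ => W)) :=
      e2.trans (linf_cons.symm.prod Iso.refl)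
    have e4 : Iso Z (X × (Linf ℕ (fun _ => X) × Linf ℕ (fun _ => W))) := e3.trans Iso.prodAssoc
    have e5 : Iso Z (X × Linf ℕ (fun _ => X × W)) := e4.trans (Iso.refl.prod linf_prod.symm)
    exact e5.trans (Iso.refl.prod e1.symm)
  have hd : Iso X (Z × X) := by
    have e1 : Iso X ((Z × Z) × W') := hW'.trans (hb.prod Iso.refl)
    exact (e1.trans Iso.prodAssoc).trans (Iso.refl.prod hW'.symm)
  exact (hd.trans Iso.prodComm).trans hc.symm

end

end H50LP
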