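import Pool.Agent.H50.LP.Ind
import Pool.Agent.H50.LP.Bump
import Pool.Agent.H50.LP.Pelc

/-!
MP_b365ef_an [H50 LP FIN1]. Assembly of the positive part (by the architect).
-/

set_option autoImplicit false

namespace H50LP

theorem iso_LX_ell (A : Set ℝ) (a0 : A) (K : ℕ) (h : ¬ Fat 2 K A) : Iso (LX A a0) Ell := by
  obtain ⟨C, -, hC⟩ := LX_ell A a0 K h
  exact pelc hC (cpl_ell_LX A a0) iso_ell_rep

theorem iso_L1_ell : Iso L1 Ell :=
  pelc cpl_L1_ell cpl_ell_L1 iso_ell_rep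

end H50LP
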