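import Pool.Agent.H50.LP.Interp

/-!
MP_b365ef_an [H50 LP GRID]. A grid space is realised locally in functions on `ℝ × A` if `A` has an approximate progression of length `N`.
Proof. `ℓ = N d + 1`, `L = 3 ℓ ≥ 1`. `|a j - a j'| ≥ (d/2) |j - j'|` and `≤ 2 d |j - j'|` (sum the gaps; induction), so `a` is injective. `Ext` from
`interp2` with nodes `t i = i d` (`i : Fin (N+1)`), `u j = a j`. `J F (x, b) = χ x * Ext Φ (x - ℓ) b`, `Φ i j = d * F i j`, with the cut-off
`χ x = max 0 (min 1 (min (x / ℓ) ((3 ℓ - x) / ℓ)))`: values in `[0, 1]`, `1/ℓ`-Lipschitz, `0` for `x ≤ 0` or `x ≥ 3 ℓ`, `1` on `[ℓ, 2 ℓ]`.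
If `lipG K F` (and `F 0 0 = 0`): `|Φ i j - Φ i' j| ≤ K |t i - t i'|`, `|Φ i j - Φ i j'| ≤ d K |j - j'| ≤ 2 K |a j - a j'|`, `|Φ i j| ≤ 2 N K d ≤ 2 K ℓ`. So `J F` is in `x`
Lipschitz with constant `(1/ℓ) 2 K ℓ + K = 3 K`, in `b` with `2 K`. `P f i j = (f (ℓ + i d) (a j) - f ℓ (a 0)) / d`, vanishes at `(0, 0)`, linear, `lipG (2 K)` if
`lipB K f`. `P (J F) = F`: `ℓ + i d ∈ [ℓ, 2 ℓ]`, `χ = 1`, `Ext Φ (i d) (a j) = Φ i j`, `Φ 0 0 = 0`. Locality: the points `ℓ + i d` are in `[0, L]`.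
-/

set_option autoImplicit false

namespace H50LP

private theorem gp_gap {A : Set ℝ} {N : ℕ} {a : Fin (N + 1) → A} {d : ℝ}
    (ha : ∀ i : Fin N, d / 2 ≤ (a i.succ : ℝ) - a i.castSucc ∧
      (a i.succ : ℝ) - a i.castSucc ≤ 2 * d) (n : ℕ) : ∀ (i : ℕ) (h : i + n < N + 1),
    d / 2 * n ≤ (a ⟨i + n, h⟩ : ℝ) - a ⟨i, by omega⟩ ∧
      (a ⟨i + n, h⟩ : ℝ) - a ⟨i, by omega⟩ ≤ 2 * d * n := by
  induction n with
  | zero =>
    intro i h
    simp
  | succ n ih =>
    intro i h
    have h1 := ih i (by omega)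
    have h2 := ha ⟨i + n, by omega⟩
    have e1 : (⟨i + n, by omega⟩ : Fin N).succ = ⟨i + (n + 1), h⟩ := rfl
    have e2 : (⟨i + n, by omega⟩ : Fin N).castSucc = ⟨i + n, by omega⟩ := rfl
    rw [e1, e2] at h2
    push_cast
    constructor <;> nlinarith [h1.1, h1.2, h2.1, h2.2]

private theorem gp_dist {A : Set ℝ} {N : ℕ} {a : Fin (N + 1) → A} {d : ℝ} (hd : 0 < d)
    (ha : ∀ i : Fin N, d / 2 ≤ (a i.succ : ℝ) - a i.castSucc ∧
      (a i.succ : ℝ) - a i.castSucc ≤ 2 * d) (j j' : Fin (N + 1)) :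
    d / 2 * |(j.1 : ℝ) - j'.1| ≤ |(a j : ℝ) - a j'| ∧
      |(a j : ℝ) - a j'| ≤ 2 * d * |(j.1 : ℝ) - j'.1| := by
  have key : ∀ j j' : Fin (N + 1), j'.1 ≤ j.1 → d / 2 * |(j.1 : ℝ) - j'.1| ≤ |(a j : ℝ) - a j'| ∧
      |(a j : ℝ) - a j'| ≤ 2 * d * |(j.1 : ℝ) - j'.1| := by
    intro j j' hjj
    obtain ⟨n, hn⟩ := Nat.exists_eq_add_of_le hjj
    have h1 := gp_gap ha n j'.1 (by have := j.2; omega)
    have e1 : (⟨j'.1 + n, by have := j.2; omega⟩ : Fin (N + 1)) = j := Fin.ext hn.symm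
    rw [e1] at h1
    have e2 : (⟨j'.1, by have := j.2; omega⟩ : Fin (N + 1)) = j' := rfl
    rw [e2] at h1
    have e3 : (j.1 : ℝ) - j'.1 = n := by
      rw [hn]
      push_cast
      ring
    have hn0 : (0 : ℝ) ≤ n := Nat.cast_nonneg n
    have h2 : (0 : ℝ) ≤ (a j : ℝ) - a j' := (by positivity : (0 : ℝ) ≤ d / 2 * n).trans h1.1
    rw [e3, abs_of_nonneg hn0, abs_of_nonneg h2]
    exact h1
  rcases le_total j'.1 j.1 with h | h
  · exact key j j' h
  · rw [abs_sub_comm, abs_sub_comm (a j : ℝ)]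
    exact key j' j h

/-- the cut-off -/
private noncomputable def gp_chi (l x : ℝ) : ℝ := max 0 (min 1 (min (x / l) ((3 * l - x) / l)))

private theorem gp_chi_nonneg (l x : ℝ) : 0 ≤ gp_chi l x := le_max_left _ _

private theorem gp_chi_le (l x : ℝ) : gp_chi l x ≤ 1 :=
  max_le zero_le_one (min_le_left _ _)

private theorem gp_chi_lip {l : ℝ} (hl : 0 < l) (x x' : ℝ) :
    |gp_chi l x - gp_chi l x'| ≤ |x - x'| / l := by
  unfold gp_chi
  set m := min (x / l) ((3 * l - x) / l)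
  set m' := min (x' / l) ((3 * l - x') / l)
  have h1 : |max 0 (min 1 m) - max 0 (min 1 m')| ≤ |min 1 m - min 1 m'| := by
    have h := abs_max_sub_max_le_max (0:ℝ) (min 1 m) 0 (min 1 m')
    rwa [sub_self, abs_zero, max_eq_right (abs_nonneg (min 1 m - min 1 m'))] at h
  have h2 : |min 1 m - min 1 m'| ≤ |m - m'| := by
    have h := abs_min_sub_min_le_max (1:ℝ) m 1 m'
    rwa [sub_self, abs_zero, max_eq_right (abs_nonneg (m - m'))] at h
  have h3 : |m - m'| ≤ |x - x'| / l := by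
    have h := abs_min_sub_min_le_max (x / l) ((3 * l - x) / l) (x' / l) ((3 * l - x') / l)
    have e1 : x / l - x' / l = (x - x') / l := by ring
    have e2 : (3 * l - x) / l - (3 * l - x') / l = -((x - x') / l) := by ring
    rw [e1, e2, abs_neg, max_self, abs_div, abs_of_pos hl] at h
    exact h
  exact h1.trans (h2.trans h3)

private theorem gp_chi_zero {l : ℝ} (hl : 0 < l) {x : ℝ} (hx : x ≤ 0 ∨ 3 * l ≤ x) :
    gp_chi l x = 0 := by
  unfold gp_chi
  refine max_eq_left ((min_le_right _ _).trans ?_)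
  rcases hx with h | h
  · exact (min_le_left _ _).trans (div_nonpos_of_nonpos_of_nonneg h hl.le)
  · exact (min_le_right _ _).trans (div_nonpos_of_nonpos_of_nonneg (by linarith) hl.le)

private theorem gp_chi_one {l : ℝ} (hl : 0 < l) {x : ℝ} (h1 : l ≤ x) (h2 : x ≤ 2 * l) :
    gp_chi l x = 1 := by
  unfold gp_chi
  have h3 : 1 ≤ x / l := by rwa [one_le_div hl]
  have h4 : 1 ≤ (3 * l - x) / l := by
    rw [one_le_div hl]
    linarith
  rw [min_eq_left (le_min h3 h4), max_eq_right zero_le_one]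

theorem grid_place (A : Set ℝ) (N : ℕ) (a : Fin (N + 1) → A) (d : ℝ) (hd : 0 < d)
    (ha : ∀ i : Fin N, d / 2 ≤ (a i.succ : ℝ) - a i.castSucc ∧
      (a i.succ : ℝ) - a i.castSucc ≤ 2 * d) :
    ∃ (L : ℝ) (J : Gr N →ₗ[ℝ] (ℝ → A → ℝ)) (P : (ℝ → A → ℝ) →ₗ[ℝ] Gr N), 1 ≤ L ∧
      (∀ (v : Gr N) (K : ℝ), bd K v → lipB (3 * K) (J v)) ∧
      (∀ (v : Gr N) (x : ℝ) (a : A), (x ≤ 0 ∨ L ≤ x) → J v x a = 0) ∧
      (∀ (f : ℝ → A → ℝ) (K : ℝ), lipB K f → bd (3 * K) (P f)) ∧
      (∀ v : Gr N, P (J v) = v) ∧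
      (∀ f g : ℝ → A → ℝ, (∀ x ∈ Set.Icc 0 L, ∀ a, f x a = g x a) → P f = P g) := by
  have hdist := gp_dist hd ha
  have ht : Function.Injective (fun i : Fin (N + 1) => (i.1 : ℝ) * d) := by
    intro i i' h
    have h1 : (i.1 : ℝ) = i'.1 := mul_right_cancel₀ hd.ne' h
    exact Fin.ext (by exact_mod_cast h1)
  have hu : Function.Injective (fun j : Fin (N + 1) => (a j : ℝ)) := by
    intro j j' h
    have h1 := (hdist j j').1
    have h0 : (a j : ℝ) = a j' := h
    rw [h0, sub_self, abs_zero] at h1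
    have h2 : |(j.1 : ℝ) - j'.1| ≤ 0 := by
      by_contra hc
      push Not at hc
      have : 0 < d / 2 * |(j.1 : ℝ) - j'.1| := by positivity
      linarith
    have h3 : (j.1 : ℝ) - j'.1 = 0 := abs_nonpos_iff.1 h2
    exact Fin.ext (by exact_mod_cast sub_eq_zero.1 h3)
  obtain ⟨Ext, e1, e2, e3, e4⟩ := interp2 (fun i : Fin (N + 1) => (i.1 : ℝ) * d) ht
    (fun j : Fin (N + 1) => (a j : ℝ)) hu
  obtain ⟨l, hl⟩ : ∃ l : ℝ, l = N * d + 1 := ⟨_, rfl⟩
  have hN : (0 : ℝ) ≤ N * d := by positivity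
  have hl1 : 1 ≤ l := by linarith
  have hl0 : 0 < l := by linarith
  have hid : ∀ i : Fin (N + 1), 0 ≤ (i.1 : ℝ) * d ∧ (i.1 : ℝ) * d ≤ l := by
    intro i
    refine ⟨by positivity, ?_⟩
    have h1 : (i.1 : ℝ) ≤ N := by exact_mod_cast Nat.lt_succ_iff.1 i.2
    have h2 := mul_le_mul_of_nonneg_right h1 hd.le
    linarith
  let J : Gr N →ₗ[ℝ] (ℝ → A → ℝ) :=
    { toFun := fun F x b => gp_chi l x * Ext (d • F.1) (x - l) b
      map_add' := by
        intro F G
        funext x b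
        show gp_chi l x * Ext (d • (F.1 + G.1)) (x - l) b =
          gp_chi l x * Ext (d • F.1) (x - l) b + gp_chi l x * Ext (d • G.1) (x - l) b
        rw [smul_add, map_add]
        simp only [Pi.add_apply]
        ring
      map_smul' := by
        intro c F
        funext x b
        show gp_chi l x * Ext (d • (c • F.1)) (x - l) b =
          c * (gp_chi l x * Ext (d • F.1) (x - l) b)
        rw [smul_comm, map_smul]
        simp only [Pi.smul_apply, smul_eq_mul]
        ring }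
  have hP0 : ∀ f : ℝ → A → ℝ, (fun i j : Fin (N + 1) =>
      (f (l + i.1 * d) (a j) - f l (a 0)) / d) ∈ Gr N := by
    intro f
    show (f (l + (((0 : Fin (N + 1)).1 : ℕ) : ℝ) * d) (a 0) - f l (a 0)) / d = 0
    simp
  let P : (ℝ → A → ℝ) →ₗ[ℝ] Gr N :=
    { toFun := fun f => ⟨fun i j => (f (l + i.1 * d) (a j) - f l (a 0)) / d, hP0 f⟩
      map_add' := by
        intro f g
        refine Subtype.ext (funext fun i => funext fun j => ?_)
        show ((f + g) (l + i.1 * d) (a j) - (f + g) l (a 0)) / d =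
          (f (l + i.1 * d) (a j) - f l (a 0)) / d + (g (l + i.1 * d) (a j) - g l (a 0)) / d
        simp only [Pi.add_apply]
        ring
      map_smul' := by
        intro c f
        refine Subtype.ext (funext fun i => funext fun j => ?_)
        show ((c • f) (l + i.1 * d) (a j) - (c • f) l (a 0)) / d =
          c * ((f (l + i.1 * d) (a j) - f l (a 0)) / d)
        simp only [Pi.smul_apply, smul_eq_mul]
        ring }
  have hJ : ∀ F x b, J F x b = gp_chi l x * Ext (d • F.1) (x - l) b := fun F x b => rfl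
  have hP : ∀ f i j, (P f).1 i j = (f (l + i.1 * d) (a j) - f l (a 0)) / d := fun f i j => rfl
  refine ⟨3 * l, J, P, by linarith, ?_, ?_, ?_, ?_, ?_⟩
  · intro v K hv
    have hv' : lipG K v.1 := hv
    obtain ⟨hK, hv1, hv2⟩ := hv'
    have hv0 : v.1 0 0 = 0 := v.2
    have b1 : ∀ i i' k, |(d • v.1) i k - (d • v.1) i' k| ≤
        K * |(i.1 : ℝ) * d - (i'.1 : ℝ) * d| := by
      intro i i' k
      simp only [Pi.smul_apply, smul_eq_mul]
      rw [← mul_sub, ← sub_mul, abs_mul, abs_mul, abs_of_pos hd]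
      have := mul_le_mul_of_nonneg_left (hv1 i i' k) hd.le
      linarith
    have b2 : ∀ i k k', |(d • v.1) i k - (d • v.1) i k'| ≤ (2 * K) * |(a k : ℝ) - a k'| := by
      intro i k k'
      simp only [Pi.smul_apply, smul_eq_mul]
      rw [← mul_sub, abs_mul, abs_of_pos hd]
      have h1 := mul_le_mul_of_nonneg_left (hv2 i k k') hd.le
      have h2 := mul_le_mul_of_nonneg_left (hdist k k').1 hK
      linarith
    have b3 : ∀ i k, |(d • v.1) i k| ≤ 2 * K * l := by
      intro i k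
      simp only [Pi.smul_apply, smul_eq_mul]
      rw [abs_mul, abs_of_pos hd]
      have h1 := hv1 i 0 k
      have h2 := hv2 0 k 0
      rw [hv0, sub_zero] at h2
      have c1 : |(i.1 : ℝ) - ((0 : Fin (N + 1)).1 : ℝ)| = i.1 := by
        simp
      have c2 : |(k.1 : ℝ) - ((0 : Fin (N + 1)).1 : ℝ)| = k.1 := by
        simp
      rw [c1] at h1
      rw [c2] at h2
      have h3 : |v.1 i k| ≤ K * i.1 + K * k.1 := by
        have e : v.1 i k = (v.1 i k - v.1 0 k) + v.1 0 k := by ring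
        rw [e]
        exact (abs_add_le _ _).trans (add_le_add h1 h2)
      have h4 := mul_le_mul_of_nonneg_left h3 hd.le
      have h5 := mul_le_mul_of_nonneg_left (hid i).2 hK
      have h6 := mul_le_mul_of_nonneg_left (hid k).2 hK
      linarith
    refine ⟨by positivity, ?_, ?_⟩
    · intro x x' b
      rw [hJ, hJ]
      have h1 := e2 (d • v.1) K hK b1 (x - l) (x' - l) b
      have h2 := e4 (d • v.1) (2 * K * l) b3 (x - l) b
      have e5 : x - l - (x' - l) = x - x' := by ring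
      rw [e5] at h1
      have e6 : gp_chi l x * Ext (d • v.1) (x - l) b - gp_chi l x' * Ext (d • v.1) (x' - l) b =
          (gp_chi l x - gp_chi l x') * Ext (d • v.1) (x - l) b +
            gp_chi l x' * (Ext (d • v.1) (x - l) b - Ext (d • v.1) (x' - l) b) := by ring
      rw [e6]
      have h3 : |(gp_chi l x - gp_chi l x') * Ext (d • v.1) (x - l) b| ≤
          (|x - x'| / l) * (2 * K * l) := by
        rw [abs_mul]
        exact mul_le_mul (gp_chi_lip hl0 x x') h2 (abs_nonneg _)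
          (div_nonneg (abs_nonneg _) hl0.le)
      have h4 : |gp_chi l x' * (Ext (d • v.1) (x - l) b - Ext (d • v.1) (x' - l) b)| ≤
          1 * (K * |x - x'|) := by
        rw [abs_mul, abs_of_nonneg (gp_chi_nonneg l x')]
        exact mul_le_mul (gp_chi_le l x') h1 (abs_nonneg _) zero_le_one
      calc _ ≤ _ := abs_add_le _ _
        _ ≤ (|x - x'| / l) * (2 * K * l) + 1 * (K * |x - x'|) := add_le_add h3 h4
        _ = _ := by
          field_simp
          ring
    · intro x b b'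
      rw [hJ, hJ, ← mul_sub, abs_mul, abs_of_nonneg (gp_chi_nonneg l x)]
      have h1 := e3 (d • v.1) (2 * K) (by positivity) b2 (x - l) b b'
      have h2 : gp_chi l x * |Ext (d • v.1) (x - l) b - Ext (d • v.1) (x - l) b'| ≤
          1 * (2 * K * |(b : ℝ) - b'|) :=
        mul_le_mul (gp_chi_le l x) h1 (abs_nonneg _) zero_le_one
      have h3 : 0 ≤ K * |(b : ℝ) - b'| := mul_nonneg hK (abs_nonneg _)
      linarith
  · intro v x b hx
    rw [hJ, gp_chi_zero hl0 hx, zero_mul]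
  · intro f K hf
    obtain ⟨hK, hf1, hf2⟩ := hf
    show lipG (3 * K) (P f).1
    refine ⟨by positivity, ?_, ?_⟩
    · intro i i' j
      rw [hP, hP, ← sub_div, abs_div, abs_of_pos hd, div_le_iff₀ hd]
      have h1 := hf1 (l + i.1 * d) (l + i'.1 * d) (a j)
      have e5 : f (l + i.1 * d) (a j) - f l (a 0) - (f (l + i'.1 * d) (a j) - f l (a 0)) =
          f (l + i.1 * d) (a j) - f (l + i'.1 * d) (a j) := by ring
      have e6 : l + i.1 * d - (l + i'.1 * d) = ((i.1 : ℝ) - i'.1) * d := by ring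
      rw [e6, abs_mul, abs_of_pos hd] at h1
      rw [e5]
      have h3 : 0 ≤ K * (|(i.1 : ℝ) - i'.1| * d) :=
        mul_nonneg hK (mul_nonneg (abs_nonneg _) hd.le)
      linarith
    · intro i j j'
      rw [hP, hP, ← sub_div, abs_div, abs_of_pos hd, div_le_iff₀ hd]
      have h1 := hf2 (l + i.1 * d) (a j) (a j')
      have e5 : f (l + i.1 * d) (a j) - f l (a 0) - (f (l + i.1 * d) (a j') - f l (a 0)) =
          f (l + i.1 * d) (a j) - f (l + i.1 * d) (a j') := by ring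
      rw [e5]
      have h2 := mul_le_mul_of_nonneg_left (hdist j j').2 hK
      have h3 : 0 ≤ K * (|(j.1 : ℝ) - j'.1| * d) :=
        mul_nonneg hK (mul_nonneg (abs_nonneg _) hd.le)
      linarith
  · intro v
    have hv0 : v.1 0 0 = 0 := v.2
    refine Subtype.ext (funext fun i => funext fun j => ?_)
    rw [hP, hJ, hJ, gp_chi_one hl0 (by linarith [(hid i).1]) (by linarith [(hid i).2]),
      gp_chi_one hl0 le_rfl (by linarith)]
    have h1 := e1 (d • v.1) i j
    have h2 := e1 (d • v.1) 0 0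
    simp only [Pi.smul_apply, smul_eq_mul, hv0, mul_zero, Fin.val_zero, Nat.cast_zero,
      zero_mul] at h1 h2
    rw [add_sub_cancel_left, sub_self, h1, h2]
    field_simp
    ring
  · intro f g hfg
    refine Subtype.ext (funext fun i => funext fun j => ?_)
    rw [hP, hP, hfg _ ⟨by linarith [(hid i).1], by linarith [(hid i).2]⟩,
      hfg _ ⟨by linarith, by linarith⟩]

end H50LP
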