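import Pool.Agent.H50.LP.Ulim
import Pool.Agent.H50.LP.CplBasic
import Pool.Agent.H50.LP.Interp

/-!
MP_b365ef_an [H50 LP LXU]. `LX A a0` is complemented in the l_infty sum of copies of `LX univ`.
Proof. `A` is separable and nonempty: let `q : ℕ → A` be a dense sequence (`TopologicalSpace.denseSeq`), `A_n = {q 0, ..., q n}` (a `Finset` of `A`, as a type nonempty and
finite), `w_n` the weights of `interp` for the nodes `A_n → ℝ`, and `E_n f x y = ∑ b, w_n y b * f x b`. For `lipB K f`: `E_n f` is `K`-Lipschitz in `y` (`interp`) and in `x`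
(convex combination). `J f = (n ↦ (x, y) ↦ E_n f x y - E_n f 0 0)`. `P g x a = Lim (n ↦ g_n x a - g_n 0 a0)` (evaluate `g_n ∈ LX univ` at the point `a` of
`A ⊆ univ`); bounded sequences (`≤ K (|x| + |a - a0|)`), linear, `lipB K`, `P g 0 a0 = 0`. `P (J f) x a = Lim (E_n f x a - E_n f 0 a0) = f x a - f 0 a0 = f x a`:
`E_n f x a → f x a` because for `b ∈ A_n`: `E_n f x b = f x b`, so `|E_n f x a - f x a| ≤ 2 K |a - b|`, and the distance of `a` to `A_n` tends to 0.
-/

set_option autoImplicit false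

namespace H50LP

private theorem LXU_ext (A : Set ℝ) (a0 : A) :
    ∃ E : ℕ → (ℝ → A → ℝ) →ₗ[ℝ] (ℝ → ℝ → ℝ),
      (∀ n f K, lipB K f → (∀ x x' y, |E n f x y - E n f x' y| ≤ K * |x - x'|) ∧
        ∀ x y y', |E n f x y - E n f x y'| ≤ K * |y - y'|) ∧
      ∀ f K, lipB K f → ∀ (x : ℝ) (a : A),
        Filter.Tendsto (fun n => E n f x (a : ℝ)) Filter.atTop (nhds (f x a)) := by
  classical
  have : Nonempty A := ⟨a0⟩
  obtain ⟨q, hq⟩ : ∃ q : ℕ → A, DenseRange q :=
    ⟨TopologicalSpace.denseSeq A, TopologicalSpace.denseRange_denseSeq A⟩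
  obtain ⟨B, hB⟩ : ∃ B : ℕ → Finset A, ∀ n, B n = (Finset.range (n + 1)).image q :=
    ⟨_, fun _ => rfl⟩
  have hmem : ∀ m n, m ≤ n → q m ∈ B n := by
    intro m n h
    rw [hB]
    exact Finset.mem_image_of_mem q (Finset.mem_range.2 (by omega))
  have hne : ∀ n, Nonempty (B n) := fun n => ⟨⟨q 0, hmem 0 n (Nat.zero_le n)⟩⟩
  have hinj : ∀ n, Function.Injective (fun b : B n => ((b : A) : ℝ)) := by
    intro n b b' h
    exact Subtype.ext (Subtype.ext h)
  choose w w0 w1 wd wl using fun n => interp (fun b : B n => ((b : A) : ℝ)) (hinj n)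
  refine ⟨fun n =>
    { toFun := fun f x y => ∑ b : B n, w n y b * f x b
      map_add' := by
        intro f g
        funext x y
        simp only [Pi.add_apply, mul_add, Finset.sum_add_distrib]
      map_smul' := by
        intro c f
        funext x y
        simp only [Pi.smul_apply, smul_eq_mul, RingHom.id_apply, Finset.mul_sum]
        exact Finset.sum_congr rfl fun b _ => by ring }, ?_, ?_⟩
  · intro n f K hf
    constructor
    · intro x x' y
      show |∑ b : B n, w n y b * f x b - ∑ b : B n, w n y b * f x' b| ≤ K * |x - x'|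
      rw [← Finset.sum_sub_distrib]
      refine (Finset.abs_sum_le_sum_abs _ _).trans ?_
      have h1 : ∀ b : B n, |w n y b * f x b - w n y b * f x' b| ≤ w n y b * (K * |x - x'|) := by
        intro b
        rw [← mul_sub, abs_mul, abs_of_nonneg (w0 n y b)]
        exact mul_le_mul_of_nonneg_left (hf.2.1 x x' b) (w0 n y b)
      refine (Finset.sum_le_sum fun b _ => h1 b).trans ?_
      rw [← Finset.sum_mul, w1, one_mul]
    · intro x y y'
      exact wl n (fun b => f x b) K hf.1 (fun b b' => hf.2.2 x b b') y y'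
  · intro f K hf x a
    rw [Metric.tendsto_atTop]
    intro ε hε
    have hK := hf.1
    have hpos : 0 < ε / (2 * K + 1) := by positivity
    obtain ⟨N, hN⟩ := hq.exists_dist_lt a hpos
    refine ⟨N, fun n hn => ?_⟩
    have h1 : ∑ b : B n, w n ((q N : A) : ℝ) b * f x b = f x (q N) := by
      have h2 : ∀ b : B n, w n ((q N : A) : ℝ) b * f x b =
          if (⟨q N, hmem N n hn⟩ : B n) = b then f x b else 0 := by
        intro b
        have h3 := wd n ⟨q N, hmem N n hn⟩ b
        have h4 : w n ((q N : A) : ℝ) b = if (⟨q N, hmem N n hn⟩ : B n) = b then 1 else 0 := h3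
        rw [h4]
        split_ifs
        · rw [one_mul]
        · rw [zero_mul]
      rw [Finset.sum_congr rfl fun b _ => h2 b, Finset.sum_ite_eq, if_pos (Finset.mem_univ _)]
    have h2 : |∑ b : B n, w n (a : ℝ) b * f x b - ∑ b : B n, w n ((q N : A) : ℝ) b * f x b| ≤
        K * |(a : ℝ) - (q N : A)| :=
      wl n (fun b => f x b) K hf.1 (fun b b' => hf.2.2 x b b') _ _
    have h3 := hf.2.2 x (q N) a
    have h4 : |(a : ℝ) - (q N : A)| < ε / (2 * K + 1) := hN
    have h5 : |((q N : A) : ℝ) - (a : ℝ)| = |(a : ℝ) - (q N : A)| := abs_sub_comm _ _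
    rw [h5] at h3
    rw [h1] at h2
    show dist (∑ b : B n, w n (a : ℝ) b * f x b) (f x a) < ε
    rw [Real.dist_eq]
    have h6 : |∑ b : B n, w n (a : ℝ) b * f x b - f x a| ≤
        |∑ b : B n, w n (a : ℝ) b * f x b - f x (q N)| + |f x (q N) - f x a| :=
      abs_sub_le _ _ _
    have h7 : (2 * K) * |(a : ℝ) - (q N : A)| ≤ (2 * K) * (ε / (2 * K + 1)) :=
      mul_le_mul_of_nonneg_left h4.le (by positivity)
    have h8 : (2 * K) * (ε / (2 * K + 1)) < ε := by
      rw [← mul_div_assoc, div_lt_iff₀ (by positivity)]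
      nlinarith
    linarith

theorem cpl_LX_univ (A : Set ℝ) (a0 : A) :
    Cpl 1 (LX A a0) (Linf ℕ (fun _ => LX Set.univ o1)) := by
  obtain ⟨E, hE1, hE2⟩ := LXU_ext A a0
  obtain ⟨Lim, hadd, hsmul, hlim, hbd⟩ := exists_ulim
  -- differences of limits
  have hsub : ∀ (u v : ℕ → ℝ) (C : ℝ), (∃ B, ∀ n, |u n| ≤ B) → (∃ B, ∀ n, |v n| ≤ B) →
      (∀ n, |u n - v n| ≤ C) → |Lim u - Lim v| ≤ C := by
    intro u v C hu hv h
    have hv' : ∃ B, ∀ n, |(-1) * v n| ≤ B := by
      obtain ⟨B, hB⟩ := hv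
      refine ⟨B, fun n => ?_⟩
      rw [neg_one_mul, abs_neg]
      exact hB n
    have h1 := hadd u (fun n => (-1) * v n) hu hv'
    rw [hsmul (-1) v hv] at h1
    have h2 : Lim u - Lim v = Lim (fun n => u n + (-1) * v n) := by
      rw [h1]
      ring
    rw [h2]
    apply hbd
    · refine ⟨C, fun n => ?_⟩
      have h3 : u n + (-1) * v n = u n - v n := by ring
      rw [h3]
      exact h n
    · intro ε hε
      refine Filter.Eventually.of_forall fun n => ?_
      have h3 : u n + (-1) * v n = u n - v n := by ring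
      rw [h3]
      exact (h n).trans (by linarith)
  -- the embedding
  have hJl : ∀ (f : LX A a0) (K : ℝ), lipB K f.1 → ∀ n, lipB (A := Set.univ) K
      (fun x y => E n f.1 x (y : ℝ) - E n f.1 0 0) := by
    intro f K hf n
    refine ⟨hf.1, fun x x' a => ?_, fun x a a' => ?_⟩
    · have := (hE1 n f.1 K hf).1 x x' a
      have e : (E n f.1 x (a : ℝ) - E n f.1 0 0) - (E n f.1 x' (a : ℝ) - E n f.1 0 0) =
        E n f.1 x (a : ℝ) - E n f.1 x' (a : ℝ) := by ring
      rw [e]
      exact this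
    · have := (hE1 n f.1 K hf).2 x a a'
      have e : (E n f.1 x (a : ℝ) - E n f.1 0 0) - (E n f.1 x (a' : ℝ) - E n f.1 0 0) =
        E n f.1 x (a : ℝ) - E n f.1 x (a' : ℝ) := by ring
      rw [e]
      exact this
  let J : LX A a0 →ₗ[ℝ] Linf ℕ (fun _ => LX Set.univ o1) :=
    { toFun := fun f => ⟨fun n => ⟨fun x y => E n f.1 x (y : ℝ) - E n f.1 0 0,
          sub_self _, f.2.2.choose, hJl f _ f.2.2.choose_spec n⟩,
          f.2.2.choose, f.2.2.choose_spec.1, fun n => hJl f _ f.2.2.choose_spec n⟩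
      map_add' := by
        intro f g
        apply Subtype.ext
        funext n
        apply Subtype.ext
        funext x y
        show E n (f.1 + g.1) x (y : ℝ) - E n (f.1 + g.1) 0 0 =
          (E n f.1 x (y : ℝ) - E n f.1 0 0) + (E n g.1 x (y : ℝ) - E n g.1 0 0)
        rw [map_add]
        simp only [Pi.add_apply]
        ring
      map_smul' := by
        intro c f
        apply Subtype.ext
        funext n
        apply Subtype.ext
        funext x y
        show E n (c • f.1) x (y : ℝ) - E n (c • f.1) 0 0 =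
          c * (E n f.1 x (y : ℝ) - E n f.1 0 0)
        rw [map_smul]
        simp only [Pi.smul_apply, smul_eq_mul]
        ring }
  -- the projection
  have hbdd : ∀ (g : ∀ _ : ℕ, LX Set.univ o1) (K : ℝ), (∀ n, lipB K (g n).1) → ∀ (x : ℝ) (a : A),
      ∃ B, ∀ n, |(g n).1 x ⟨(a : ℝ), trivial⟩ - (g n).1 0 ⟨(a0 : ℝ), trivial⟩| ≤ B := by
    intro g K hg x a
    refine ⟨K * |x - 0| + K * |(a : ℝ) - a0|, fun n => ?_⟩
    have h1 := (hg n).2.1 x 0 ⟨(a : ℝ), trivial⟩
    have h2 := (hg n).2.2 0 ⟨(a : ℝ), trivial⟩ ⟨(a0 : ℝ), trivial⟩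
    refine (abs_sub_le _ ((g n).1 0 ⟨(a : ℝ), trivial⟩) _).trans ?_
    exact add_le_add h1 h2
  have hPl : ∀ (g : ∀ _ : ℕ, LX Set.univ o1) (K : ℝ), 0 ≤ K → (∀ n, lipB K (g n).1) →
      lipB (A := A) K (fun x a => Lim (fun n =>
        (g n).1 x ⟨(a : ℝ), trivial⟩ - (g n).1 0 ⟨(a0 : ℝ), trivial⟩)) := by
    intro g K hK hg
    refine ⟨hK, fun x x' a => ?_, fun x a a' => ?_⟩
    · apply hsub _ _ _ (hbdd g K hg x a) (hbdd g K hg x' a)
      intro n
      have h1 := (hg n).2.1 x x' ⟨(a : ℝ), trivial⟩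
      have e : ∀ p q r : ℝ, (p - r) - (q - r) = p - q := by intro p q r; ring
      rw [e]
      exact h1
    · apply hsub _ _ _ (hbdd g K hg x a) (hbdd g K hg x a')
      intro n
      have h1 := (hg n).2.2 x ⟨(a : ℝ), trivial⟩ ⟨(a' : ℝ), trivial⟩
      have e : ∀ p q r : ℝ, (p - r) - (q - r) = p - q := by intro p q r; ring
      rw [e]
      exact h1
  have hL0 : Lim (fun _ => (0 : ℝ)) = 0 := hlim _ 0 tendsto_const_nhds
  let P : Linf ℕ (fun _ => LX Set.univ o1) →ₗ[ℝ] LX A a0 :=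
    { toFun := fun g => ⟨fun x a => Lim (fun n =>
        (g.1 n).1 x ⟨(a : ℝ), trivial⟩ - (g.1 n).1 0 ⟨(a0 : ℝ), trivial⟩), by
          show Lim (fun n => (g.1 n).1 0 ⟨(a0 : ℝ), trivial⟩ - (g.1 n).1 0 ⟨(a0 : ℝ), trivial⟩) = 0
          simp only [sub_self]
          exact hL0, g.2.choose, hPl g.1 _ g.2.choose_spec.1 g.2.choose_spec.2⟩
      map_add' := by
        intro g g'
        apply Subtype.ext
        funext x a
        show Lim (fun n => ((g.1 n).1 x ⟨(a : ℝ), trivial⟩ + (g'.1 n).1 x ⟨(a : ℝ), trivial⟩) -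
          ((g.1 n).1 0 ⟨(a0 : ℝ), trivial⟩ + (g'.1 n).1 0 ⟨(a0 : ℝ), trivial⟩)) =
          Lim (fun n => (g.1 n).1 x ⟨(a : ℝ), trivial⟩ - (g.1 n).1 0 ⟨(a0 : ℝ), trivial⟩) +
          Lim (fun n => (g'.1 n).1 x ⟨(a : ℝ), trivial⟩ - (g'.1 n).1 0 ⟨(a0 : ℝ), trivial⟩)
        rw [← hadd _ _ (hbdd g.1 _ g.2.choose_spec.2 x a) (hbdd g'.1 _ g'.2.choose_spec.2 x a)]
        congr 1
        funext n
        ring
      map_smul' := by
        intro c g
        apply Subtype.ext
        funext x a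
        show Lim (fun n => c * (g.1 n).1 x ⟨(a : ℝ), trivial⟩ -
          c * (g.1 n).1 0 ⟨(a0 : ℝ), trivial⟩) =
          c * Lim (fun n => (g.1 n).1 x ⟨(a : ℝ), trivial⟩ - (g.1 n).1 0 ⟨(a0 : ℝ), trivial⟩)
        rw [← hsmul _ _ (hbdd g.1 _ g.2.choose_spec.2 x a)]
        congr 1
        funext n
        ring }
  refine ⟨J, P, ?_, ?_, ?_⟩
  · intro f
    apply Subtype.ext
    funext x a
    show Lim (fun n => (E n f.1 x (a : ℝ) - E n f.1 0 0) - (E n f.1 0 (a0 : ℝ) - E n f.1 0 0)) =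
      f.1 x a
    obtain ⟨K, hK⟩ := f.2.2
    apply hlim
    have h1 := (hE2 f.1 K hK x a).sub (hE2 f.1 K hK 0 a0)
    have h0 : f.1 0 a0 = 0 := f.2.1
    rw [h0, sub_zero] at h1
    refine h1.congr fun n => ?_
    ring
  · intro K f hf
    rw [one_mul]
    exact ⟨hf.1, fun n => hJl f K hf n⟩
  · intro K g hg
    rw [one_mul]
    exact hPl g.1 K hg.1 hg.2

end H50LP
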