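import Pool.Agent.H50.LP.Ulim
import Pool.Agent.H50.LP.CplBasic

/-!
MP_b365ef_an [H50 LP UGRID]. `Lip_0` of the plane is complemented in the l_infty sum of the grid spaces.
Proof. For `p = (N, m)` put `z = N / 2` (natural division) and
`(J f)_p i j = 2^m (f ((i - z) 2^(-m)) ((j - z) 2^(-m)) - f (- z 2^(-m)) (- z 2^(-m)))` (`i j : Fin (N+1)`; vanishes at `(0, 0)`). If `lipB K f` then
`lipG K` for all of them. `P w`: for `m` let `p = (2 * 4^m, m)`, `z = 4^m`, `ix = min (2 * 4^m) (⌊2^m x⌋ + 4^m).toNat` (clipped to `0..2*4^m`), the same for `y`, and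
`S m x y = 2^(-m) (w_p ix iy - w_p z z)`; `P w x y = Lim (fun m => S m x y)` with `Lim` from `exists_ulim`. Clipping and `floor`:
`|ix - ix'| ≤ 2^m |x - x'| + 1`, so `|S m x y - S m x' y| ≤ K |x - x'| + K 2^(-m)`, bounded sequences (`|S m x y| ≤ K (|x| + |y| + 2)`), hence `lipB K (P w)`, and
`P w 0 0 = 0` (`⌊0⌋ + 4^m = 4^m`, `S m 0 0 = 0`). `P` is linear. `P (J f) x y = f x y`: for `2^m ≥ |x|, |y|` no clipping occurs
(`|2^m x| ≤ 4^m`), `S m x y = f (⌊2^m x⌋ 2^(-m)) (⌊2^m y⌋ 2^(-m)) - f 0 0 → f x y`.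
`ZG` is a def: build elements with `toZG ⟨fun p => .., _⟩`, read them with `(toZG.symm w).1 p`, bounds by `bd_ZG`, `bd_toZG` (Defs). Points of the line: `LX Set.univ o1` consists of functions `ℝ → ↥Set.univ → ℝ`.
-/

set_option autoImplicit false

namespace H50LP

/-- the clipped index -/
private noncomputable def ugIx (m : ℕ) (x : ℝ) : Fin (2 * 4 ^ m + 1) :=
  ⟨min (2 * 4 ^ m) (⌊(2 : ℝ) ^ m * x⌋ + 4 ^ m).toNat, by omega⟩

private noncomputable def ugZ (m : ℕ) : Fin (2 * 4 ^ m + 1) := ⟨4 ^ m, by omega⟩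

private lemma ugIx_zero (m : ℕ) : ugIx m 0 = ugZ m := by
  unfold ugIx ugZ
  apply Fin.ext
  simp only [mul_zero, Int.floor_zero, zero_add]
  have h : ((4 : ℤ) ^ m).toNat = 4 ^ m := by
    have : ((4 : ℤ) ^ m) = ((4 ^ m : ℕ) : ℤ) := by push_cast; rfl
    rw [this, Int.toNat_natCast]
  rw [h]
  omega

private lemma ugIx_lip (m : ℕ) (x x' : ℝ) :
    |((ugIx m x).1 : ℝ) - (ugIx m x').1| ≤ 2 ^ m * |x - x'| + 1 := by
  have h1 : ∀ a b : ℤ, ∀ M : ℕ, |((min (2 * M) (a + M).toNat : ℕ) : ℤ) -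
      ((min (2 * M) (b + M).toNat : ℕ) : ℤ)| ≤ |a - b| := by
    intro a b M
    rcases abs_cases (a - b) with h | h <;>
      rcases abs_cases (((min (2 * M) (a + M).toNat : ℕ) : ℤ) -
        ((min (2 * M) (b + M).toNat : ℕ) : ℤ)) with h' | h' <;> omega
  have h2 := h1 ⌊(2 : ℝ) ^ m * x⌋ ⌊(2 : ℝ) ^ m * x'⌋ (4 ^ m)
  push_cast at h2
  have h3 : |((ugIx m x).1 : ℝ) - (ugIx m x').1| ≤
      |((⌊(2 : ℝ) ^ m * x⌋ : ℤ) : ℝ) - ((⌊(2 : ℝ) ^ m * x'⌋ : ℤ) : ℝ)| := by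
    have h4 : |(((ugIx m x).1 : ℕ) : ℤ) - (((ugIx m x').1 : ℕ) : ℤ)| ≤
        |⌊(2 : ℝ) ^ m * x⌋ - ⌊(2 : ℝ) ^ m * x'⌋| := by
      unfold ugIx
      push_cast
      exact h2
    exact_mod_cast h4
  refine h3.trans ?_
  have f1 := Int.floor_le ((2 : ℝ) ^ m * x)
  have f2 := Int.lt_floor_add_one ((2 : ℝ) ^ m * x)
  have f3 := Int.floor_le ((2 : ℝ) ^ m * x')
  have f4 := Int.lt_floor_add_one ((2 : ℝ) ^ m * x')
  have h5 : |(2 : ℝ) ^ m * x - 2 ^ m * x'| = 2 ^ m * |x - x'| := by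
    rw [← mul_sub, abs_mul, abs_of_pos (by positivity : (0 : ℝ) < 2 ^ m)]
  have h6 := le_abs_self ((2 : ℝ) ^ m * x - 2 ^ m * x')
  have h7 := neg_abs_le ((2 : ℝ) ^ m * x - 2 ^ m * x')
  rw [h5] at h6 h7
  rw [abs_le]
  constructor <;> linarith

private lemma ugIx_eq (m : ℕ) (x : ℝ) (h : |x| ≤ 2 ^ m) :
    ((ugIx m x).1 : ℝ) - 4 ^ m = ⌊(2 : ℝ) ^ m * x⌋ := by
  have h4 : (4 : ℝ) ^ m = 2 ^ m * 2 ^ m := by
    rw [← mul_pow]; norm_num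
  have hp : (0 : ℝ) < 2 ^ m := by positivity
  have h1 := abs_le.1 h
  have h2 : -((4 ^ m : ℕ) : ℤ) ≤ ⌊(2 : ℝ) ^ m * x⌋ := by
    rw [Int.le_floor]
    push_cast
    rw [h4]
    nlinarith
  have h3 : ⌊(2 : ℝ) ^ m * x⌋ ≤ ((4 ^ m : ℕ) : ℤ) := by
    have : (⌊(2 : ℝ) ^ m * x⌋ : ℝ) ≤ (((4 ^ m : ℕ) : ℤ) : ℝ) := by
      refine (Int.floor_le _).trans ?_
      push_cast
      rw [h4]
      nlinarith
    exact_mod_cast this
  have h5 : ((ugIx m x).1 : ℤ) = ⌊(2 : ℝ) ^ m * x⌋ + ((4 ^ m : ℕ) : ℤ) := by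
    have h6 : (⌊(2 : ℝ) ^ m * x⌋ + (4 : ℤ) ^ m) = ⌊(2 : ℝ) ^ m * x⌋ + ((4 ^ m : ℕ) : ℤ) := by
      push_cast; rfl
    unfold ugIx
    simp only [h6]
    omega
  have h7 : ((ugIx m x).1 : ℝ) = ⌊(2 : ℝ) ^ m * x⌋ + ((4 ^ m : ℕ) : ℝ) := by
    exact_mod_cast h5
  rw [h7]
  push_cast
  ring

private noncomputable def ugW (w : ZG) (m : ℕ) : Fin (2 * 4 ^ m + 1) → Fin (2 * 4 ^ m + 1) → ℝ :=
  ((toZG.symm w).1 (2 * 4 ^ m, m)).1

private noncomputable def ugS (w : ZG) (x y : ℝ) (m : ℕ) : ℝ :=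
  (ugW w m (ugIx m x) (ugIx m y) - ugW w m (ugZ m) (ugZ m)) / 2 ^ m

private lemma ugW_lip {K : ℝ} {w : ZG} (h : bd K w) (m : ℕ) : lipG K (ugW w m) :=
  (bd_ZG.1 h).2 (2 * 4 ^ m, m)

private lemma ugS_x {K : ℝ} {w : ZG} (h : bd K w) (x x' y : ℝ) (m : ℕ) :
    |ugS w x y m - ugS w x' y m| ≤ K * |x - x'| + K / 2 ^ m := by
  have hW := ugW_lip h m
  have hp : (0 : ℝ) < 2 ^ m := by positivity
  have e : ugS w x y m - ugS w x' y m
      = (ugW w m (ugIx m x) (ugIx m y) - ugW w m (ugIx m x') (ugIx m y)) / 2 ^ m := by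
    unfold ugS; ring
  rw [e, abs_div, abs_of_pos hp, div_le_iff₀ hp]
  refine (hW.2.1 _ _ _).trans ?_
  have e2 : (K * |x - x'| + K / 2 ^ m) * 2 ^ m = K * (2 ^ m * |x - x'| + 1) := by
    field_simp
  rw [e2]
  exact mul_le_mul_of_nonneg_left (ugIx_lip m x x') hW.1

private lemma ugS_y {K : ℝ} {w : ZG} (h : bd K w) (x y y' : ℝ) (m : ℕ) :
    |ugS w x y m - ugS w x y' m| ≤ K * |y - y'| + K / 2 ^ m := by
  have hW := ugW_lip h m
  have hp : (0 : ℝ) < 2 ^ m := by positivity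
  have e : ugS w x y m - ugS w x y' m
      = (ugW w m (ugIx m x) (ugIx m y) - ugW w m (ugIx m x) (ugIx m y')) / 2 ^ m := by
    unfold ugS; ring
  rw [e, abs_div, abs_of_pos hp, div_le_iff₀ hp]
  refine (hW.2.2 _ _ _).trans ?_
  have e2 : (K * |y - y'| + K / 2 ^ m) * 2 ^ m = K * (2 ^ m * |y - y'| + 1) := by
    field_simp
  rw [e2]
  exact mul_le_mul_of_nonneg_left (ugIx_lip m y y') hW.1

private lemma ugS_zero (w : ZG) (m : ℕ) : ugS w 0 0 m = 0 := by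
  unfold ugS
  rw [ugIx_zero, sub_self, zero_div]

private lemma div_two_pow_le {K : ℝ} (hK : 0 ≤ K) (m : ℕ) : K / 2 ^ m ≤ K :=
  div_le_self hK (one_le_pow₀ (by norm_num))

private lemma ugS_bdd {K : ℝ} {w : ZG} (h : bd K w) (x y : ℝ) (m : ℕ) :
    |ugS w x y m| ≤ K * (|x| + |y| + 2) := by
  have h1 := ugS_x h x 0 y m
  have h2 := ugS_y h 0 y 0 m
  rw [ugS_zero, sub_zero] at h2
  rw [sub_zero] at h1 h2
  have hK := BD.nonneg h
  have h3 := div_two_pow_le hK m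
  have h4 := abs_add_le (ugS w x y m - ugS w 0 y m) (ugS w 0 y m)
  rw [sub_add_cancel] at h4
  linarith

private lemma ugS_ex (w : ZG) (x y : ℝ) : ∃ B, ∀ m, |ugS w x y m| ≤ B := by
  obtain ⟨K, hK⟩ := BD.ex w
  exact ⟨_, fun m => ugS_bdd hK x y m⟩

private lemma ugS_add (v w : ZG) (x y : ℝ) (m : ℕ) :
    ugS (v + w) x y m = ugS v x y m + ugS w x y m := by
  have e : ugW (v + w) m = ugW v m + ugW w m := rfl
  unfold ugS
  rw [e]
  simp only [Pi.add_apply]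
  ring

private lemma ugS_smul (c : ℝ) (w : ZG) (x y : ℝ) (m : ℕ) :
    ugS (c • w) x y m = c * ugS w x y m := by
  have e : ugW (c • w) m = c • ugW w m := rfl
  unfold ugS
  rw [e]
  simp only [Pi.smul_apply, smul_eq_mul]
  ring

/-- the embedding -/
private noncomputable def ugF (f : LX Set.univ o1) (p : ℕ × ℕ) (i j : Fin (p.1 + 1)) : ℝ :=
  2 ^ p.2 * (f.1 (((i.1 : ℝ) - ((p.1 / 2 : ℕ) : ℝ)) / 2 ^ p.2)
      ⟨((j.1 : ℝ) - ((p.1 / 2 : ℕ) : ℝ)) / 2 ^ p.2, trivial⟩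
    - f.1 ((((0 : Fin (p.1 + 1)).1 : ℝ) - ((p.1 / 2 : ℕ) : ℝ)) / 2 ^ p.2)
      ⟨(((0 : Fin (p.1 + 1)).1 : ℝ) - ((p.1 / 2 : ℕ) : ℝ)) / 2 ^ p.2, trivial⟩)

private lemma ugF_lip {K : ℝ} {f : LX Set.univ o1} (h : bd K f) (p : ℕ × ℕ) :
    lipG K (ugF f p) := by
  have h' : lipB K f.1 := h
  have hp : (0 : ℝ) < 2 ^ p.2 := by positivity
  refine ⟨h'.1, fun i i' j => ?_, fun i j j' => ?_⟩
  · have e : ugF f p i j - ugF f p i' j
        = 2 ^ p.2 * (f.1 (((i.1 : ℝ) - ((p.1 / 2 : ℕ) : ℝ)) / 2 ^ p.2)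
          ⟨((j.1 : ℝ) - ((p.1 / 2 : ℕ) : ℝ)) / 2 ^ p.2, trivial⟩
          - f.1 (((i'.1 : ℝ) - ((p.1 / 2 : ℕ) : ℝ)) / 2 ^ p.2)
          ⟨((j.1 : ℝ) - ((p.1 / 2 : ℕ) : ℝ)) / 2 ^ p.2, trivial⟩) := by
      unfold ugF; ring
    rw [e, abs_mul, abs_of_pos hp]
    have h1 := h'.2.1 (((i.1 : ℝ) - ((p.1 / 2 : ℕ) : ℝ)) / 2 ^ p.2)
      (((i'.1 : ℝ) - ((p.1 / 2 : ℕ) : ℝ)) / 2 ^ p.2)
      ⟨((j.1 : ℝ) - ((p.1 / 2 : ℕ) : ℝ)) / 2 ^ p.2, trivial⟩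
    have e2 : ((i.1 : ℝ) - ((p.1 / 2 : ℕ) : ℝ)) / 2 ^ p.2 - ((i'.1 : ℝ) - ((p.1 / 2 : ℕ) : ℝ)) / 2 ^ p.2
        = ((i.1 : ℝ) - i'.1) / 2 ^ p.2 := by ring
    rw [e2, abs_div, abs_of_pos hp] at h1
    calc _ ≤ 2 ^ p.2 * (K * (|(i.1 : ℝ) - i'.1| / 2 ^ p.2)) :=
          mul_le_mul_of_nonneg_left h1 hp.le
      _ = K * |(i.1 : ℝ) - i'.1| := by field_simp
  · have e : ugF f p i j - ugF f p i j'
        = 2 ^ p.2 * (f.1 (((i.1 : ℝ) - ((p.1 / 2 : ℕ) : ℝ)) / 2 ^ p.2)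
          ⟨((j.1 : ℝ) - ((p.1 / 2 : ℕ) : ℝ)) / 2 ^ p.2, trivial⟩
          - f.1 (((i.1 : ℝ) - ((p.1 / 2 : ℕ) : ℝ)) / 2 ^ p.2)
          ⟨((j'.1 : ℝ) - ((p.1 / 2 : ℕ) : ℝ)) / 2 ^ p.2, trivial⟩) := by
      unfold ugF; ring
    rw [e, abs_mul, abs_of_pos hp]
    have h1 := h'.2.2 (((i.1 : ℝ) - ((p.1 / 2 : ℕ) : ℝ)) / 2 ^ p.2)
      ⟨((j.1 : ℝ) - ((p.1 / 2 : ℕ) : ℝ)) / 2 ^ p.2, trivial⟩
      ⟨((j'.1 : ℝ) - ((p.1 / 2 : ℕ) : ℝ)) / 2 ^ p.2, trivial⟩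
    have e2 : ((j.1 : ℝ) - ((p.1 / 2 : ℕ) : ℝ)) / 2 ^ p.2 - ((j'.1 : ℝ) - ((p.1 / 2 : ℕ) : ℝ)) / 2 ^ p.2
        = ((j.1 : ℝ) - j'.1) / 2 ^ p.2 := by ring
    simp only [e2] at h1
    rw [abs_div, abs_of_pos hp] at h1
    calc _ ≤ 2 ^ p.2 * (K * (|(j.1 : ℝ) - j'.1| / 2 ^ p.2)) :=
          mul_le_mul_of_nonneg_left h1 hp.le
      _ = K * |(j.1 : ℝ) - j'.1| := by field_simp

private lemma ugF_zero (f : LX Set.univ o1) (p : ℕ × ℕ) : ugF f p 0 0 = 0 := by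
  unfold ugF
  rw [sub_self, mul_zero]

private noncomputable def ugJ0 (f : LX Set.univ o1) : Linf (ℕ × ℕ) (fun p => Gr p.1) :=
  ⟨fun p => ⟨ugF f p, ugF_zero f p⟩, by
    obtain ⟨K, hK⟩ := BD.ex f
    exact ⟨K, BD.nonneg hK, fun p => ugF_lip hK p⟩⟩

private noncomputable def ugJ : LX Set.univ o1 →ₗ[ℝ] ZG where
  toFun f := toZG (ugJ0 f)
  map_add' f g := by
    rw [← map_add]
    congr 1
    apply Subtype.ext
    funext p
    apply Subtype.ext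
    funext i j
    show ugF (f + g) p i j = ugF f p i j + ugF g p i j
    unfold ugF
    have e : ∀ x y, (f + g).1 x y = f.1 x y + g.1 x y := fun x y => rfl
    simp only [e]
    ring
  map_smul' c f := by
    rw [RingHom.id_apply, ← map_smul]
    congr 1
    apply Subtype.ext
    funext p
    apply Subtype.ext
    funext i j
    show ugF (c • f) p i j = c * ugF f p i j
    unfold ugF
    have e : ∀ x y, (c • f).1 x y = c * f.1 x y := fun x y => rfl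
    simp only [e]
    ring

private lemma ugS_J (f : LX Set.univ o1) (x y : ℝ) (m : ℕ) :
    ugS (ugJ f) x y m = f.1 ((((ugIx m x).1 : ℝ) - 4 ^ m) / 2 ^ m)
      ⟨(((ugIx m y).1 : ℝ) - 4 ^ m) / 2 ^ m, trivial⟩ := by
  have e : ugW (ugJ f) m = ugF f (2 * 4 ^ m, m) := rfl
  have h0 : f.1 0 o1 = 0 := f.2.1
  have hp : (0 : ℝ) < 2 ^ m := by positivity
  have hz : (((2 * 4 ^ m / 2 : ℕ)) : ℝ) = 4 ^ m := by
    have : 2 * 4 ^ m / 2 = 4 ^ m := by omega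
    rw [this]; push_cast; rfl
  have e3 : ((ugZ m).1 : ℝ) = 4 ^ m := by
    unfold ugZ; push_cast; rfl
  have h1 : ugF f (2 * 4 ^ m, m) (ugIx m x) (ugIx m y) - ugF f (2 * 4 ^ m, m) (ugZ m) (ugZ m)
      = 2 ^ m * (f.1 ((((ugIx m x).1 : ℝ) - 4 ^ m) / 2 ^ m)
      ⟨(((ugIx m y).1 : ℝ) - 4 ^ m) / 2 ^ m, trivial⟩) := by
    unfold ugF
    simp only [hz, e3, sub_self, zero_div]
    have e4 : (⟨0, trivial⟩ : (Set.univ : Set ℝ)) = o1 := rfl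
    rw [e4, h0]
    ring
  unfold ugS
  rw [e, h1]
  field_simp

private lemma ug_tend (f : LX Set.univ o1) (x : ℝ) (y : (Set.univ : Set ℝ)) :
    Filter.Tendsto (fun m => ugS (ugJ f) x y.1 m) Filter.atTop (nhds (f.1 x y)) := by
  obtain ⟨K, hK⟩ := BD.ex f
  have h' : lipB K f.1 := hK
  have hlim : Filter.Tendsto (fun m : ℕ => 2 * K * (1 / 2 : ℝ) ^ m) Filter.atTop (nhds 0) := by
    have := (tendsto_pow_atTop_nhds_zero_of_lt_one (by norm_num : (0 : ℝ) ≤ 1 / 2)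
      (by norm_num)).const_mul (2 * K)
    simpa using this
  rw [tendsto_iff_norm_sub_tendsto_zero]
  have h2 : Filter.Tendsto (fun m : ℕ => (2 : ℝ) ^ m) Filter.atTop Filter.atTop :=
    tendsto_pow_atTop_atTop_of_one_lt (by norm_num)
  refine squeeze_zero' (Filter.Eventually.of_forall fun m => norm_nonneg _) ?_ hlim
  filter_upwards [h2.eventually_ge_atTop |x|, h2.eventually_ge_atTop |y.1|] with m hx hy
  have hp : (0 : ℝ) < 2 ^ m := by positivity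
  rw [ugS_J, ugIx_eq m x hx, ugIx_eq m y.1 hy, Real.norm_eq_abs]
  have key : ∀ t : ℝ, |(⌊(2 : ℝ) ^ m * t⌋ : ℝ) / 2 ^ m - t| ≤ (1 / 2) ^ m := by
    intro t
    have f1 := Int.floor_le ((2 : ℝ) ^ m * t)
    have f2 := Int.lt_floor_add_one ((2 : ℝ) ^ m * t)
    have e : (⌊(2 : ℝ) ^ m * t⌋ : ℝ) / 2 ^ m - t = ((⌊(2 : ℝ) ^ m * t⌋ : ℝ) - 2 ^ m * t) / 2 ^ m := by
      field_simp
    rw [e, abs_div, abs_of_pos hp, div_le_iff₀ hp, one_div, inv_pow, inv_mul_cancel₀ hp.ne', abs_le]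
    constructor <;> linarith
  have h3 := h'.2.1 ((⌊(2 : ℝ) ^ m * x⌋ : ℝ) / 2 ^ m) x
    ⟨(⌊(2 : ℝ) ^ m * y.1⌋ : ℝ) / 2 ^ m, trivial⟩
  have h4 := h'.2.2 x ⟨(⌊(2 : ℝ) ^ m * y.1⌋ : ℝ) / 2 ^ m, trivial⟩ y
  have h5 := mul_le_mul_of_nonneg_left (key x) h'.1
  have h6 := mul_le_mul_of_nonneg_left (key y.1) h'.1
  have h7 := abs_sub_le (f.1 ((⌊(2 : ℝ) ^ m * x⌋ : ℝ) / 2 ^ m)
    ⟨(⌊(2 : ℝ) ^ m * y.1⌋ : ℝ) / 2 ^ m, trivial⟩)
    (f.1 x ⟨(⌊(2 : ℝ) ^ m * y.1⌋ : ℝ) / 2 ^ m, trivial⟩) (f.1 x y)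
  linarith

theorem cpl_univ_ZG : Cpl 1 (LX Set.univ o1) ZG := by
  obtain ⟨Lim, hadd, hsmul, hlim, hbd⟩ := exists_ulim
  have hlip : ∀ (K : ℝ) (w : ZG), bd K w →
      lipB K (fun (x : ℝ) (y : (Set.univ : Set ℝ)) => Lim (fun m => ugS w x y.1 m)) := by
    intro K w hw
    have hK := BD.nonneg hw
    have hdiff : ∀ u v : ℕ → ℝ, (∃ B, ∀ n, |u n| ≤ B) → (∃ B, ∀ n, |v n| ≤ B) →
        Lim u - Lim v = Lim (fun n => u n - v n) := by
      intro u v hu hv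
      have hv' : ∃ B, ∀ n, |(-1) * v n| ≤ B := by
        obtain ⟨B, hB⟩ := hv
        exact ⟨B, fun n => by rw [neg_one_mul, abs_neg]; exact hB n⟩
      have h1 := hadd u (fun n => (-1) * v n) hu hv'
      rw [hsmul (-1) v hv] at h1
      have h2 : (fun n => u n + (-1) * v n) = fun n => u n - v n := by
        funext n; ring
      rw [h2] at h1
      rw [h1]; ring
    have hb2 : ∀ u v : ℕ → ℝ, (∃ B, ∀ n, |u n| ≤ B) → (∃ B, ∀ n, |v n| ≤ B) →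
        ∃ B, ∀ n, |u n - v n| ≤ B := by
      rintro u v ⟨B, hB⟩ ⟨B', hB'⟩
      exact ⟨B + B', fun n => (abs_sub _ _).trans (add_le_add (hB n) (hB' n))⟩
    have hev : ∀ L : ℝ, ∀ ε > 0, ∀ᶠ m : ℕ in Filter.atTop, L + K / 2 ^ m ≤ L + ε := by
      intro L ε hε
      have h2 : Filter.Tendsto (fun m : ℕ => K * (1 / 2 : ℝ) ^ m) Filter.atTop (nhds 0) := by
        have := (tendsto_pow_atTop_nhds_zero_of_lt_one (by norm_num : (0 : ℝ) ≤ 1 / 2)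
          (by norm_num)).const_mul K
        simpa using this
      filter_upwards [h2.eventually_le_const hε] with m hm
      have e : K / 2 ^ m = K * (1 / 2 : ℝ) ^ m := by
        rw [one_div, inv_pow]; rfl
      rw [e]
      linarith
    refine ⟨hK, fun x x' y => ?_, fun x y y' => ?_⟩
    · show |Lim (fun m => ugS w x y.1 m) - Lim (fun m => ugS w x' y.1 m)| ≤ K * |x - x'|
      rw [hdiff _ _ (ugS_ex w x y.1) (ugS_ex w x' y.1)]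
      refine hbd _ _ (hb2 _ _ (ugS_ex w x y.1) (ugS_ex w x' y.1)) fun ε hε => ?_
      filter_upwards [hev (K * |x - x'|) ε hε] with m hm
      exact (ugS_x hw x x' y.1 m).trans hm
    · show |Lim (fun m => ugS w x y.1 m) - Lim (fun m => ugS w x y'.1 m)| ≤ K * |(y : ℝ) - y'|
      rw [hdiff _ _ (ugS_ex w x y.1) (ugS_ex w x y'.1)]
      refine hbd _ _ (hb2 _ _ (ugS_ex w x y.1) (ugS_ex w x y'.1)) fun ε hε => ?_
      filter_upwards [hev (K * |(y : ℝ) - y'|) ε hε] with m hm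
      exact (ugS_y hw x y.1 y'.1 m).trans hm
  have hzero : ∀ w : ZG, Lim (fun m => ugS w 0 o1.1 m) = 0 := by
    intro w
    apply hlim
    have : (fun m => ugS w 0 o1.1 m) = fun _ => 0 := by
      funext m
      exact ugS_zero w m
    rw [this]
    exact tendsto_const_nhds
  let P : ZG →ₗ[ℝ] LX Set.univ o1 :=
    { toFun := fun w => ⟨fun x y => Lim (fun m => ugS w x y.1 m), hzero w, by
        obtain ⟨K, hK⟩ := BD.ex w
        exact ⟨K, hlip K w hK⟩⟩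
      map_add' := fun v w => by
        apply Subtype.ext
        funext x y
        show Lim (fun m => ugS (v + w) x y.1 m)
          = Lim (fun m => ugS v x y.1 m) + Lim (fun m => ugS w x y.1 m)
        rw [← hadd _ _ (ugS_ex v x y.1) (ugS_ex w x y.1)]
        congr 1
        funext m
        exact ugS_add v w x y.1 m
      map_smul' := fun c w => by
        apply Subtype.ext
        funext x y
        show Lim (fun m => ugS (c • w) x y.1 m) = c * Lim (fun m => ugS w x y.1 m)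
        rw [← hsmul c _ (ugS_ex w x y.1)]
        congr 1
        funext m
        exact ugS_smul c w x y.1 m }
  refine ⟨ugJ, P, fun f => ?_, fun K f hf => ?_, fun K w hw => ?_⟩
  · apply Subtype.ext
    funext x y
    show Lim (fun m => ugS (ugJ f) x y.1 m) = f.1 x y
    exact hlim _ _ (ug_tend f x y)
  · rw [one_mul]
    exact bd_toZG.2 ⟨BD.nonneg hf, fun p => ugF_lip hf p⟩
  · rw [one_mul]
    exact hlip K w hw

end H50LP
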