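import Pool.Agent.H50.LP.CplBasic

/-!
MP_b365ef_an [H50 LP ZGR]. `ZG` is isometric to the l_infty sum of countably many copies of itself (no casts needed).
(`ZG` is a def; pass to functions with `toZG.symm`, `bd_ZG`, see Defs.) `T v = (k ↦ (p ↦ v (p.1, Nat.pair k p.2)))`, inverse `w ↦ (p ↦ w (Nat.unpair p.2).1 (p.1, (Nat.unpair p.2).2))`; the types `Gr p.1` agree
definitionally. `Nat.pair_unpair`, `Nat.unpair_pair`. For the composition use `Prod.ext`-free reasoning: `Subtype.ext`, `funext`, and for the index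
`(p.1, Nat.pair (Nat.unpair p.2).1 (Nat.unpair p.2).2) = p` rewrite with `Nat.pair_unpair` after destructuring `p = (N, m)`: the statement
`v (N, Nat.pair (Nat.unpair m).1 (Nat.unpair m).2) = v (N, m)` is proved by a lemma `∀ m', m' = m → HEq / v (N, m') = v (N, m)` (here both have type
`Gr N`, so it is an honest equality: `congrArg (fun m' => v (N, m'))`).
-/

set_option autoImplicit false

namespace H50LP

section
variable (G : ℕ → Type) [∀ n, AddCommGroup (G n)] [∀ n, Module ℝ (G n)] [∀ n, BD (G n)]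

private noncomputable def ZgRep_T : Linf (ℕ × ℕ) (fun p => G p.1) ≃ₗ[ℝ]
    Linf ℕ (fun _ => Linf (ℕ × ℕ) (fun p => G p.1)) where
  toFun v := ⟨fun k => ⟨fun p => v.1 (p.1, Nat.pair k p.2), by
    obtain ⟨K, hK, h⟩ := v.2
    exact ⟨K, hK, fun p => h (p.1, Nat.pair k p.2)⟩⟩, by
    obtain ⟨K, hK, h⟩ := v.2
    exact ⟨K, hK, fun k => ⟨hK, fun p => h (p.1, Nat.pair k p.2)⟩⟩⟩
  map_add' v w := rfl
  map_smul' c v := rfl
  invFun w := ⟨fun p => (w.1 (Nat.unpair p.2).1).1 (p.1, (Nat.unpair p.2).2), by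
    obtain ⟨K, hK, h⟩ := w.2
    exact ⟨K, hK, fun p => (h (Nat.unpair p.2).1).2 (p.1, (Nat.unpair p.2).2)⟩⟩
  left_inv v := by
    apply Subtype.ext
    funext p
    obtain ⟨N, m⟩ := p
    exact congrArg (β := G N) (fun m' => v.1 (N, m')) (Nat.pair_unpair m)
  right_inv w := by
    apply Subtype.ext
    funext k
    apply Subtype.ext
    funext p
    obtain ⟨N, m⟩ := p
    exact congrArg (β := G N) (fun u : ℕ × ℕ => (w.1 u.1).1 (N, u.2)) (Nat.unpair_pair k m)

private theorem ZgRep_iso : Iso (Linf (ℕ × ℕ) (fun p => G p.1))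
    (Linf ℕ (fun _ => Linf (ℕ × ℕ) (fun p => G p.1))) := by
  refine ⟨ZgRep_T G, 1, ?_, ?_⟩
  · intro K v hv
    rw [one_mul]
    exact ⟨hv.1, fun k => ⟨hv.1, fun p => hv.2 (p.1, Nat.pair k p.2)⟩⟩
  · intro K w hw
    rw [one_mul]
    exact ⟨hw.1, fun p => (hw.2 (Nat.unpair p.2).1).2 (p.1, (Nat.unpair p.2).2)⟩

end

theorem iso_ZG_rep : Iso ZG (Linf ℕ (fun _ => ZG)) := ZgRep_iso (fun N => Gr N)

end H50LP
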