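import Pool.Agent.H50.LP.Place
import Pool.Agent.H50.LP.GridPlace
import Pool.Agent.H50.LP.UnivGrid
import Pool.Agent.H50.LP.LxUniv
import Pool.Agent.H50.LP.ZgRep
import Pool.Agent.H50.LP.Pelc

/-!
MP_b365ef_an [H50 LP FIN3]. Assembly of the second alternative.
`cpl_ZG_LX`: choose for each `N` the data `a, d` of `hAP`, `grid_place` gives `L N, J N, P N`; `place` with `ι = ℕ × ℕ`, `e = Nat.pairEquiv`, `V p = Gr p.1`,
`L p.1, J p.1, P p.1`, `C = 3`; then compose with `toZG` (`Bdd 1` both ways, `bd_ZG`, `bd_Linf`).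
`iso_LX_ZG`: `LX A a0 ⊂ Linf ℕ (LX univ) ⊂ Linf ℕ ZG ≅ ZG` (`cpl_LX_univ`, `cpl_univ_ZG` with `cpl_linf`, `iso_ZG_rep`), `ZG ⊂ LX A a0` by `cpl_ZG_LX`; `pelc`.
`iso_LX_univ`: both `LX A a0` and `LX univ o1` are isomorphic to `ZG` (`Set.univ` satisfies `hAP` with `a i = i`, `d = 1`).
-/

set_option autoImplicit false

namespace H50LP

/-- `A` contains approximate progressions of every length. -/
def HasAP (A : Set ℝ) : Prop := ∀ N : ℕ, ∃ (a : Fin (N + 1) → ℝ) (d : ℝ), 0 < d ∧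
  (∀ i, a i ∈ A) ∧ ∀ i : Fin N, d / 2 ≤ a i.succ - a i.castSucc ∧ a i.succ - a i.castSucc ≤ 2 * d

theorem cpl_ZG_LX (A : Set ℝ) (a0 : A) (h : HasAP A) : Cpl 6 ZG (LX A a0) := by
  have h1 : ∀ N : ℕ, ∃ (L : ℝ) (J : Gr N →ₗ[ℝ] (ℝ → A → ℝ)) (P : (ℝ → A → ℝ) →ₗ[ℝ] Gr N),
      1 ≤ L ∧
      (∀ (v : Gr N) (K : ℝ), bd K v → lipB (3 * K) (J v)) ∧
      (∀ (v : Gr N) (x : ℝ) (a : A), (x ≤ 0 ∨ L ≤ x) → J v x a = 0) ∧
      (∀ (f : ℝ → A → ℝ) (K : ℝ), lipB K f → bd (3 * K) (P f)) ∧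
      (∀ v : Gr N, P (J v) = v) ∧
      (∀ f g : ℝ → A → ℝ, (∀ x ∈ Set.Icc 0 L, ∀ a, f x a = g x a) → P f = P g) := by
    intro N
    obtain ⟨a, d, hd, haA, hgap⟩ := h N
    exact grid_place A N (fun i => ⟨a i, haA i⟩) d hd hgap
  choose L J P hL hJ hs hP hPJ hPl using h1
  have h2 : Cpl (2 * 3) (Linf (ℕ × ℕ) (fun p => Gr p.1)) (LX A a0) :=
    place Nat.pairEquiv (fun p : ℕ × ℕ => Gr p.1) A a0 (fun p => L p.1) (fun p => hL p.1) 3
      (by norm_num) (fun p => J p.1) (fun p => P p.1) (fun p => hJ p.1) (fun p => hs p.1)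
      (fun p => hP p.1) (fun p => hPJ p.1) (fun p => hPl p.1)
  obtain ⟨J', P', h3, h4, h5⟩ := h2
  refine ⟨J'.comp (toZG.symm : ZG →ₗ[ℝ] _), (toZG : _ →ₗ[ℝ] ZG).comp P', fun v => ?_, ?_, ?_⟩
  · show toZG (P' (J' (toZG.symm v))) = v
    rw [h3]
    exact toZG.apply_symm_apply v
  · intro K v hv
    have := h4 K (toZG.symm v) hv
    rw [show (6 : ℝ) = 2 * 3 by norm_num]
    exact this
  · intro K f hf
    have := h5 K f hf
    rw [show (6 : ℝ) = 2 * 3 by norm_num]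
    exact this

theorem iso_LX_ZG (A : Set ℝ) (a0 : A) (h : HasAP A) : Iso (LX A a0) ZG := by
  have h1 : Cpl 1 (Linf ℕ (fun _ => LX Set.univ o1)) (Linf ℕ (fun _ => ZG)) :=
    cpl_linf _ _ zero_le_one (fun _ => cpl_univ_ZG)
  obtain ⟨C, -, h2⟩ := (iso_ZG_rep.symm).cpl
  exact pelc ((cpl_LX_univ A a0).trans (h1.trans h2)) (cpl_ZG_LX A a0 h) iso_ZG_rep

theorem hasAP_univ : HasAP Set.univ := by
  intro N
  refine ⟨fun i => (i.1 : ℝ), 1, one_pos, fun _ => trivial, fun i => ?_⟩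
  simp only [Fin.val_succ, Fin.val_castSucc, Nat.cast_add, Nat.cast_one]
  constructor <;> linarith

theorem iso_LX_univ (A : Set ℝ) (a0 : A) (h : HasAP A) : Iso (LX A a0) (LX Set.univ o1) :=
  (iso_LX_ZG A a0 h).trans (iso_LX_ZG Set.univ o1 hasAP_univ).symm

end H50LP
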