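import Pool.Agent.H50.LP.Defs

/-!
MP_b365ef_an [H50 LP HB]. Extension of bounded operators with values in `ℓ_∞` (Hahn-Banach in every coordinate).
Proof. `Ω → ℝ` with `Ω` finite is a normed space with the sup norm (`Pi` norm; `|f ω| ≤ ‖f‖`, and `‖f‖ ≤ M` iff all `|f ω| ≤ M`, `0 ≤ M`:
`pi_norm_le_iff_of_nonneg`). For every `n` the functional `φ_n f = (T f).1 n` on `E` satisfies `|φ_n f| ≤ C ‖f‖`; make it a continuous
linear map (`LinearMap.mkContinuous`) and extend it by `Real.exists_extension_norm_eq` (or `exists_extension_norm_eq`) to `ψ_n` with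
`‖ψ_n‖ ≤ C`. `T' f = ⟨fun n => ψ_n f, _⟩`, bounded by `C ‖f‖ ≤ C M`. Choose the `ψ_n` with `choose`.
-/

set_option autoImplicit false

namespace H50LP

theorem hahnB {Ω : Type} [Fintype Ω] (E : Submodule ℝ (Ω → ℝ)) (T : E →ₗ[ℝ] Ell) (C : ℝ)
    (hC : 0 ≤ C)
    (hT : ∀ (f : E) (M : ℝ), 0 ≤ M → (∀ ω, |f.1 ω| ≤ M) → bd (C * M) (T f)) :
    ∃ T' : (Ω → ℝ) →ₗ[ℝ] Ell, (∀ f : E, T' f.1 = T f) ∧
      ∀ (f : Ω → ℝ) (M : ℝ), 0 ≤ M → (∀ ω, |f ω| ≤ M) → bd (C * M) (T' f) := by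
  have hn : ∀ n : ℕ, ∃ ψ : (Ω → ℝ) →L[ℝ] ℝ, (∀ f : E, ψ f.1 = (T f).1 n) ∧ ‖ψ‖ ≤ C := by
    intro n
    set φ : E →ₗ[ℝ] ℝ :=
      { toFun := fun f => (T f).1 n
        map_add' := by
          intro f g
          rw [map_add]
          rfl
        map_smul' := by
          intro a f
          rw [map_smul]
          rfl } with hφ
    have hb : ∀ f : E, ‖φ f‖ ≤ C * ‖f‖ := by
      intro f
      have h1 := hT f ‖f‖ (norm_nonneg f) (fun ω => by
        rw [← Real.norm_eq_abs]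
        exact norm_le_pi_norm f.1 ω)
      exact (bd_Linf.1 h1).2 n
    obtain ⟨g, hg1, hg2⟩ := exists_extension_norm_eq (𝕜 := ℝ) E (φ.mkContinuous C hb)
    refine ⟨g, fun f => ?_, ?_⟩
    · rw [hg1 f]
      rfl
    · rw [hg2]
      exact LinearMap.mkContinuous_norm_le φ hC hb
  choose ψ hψ1 hψ2 using hn
  have hbd : ∀ (f : Ω → ℝ) (M : ℝ), 0 ≤ M → (∀ ω, |f ω| ≤ M) → ∀ n, |ψ n f| ≤ C * M := by
    intro f M hM hf n
    have h1 : ‖f‖ ≤ M := (pi_norm_le_iff_of_nonneg hM).2 (fun ω => by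
      rw [Real.norm_eq_abs]
      exact hf ω)
    rw [← Real.norm_eq_abs]
    calc ‖ψ n f‖ ≤ ‖ψ n‖ * ‖f‖ := (ψ n).le_opNorm f
      _ ≤ C * M := mul_le_mul (hψ2 n) h1 (norm_nonneg f) hC
  have hex : ∀ f : Ω → ℝ, ∃ K, 0 ≤ K ∧ ∀ i, bd K ((fun n => ψ n f) i) := by
    intro f
    refine ⟨C * ‖f‖, mul_nonneg hC (norm_nonneg f), fun n => ?_⟩
    exact hbd f ‖f‖ (norm_nonneg f) (fun ω => by
      rw [← Real.norm_eq_abs]
      exact norm_le_pi_norm f ω) n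
  refine ⟨{ toFun := fun f => ⟨fun n => ψ n f, hex f⟩
            map_add' := ?_
            map_smul' := ?_ }, ?_, ?_⟩
  · intro f g
    apply Subtype.ext
    funext n
    exact map_add (ψ n) f g
  · intro a f
    apply Subtype.ext
    funext n
    exact map_smul (ψ n) a f
  · intro f
    apply Subtype.ext
    funext n
    exact hψ1 n f
  · intro f M hM hf
    exact bd_Linf.2 ⟨mul_nonneg hC hM, fun n => hbd f M hM hf n⟩

end H50LP
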