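import Pool.Agent.H50.LP.LineEll

/-!
MP_b365ef_an [H50 LP HPE]. The space of bounded Lipschitz functions on the line is complemented in `ℓ_∞`, uniformly in `R`.
Proof (`cpl_HP_lin`). For `h ∈ HP R` with `bd K h` (so `|h| ≤ K R` and `K`-Lipschitz) and `n : ℤ` let
`F_n t = h (n R) * (clamp t to [0, R]) / R + (h (n R + clamp (t - R) to [0, R]) - h (n R))`, that is: `0` for `t ≤ 0`,
`(t / R) h (n R)` on `[0, R]`, `h (n R + t - R)` on `[R, 2R]`, `h ((n+1) R)` for `t ≥ 2R`. `F_n` is linear in `h`, `F_n 0 = 0`, and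
`2K`-Lipschitz (in fact `K`; with the clamp formula `2K` is immediate since the clamp is 1-Lipschitz). So
`J h = (n ↦ F_n) ∈ Linf ℤ (fun _ => L1)`, `Bdd 2 J`.
`P F` for a family `F_n ∈ L1`: for `x` let `n = ⌊x / R⌋` and
`(P F) x = F_n (x - n R + R) + ((x - n R) / R) * (F_(n+1) (R) - F_n (2 R))`. If all `F_n` are `K`-Lipschitz: `|(P F) x| ≤ 2 R K + 3 R K`
(`F_n 0 = 0`), and on `[n R, (n+1) R]` (closed interval: the formula with `n` also gives the right value at the right end point,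
namely `F_(n+1) (R)`) it is `K + 3 K = 4K`-Lipschitz. Gluing lemma (`glue_lip`): a function which is `K`-Lipschitz on every
`[n R, (n+1) R]` is `K`-Lipschitz (for `x ≤ y` in different intervals insert the intermediate end points; induction on
`⌊y/R⌋ - ⌊x/R⌋`). So `Bdd 5 P`. `P (J h) x = h (x) + 0`: `F_n (x - n R + R) = h x`, `F_(n+1) R = h ((n+1) R) = F_n (2R)`.
`cpl_HP_ell`: `HP R ⊂ Linf ℤ L1 ⊂ Linf ℤ Ell ⊂ Ell` (`cpl_L1_ell`, `cpl_linf`, `cpl_ell_sum`).
-/

set_option autoImplicit false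

namespace H50LP

theorem glue_lip (h : ℝ → ℝ) (R K : ℝ) (hR : 0 < R) (hK : 0 ≤ K)
    (hh : ∀ n : ℤ, ∀ x ∈ Set.Icc (n * R) ((n + 1) * R), ∀ y ∈ Set.Icc (n * R) ((n + 1) * R),
      |h x - h y| ≤ K * |x - y|) : ∀ x y, |h x - h y| ≤ K * |x - y| := by
  have key : ∀ (d : ℕ) (x y : ℝ), x ≤ y → y ≤ ((⌊x / R⌋ : ℝ) + 1 + d) * R →
      |h x - h y| ≤ K * (y - x) := by
    intro d x
    have f1 : (⌊x / R⌋ : ℝ) * R ≤ x := by
      have := Int.floor_le (x / R)
      rwa [le_div_iff₀ hR] at this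
    have f2 : x ≤ ((⌊x / R⌋ : ℝ) + 1) * R := by
      have := (Int.lt_floor_add_one (x / R)).le
      rwa [div_le_iff₀ hR] at this
    induction d with
    | zero =>
      intro y hxy hy
      rw [Nat.cast_zero, add_zero] at hy
      have h1 := hh ⌊x / R⌋ x ⟨f1, f2⟩ y ⟨f1.trans hxy, hy⟩
      rw [abs_sub_comm x y, abs_of_nonneg (by linarith : (0:ℝ) ≤ y - x)] at h1
      exact h1
    | succ d ih =>
      intro y hxy hy
      by_cases hc : y ≤ ((⌊x / R⌋ : ℝ) + 1 + d) * R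
      · exact ih y hxy hc
      · push Not at hc
        have g1 : x ≤ ((⌊x / R⌋ : ℝ) + 1 + d) * R := by
          refine f2.trans ?_
          have : (0:ℝ) ≤ (d : ℝ) * R := by positivity
          nlinarith
        have h1 := ih _ g1 le_rfl
        have e1 : (((⌊x / R⌋ + 1 + d : ℤ)) : ℝ) = (⌊x / R⌋ : ℝ) + 1 + d := by push_cast; ring
        have h2 := hh (⌊x / R⌋ + 1 + d) (((⌊x / R⌋ : ℝ) + 1 + d) * R)
          (by rw [e1]; exact ⟨le_rfl, by nlinarith⟩) y
          (by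
            rw [e1]
            refine ⟨hc.le, ?_⟩
            have e2 : ((⌊x / R⌋ : ℝ) + 1 + (d : ℝ) + 1) * R =
              ((⌊x / R⌋ : ℝ) + 1 + ((d + 1 : ℕ) : ℝ)) * R := by push_cast; ring
            rw [e2]
            exact hy)
        rw [abs_sub_comm _ y, abs_of_nonneg (by linarith :
          (0:ℝ) ≤ y - ((⌊x / R⌋ : ℝ) + 1 + d) * R)] at h2
        have e3 : h x - h y = (h x - h (((⌊x / R⌋ : ℝ) + 1 + d) * R)) +
          (h (((⌊x / R⌋ : ℝ) + 1 + d) * R) - h y) := by ring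
        rw [e3]
        calc _ ≤ _ := abs_add_le _ _
          _ ≤ K * (((⌊x / R⌋ : ℝ) + 1 + d) * R - x) + K * (y - ((⌊x / R⌋ : ℝ) + 1 + d) * R) :=
            add_le_add h1 h2
          _ = _ := by ring
  have key2 : ∀ x y : ℝ, x ≤ y → |h x - h y| ≤ K * (y - x) := by
    intro x y hxy
    obtain ⟨d, hd⟩ := exists_nat_ge (y / R - ((⌊x / R⌋ : ℝ) + 1))
    refine key d x y hxy ?_
    have h1 : y / R ≤ (⌊x / R⌋ : ℝ) + 1 + d := by linarith
    rwa [div_le_iff₀ hR] at h1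
  intro x y
  rcases le_total x y with hxy | hxy
  · rw [abs_sub_comm x y, abs_of_nonneg (by linarith : (0:ℝ) ≤ y - x)]
    exact key2 x y hxy
  · rw [abs_sub_comm (h x), abs_of_nonneg (by linarith : (0:ℝ) ≤ x - y)]
    exact key2 y x hxy

/-- Truncation to `[0, R]`. -/
noncomputable def cl (R t : ℝ) : ℝ := max 0 (min t R)

theorem cl_lip (R t s : ℝ) : |cl R t - cl R s| ≤ |t - s| := by
  unfold cl
  have h1 := abs_max_sub_max_le_max (0:ℝ) (min t R) 0 (min s R)
  have h2 := abs_min_sub_min_le_max t R s R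
  simp only [sub_self, abs_zero] at h1 h2
  rw [max_eq_right (abs_nonneg (min t R - min s R))] at h1
  rw [max_eq_left (abs_nonneg (t - s))] at h2
  exact h1.trans h2

theorem cl_nonpos {R t : ℝ} (hR : 0 < R) (ht : t ≤ 0) : cl R t = 0 := by
  unfold cl
  rw [min_eq_left (by linarith), max_eq_left ht]

theorem cl_mid {R t : ℝ} (h0 : 0 ≤ t) (h1 : t ≤ R) : cl R t = t := by
  unfold cl
  rw [min_eq_left h1, max_eq_right h0]

theorem cl_ge {R t : ℝ} (hR : 0 < R) (h1 : R ≤ t) : cl R t = R := by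
  unfold cl
  rw [min_eq_right h1, max_eq_right hR.le]

/-- The pieces of a bounded Lipschitz function. -/
noncomputable def jf (R : ℝ) (h : ℝ → ℝ) (n : ℤ) (t : ℝ) : ℝ :=
  h (n * R) * (cl R t / R) + (h (n * R + cl R (t - R)) - h (n * R))

theorem jf_zero {R : ℝ} (hR : 0 < R) (h : ℝ → ℝ) (n : ℤ) : jf R h n 0 = 0 := by
  unfold jf
  rw [cl_nonpos hR le_rfl, cl_nonpos hR (by linarith)]
  simp

theorem jf_lip {R K : ℝ} (hR : 0 < R) {h : ℝ → ℝ} (hh : lipR K h) (hb : ∀ x, |h x| ≤ K * |R|)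
    (n : ℤ) : lipR (2 * K) (jf R h n) := by
  have hK := hh.1
  refine ⟨by positivity, fun x x' => ?_⟩
  have e : jf R h n x - jf R h n x' = h (n * R) / R * (cl R x - cl R x') +
      (h (n * R + cl R (x - R)) - h (n * R + cl R (x' - R))) := by
    unfold jf
    ring
  rw [e]
  have h1 : |h (n * R) / R| ≤ K := by
    rw [abs_div, div_le_iff₀ (abs_pos.2 hR.ne')]
    exact hb _
  have h2 : |h (n * R) / R * (cl R x - cl R x')| ≤ K * |x - x'| := by
    rw [abs_mul]
    exact mul_le_mul h1 (cl_lip R x x') (abs_nonneg _) hK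
  have h3 : |h (n * R + cl R (x - R)) - h (n * R + cl R (x' - R))| ≤ K * |x - x'| := by
    refine (hh.2 _ _).trans ?_
    refine mul_le_mul_of_nonneg_left ?_ hK
    have h4 := cl_lip R (x - R) (x' - R)
    have e1 : n * R + cl R (x - R) - (n * R + cl R (x' - R)) = cl R (x - R) - cl R (x' - R) := by
      ring
    have e2 : x - R - (x' - R) = x - x' := by ring
    rw [e1]
    rw [e2] at h4
    exact h4
  calc _ ≤ _ := abs_add_le _ _
    _ ≤ K * |x - x'| + K * |x - x'| := add_le_add h2 h3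
    _ = _ := by ring

/-- The glued function. -/
noncomputable def pf (R : ℝ) (F : ℤ → ℝ → ℝ) (x : ℝ) : ℝ :=
  F ⌊x / R⌋ (x - ⌊x / R⌋ * R + R) +
    (x - ⌊x / R⌋ * R) / R * (F (⌊x / R⌋ + 1) R - F ⌊x / R⌋ (2 * R))

theorem pf_eq {R : ℝ} (hR : 0 < R) (F : ℤ → ℝ → ℝ) (n : ℤ) (x : ℝ)
    (hx : x ∈ Set.Icc (n * R) ((n + 1) * R)) :
    pf R F x = F n (x - n * R + R) + (x - n * R) / R * (F (n + 1) R - F n (2 * R)) := by
  rcases hx.2.lt_or_eq with h | h
  · have hn : ⌊x / R⌋ = n := by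
      rw [Int.floor_eq_iff]
      constructor
      · rw [le_div_iff₀ hR]
        exact hx.1
      · rw [div_lt_iff₀ hR]
        exact h
    unfold pf
    rw [hn]
  · have hn : ⌊x / R⌋ = n + 1 := by
      rw [h, mul_div_assoc, div_self hR.ne', mul_one]
      have := Int.floor_intCast (R := ℝ) (n + 1)
      rwa [Int.cast_add, Int.cast_one] at this
    unfold pf
    rw [hn, h]
    have e1 : ((n : ℝ) + 1) * R - ((n + 1 : ℤ) : ℝ) * R = 0 := by push_cast; ring
    have e2 : ((n : ℝ) + 1) * R - (n : ℝ) * R = R := by ring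
    have e3 : R + R = 2 * R := by ring
    rw [e1, e2, zero_add, zero_div, zero_mul, add_zero, div_self hR.ne', one_mul, e3]
    ring

theorem pf_gap {R K : ℝ} (hR : 0 < R) {F : ℤ → ℝ → ℝ} (h0 : ∀ n, F n 0 = 0)
    (hF : ∀ n, lipR K (F n)) (n : ℤ) : |F (n + 1) R - F n (2 * R)| ≤ 3 * K * R := by
  have h1 := (hF (n + 1)).2 R 0
  have h2 := (hF n).2 (2 * R) 0
  rw [h0, sub_zero, sub_zero, abs_of_pos hR] at h1
  rw [h0, sub_zero, sub_zero, abs_of_pos (by linarith : (0:ℝ) < 2 * R)] at h2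
  have h3 : |F (n + 1) R - F n (2 * R)| ≤ |F (n + 1) R| + |F n (2 * R)| := abs_sub _ _
  linarith

theorem pf_lip {R K : ℝ} (hR : 0 < R) {F : ℤ → ℝ → ℝ} (h0 : ∀ n, F n 0 = 0)
    (hF : ∀ n, lipR K (F n)) : lipR (4 * K) (pf R F) := by
  have hK := (hF 0).1
  refine ⟨by positivity, glue_lip _ R (4 * K) hR (by positivity) ?_⟩
  intro n x hx y hy
  rw [pf_eq hR F n x hx, pf_eq hR F n y hy]
  have e : F n (x - n * R + R) + (x - n * R) / R * (F (n + 1) R - F n (2 * R)) -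
      (F n (y - n * R + R) + (y - n * R) / R * (F (n + 1) R - F n (2 * R))) =
      (F n (x - n * R + R) - F n (y - n * R + R)) +
        (x - y) * ((F (n + 1) R - F n (2 * R)) / R) := by ring
  rw [e]
  have h1 := (hF n).2 (x - n * R + R) (y - n * R + R)
  have e1 : x - n * R + R - (y - n * R + R) = x - y := by ring
  rw [e1] at h1
  have h2 : |(x - y) * ((F (n + 1) R - F n (2 * R)) / R)| ≤ |x - y| * (3 * K) := by
    rw [abs_mul]
    refine mul_le_mul_of_nonneg_left ?_ (abs_nonneg _)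
    rw [abs_div, abs_of_pos hR, div_le_iff₀ hR]
    exact pf_gap hR h0 hF n
  calc _ ≤ _ := abs_add_le _ _
    _ ≤ K * |x - y| + |x - y| * (3 * K) := add_le_add h1 h2
    _ = _ := by ring

theorem pf_sup {R K : ℝ} (hR : 0 < R) {F : ℤ → ℝ → ℝ} (h0 : ∀ n, F n 0 = 0)
    (hF : ∀ n, lipR K (F n)) (x : ℝ) : |pf R F x| ≤ 5 * K * |R| := by
  have hK := (hF 0).1
  have f1 : (⌊x / R⌋ : ℝ) * R ≤ x := by
    have := Int.floor_le (x / R)
    rwa [le_div_iff₀ hR] at this
  have f2 : x ≤ ((⌊x / R⌋ : ℝ) + 1) * R := by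
    have := (Int.lt_floor_add_one (x / R)).le
    rwa [div_le_iff₀ hR] at this
  have g1 : 0 ≤ x - ⌊x / R⌋ * R := by linarith
  have g2 : x - ⌊x / R⌋ * R ≤ R := by nlinarith
  unfold pf
  rw [abs_of_pos hR]
  have h1 := (hF ⌊x / R⌋).2 (x - ⌊x / R⌋ * R + R) 0
  rw [h0, sub_zero, sub_zero, abs_of_nonneg (by linarith : 0 ≤ x - ⌊x / R⌋ * R + R)] at h1
  have h2 : K * (x - ⌊x / R⌋ * R + R) ≤ K * (2 * R) :=
    mul_le_mul_of_nonneg_left (by linarith) hK
  have h3 : |(x - ⌊x / R⌋ * R) / R * (F (⌊x / R⌋ + 1) R - F ⌊x / R⌋ (2 * R))| ≤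
      1 * (3 * K * R) := by
    rw [abs_mul]
    refine mul_le_mul ?_ (pf_gap hR h0 hF _) (abs_nonneg _) zero_le_one
    rw [abs_div, abs_of_pos hR, div_le_iff₀ hR, abs_of_nonneg g1, one_mul]
    exact g2
  calc _ ≤ _ := abs_add_le _ _
    _ ≤ K * (2 * R) + 1 * (3 * K * R) := add_le_add (h1.trans h2) h3
    _ = _ := by ring

theorem pf_jf {R : ℝ} (hR : 0 < R) (h : ℝ → ℝ) (x : ℝ) : pf R (jf R h) x = h x := by
  have f1 : (⌊x / R⌋ : ℝ) * R ≤ x := by
    have := Int.floor_le (x / R)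
    rwa [le_div_iff₀ hR] at this
  have f2 : x ≤ ((⌊x / R⌋ : ℝ) + 1) * R := by
    have := (Int.lt_floor_add_one (x / R)).le
    rwa [div_le_iff₀ hR] at this
  have g1 : 0 ≤ x - ⌊x / R⌋ * R := by linarith
  have g2 : x - ⌊x / R⌋ * R ≤ R := by nlinarith
  have h1 : jf R h ⌊x / R⌋ (x - ⌊x / R⌋ * R + R) = h x := by
    unfold jf
    rw [cl_ge hR (by linarith), add_sub_cancel_right, cl_mid g1 g2, div_self hR.ne']
    have e : (⌊x / R⌋ : ℝ) * R + (x - ⌊x / R⌋ * R) = x := by ring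
    rw [e]
    ring
  have h2 : jf R h (⌊x / R⌋ + 1) R = h (⌊x / R⌋ * R + R) := by
    unfold jf
    rw [cl_ge hR le_rfl, sub_self, cl_nonpos hR le_rfl, div_self hR.ne']
    have e : ((⌊x / R⌋ + 1 : ℤ) : ℝ) * R = ⌊x / R⌋ * R + R := by push_cast; ring
    rw [e, add_zero]
    ring
  have h3 : jf R h ⌊x / R⌋ (2 * R) = h (⌊x / R⌋ * R + R) := by
    unfold jf
    have e : 2 * R - R = R := by ring
    rw [cl_ge hR (by linarith), e, cl_ge hR le_rfl, div_self hR.ne']
    ring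
  unfold pf
  rw [h1, h2, h3]
  ring

theorem cpl_HP_lin (R : ℝ) (hR : 0 < R) : Cpl 5 (HP R) (Linf ℤ (fun _ => L1)) := by
  have hJ : ∀ h : HP R, ∀ n : ℤ, jf R h.1 n ∈ L1 := by
    intro h n
    obtain ⟨K, h1, h2⟩ := h.2
    exact ⟨jf_zero hR _ _, 2 * K, jf_lip hR h1 h2 n⟩
  have hJ2 : ∀ h : HP R, (fun n => (⟨jf R h.1 n, hJ h n⟩ : L1)) ∈ Linf ℤ (fun _ => L1) := by
    intro h
    obtain ⟨K, h1, h2⟩ := h.2
    have h3 := h1.1
    exact ⟨2 * K, by positivity, fun n => jf_lip hR h1 h2 n⟩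
  let J : HP R →ₗ[ℝ] Linf ℤ (fun _ => L1) :=
    { toFun := fun h => ⟨fun n => ⟨jf R h.1 n, hJ h n⟩, hJ2 h⟩
      map_add' := by
        intro h g
        refine Subtype.ext (funext fun n => Subtype.ext (funext fun t => ?_))
        show jf R (h.1 + g.1) n t = jf R h.1 n t + jf R g.1 n t
        unfold jf
        simp only [Pi.add_apply]
        ring
      map_smul' := by
        intro c h
        refine Subtype.ext (funext fun n => Subtype.ext (funext fun t => ?_))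
        show jf R (c • h.1) n t = c * jf R h.1 n t
        unfold jf
        simp only [Pi.smul_apply, smul_eq_mul]
        ring }
  have hP0 : ∀ (F : Linf ℤ (fun _ => L1)) (n : ℤ), (F.1 n).1 0 = 0 := fun F n => (F.1 n).2.1
  have hP : ∀ F : Linf ℤ (fun _ => L1), pf R (fun n => (F.1 n).1) ∈ HP R := by
    intro F
    obtain ⟨K, hK, h⟩ := F.2
    refine ⟨5 * K, (pf_lip hR (hP0 F) h).mono (by linarith), fun x => pf_sup hR (hP0 F) h x⟩
  let P : Linf ℤ (fun _ => L1) →ₗ[ℝ] HP R :=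
    { toFun := fun F => ⟨pf R (fun n => (F.1 n).1), hP F⟩
      map_add' := by
        intro F G
        refine Subtype.ext (funext fun x => ?_)
        show pf R (fun n => (F.1 n).1 + (G.1 n).1) x =
          pf R (fun n => (F.1 n).1) x + pf R (fun n => (G.1 n).1) x
        unfold pf
        simp only [Pi.add_apply]
        ring
      map_smul' := by
        intro c F
        refine Subtype.ext (funext fun x => ?_)
        show pf R (fun n => c • (F.1 n).1) x = c * pf R (fun n => (F.1 n).1) x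
        unfold pf
        simp only [Pi.smul_apply, smul_eq_mul]
        ring }
  refine ⟨J, P, ?_, ?_, ?_⟩
  · intro v
    exact Subtype.ext (funext fun x => pf_jf hR v.1 x)
  · intro K v hv
    have hK := hv.1.1
    exact ⟨by positivity, fun n => (jf_lip hR hv.1 hv.2 n).mono (by linarith)⟩
  · intro K F hF
    have hK := hF.1
    exact ⟨(pf_lip hR (hP0 F) hF.2).mono (by linarith), fun x => pf_sup hR (hP0 F) hF.2 x⟩

theorem cpl_HP_ell (R : ℝ) (hR : 0 < R) : Cpl 5 (HP R) Ell := by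
  have h1 := cpl_HP_lin R hR
  have h2 : Cpl 1 (Linf ℤ (fun _ => L1)) (Linf ℤ (fun _ => Ell)) :=
    cpl_linf (fun _ => L1) (fun _ => Ell) zero_le_one (fun _ => cpl_L1_ell)
  have h3 : Cpl 1 (Linf ℤ (fun _ => Ell)) Ell := cpl_ell_sum
  exact ((h1.trans h2).trans h3).mono (by norm_num)

end H50LP
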