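import Pool.Agent.H50.LP.CplBasic

/-!
MP_b365ef_an [H50 LP SPLIT]. Splitting off the values on the line `y = b0`, `b0` a limit of points `b n` of `B`.
For `f` in `HX B R` (or `LX A a0`) with `lipB K f` and each `x` the sequence `f x (b n)` is Cauchy (`|f x (b n) - f x (b m)| ≤ K |b n - b m|`);
let `ev f x = limUnder atTop (fun n => f x (b n))`; `Tendsto (fun n => f x (b n)) atTop (𝓝 (ev f x))`. So `ev` is linear (uniqueness of
limits), `|ev f x - ev f x'| ≤ K |x - x'|`, `|ev f x| ≤ K R` in `HX`, and `|f x b - ev f x| ≤ K |b - b0|` (`le_of_tendsto`).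
`split_HX`: `J h = (ev h, (x, b) ↦ h x b - ev h x)`, `P (g, s) = (x, b) ↦ g x + s x b`; the second component of `J h` is
`2K`-Lipschitz in `x`, `K`-Lipschitz in `b`, bounded by `K |b - b0|`; `|g + s| ≤ K R + K |b - b0| ≤ 2 K R` by `hd`. Constants 2.
`split_LX`: `J f = (x ↦ ev f x - ev f 0, (x, b) ↦ f x b - ev f x)`, `P (g, s) (x, b) = g x + s x b - s 0 a0`
(`g 0 = 0`); `P (J f) x b = ev f x - ev f 0 + f x b - ev f x - (f 0 a0 - ev f 0) = f x b`. Constants 2.
-/

set_option autoImplicit false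

namespace H50LP

section ev

open Filter Topology

variable {B : Set ℝ} {b : ℕ → B} {b0 : ℝ}

/-- limit of the values at `b n` -/
private noncomputable def ev (b : ℕ → B) (f : ℝ → B → ℝ) (x : ℝ) : ℝ :=
  limUnder atTop fun n => f x (b n)

private theorem ev_tendsto (hb : Tendsto (fun n => (b n : ℝ)) atTop (𝓝 b0)) {K : ℝ}
    {f : ℝ → B → ℝ} (hf : lipB K f) (x : ℝ) :
    Tendsto (fun n => f x (b n)) atTop (𝓝 (ev b f x)) := by
  have h1 : CauchySeq (fun n => f x (b n)) := by
    have h2 := hb.cauchySeq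
    rw [Metric.cauchySeq_iff] at h2 ⊢
    intro ε hε
    obtain ⟨N, hN⟩ := h2 (ε / (K + 1)) (div_pos hε (by linarith [hf.1]))
    refine ⟨N, fun m hm n hn => ?_⟩
    have h3 := hN m hm n hn
    rw [Real.dist_eq] at h3 ⊢
    have hK : 0 < K + 1 := by linarith [hf.1]
    rw [lt_div_iff₀ hK] at h3
    have h4 := hf.2.2 x (b m) (b n)
    have h5 := abs_nonneg ((b m : ℝ) - b n)
    nlinarith
  exact tendsto_nhds_limUnder (cauchySeq_tendsto_of_complete h1)

private theorem ev_lip (hb : Tendsto (fun n => (b n : ℝ)) atTop (𝓝 b0)) {K : ℝ}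
    {f : ℝ → B → ℝ} (hf : lipB K f) : lipR K (ev b f) := by
  refine ⟨hf.1, fun x x' => ?_⟩
  exact le_of_tendsto ((ev_tendsto hb hf x).sub (ev_tendsto hb hf x')).abs
    (Eventually.of_forall fun n => hf.2.1 x x' (b n))

private theorem ev_near (hb : Tendsto (fun n => (b n : ℝ)) atTop (𝓝 b0)) {K : ℝ}
    {f : ℝ → B → ℝ} (hf : lipB K f) (x : ℝ) (a : B) : |f x a - ev b f x| ≤ K * |(a : ℝ) - b0| := by
  refine le_of_tendsto_of_tendsto' ((tendsto_const_nhds (x := f x a)).sub
    (ev_tendsto hb hf x)).abs (((tendsto_const_nhds (x := (a : ℝ))).sub hb).abs.const_mul K)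
    fun n => hf.2.2 x a (b n)

private theorem ev_bound (hb : Tendsto (fun n => (b n : ℝ)) atTop (𝓝 b0)) {K M : ℝ}
    {f : ℝ → B → ℝ} (hf : lipB K f) (x : ℝ) (hM : ∀ a, |f x a| ≤ M) : |ev b f x| ≤ M :=
  le_of_tendsto (ev_tendsto hb hf x).abs (Eventually.of_forall fun n => hM (b n))

private theorem ev_add (hb : Tendsto (fun n => (b n : ℝ)) atTop (𝓝 b0)) {K L : ℝ}
    {f g : ℝ → B → ℝ} (hf : lipB K f) (hg : lipB L g) (x : ℝ) :
    ev b (f + g) x = ev b f x + ev b g x :=
  tendsto_nhds_unique (ev_tendsto hb (hf.add hg) x)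
    ((ev_tendsto hb hf x).add (ev_tendsto hb hg x))

private theorem ev_smul (hb : Tendsto (fun n => (b n : ℝ)) atTop (𝓝 b0)) {K : ℝ}
    {f : ℝ → B → ℝ} (hf : lipB K f) (c : ℝ) (x : ℝ) :
    ev b (c • f) x = c * ev b f x :=
  tendsto_nhds_unique (ev_tendsto hb (hf.smul c) x) ((ev_tendsto hb hf x).const_mul c)

private theorem ev_rest (hb : Tendsto (fun n => (b n : ℝ)) atTop (𝓝 b0)) {K : ℝ}
    {f : ℝ → B → ℝ} (hf : lipB K f) :
    lipB (2 * K) (fun x a => f x a - ev b f x) ∧
      ∀ x (a : B), |f x a - ev b f x| ≤ 2 * K * |(a : ℝ) - b0| := by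
  have h0 := hf.1
  refine ⟨⟨by linarith, fun x x' a => ?_, fun x a a' => ?_⟩, fun x a => ?_⟩
  · have h1 := hf.2.1 x x' a
    have h2 := (ev_lip hb hf).2 x x'
    have h3 : (f x a - ev b f x) - (f x' a - ev b f x') =
        (f x a - f x' a) - (ev b f x - ev b f x') := by ring
    rw [h3]
    refine (abs_sub _ _).trans ?_
    linarith
  · have h1 := hf.2.2 x a a'
    have h3 : (f x a - ev b f x) - (f x a' - ev b f x) = f x a - f x a' := by ring
    rw [h3]
    have h4 := abs_nonneg ((a : ℝ) - a')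
    nlinarith
  · have h1 := ev_near hb hf x a
    have h4 := abs_nonneg ((a : ℝ) - b0)
    nlinarith

end ev

theorem split_HX (B : Set ℝ) (R : ℝ) (hR : 0 < R) (b : ℕ → B) (b0 : ℝ)
    (hb : Filter.Tendsto (fun n => (b n : ℝ)) Filter.atTop (nhds b0))
    (hd : ∀ y ∈ B, |y - b0| ≤ R) : Cpl 2 (HX B R) (HP R × SX B b0) := by
  have hRa : |R| = R := abs_of_pos hR
  let J : HX B R →ₗ[ℝ] HP R × SX B b0 :=
    { toFun := fun h => (⟨ev b h.1, by
          obtain ⟨K, h1, h2⟩ := h.2
          exact ⟨K, ev_lip hb h1, fun x => ev_bound hb h1 x (h2 x)⟩⟩,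
        ⟨fun x a => h.1 x a - ev b h.1 x, by
          obtain ⟨K, h1, h2⟩ := h.2
          exact ⟨2 * K, ev_rest hb h1⟩⟩)
      map_add' := by
        intro f g
        obtain ⟨K, h1, _⟩ := f.2
        obtain ⟨L, h1', _⟩ := g.2
        refine Prod.ext (Subtype.ext ?_) (Subtype.ext ?_)
        · funext x
          exact ev_add hb h1 h1' x
        · funext x a
          have h2 := ev_add hb h1 h1' x
          change (f.1 + g.1) x a - ev b (f.1 + g.1) x =
            (f.1 x a - ev b f.1 x) + (g.1 x a - ev b g.1 x)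
          rw [h2, Pi.add_apply, Pi.add_apply]
          ring
      map_smul' := by
        intro c f
        obtain ⟨K, h1, _⟩ := f.2
        refine Prod.ext (Subtype.ext ?_) (Subtype.ext ?_)
        · funext x
          exact ev_smul hb h1 c x
        · funext x a
          have h2 := ev_smul hb h1 c x
          change (c • f.1) x a - ev b (c • f.1) x = c * (f.1 x a - ev b f.1 x)
          rw [h2, Pi.smul_apply, Pi.smul_apply, smul_eq_mul]
          ring }
  have key : ∀ (K : ℝ) (v : HP R × SX B b0), bd K v →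
      lipB (2 * K) (fun x (a : B) => v.1.1 x + v.2.1 x a) ∧
        ∀ x (a : B), |v.1.1 x + v.2.1 x a| ≤ 2 * K * |R| := by
    rintro K v ⟨⟨h1, h2⟩, h3, h4⟩
    have h0 := h1.1
    refine ⟨⟨by linarith, fun x x' a => ?_, fun x a a' => ?_⟩, fun x a => ?_⟩
    · have e1 := h1.2 x x'
      have e2 := h3.2.1 x x' a
      have e3 : (v.1.1 x + v.2.1 x a) - (v.1.1 x' + v.2.1 x' a) =
          (v.1.1 x - v.1.1 x') + (v.2.1 x a - v.2.1 x' a) := by ring
      rw [e3]
      refine (abs_add_le _ _).trans ?_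
      linarith
    · have e1 := h3.2.2 x a a'
      have e3 : (v.1.1 x + v.2.1 x a) - (v.1.1 x + v.2.1 x a') =
          (v.2.1 x a - v.2.1 x a') := by ring
      rw [e3]
      have h5 := abs_nonneg ((a : ℝ) - a')
      nlinarith
    · have e1 := h2 x
      have e2 := h4 x a
      have e3 := hd a a.2
      refine (abs_add_le _ _).trans ?_
      rw [hRa] at e1 ⊢
      have e4 : K * |(a : ℝ) - b0| ≤ K * R := mul_le_mul_of_nonneg_left e3 h0
      linarith
  let P : HP R × SX B b0 →ₗ[ℝ] HX B R :=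
    { toFun := fun v => ⟨fun x a => v.1.1 x + v.2.1 x a, by
        obtain ⟨K, hK⟩ := BD.ex v
        exact ⟨2 * K, key K v hK⟩⟩
      map_add' := by
        intro v w
        refine Subtype.ext ?_
        funext x a
        change (v.1.1 x + w.1.1 x) + (v.2.1 x a + w.2.1 x a) =
          (v.1.1 x + v.2.1 x a) + (w.1.1 x + w.2.1 x a)
        ring
      map_smul' := by
        intro c v
        refine Subtype.ext ?_
        funext x a
        change c * v.1.1 x + c * v.2.1 x a = c * (v.1.1 x + v.2.1 x a)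
        ring }
  refine ⟨J, P, fun h => ?_, ?_, ?_⟩
  · refine Subtype.ext ?_
    funext x a
    change ev b h.1 x + (h.1 x a - ev b h.1 x) = h.1 x a
    ring
  · rintro K h ⟨h1, h2⟩
    have h0 := h1.1
    refine ⟨⟨(ev_lip hb h1).mono (by linarith), fun x => ?_⟩, ev_rest hb h1⟩
    have h3 : |ev b h.1 x| ≤ K * |R| := ev_bound hb h1 x (h2 x)
    change |ev b h.1 x| ≤ 2 * K * |R|
    have h4 := abs_nonneg R
    nlinarith
  · exact fun K v hv => key K v hv

theorem split_LX (A : Set ℝ) (a0 : A) (b : ℕ → A) (b0 : ℝ)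
    (hb : Filter.Tendsto (fun n => (b n : ℝ)) Filter.atTop (nhds b0)) :
    Cpl 2 (LX A a0) (L1 × SX A b0) := by
  let J : LX A a0 →ₗ[ℝ] L1 × SX A b0 :=
    { toFun := fun h => (⟨fun x => ev b h.1 x - ev b h.1 0, by
          obtain ⟨_, K, h1⟩ := h.2
          refine ⟨sub_self _, K, (ev_lip hb h1).1, fun x x' => ?_⟩
          rw [sub_sub_sub_cancel_right]
          exact (ev_lip hb h1).2 x x'⟩,
        ⟨fun x a => h.1 x a - ev b h.1 x, by
          obtain ⟨_, K, h1⟩ := h.2
          exact ⟨2 * K, ev_rest hb h1⟩⟩)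
      map_add' := by
        intro f g
        obtain ⟨_, K, h1⟩ := f.2
        obtain ⟨_, L, h1'⟩ := g.2
        refine Prod.ext (Subtype.ext ?_) (Subtype.ext ?_)
        · funext x
          have h2 := ev_add hb h1 h1' x
          have h3 := ev_add hb h1 h1' 0
          change ev b (f.1 + g.1) x - ev b (f.1 + g.1) 0 =
            (ev b f.1 x - ev b f.1 0) + (ev b g.1 x - ev b g.1 0)
          rw [h2, h3]
          ring
        · funext x a
          have h2 := ev_add hb h1 h1' x
          change (f.1 + g.1) x a - ev b (f.1 + g.1) x =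
            (f.1 x a - ev b f.1 x) + (g.1 x a - ev b g.1 x)
          rw [h2, Pi.add_apply, Pi.add_apply]
          ring
      map_smul' := by
        intro c f
        obtain ⟨_, K, h1⟩ := f.2
        refine Prod.ext (Subtype.ext ?_) (Subtype.ext ?_)
        · funext x
          have h2 := ev_smul hb h1 c x
          have h3 := ev_smul hb h1 c 0
          change ev b (c • f.1) x - ev b (c • f.1) 0 = c * (ev b f.1 x - ev b f.1 0)
          rw [h2, h3]
          ring
        · funext x a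
          have h2 := ev_smul hb h1 c x
          change (c • f.1) x a - ev b (c • f.1) x = c * (f.1 x a - ev b f.1 x)
          rw [h2, Pi.smul_apply, Pi.smul_apply, smul_eq_mul]
          ring }
  have key : ∀ (K : ℝ) (v : L1 × SX A b0), bd K v →
      lipB (2 * K) (fun x (a : A) => v.1.1 x + v.2.1 x a - v.2.1 0 a0) := by
    rintro K v ⟨h1, h3, h4⟩
    have h0 := h1.1
    refine ⟨by linarith, fun x x' a => ?_, fun x a a' => ?_⟩
    · have e1 := h1.2 x x'
      have e2 := h3.2.1 x x' a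
      have e3 : (v.1.1 x + v.2.1 x a - v.2.1 0 a0) - (v.1.1 x' + v.2.1 x' a - v.2.1 0 a0) =
          (v.1.1 x - v.1.1 x') + (v.2.1 x a - v.2.1 x' a) := by ring
      rw [e3]
      refine (abs_add_le _ _).trans ?_
      linarith
    · have e1 := h3.2.2 x a a'
      have e3 : (v.1.1 x + v.2.1 x a - v.2.1 0 a0) - (v.1.1 x + v.2.1 x a' - v.2.1 0 a0) =
          (v.2.1 x a - v.2.1 x a') := by ring
      rw [e3]
      have h5 := abs_nonneg ((a : ℝ) - a')
      nlinarith
  let P : L1 × SX A b0 →ₗ[ℝ] LX A a0 :=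
    { toFun := fun v => ⟨fun x a => v.1.1 x + v.2.1 x a - v.2.1 0 a0, by
        obtain ⟨K, hK⟩ := BD.ex v
        refine ⟨?_, 2 * K, key K v hK⟩
        have h0 : v.1.1 0 = 0 := v.1.2.1
        simp only [h0]
        ring⟩
      map_add' := by
        intro v w
        refine Subtype.ext ?_
        funext x a
        change (v.1.1 x + w.1.1 x) + (v.2.1 x a + w.2.1 x a) - (v.2.1 0 a0 + w.2.1 0 a0) =
          (v.1.1 x + v.2.1 x a - v.2.1 0 a0) + (w.1.1 x + w.2.1 x a - w.2.1 0 a0)
        ring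
      map_smul' := by
        intro c v
        refine Subtype.ext ?_
        funext x a
        change c * v.1.1 x + c * v.2.1 x a - c * v.2.1 0 a0 =
          c * (v.1.1 x + v.2.1 x a - v.2.1 0 a0)
        ring }
  refine ⟨J, P, fun h => ?_, ?_, ?_⟩
  · refine Subtype.ext ?_
    funext x a
    have h0 : h.1 0 a0 = 0 := h.2.1
    change (ev b h.1 x - ev b h.1 0) + (h.1 x a - ev b h.1 x) - (h.1 0 a0 - ev b h.1 0) = h.1 x a
    rw [h0]
    ring
  · intro K h h1
    have h1 : lipB K h.1 := h1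
    have h0 := h1.1
    refine ⟨?_, ev_rest hb h1⟩
    have h2 : lipR K (fun x => ev b h.1 x - ev b h.1 0) := by
      refine ⟨h0, fun x x' => ?_⟩
      rw [sub_sub_sub_cancel_right]
      exact (ev_lip hb h1).2 x x'
    exact h2.mono (by linarith)
  · exact fun K v hv => key K v hv

end H50LP
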