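import Pool.Agent.H50.LP.Whit
import Pool.Agent.H50.LP.CplBasic

/-!
MP_b365ef_an [H50 LP STEP]. Whitney decomposition of the space `SX B b0`: it is complemented in the l_infty sum of the spaces of
the pieces, constant 100.
Proof. `J f i (x, b) = f (x, b)` for `b ∈ B ∩ W i`: restriction, `|f| ≤ K |b - b0| ≤ 2 K c_i`, so `Bdd 2 J`.
For a family `h` in the l_infty sum and `(x, b)`, `b ∈ B`, let `ψ i (x, b) = φ i b * h_i (x, b)` if `b ∈ W i` and `0` otherwise, and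
`P h (x, b) = ∑ᶠ i, ψ i (x, b)` (finitely many nonzero terms by `Whitney.fin`; write `S_b` for the finset of at most 2 indices).
Linear in `h` (`finsum_add_distrib`, `smul_finsum`, or write the finsum as a sum over `S_b`). Let all `h_i` satisfy `bd K`:
`|h_i| ≤ K c_i`, `K`-Lipschitz in each variable.
(sup) `|P h (x, b)| ≤ K |b - b0|`: each term is `≤ φ_i(b) K c_i ≤ φ_i(b) K |b - b0|` (`Whitney.low`) and `∑ φ_i(b) = 1` (or all terms
vanish if `b = b0`).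
(x-Lipschitz) `|P h (x, b) - P h (x', b)| ≤ ∑ φ_i(b) K |x - x'| ≤ K |x - x'|`.
(y-Lipschitz) each `ψ i (x, ·)` is `22 K`-Lipschitz on `B`: if `b, b' ∈ W i`:
`|φ_i(b) h_i(b) - φ_i(b') h_i(b')| ≤ |φ_i(b) - φ_i(b')| |h_i(b)| + φ_i(b') |h_i(b) - h_i(b')| ≤ (21 / c_i) |b - b'| K c_i + K |b - b'|`; if
`b ∈ W i`, `b' ∉ W i`: `φ_i(b') = 0`, so `|φ_i(b) h_i(b)| = |φ_i(b) - φ_i(b')| |h_i(b)| ≤ 21 K |b - b'|`; both outside: 0. The difference
`P h (x, b) - P h (x, b')` is a sum over `S_b ∪ S_b'` (at most 4 indices), so it is `≤ 88 K |b - b'|`.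
`P (J f) (x, b) = ∑ φ_i(b) f (x, b) = f (x, b)` for `b ≠ b0` (indices with `b ∉ W i` have `φ_i(b) = 0`); for `b = b0`: `b0 ∉ W i` for
all `i` (`0 < c_i ≤ |b0 - b0| = 0` is impossible), so `P (..) = 0`, and `f (x, b0) = 0` because `|f| ≤ K |b0 - b0|`.
-/

set_option autoImplicit false

namespace H50LP

section
variable {B : Set ℝ} {b0 : ℝ} {W : ℤ × Bool → Set ℝ} {c : ℤ × Bool → ℝ}
  {φ : ℤ × Bool → ℝ → ℝ}

open Classical in
/-- the summands of the projection -/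
private noncomputable def psi (φ : ℤ × Bool → ℝ → ℝ)
    (h : Linf (ℤ × Bool) (fun i => HX (B ∩ W i) (c i))) (i : ℤ × Bool) (x : ℝ) (b : B) : ℝ :=
  if hb : (b : ℝ) ∈ W i then φ i b * (h.1 i).1 x ⟨b, b.2, hb⟩ else 0

private theorem psi_in (h : Linf (ℤ × Bool) (fun i => HX (B ∩ W i) (c i))) (i : ℤ × Bool)
    (x : ℝ) (b : B) (hb : (b : ℝ) ∈ W i) :
    psi φ h i x b = φ i b * (h.1 i).1 x ⟨b, b.2, hb⟩ := by
  unfold psi
  rw [dif_pos hb]

private theorem psi_out (h : Linf (ℤ × Bool) (fun i => HX (B ∩ W i) (c i))) (i : ℤ × Bool)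
    (x : ℝ) (b : B) (hb : (b : ℝ) ∉ W i) : psi φ h i x b = 0 := by
  unfold psi
  rw [dif_neg hb]

private theorem psi_add (h g : Linf (ℤ × Bool) (fun i => HX (B ∩ W i) (c i))) (i : ℤ × Bool)
    (x : ℝ) (b : B) : psi φ (h + g) i x b = psi φ h i x b + psi φ g i x b := by
  by_cases hb : (b : ℝ) ∈ W i
  · rw [psi_in _ _ _ _ hb, psi_in _ _ _ _ hb, psi_in _ _ _ _ hb, ← mul_add]
    rfl
  · rw [psi_out _ _ _ _ hb, psi_out _ _ _ _ hb, psi_out _ _ _ _ hb, add_zero]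

private theorem psi_smul (r : ℝ) (h : Linf (ℤ × Bool) (fun i => HX (B ∩ W i) (c i)))
    (i : ℤ × Bool) (x : ℝ) (b : B) : psi φ (r • h) i x b = r * psi φ h i x b := by
  by_cases hb : (b : ℝ) ∈ W i
  · rw [psi_in _ _ _ _ hb, psi_in _ _ _ _ hb]
    show φ i b * (r * (h.1 i).1 x ⟨b, b.2, hb⟩) = _
    ring
  · rw [psi_out _ _ _ _ hb, psi_out _ _ _ _ hb, mul_zero]

private theorem psi_zero (h : Linf (ℤ × Bool) (fun i => HX (B ∩ W i) (c i))) (i : ℤ × Bool)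
    (x : ℝ) (b : B) (hb : φ i b = 0) : psi φ h i x b = 0 := by
  by_cases hb' : (b : ℝ) ∈ W i
  · rw [psi_in _ _ _ _ hb', hb, zero_mul]
  · exact psi_out _ _ _ _ hb'

private theorem psi_sup (hW : Whitney b0 W c φ)
    (h : Linf (ℤ × Bool) (fun i => HX (B ∩ W i) (c i))) {K : ℝ} (hK : 0 ≤ K ∧ ∀ i, lipB K (h.1 i).1 ∧
      ∀ x b, |(h.1 i).1 x b| ≤ K * |c i|) (i : ℤ × Bool)
    (x : ℝ) (b : B) : |psi φ h i x b| ≤ φ i b * (K * |(b : ℝ) - b0|) := by
  have hK0 := hK.1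
  by_cases hb : (b : ℝ) ∈ W i
  · rw [psi_in _ _ _ _ hb, abs_mul, abs_of_nonneg (hW.nonneg i b)]
    refine mul_le_mul_of_nonneg_left ?_ (hW.nonneg i b)
    refine ((hK.2 i).2 x _).trans ?_
    rw [abs_of_pos (hW.cpos i)]
    exact mul_le_mul_of_nonneg_left (hW.low i b hb) hK0
  · rw [psi_out _ _ _ _ hb, abs_zero]
    exact mul_nonneg (hW.nonneg i b) (mul_nonneg hK0 (abs_nonneg _))

private theorem psi_x (hW : Whitney b0 W c φ)
    (h : Linf (ℤ × Bool) (fun i => HX (B ∩ W i) (c i))) {K : ℝ} (hK : 0 ≤ K ∧ ∀ i, lipB K (h.1 i).1 ∧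
      ∀ x b, |(h.1 i).1 x b| ≤ K * |c i|) (i : ℤ × Bool)
    (x x' : ℝ) (b : B) : |psi φ h i x b - psi φ h i x' b| ≤ φ i b * (K * |x - x'|) := by
  have hK0 := hK.1
  by_cases hb : (b : ℝ) ∈ W i
  · rw [psi_in _ _ _ _ hb, psi_in _ _ _ _ hb, ← mul_sub, abs_mul,
      abs_of_nonneg (hW.nonneg i b)]
    exact mul_le_mul_of_nonneg_left ((hK.2 i).1.2.1 x x' _) (hW.nonneg i b)
  · rw [psi_out _ _ _ _ hb, psi_out _ _ _ _ hb, sub_zero, abs_zero]
    exact mul_nonneg (hW.nonneg i b) (mul_nonneg hK0 (abs_nonneg _))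

private theorem psi_half (hW : Whitney b0 W c φ)
    (h : Linf (ℤ × Bool) (fun i => HX (B ∩ W i) (c i))) {K : ℝ} (hK : 0 ≤ K ∧ ∀ i, lipB K (h.1 i).1 ∧
      ∀ x b, |(h.1 i).1 x b| ≤ K * |c i|) (i : ℤ × Bool)
    (x : ℝ) (b b' : B) (hb : (b : ℝ) ∈ W i) (hb' : (b' : ℝ) ∉ W i) :
    |psi φ h i x b - psi φ h i x b'| ≤ 22 * K * |(b : ℝ) - b'| := by
  have hK0 := hK.1
  have hc := hW.cpos i
  rw [psi_out _ _ _ _ hb', psi_in _ _ _ _ hb, sub_zero, abs_mul]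
  have h1 : |φ i b| ≤ 21 / c i * |(b : ℝ) - b'| := by
    have h2 := hW.lip i b b'
    rw [hW.supp i b' hb', sub_zero] at h2
    exact h2
  have h3 : |(h.1 i).1 x ⟨b, b.2, hb⟩| ≤ K * c i := by
    have h4 := (hK.2 i).2 x ⟨b, b.2, hb⟩
    rwa [abs_of_pos hc] at h4
  have h5 : |φ i b| * |(h.1 i).1 x ⟨b, b.2, hb⟩| ≤ (21 / c i * |(b : ℝ) - b'|) * (K * c i) :=
    mul_le_mul h1 h3 (abs_nonneg _) (mul_nonneg (div_nonneg (by norm_num) hc.le) (abs_nonneg _))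
  have h6 : (21 / c i * |(b : ℝ) - b'|) * (K * c i) = 21 * K * |(b : ℝ) - b'| := by
    field_simp
  have h7 : 0 ≤ K * |(b : ℝ) - b'| := mul_nonneg hK0 (abs_nonneg _)
  rw [h6] at h5
  linarith

private theorem psi_y (hW : Whitney b0 W c φ)
    (h : Linf (ℤ × Bool) (fun i => HX (B ∩ W i) (c i))) {K : ℝ} (hK : 0 ≤ K ∧ ∀ i, lipB K (h.1 i).1 ∧
      ∀ x b, |(h.1 i).1 x b| ≤ K * |c i|) (i : ℤ × Bool)
    (x : ℝ) (b b' : B) : |psi φ h i x b - psi φ h i x b'| ≤ 22 * K * |(b : ℝ) - b'| := by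
  have hK0 := hK.1
  have hc := hW.cpos i
  by_cases hb : (b : ℝ) ∈ W i
  · by_cases hb' : (b' : ℝ) ∈ W i
    · rw [psi_in _ _ _ _ hb, psi_in _ _ _ _ hb']
      have h1 : φ i b * (h.1 i).1 x ⟨b, b.2, hb⟩ - φ i b' * (h.1 i).1 x ⟨b', b'.2, hb'⟩
          = (φ i b - φ i b') * (h.1 i).1 x ⟨b, b.2, hb⟩
            + φ i b' * ((h.1 i).1 x ⟨b, b.2, hb⟩ - (h.1 i).1 x ⟨b', b'.2, hb'⟩) := by ring
      rw [h1]
      refine (abs_add_le _ _).trans ?_
      rw [abs_mul, abs_mul, abs_of_nonneg (hW.nonneg i b')]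
      have h3 : |(h.1 i).1 x ⟨b, b.2, hb⟩| ≤ K * c i := by
        have h4 := (hK.2 i).2 x ⟨b, b.2, hb⟩
        rwa [abs_of_pos hc] at h4
      have h5 : |φ i b - φ i b'| * |(h.1 i).1 x ⟨b, b.2, hb⟩|
          ≤ (21 / c i * |(b : ℝ) - b'|) * (K * c i) :=
        mul_le_mul (hW.lip i b b') h3 (abs_nonneg _)
          (mul_nonneg (div_nonneg (by norm_num) hc.le) (abs_nonneg _))
      have h6 : (21 / c i * |(b : ℝ) - b'|) * (K * c i) = 21 * K * |(b : ℝ) - b'| := by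
        field_simp
      have h7 : |(h.1 i).1 x ⟨b, b.2, hb⟩ - (h.1 i).1 x ⟨b', b'.2, hb'⟩|
          ≤ K * |(b : ℝ) - b'| := (hK.2 i).1.2.2 x ⟨b, b.2, hb⟩ ⟨b', b'.2, hb'⟩
      have h8 : φ i b' * |(h.1 i).1 x ⟨b, b.2, hb⟩ - (h.1 i).1 x ⟨b', b'.2, hb'⟩|
          ≤ 1 * (K * |(b : ℝ) - b'|) :=
        mul_le_mul (hW.le_one i b') h7 (abs_nonneg _) zero_le_one
      rw [h6] at h5
      linarith
    · exact psi_half hW h hK i x b b' hb hb'
  · by_cases hb' : (b' : ℝ) ∈ W i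
    · have h1 := psi_half hW h hK i x b' b hb' hb
      rw [abs_sub_comm, abs_sub_comm (b : ℝ)]
      exact h1
    · rw [psi_out _ _ _ _ hb, psi_out _ _ _ _ hb', sub_zero, abs_zero]
      exact mul_nonneg (mul_nonneg (by norm_num) hK0) (abs_nonneg _)

private theorem phi_b0 (hW : Whitney b0 W c φ) (i : ℤ × Bool) : φ i b0 = 0 := by
  apply hW.supp
  intro hb
  have h1 := hW.low i b0 hb
  rw [sub_self, abs_zero] at h1
  exact absurd (hW.cpos i) (not_lt.mpr h1)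

end

theorem step (B : Set ℝ) (b0 : ℝ) (W : ℤ × Bool → Set ℝ) (c : ℤ × Bool → ℝ)
    (φ : ℤ × Bool → ℝ → ℝ) (h : Whitney b0 W c φ) :
    Cpl 100 (SX B b0) (Linf (ℤ × Bool) (fun i => HX (B ∩ W i) (c i))) := by
  classical
  choose s hs0 hs1 hs2 using h.fin
  have hsum : ∀ y : ℝ, ∑ i ∈ s y, φ i y ≤ 1 := by
    intro y
    by_cases hy : y = b0
    · rw [hy, Finset.sum_eq_zero fun i _ => phi_b0 h i]
      exact zero_le_one
    · exact (hs2 y hy).le
  -- the restriction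
  have hJ : ∀ (K : ℝ) (f : ℝ → B → ℝ), lipB K f → (∀ x (b : B), |f x b| ≤ K * |(b : ℝ) - b0|) →
      ∀ i, lipB (2 * K) (fun (x : ℝ) (b : (B ∩ W i : Set ℝ)) => f x ⟨b.1, b.2.1⟩) ∧
        ∀ (x : ℝ) (b : (B ∩ W i : Set ℝ)), |f x ⟨b.1, b.2.1⟩| ≤ 2 * K * |c i| := by
    intro K f hf hfs i
    have hK0 := hf.1
    refine ⟨⟨by linarith, fun x x' b => ?_, fun x b b' => ?_⟩, fun x b => ?_⟩
    · refine (hf.2.1 x x' ⟨b.1, b.2.1⟩).trans ?_
      exact mul_le_mul_of_nonneg_right (by linarith) (abs_nonneg _)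
    · refine (hf.2.2 x ⟨b.1, b.2.1⟩ ⟨b'.1, b'.2.1⟩).trans ?_
      exact mul_le_mul_of_nonneg_right (by linarith) (abs_nonneg _)
    · refine (hfs x ⟨b.1, b.2.1⟩).trans ?_
      rw [abs_of_pos (h.cpos i)]
      have h1 := h.upp i b.1 b.2.2
      have h2 := mul_le_mul_of_nonneg_left h1 hK0
      show K * |(b.1 : ℝ) - b0| ≤ 2 * K * c i
      linarith
  -- the projection
  have hP : ∀ (K : ℝ) (g : Linf (ℤ × Bool) (fun i => HX (B ∩ W i) (c i))),
      (0 ≤ K ∧ ∀ i, lipB K (g.1 i).1 ∧ ∀ x b, |(g.1 i).1 x b| ≤ K * |c i|) →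
      lipB (100 * K) (fun (x : ℝ) (b : B) => ∑ i ∈ s b, psi φ g i x b) ∧
        ∀ (x : ℝ) (b : B), |∑ i ∈ s b, psi φ g i x b| ≤ 100 * K * |(b : ℝ) - b0| := by
    intro K g hg
    have hK0 := hg.1
    refine ⟨⟨by linarith, fun x x' b => ?_, fun x b b' => ?_⟩, fun x b => ?_⟩
    · rw [← Finset.sum_sub_distrib]
      refine (Finset.abs_sum_le_sum_abs _ _).trans ?_
      refine (Finset.sum_le_sum fun i _ => psi_x h g hg i x x' b).trans ?_
      rw [← Finset.sum_mul]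
      have h1 : 0 ≤ K * |x - x'| := mul_nonneg hK0 (abs_nonneg _)
      have h2 := mul_le_mul_of_nonneg_right (hsum b) h1
      linarith
    · have e1 : ∑ i ∈ s b, psi φ g i x b = ∑ i ∈ s b ∪ s b', psi φ g i x b := by
        refine Finset.sum_subset Finset.subset_union_left fun i _ hi => ?_
        exact psi_zero g i x b (hs1 b i hi)
      have e2 : ∑ i ∈ s b', psi φ g i x b' = ∑ i ∈ s b ∪ s b', psi φ g i x b' := by
        refine Finset.sum_subset Finset.subset_union_right fun i _ hi => ?_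
        exact psi_zero g i x b' (hs1 b' i hi)
      show |∑ i ∈ s b, psi φ g i x b - ∑ i ∈ s b', psi φ g i x b'| ≤ _
      rw [e1, e2, ← Finset.sum_sub_distrib]
      refine (Finset.abs_sum_le_sum_abs _ _).trans ?_
      refine (Finset.sum_le_sum fun i _ => psi_y h g hg i x b b').trans ?_
      rw [Finset.sum_const, nsmul_eq_mul]
      have h1 : ((s (b : ℝ) ∪ s (b' : ℝ)).card : ℝ) ≤ 4 := by
        have h2 := (Finset.card_union_le (s (b : ℝ)) (s (b' : ℝ))).trans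
          (add_le_add (hs0 b) (hs0 b'))
        exact_mod_cast h2
      have h3 : 0 ≤ 22 * K * |(b : ℝ) - b'| :=
        mul_nonneg (mul_nonneg (by norm_num) hK0) (abs_nonneg _)
      have h4 := mul_le_mul_of_nonneg_right h1 h3
      have h5 : 0 ≤ K * |(b : ℝ) - b'| := mul_nonneg hK0 (abs_nonneg _)
      linarith
    · refine (Finset.abs_sum_le_sum_abs _ _).trans ?_
      refine (Finset.sum_le_sum fun i _ => psi_sup h g hg i x b).trans ?_
      rw [← Finset.sum_mul]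
      have h1 : 0 ≤ K * |(b : ℝ) - b0| := mul_nonneg hK0 (abs_nonneg _)
      have h2 := mul_le_mul_of_nonneg_right (hsum b) h1
      linarith
  let J : SX B b0 →ₗ[ℝ] Linf (ℤ × Bool) (fun i => HX (B ∩ W i) (c i)) :=
    { toFun := fun f => ⟨fun i => ⟨fun x b => f.1 x ⟨b.1, b.2.1⟩, by
        obtain ⟨K, hK, hKs⟩ := f.2
        exact ⟨2 * K, hJ K f.1 hK hKs i⟩⟩, by
        obtain ⟨K, hK, hKs⟩ := f.2
        refine ⟨2 * K, ?_, fun i => hJ K f.1 hK hKs i⟩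
        have := hK.1
        linarith⟩
      map_add' := fun f g => rfl
      map_smul' := fun a f => rfl }
  let P : Linf (ℤ × Bool) (fun i => HX (B ∩ W i) (c i)) →ₗ[ℝ] SX B b0 :=
    { toFun := fun g => ⟨fun x b => ∑ i ∈ s b, psi φ g i x b, by
        obtain ⟨K, hK⟩ := g.2
        exact ⟨100 * K, hP K g hK⟩⟩
      map_add' := fun f g => by
        apply Subtype.ext
        funext x b
        show ∑ i ∈ s b, psi φ (f + g) i x b
          = ∑ i ∈ s b, psi φ f i x b + ∑ i ∈ s b, psi φ g i x b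
        rw [← Finset.sum_add_distrib]
        exact Finset.sum_congr rfl fun i _ => psi_add f g i x b
      map_smul' := fun a f => by
        apply Subtype.ext
        funext x b
        show ∑ i ∈ s b, psi φ (a • f) i x b = a * ∑ i ∈ s b, psi φ f i x b
        rw [Finset.mul_sum]
        exact Finset.sum_congr rfl fun i _ => psi_smul a f i x b }
  refine ⟨J, P, fun f => ?_, fun K f hf => ?_, fun K g hg => ?_⟩
  · apply Subtype.ext
    funext x b
    show ∑ i ∈ s b, psi φ (J f) i x b = f.1 x b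
    have h1 : ∀ i ∈ s b, psi φ (J f) i x b = φ i b * f.1 x b := by
      intro i _
      by_cases hb : (b : ℝ) ∈ W i
      · rw [psi_in _ _ _ _ hb]
        rfl
      · rw [psi_out _ _ _ _ hb, h.supp i b hb, zero_mul]
    rw [Finset.sum_congr rfl h1, ← Finset.sum_mul]
    by_cases hb : (b : ℝ) = b0
    · obtain ⟨K, hK, hKs⟩ := f.2
      have h2 := hKs x b
      rw [hb, sub_self, abs_zero, mul_zero] at h2
      have h3 : f.1 x b = 0 := abs_eq_zero.mp (le_antisymm h2 (abs_nonneg _))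
      rw [h3, mul_zero]
    · rw [hs2 b hb, one_mul]
  · have hK0 := hf.1.1
    refine ⟨by linarith, fun i => ?_⟩
    have h1 := hJ K f.1 hf.1 hf.2 i
    refine ⟨h1.1.mono (by linarith), fun x b => ?_⟩
    refine (h1.2 x b).trans ?_
    exact mul_le_mul_of_nonneg_right (by linarith) (abs_nonneg _)
  · exact hP K g hg

end H50LP
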