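import Pool.Agent.H50.LP.HpEll
import Pool.Agent.H50.LP.Sel
import Pool.Agent.H50.LP.Step
import Pool.Agent.H50.LP.Split

/-!
MP_b365ef_an [H50 LP IND]. If `A` is not `K`-fat for some `K` then `LX A a0` is complemented in `ℓ_∞`.
Proof. `ind` by induction on `K`. If `B = ∅` (in particular `K = 0`) the space `HX B R` is trivial (`ℝ → ∅ → ℝ` has one element):
`J = 0`, `P = 0`, constant `0` (and any constant `≥ 0`). `K + 1`, `B ≠ ∅`: take `b`, `b0` from `sel`, `W, c, φ` from `whit b0`. Each piece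
`B ∩ W i` is not `K`-fat: otherwise it has a point `x` (`Fat.nonempty`) and `sel` with `d = c i / 8` (`Whitney.diam`) gives
`c i ≤ |x - b0| ≤ 7 (c i / 8) < c i`. Its diameter is `≤ c i / 8 ≤ c i`, so by induction `Cpl C (HX (B ∩ W i) (c i)) Ell`. By `step`, `cpl_linf`,
`cpl_ell_sum`: `Cpl (100 * C * 1) (SX B b0) Ell` (this is `step_ell`). `|y - b0| ≤ R` for `y ∈ B` is the limit of `|y - b n| ≤ R`. By `split_HX`, `cpl_HP_ell`,
`Cpl.prod`, `cpl_ell_prod`: `Cpl (2 * max 5 (100 C) * 1) (HX B R) Ell`.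
`LX_ell`: `A` is nonempty, so `K ≠ 0`, `K = K' + 1`; the same argument with `split_LX` and `cpl_L1_ell`.
-/

set_option autoImplicit false

namespace H50LP

private theorem ind_empty {B : Set ℝ} (hB : ¬ B.Nonempty) (R C : ℝ) (hC : 0 ≤ C) :
    Cpl C (HX B R) Ell := by
  have h0 : ∀ v : HX B R, v = 0 := by
    intro v
    apply Subtype.ext
    funext x b
    exact absurd ⟨b.1, b.2⟩ hB
  refine ⟨0, 0, fun v => ?_, ?_, ?_⟩
  · rw [h0 v]
    rfl
  · intro K v hv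
    exact BD.mono BD.zero (mul_nonneg hC (BD.nonneg hv))
  · intro K v hv
    exact BD.mono BD.zero (mul_nonneg hC (BD.nonneg hv))

private theorem step_ell {K : ℕ} {C : ℝ} (hC : 0 ≤ C)
    (ih : ∀ (B : Set ℝ) (R : ℝ), 0 < R →
      (∀ b ∈ B, ∀ b' ∈ B, |b - b'| ≤ R) → ¬ Fat 2 K B → Cpl C (HX B R) Ell)
    {B : Set ℝ} {b0 : ℝ}
    (hsel : ∀ C ⊆ B, Fat 2 K C → ∀ d : ℝ, (∀ c ∈ C, ∀ c' ∈ C, |c - c'| ≤ d) →
        ∀ c ∈ C, |c - b0| ≤ 7 * d) :
    Cpl (100 * C * 1) (SX B b0) Ell := by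
  obtain ⟨W, c, φ, hW⟩ := whit b0
  have h1 : ∀ i, Cpl C (HX (B ∩ W i) (c i)) Ell := by
    intro i
    have hc := hW.cpos i
    have hd : ∀ x ∈ B ∩ W i, ∀ y ∈ B ∩ W i, |x - y| ≤ c i / 8 :=
      fun x hx y hy => hW.diam i x hx.2 y hy.2
    apply ih _ _ hc
    · intro x hx y hy
      have := hd x hx y hy
      linarith
    · intro hF
      obtain ⟨x, hx⟩ := hF.nonempty
      have h2 := hsel _ Set.inter_subset_left hF (c i / 8) hd x hx
      have h3 := hW.low i x hx.2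
      linarith
  have h2 := cpl_linf (fun i => HX (B ∩ W i) (c i)) (fun _ => Ell) hC h1
  exact ((step B b0 W c φ hW).trans h2).trans cpl_ell_sum

theorem ind (K : ℕ) : ∃ C, 0 ≤ C ∧ ∀ (B : Set ℝ) (R : ℝ), 0 < R →
    (∀ b ∈ B, ∀ b' ∈ B, |b - b'| ≤ R) → ¬ Fat 2 K B → Cpl C (HX B R) Ell := by
  induction K with
  | zero =>
    refine ⟨0, le_rfl, fun B R _ _ hF => ?_⟩
    exact ind_empty hF R 0 le_rfl
  | succ K ih =>
    obtain ⟨C, hC, ih⟩ := ih
    have h5 : (0 : ℝ) ≤ max 5 (100 * C * 1) := le_trans (by norm_num) (le_max_left _ _)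
    refine ⟨2 * max 5 (100 * C * 1) * 1, by positivity, fun B R hR hdiam hF => ?_⟩
    by_cases hB : B.Nonempty
    · obtain ⟨b, b0, hb, hsel⟩ := sel hB hF
      have h1 := step_ell hC ih hsel
      have hd : ∀ y ∈ B, |y - b0| ≤ R := by
        intro y hy
        have h2 : Filter.Tendsto (fun n => |y - (b n : ℝ)|) Filter.atTop (nhds |y - b0|) :=
          (tendsto_const_nhds.sub hb).abs
        exact le_of_tendsto' h2 (fun n => hdiam y hy (b n) (b n).2)
      exact ((split_HX B R hR b b0 hb hd).trans ((cpl_HP_ell R hR).prod h1)).trans cpl_ell_prod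
    · exact ind_empty hB R _ (by positivity)

theorem LX_ell (A : Set ℝ) (a0 : A) (K : ℕ) (h : ¬ Fat 2 K A) :
    ∃ C, 0 ≤ C ∧ Cpl C (LX A a0) Ell := by
  have hA : A.Nonempty := ⟨a0.1, a0.2⟩
  cases K with
  | zero => exact absurd hA h
  | succ K =>
    obtain ⟨C, hC, ih⟩ := ind K
    obtain ⟨b, b0, hb, hsel⟩ := sel hA h
    have h1 := step_ell hC ih hsel
    have h5 : (0 : ℝ) ≤ max 1 (100 * C * 1) := le_trans (by norm_num) (le_max_left _ _)
    exact ⟨2 * max 1 (100 * C * 1) * 1, by positivity,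
      ((split_LX A a0 b b0 hb).trans (cpl_L1_ell.prod h1)).trans cpl_ell_prod⟩

end H50LP
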