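import Pool.Agent.H50.LP.TData

/-!
MP_b365ef_an [H50 LP JB]. The embedding of `Tri K`: Lipschitz bound in the direction of `A`.
Proof. `b = N j s + 1`. Since `s, s'` agree below `j`: `N k s = N k s'` for all `k ≤ j` (`dep`). `h1`: for `k < j`: `N k s > N j s`, so `b ≤ N k s`; `h2`: for
`j ≤ k`: `N k s ≤ N j s < b`; the same for `s'`. Let `m = q 2^b + r`, `r < 2^b`. For a block `[t 2^b, (t+1) 2^b)`, `t < q`, `i0 = t 2^b`,
`x = dg (N · s) i0`, `x' = dg (N · s') i0`: `block_sum` gives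
`∑ g (s, dg i) = 2^b / card * ∑ v ∈ V j, g (s, x + v)`, and the same with `s', x'`. `x` and `x'` agree at the places `k < j` (equal `N k`), so
`x' = x + w`, `w ∈ V j`, and `∑ v ∈ V j, g (s', x' + v) = ∑ v ∈ V j, g (s', x + v) = ∑ v ∈ V j, g (s, x + v)` because `g ∈ Tri K`. So the block sums of `s`
and `s'` are equal, `Fg s (q 2^b) = Fg s' (q 2^b)` (sum over `range (q 2^b)` is the sum over the blocks: induction on `q`,
`Finset.sum_range_succ` / `Finset.sum_Ico_consecutive`), and the remaining `r < 2^b` terms of both sums are at most `M` each: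
`|Fg s m - Fg s' m| ≤ 2 M 2^b = 4 M 2^(N j s)`.
-/

set_option autoImplicit false

namespace H50LP

theorem jb_shift {K : ℕ} (j : ℕ) (x x' : D K) (hx : ∀ k : Fin K, k.1 < j → x k = x' k)
    (f : D K → ℝ) :
    ∑ v ∈ (V j : Finset (D K)), f (x' + v) = ∑ v ∈ (V j : Finset (D K)), f (x + v) := by
  refine Finset.sum_equiv (Equiv.addLeft (x' - x)) ?_ ?_
  · intro v
    simp only [V, Finset.mem_filter, Finset.mem_univ, true_and, Equiv.coe_addLeft, Pi.add_apply,
      Pi.sub_apply]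
    constructor
    · intro h i hi
      rw [h i hi, hx i hi, sub_self, add_zero]
    · intro h i hi
      have h1 := h i hi
      rwa [hx i hi, sub_self, zero_add] at h1
  · intro v _
    have e : x' + v = x + (Equiv.addLeft (x' - x)) v := by
      rw [Equiv.coe_addLeft, ← add_assoc, add_sub_cancel]
    rw [e]

theorem jb_rest (F : ℕ → ℝ) (M : ℝ) (hF : ∀ i, |F i| ≤ M) (a m : ℕ) (ham : a ≤ m) :
    |∑ i ∈ Finset.range m, F i - ∑ i ∈ Finset.range a, F i| ≤ ((m - a : ℕ) : ℝ) * M := by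
  rw [← Finset.sum_Ico_eq_sub F ham]
  calc |∑ i ∈ Finset.Ico a m, F i| ≤ ∑ i ∈ Finset.Ico a m, |F i| := Finset.abs_sum_le_sum_abs _ _
    _ ≤ ∑ _i ∈ Finset.Ico a m, M := Finset.sum_le_sum fun i _ => hF i
    _ = ((m - a : ℕ) : ℝ) * M := by rw [Finset.sum_const, Nat.card_Ico, nsmul_eq_mul]

theorem J_bound {ε δ : ℝ} {K n : ℕ} {A : Set ℝ} {a : D K → A} {N : Fin K → D K → ℕ}
    (T : TData ε δ K n A a N) (g : D K × D K → ℝ) (hg : g ∈ Tri K) (M : ℝ)
    (hM : ∀ p, |g p| ≤ M) (j : Fin K) (s s' : D K) (hs : ∀ i : Fin K, i < j → s i = s' i)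
    (m : ℕ) : |Fg N g s m - Fg N g s' m| ≤ 4 * M * 2 ^ (N j s) := by
  have hNk : ∀ k : Fin K, k ≤ j → N k s = N k s' := fun k hk =>
    T.dep k s s' (fun i hi => hs i (lt_of_lt_of_le hi hk))
  have hM0 : 0 ≤ M := le_trans (abs_nonneg _) (hM (s, s))
  obtain ⟨b, hb⟩ : ∃ b, b = N j s + 1 := ⟨_, rfl⟩
  have hb' : b = N j s' + 1 := by rw [hb, hNk j le_rfl]
  have hlow : ∀ (u : D K), b = N j u + 1 → ∀ k : Fin K, k.1 < j.1 → b ≤ N k u := by
    intro u hu k hk
    have h1 : N j u < N k u := T.dec u (show k < j from hk)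
    omega
  have hupp : ∀ (u : D K), b = N j u + 1 → ∀ k : Fin K, j.1 ≤ k.1 → N k u < b := by
    intro u hu k hk
    have h1 : N k u ≤ N j u := (T.dec u).antitone (show j ≤ k from hk)
    omega
  have hblock : ∀ t : ℕ,
      ∑ i ∈ Finset.Ico (t * 2 ^ b) ((t + 1) * 2 ^ b), g (s, dg (fun k => N k s) i) =
      ∑ i ∈ Finset.Ico (t * 2 ^ b) ((t + 1) * 2 ^ b), g (s', dg (fun k => N k s') i) := by
    intro t
    have hi0 : t * 2 ^ b ∈ Finset.Ico (t * 2 ^ b) ((t + 1) * 2 ^ b) := by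
      rw [Finset.mem_Ico]
      refine ⟨le_rfl, ?_⟩
      rw [add_mul, one_mul]
      exact Nat.lt_add_of_pos_right (Nat.pow_pos (by norm_num))
    have e1 := block_sum (fun k => N k s) (T.dec s) j.1 b (hlow s hb) (hupp s hb) t (t * 2 ^ b) hi0
      (fun x => g (s, x))
    have e2 := block_sum (fun k => N k s') (T.dec s') j.1 b (hlow s' hb') (hupp s' hb') t
      (t * 2 ^ b) hi0 (fun x => g (s', x))
    refine e1.trans (Eq.trans ?_ e2.symm)
    congr 1
    have e3 := jb_shift j.1 (dg (fun k => N k s) (t * 2 ^ b)) (dg (fun k => N k s') (t * 2 ^ b))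
      (by
        intro k hk
        have h5 := hNk k (le_of_lt hk)
        show (if (t * 2 ^ b).testBit (N k s) = true then (1 : ZMod 2) else 0) =
          if (t * 2 ^ b).testBit (N k s') = true then 1 else 0
        rw [h5])
      (fun x => g (s', x))
    refine Eq.trans ?_ e3.symm
    exact hg j.1 s s' _ (fun i hi => hs i hi)
  have hq : ∀ q : ℕ, Fg N g s (q * 2 ^ b) = Fg N g s' (q * 2 ^ b) := by
    intro q
    induction q with
    | zero => simp [Fg]
    | succ q ih =>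
      unfold Fg at ih ⊢
      have h1 : q * 2 ^ b ≤ (q + 1) * 2 ^ b := Nat.mul_le_mul_right _ (Nat.le_succ q)
      rw [← Finset.sum_range_add_sum_Ico _ h1, ← Finset.sum_range_add_sum_Ico _ h1, ih, hblock q]
  -- the rest
  have hpos : 0 < 2 ^ b := Nat.pow_pos (by norm_num)
  have hle : m / 2 ^ b * 2 ^ b ≤ m := Nat.div_mul_le_self m (2 ^ b)
  have hlt : m - m / 2 ^ b * 2 ^ b ≤ 2 ^ b := by
    have := Nat.div_add_mod m (2 ^ b)
    have h2 := Nat.mod_lt m hpos
    rw [mul_comm] at this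
    omega
  have r1 := jb_rest (fun i => g (s, dg (fun k => N k s) i)) M (fun i => hM _) _ _ hle
  have r2 := jb_rest (fun i => g (s', dg (fun k => N k s') i)) M (fun i => hM _) _ _ hle
  have hlt' : ((m - m / 2 ^ b * 2 ^ b : ℕ) : ℝ) * M ≤ 2 ^ b * M := by
    apply mul_le_mul_of_nonneg_right _ hM0
    exact_mod_cast hlt
  have hqq := hq (m / 2 ^ b)
  unfold Fg at hqq ⊢
  have e4 : (4 : ℝ) * M * 2 ^ (N j s) = 2 * (2 ^ b * M) := by
    rw [hb, pow_succ]
    ring
  rw [e4]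
  rw [abs_le] at r1 r2 ⊢
  constructor
  · linarith [r1.1, r2.2]
  · linarith [r1.2, r2.1]

end H50LP
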