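import Pool.Agent.H50.LP.CplBasic

/-!
MP_b365ef_an [H50 LP LINF]. Elementary properties of l_infty sums.
`cpl_linf`: apply the maps coordinatewise (choose `J i`, `P i`), `J v = ⟨fun i => J i (v.1 i), ...⟩`; `0 ≤ C * K` from `0 ≤ C`.
`iso_linf`: the same with `LinearEquiv`s (constant family).
`linf_reindex`: `v ↦ fun i => v (e i)`, inverse by `e.symm` (for the inverse use the dependent transport
`LinearEquiv.piCongrLeft` / `Equiv.piCongrLeft`, or here: the family is constant, so no transport is needed).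
`linf_curry`: `v ↦ fun p => (v.1 p.1).1 p.2`, an isometry.
`linf_prod`: `v ↦ (fun i => (v.1 i).1, fun i => (v.1 i).2)`.
`linf_cons`: `(a, v) ↦ fun n => Nat.casesOn n a v.1`.
`cpl_coord`: `J v = Pi.single i0 v` (all other coordinates zero), `P w = w.1 i0`.
`cpl_inj`: for injective `j : κ → ι` extend by zero outside the range (`Function.extend j v 0`), `P w = w ∘ j`.
`cpl_ell_sum`: for countable `ι`: `Linf ι (fun _ => Ell)` is isometric to `Linf (ι × ℕ) (fun _ => ℝ)` (curry), and an injection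
`ι × ℕ → ℕ` (`Countable`, `exists_injective_nat`) gives the complementation in `Ell`, by `cpl_inj`.
-/

set_option autoImplicit false

namespace H50LP

section
variable {V W : Type} [AddCommGroup V] [Module ℝ V] [BD V] [AddCommGroup W] [Module ℝ W] [BD W]

/-- Coordinatewise map. -/
private def lmap {ι : Type} {V W : ι → Type} [∀ i, AddCommGroup (V i)] [∀ i, Module ℝ (V i)]
    [∀ i, BD (V i)] [∀ i, AddCommGroup (W i)] [∀ i, Module ℝ (W i)] [∀ i, BD (W i)] {C : ℝ}
    (hC : 0 ≤ C) (T : ∀ i, V i →ₗ[ℝ] W i) (hT : ∀ i, Bdd C (T i)) : Linf ι V →ₗ[ℝ] Linf ι W where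
  toFun v := ⟨fun i => T i (v.1 i), by
    obtain ⟨K, hK, h⟩ := v.2
    exact ⟨C * K, mul_nonneg hC hK, fun i => hT i K _ (h i)⟩⟩
  map_add' v w := Subtype.ext (funext fun i => (T i).map_add (v.1 i) (w.1 i))
  map_smul' a v := Subtype.ext (funext fun i => (T i).map_smul a (v.1 i))

private theorem lmap_bdd {ι : Type} {V W : ι → Type} [∀ i, AddCommGroup (V i)]
    [∀ i, Module ℝ (V i)] [∀ i, BD (V i)] [∀ i, AddCommGroup (W i)] [∀ i, Module ℝ (W i)]
    [∀ i, BD (W i)] {C : ℝ} (hC : 0 ≤ C) (T : ∀ i, V i →ₗ[ℝ] W i) (hT : ∀ i, Bdd C (T i)) :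
    Bdd C (lmap hC T hT) :=
  fun K _ h => ⟨mul_nonneg hC h.1, fun i => hT i K _ (h.2 i)⟩

/-- Composition with a map of the index sets. -/
private def cmap {ι κ : Type} (g : ι → κ) :
    Linf κ (fun _ => V) →ₗ[ℝ] Linf ι (fun _ => V) where
  toFun v := ⟨fun i => v.1 (g i), by
    obtain ⟨K, hK, h⟩ := v.2
    exact ⟨K, hK, fun i => h (g i)⟩⟩
  map_add' v w := rfl
  map_smul' a v := rfl

private theorem cmap_bdd {ι κ : Type} (g : ι → κ) : Bdd 1 (cmap (V := V) g) := by
  intro K v h
  rw [one_mul]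
  exact ⟨h.1, fun i => h.2 (g i)⟩

/-- Currying. -/
private def curr {ι κ : Type} :
    Linf ι (fun _ => Linf κ (fun _ => V)) →ₗ[ℝ] Linf (ι × κ) (fun _ => V) where
  toFun v := ⟨fun p => (v.1 p.1).1 p.2, by
    obtain ⟨K, hK, h⟩ := v.2
    exact ⟨K, hK, fun p => (h p.1).2 p.2⟩⟩
  map_add' v w := rfl
  map_smul' a v := rfl

/-- Uncurrying. -/
private def uncurr {ι κ : Type} :
    Linf (ι × κ) (fun _ => V) →ₗ[ℝ] Linf ι (fun _ => Linf κ (fun _ => V)) where
  toFun v := ⟨fun i => ⟨fun k => v.1 (i, k), by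
    obtain ⟨K, hK, h⟩ := v.2
    exact ⟨K, hK, fun k => h (i, k)⟩⟩, by
    obtain ⟨K, hK, h⟩ := v.2
    exact ⟨K, hK, fun i => ⟨hK, fun k => h (i, k)⟩⟩⟩
  map_add' v w := rfl
  map_smul' a v := rfl

private theorem curr_bdd {ι κ : Type} :
    Bdd (V := Linf ι (fun _ => Linf κ (fun _ => V))) (W := Linf (ι × κ) (fun _ => V)) 1
      curr := by
  intro K v h
  rw [one_mul]
  exact ⟨h.1, fun p => (h.2 p.1).2 p.2⟩

private theorem uncurr_bdd {ι κ : Type} :
    Bdd (V := Linf (ι × κ) (fun _ => V)) (W := Linf ι (fun _ => Linf κ (fun _ => V))) 1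
      uncurr := by
  intro K v h
  rw [one_mul]
  exact ⟨h.1, fun i => ⟨h.1, fun k => h.2 (i, k)⟩⟩

theorem cpl_linf {ι : Type} (V W : ι → Type) [∀ i, AddCommGroup (V i)] [∀ i, Module ℝ (V i)]
    [∀ i, BD (V i)] [∀ i, AddCommGroup (W i)] [∀ i, Module ℝ (W i)] [∀ i, BD (W i)] {C : ℝ}
    (hC : 0 ≤ C) (h : ∀ i, Cpl C (V i) (W i)) : Cpl C (Linf ι V) (Linf ι W) := by
  choose J P hJP hJ hP using h
  exact ⟨lmap hC J hJ, lmap hC P hP, fun v => Subtype.ext (funext fun i => hJP i (v.1 i)),
    lmap_bdd hC J hJ, lmap_bdd hC P hP⟩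

theorem iso_linf {ι : Type} (h : Iso V W) :
    Iso (Linf ι (fun _ => V)) (Linf ι (fun _ => W)) := by
  obtain ⟨T, C, h1, h2⟩ := h
  have hC : 0 ≤ max C 0 := le_max_right _ _
  have h1' := h1.mono (le_max_left C 0)
  have h2' := h2.mono (le_max_left C 0)
  refine ⟨LinearEquiv.ofLinearMap (lmap hC (fun _ => (T : V →ₗ[ℝ] W)) fun _ => h1')
    (lmap hC (fun _ => (T.symm : W →ₗ[ℝ] V)) fun _ => h2') ?_ ?_, max C 0, ?_, ?_⟩
  · exact LinearMap.ext fun v => Subtype.ext (funext fun i => T.apply_symm_apply (v.1 i))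
  · exact LinearMap.ext fun v => Subtype.ext (funext fun i => T.symm_apply_apply (v.1 i))
  · exact lmap_bdd hC (fun _ => (T : V →ₗ[ℝ] W)) fun _ => h1'
  · exact lmap_bdd hC (fun _ => (T.symm : W →ₗ[ℝ] V)) fun _ => h2'

theorem linf_reindex {ι κ : Type} (e : ι ≃ κ) :
    Iso (Linf κ (fun _ => V)) (Linf ι (fun _ => V)) := by
  refine ⟨LinearEquiv.ofLinearMap (cmap e) (cmap e.symm) ?_ ?_, 1, cmap_bdd _, cmap_bdd _⟩
  · exact LinearMap.ext fun v => Subtype.ext (funext fun i =>
      congrArg v.1 (e.symm_apply_apply i))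
  · exact LinearMap.ext fun v => Subtype.ext (funext fun i =>
      congrArg v.1 (e.apply_symm_apply i))

theorem linf_curry {ι κ : Type} :
    Iso (Linf ι (fun _ => Linf κ (fun _ => V))) (Linf (ι × κ) (fun _ => V)) :=
  ⟨LinearEquiv.ofLinearMap curr uncurr (LinearMap.ext fun _ => rfl) (LinearMap.ext fun _ => rfl), 1,
    curr_bdd, uncurr_bdd⟩

theorem linf_prod {ι : Type} :
    Iso (Linf ι (fun _ => V × W)) (Linf ι (fun _ => V) × Linf ι (fun _ => W)) := by
  refine ⟨{
    toFun := fun v => (⟨fun i => (v.1 i).1, by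
        obtain ⟨K, hK, h⟩ := v.2
        exact ⟨K, hK, fun i => (h i).1⟩⟩, ⟨fun i => (v.1 i).2, by
        obtain ⟨K, hK, h⟩ := v.2
        exact ⟨K, hK, fun i => (h i).2⟩⟩)
    map_add' := fun v w => rfl
    map_smul' := fun a v => rfl
    invFun := fun w => ⟨fun i => (w.1.1 i, w.2.1 i), by
        obtain ⟨K, hK, h⟩ := w.1.2
        obtain ⟨L, hL, h'⟩ := w.2.2
        exact ⟨max K L, hK.trans (le_max_left _ _), fun i =>
          ⟨BD.mono (h i) (le_max_left _ _), BD.mono (h' i) (le_max_right _ _)⟩⟩⟩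
    left_inv := fun v => rfl
    right_inv := fun w => rfl }, 1, ?_, ?_⟩
  · intro K v h
    rw [one_mul]
    exact ⟨⟨h.1, fun i => (h.2 i).1⟩, ⟨h.1, fun i => (h.2 i).2⟩⟩
  · intro K w h
    rw [one_mul]
    exact ⟨h.1.1, fun i => ⟨h.1.2 i, h.2.2 i⟩⟩

theorem linf_cons : Iso (V × Linf ℕ (fun _ => V)) (Linf ℕ (fun _ => V)) := by
  refine ⟨{
    toFun := fun v => ⟨fun n => Nat.casesOn n v.1 v.2.1, by
        obtain ⟨K, hK⟩ := BD.ex v.1
        obtain ⟨L, hL, h⟩ := v.2.2
        refine ⟨max K L, hL.trans (le_max_right _ _), fun n => ?_⟩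
        cases n with
        | zero => exact BD.mono hK (le_max_left _ _)
        | succ n => exact BD.mono (h n) (le_max_right _ _)⟩
    map_add' := fun v w => by
      apply Subtype.ext
      funext n
      cases n <;> rfl
    map_smul' := fun a v => by
      apply Subtype.ext
      funext n
      cases n <;> rfl
    invFun := fun w => (w.1 0, ⟨fun n => w.1 (n + 1), by
        obtain ⟨K, hK, h⟩ := w.2
        exact ⟨K, hK, fun n => h (n + 1)⟩⟩)
    left_inv := fun v => rfl
    right_inv := fun w => by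
      apply Subtype.ext
      funext n
      cases n <;> rfl }, 1, ?_, ?_⟩
  · intro K v h
    rw [one_mul]
    refine ⟨h.2.1, fun n => ?_⟩
    cases n with
    | zero => exact h.1
    | succ n => exact h.2.2 n
  · intro K w h
    rw [one_mul]
    exact ⟨h.2 0, h.1, fun n => h.2 (n + 1)⟩

open scoped Classical in
theorem cpl_coord {ι : Type} (i0 : ι) : Cpl 1 V (Linf ι (fun _ => V)) := by
  refine ⟨{
    toFun := fun v => ⟨fun i => if i = i0 then v else 0, by
        obtain ⟨K, hK⟩ := BD.ex v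
        refine ⟨K, BD.nonneg hK, fun i => ?_⟩
        show bd K (if i = i0 then v else 0)
        split_ifs
        · exact hK
        · exact BD.mono BD.zero (BD.nonneg hK)⟩
    map_add' := fun v w => by
      apply Subtype.ext
      funext i
      show (if i = i0 then v + w else 0) = (if i = i0 then v else 0) + (if i = i0 then w else 0)
      split_ifs
      · rfl
      · rw [add_zero]
    map_smul' := fun a v => by
      apply Subtype.ext
      funext i
      show (if i = i0 then a • v else 0) = a • (if i = i0 then v else 0)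
      split_ifs
      · rfl
      · rw [smul_zero] }, {
    toFun := fun w => w.1 i0
    map_add' := fun v w => rfl
    map_smul' := fun a v => rfl }, fun v => if_pos rfl, ?_, ?_⟩
  · intro K v h
    rw [one_mul]
    refine ⟨BD.nonneg h, fun i => ?_⟩
    show bd K (if i = i0 then v else 0)
    split_ifs
    · exact h
    · exact BD.mono BD.zero (BD.nonneg h)
  · intro K w h
    rw [one_mul]
    exact h.2 i0

theorem cpl_inj {ι κ : Type} (j : κ → ι) (hj : Function.Injective j) :
    Cpl 1 (Linf κ (fun _ => V)) (Linf ι (fun _ => V)) := by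
  have key : ∀ (K : ℝ) (v : κ → V), 0 ≤ K → (∀ k, bd K (v k)) →
      ∀ i, bd K (Function.extend j v (0 : ι → V) i) := by
    intro K v hK h i
    by_cases hi : ∃ k, j k = i
    · obtain ⟨k, rfl⟩ := hi
      rw [hj.extend_apply]
      exact h k
    · rw [Function.extend_apply' _ _ _ hi]
      exact BD.mono BD.zero hK
  refine ⟨{
    toFun := fun v => ⟨Function.extend j v.1 (0 : ι → V), by
        obtain ⟨K, hK, h⟩ := v.2
        exact ⟨K, hK, key K v.1 hK h⟩⟩
    map_add' := fun v w => by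
      apply Subtype.ext
      funext i
      show Function.extend j (v.1 + w.1) (0 : ι → V) i =
        Function.extend j v.1 (0 : ι → V) i + Function.extend j w.1 (0 : ι → V) i
      by_cases hi : ∃ k, j k = i
      · obtain ⟨k, rfl⟩ := hi
        rw [hj.extend_apply, hj.extend_apply, hj.extend_apply]
        rfl
      · rw [Function.extend_apply' _ _ _ hi, Function.extend_apply' _ _ _ hi,
          Function.extend_apply' _ _ _ hi, Pi.zero_apply, add_zero]
    map_smul' := fun a v => by
      apply Subtype.ext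
      funext i
      show Function.extend j (a • v.1) (0 : ι → V) i = a • Function.extend j v.1 (0 : ι → V) i
      by_cases hi : ∃ k, j k = i
      · obtain ⟨k, rfl⟩ := hi
        rw [hj.extend_apply, hj.extend_apply]
        rfl
      · rw [Function.extend_apply' _ _ _ hi, Function.extend_apply' _ _ _ hi, Pi.zero_apply,
          smul_zero] }, cmap j, fun v => ?_, ?_, cmap_bdd j⟩
  · exact Subtype.ext (funext fun k => hj.extend_apply v.1 _ k)
  · intro K v h
    rw [one_mul]
    exact ⟨h.1, key K v.1 h.1 h.2⟩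

theorem cpl_ell_sum {ι : Type} [Countable ι] : Cpl 1 (Linf ι (fun _ => Ell)) Ell := by
  obtain ⟨g, hg⟩ := exists_injective_nat (ι × ℕ)
  have h1 : Cpl 1 (Linf ι (fun _ => Ell)) (Linf (ι × ℕ) (fun _ => ℝ)) :=
    ⟨curr, uncurr, fun v => rfl, curr_bdd, uncurr_bdd⟩
  exact (h1.trans (cpl_inj (V := ℝ) g hg)).mono (le_of_eq (one_mul 1))

theorem cpl_ell_prod : Cpl 1 (Ell × Ell) Ell := by
  have h1 : Cpl 1 (Ell × Ell) (Linf Bool (fun _ => Ell)) := by
    refine ⟨{
      toFun := fun v => ⟨fun b => cond b v.1 v.2, by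
          obtain ⟨K, hK, h⟩ := v.1.2
          obtain ⟨L, hL, h'⟩ := v.2.2
          refine ⟨max K L, hK.trans (le_max_left _ _), fun b => ?_⟩
          cases b with
          | false => exact ⟨hK.trans (le_max_left _ _), fun i => BD.mono (h' i) (le_max_right _ _)⟩
          | true => exact ⟨hK.trans (le_max_left _ _), fun i => BD.mono (h i) (le_max_left _ _)⟩⟩
      map_add' := fun v w => by
        apply Subtype.ext
        funext b
        cases b <;> rfl
      map_smul' := fun a v => by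
        apply Subtype.ext
        funext b
        cases b <;> rfl }, {
      toFun := fun w => (w.1 true, w.1 false)
      map_add' := fun v w => rfl
      map_smul' := fun a v => rfl }, fun v => rfl, ?_, ?_⟩
    · intro K v h
      rw [one_mul]
      refine ⟨h.1.1, fun b => ?_⟩
      cases b with
      | false => exact h.2
      | true => exact h.1
    · intro K w h
      rw [one_mul]
      exact ⟨h.2 true, h.2 false⟩
  exact (h1.trans cpl_ell_sum).mono (le_of_eq (one_mul 1))

theorem iso_ell_rep : Iso Ell (Linf ℕ (fun _ => Ell)) :=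
  (linf_reindex (V := ℝ) Nat.pairEquiv).trans (linf_curry (V := ℝ) (ι := ℕ) (κ := ℕ)).symm

end

end H50LP
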