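import Pool.Agent.H50.LP.Ulim
import Pool.Agent.H50.LP.LinfBasic

/-!
MP_b365ef_an [H50 LP LINE]. `Lip_0(ℝ)` is complemented in `ℓ_∞` with constant 1.
Proof. Fix a bijection `e : ℕ ≃ ℕ × ℤ` (`Denumerable.eqv`). `J f = (n ↦ 2^m (f ((k+1)/2^m) - f (k/2^m)))` with `(m, k) = e n`;
it is linear and `|..| ≤ K` if `f` is `K`-Lipschitz. For `b : ℤ → ℝ` let `s b : ℤ → ℝ` be the sum function: `s b 0 = 0`,
`s b (k + 1) = s b k + b k` for all integers `k` (define `s b k = ∑ i ∈ Finset.Ico 0 k, b i - ∑ i ∈ Finset.Ico k 0, b i` with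
integer intervals); it is linear in `b`, and `|s b k - s b l| ≤ K |k - l|` if `|b| ≤ K`. For `a ∈ ℓ_∞` and `m : ℕ` let
`S m a x = 2^(-m) * s (fun k => a (e.symm (m, k))) ⌊2^m x⌋`; `P a x = Lim (fun m => S m a x)` with `Lim` of `exists_ulim`.
Bounds: `|⌊2^m x⌋ - ⌊2^m x'⌋| ≤ 2^m |x - x'| + 1`, so `|S m a x - S m a x'| ≤ K (|x - x'| + 2^(-m))`; hence
`|P a x - P a x'| ≤ K |x - x'|` (last property of `Lim`, applied to the difference), `P a 0 = 0`, and the sequence `S m a x` is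
bounded by `K (|x| + 1)`. `P (J f) x = f x`: telescoping `s (..) k = 2^m (f (k/2^m) - f 0)`, so
`S m (J f) x = f (⌊2^m x⌋ / 2^m) → f x`.
-/

set_option autoImplicit false

namespace H50LP

/-- position of a dyadic interval -/
private noncomputable def line_idx (m : ℕ) (k : ℤ) : ℕ := Denumerable.eqv (ℕ × ℤ) (m, k)

/-- dyadic interval with a given position -/
private noncomputable def line_e (n : ℕ) : ℕ × ℤ := (Denumerable.eqv (ℕ × ℤ)).symm n

private theorem line_e_idx (m : ℕ) (k : ℤ) : line_e (line_idx m k) = (m, k) :=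
  (Denumerable.eqv (ℕ × ℤ)).symm_apply_apply (m, k)

/-- difference quotient -/
private noncomputable def line_d (f : ℝ → ℝ) (m : ℕ) (k : ℤ) : ℝ :=
  2 ^ m * (f ((k + 1 : ℤ) / 2 ^ m) - f (k / 2 ^ m))

/-- sum function -/
private noncomputable def line_s (b : ℤ → ℝ) (k : ℤ) : ℝ :=
  ∑ i ∈ Finset.Ico 0 k, b i - ∑ i ∈ Finset.Ico k 0, b i

private theorem line_s_zero (b : ℤ → ℝ) : line_s b 0 = 0 := by
  simp [line_s]

private theorem line_s_succ (b : ℤ → ℝ) (k : ℤ) : line_s b (k + 1) = line_s b k + b k := by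
  unfold line_s
  rcases Int.lt_or_le k 0 with hk | hk
  · have e1 : Finset.Ico 0 (k + 1) = ∅ := Finset.Ico_eq_empty (by omega)
    have e2 : Finset.Ico 0 k = ∅ := Finset.Ico_eq_empty (by omega)
    have e3 : Finset.Ico k 0 = insert k (Finset.Ico (k + 1) 0) := by
      ext i
      simp only [Finset.mem_Ico, Finset.mem_insert]
      omega
    rw [e1, e2, e3, Finset.sum_insert (by simp)]
    simp
  · have e1 : Finset.Ico (k + 1) 0 = ∅ := Finset.Ico_eq_empty (by omega)
    have e2 : Finset.Ico k 0 = ∅ := Finset.Ico_eq_empty (by omega)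
    have e3 : Finset.Ico 0 (k + 1) = insert k (Finset.Ico 0 k) := by
      ext i
      simp only [Finset.mem_Ico, Finset.mem_insert]
      omega
    rw [e1, e2, e3, Finset.sum_insert (by simp)]
    simp only [Finset.sum_empty, sub_zero]
    ring

private theorem line_s_add (b b' : ℤ → ℝ) (k : ℤ) :
    line_s (fun i => b i + b' i) k = line_s b k + line_s b' k := by
  unfold line_s
  rw [Finset.sum_add_distrib, Finset.sum_add_distrib]
  ring

private theorem line_s_smul (c : ℝ) (b : ℤ → ℝ) (k : ℤ) :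
    line_s (fun i => c * b i) k = c * line_s b k := by
  unfold line_s
  rw [← Finset.mul_sum, ← Finset.mul_sum]
  ring

private theorem line_s_tel (g b : ℤ → ℝ) (h : ∀ k, b k = g (k + 1) - g k) (k : ℤ) :
    line_s b k = g k - g 0 := by
  induction k using Int.induction_on with
  | zero => rw [line_s_zero, sub_self]
  | succ i ih => rw [line_s_succ, ih, h]; ring
  | pred i ih =>
    have h1 := line_s_succ b (-(i : ℤ) - 1)
    have h2 := h (-(i : ℤ) - 1)
    rw [sub_add_cancel] at h1 h2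
    linarith

private theorem line_s_lip {b : ℤ → ℝ} {K : ℝ} (hb : ∀ i, |b i| ≤ K) (k l : ℤ) :
    |line_s b k - line_s b l| ≤ K * |(k : ℝ) - l| := by
  have key : ∀ k l : ℤ, k ≤ l → |line_s b l - line_s b k| ≤ K * ((l : ℝ) - k) := by
    intro k l hkl
    induction l, hkl using Int.leInduction with
    | base => simp
    | succ l _ ih =>
      have h1 := line_s_succ b l
      have e : line_s b (l + 1) - line_s b k = (line_s b l - line_s b k) + b l := by
        rw [h1]; ring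
      rw [e]
      refine (abs_add_le _ _).trans ?_
      have h2 := hb l
      push_cast
      linarith
  rcases le_total k l with h | h
  · have h1 := key k l h
    have h2 : (k : ℝ) ≤ l := by exact_mod_cast h
    rw [abs_sub_comm, abs_sub_comm (k : ℝ), abs_of_nonneg (show (0 : ℝ) ≤ (l : ℝ) - k by linarith)]
    exact h1
  · have h1 := key l k h
    have h2 : (l : ℝ) ≤ k := by exact_mod_cast h
    rw [abs_of_nonneg (show (0 : ℝ) ≤ (k : ℝ) - l by linarith)]
    exact h1

/-- the approximation at level `m` -/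
private noncomputable def line_S (a : ℕ → ℝ) (x : ℝ) (m : ℕ) : ℝ :=
  (2 ^ m)⁻¹ * line_s (fun k => a (line_idx m k)) ⌊2 ^ m * x⌋

private theorem line_floor (u v : ℝ) : |(⌊u⌋ : ℝ) - ⌊v⌋| ≤ |u - v| + 1 := by
  have h1 := Int.floor_le u
  have h2 := Int.lt_floor_add_one u
  have h3 := Int.floor_le v
  have h4 := Int.lt_floor_add_one v
  have h5 := le_abs_self (u - v)
  have h6 := neg_abs_le (u - v)
  rw [abs_le]
  constructor <;> linarith

private theorem line_S_lip {a : ℕ → ℝ} {K : ℝ} (hK : 0 ≤ K) (ha : ∀ n, |a n| ≤ K) (x x' : ℝ)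
    (m : ℕ) : |line_S a x m - line_S a x' m| ≤ K * |x - x'| + K * (2 ^ m)⁻¹ := by
  unfold line_S
  have h2 : (0 : ℝ) < 2 ^ m := by positivity
  rw [← mul_sub, abs_mul, abs_of_pos (inv_pos.2 h2)]
  have h3 := line_s_lip (b := fun k => a (line_idx m k)) (fun i => ha _) ⌊2 ^ m * x⌋ ⌊2 ^ m * x'⌋
  have h4 := line_floor (2 ^ m * x) (2 ^ m * x')
  rw [← mul_sub, abs_mul, abs_of_pos h2] at h4
  have h5 := h3.trans (mul_le_mul_of_nonneg_left h4 hK)
  have h6 := mul_le_mul_of_nonneg_left h5 (inv_pos.2 h2).le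
  refine h6.trans (le_of_eq ?_)
  field_simp

private theorem line_S_zero (a : ℕ → ℝ) (m : ℕ) : line_S a 0 m = 0 := by
  unfold line_S
  rw [mul_zero, Int.floor_zero, line_s_zero, mul_zero]

private theorem line_S_bdd {a : ℕ → ℝ} {K : ℝ} (hK : 0 ≤ K) (ha : ∀ n, |a n| ≤ K) (x : ℝ) :
    ∃ B, ∀ m, |line_S a x m| ≤ B := by
  refine ⟨K * |x| + K, fun m => ?_⟩
  have h := line_S_lip hK ha x 0 m
  rw [line_S_zero, sub_zero, sub_zero] at h
  refine h.trans (add_le_add le_rfl ?_)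
  have h1 : ((2 : ℝ) ^ m)⁻¹ ≤ 1 := inv_le_one_of_one_le₀ (one_le_pow₀ (by norm_num))
  nlinarith

private theorem line_pow (K ε : ℝ) (hε : 0 < ε) :
    ∀ᶠ m : ℕ in Filter.atTop, K * ((2 : ℝ) ^ m)⁻¹ ≤ ε := by
  have h1 : Filter.Tendsto (fun m : ℕ => ((2 : ℝ)⁻¹) ^ m) Filter.atTop (nhds 0) :=
    tendsto_pow_atTop_nhds_zero_of_lt_one (by norm_num) (by norm_num)
  have h2 := h1.const_mul K
  rw [mul_zero] at h2
  filter_upwards [h2.eventually (gt_mem_nhds hε)] with m hm
  rw [inv_pow] at hm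
  exact hm.le

theorem cpl_L1_ell : Cpl 1 L1 Ell := by
  obtain ⟨Lim, hadd, hsmul, hlim, hbd⟩ := exists_ulim
  have hd : ∀ (K : ℝ) (f : ℝ → ℝ), lipR K f → ∀ m k, |line_d f m k| ≤ K := by
    intro K f hf m k
    unfold line_d
    have h2 : (0 : ℝ) < 2 ^ m := by positivity
    rw [abs_mul, abs_of_pos h2]
    have h3 := hf.2 (((k + 1 : ℤ) : ℝ) / 2 ^ m) ((k : ℝ) / 2 ^ m)
    have e : ((k + 1 : ℤ) : ℝ) / 2 ^ m - (k : ℝ) / 2 ^ m = (2 ^ m)⁻¹ := by
      push_cast
      field_simp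
      ring
    rw [e, abs_of_pos (inv_pos.2 h2)] at h3
    have h4 := mul_le_mul_of_nonneg_left h3 h2.le
    refine h4.trans (le_of_eq ?_)
    field_simp
  have hEll : ∀ a : Ell, ∃ K, 0 ≤ K ∧ ∀ n, |a.1 n| ≤ K := fun a => a.2
  have hSb : ∀ (a : Ell) (x : ℝ), ∃ B, ∀ m, |line_S a.1 x m| ≤ B := by
    intro a x
    obtain ⟨K, hK, ha⟩ := hEll a
    exact line_S_bdd hK ha x
  have hP : ∀ (a : ℕ → ℝ) (K : ℝ), 0 ≤ K → (∀ n, |a n| ≤ K) →
      lipR K (fun x => Lim (line_S a x)) := by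
    intro a K hK ha
    refine ⟨hK, fun x x' => ?_⟩
    have hb1 := line_S_bdd hK ha x
    have hb2 := line_S_bdd hK ha x'
    have hb3 : ∃ B, ∀ m, |(-1) * line_S a x' m| ≤ B := by
      obtain ⟨B, hB⟩ := hb2
      refine ⟨B, fun m => ?_⟩
      rw [abs_mul, abs_neg, abs_one, one_mul]
      exact hB m
    have e1 : Lim (line_S a x) - Lim (line_S a x') =
        Lim (fun m => line_S a x m + (-1) * line_S a x' m) := by
      rw [hadd _ _ hb1 hb3, hsmul (-1) _ hb2]
      ring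
    show |Lim (line_S a x) - Lim (line_S a x')| ≤ _
    rw [e1]
    refine hbd _ _ ?_ ?_
    · obtain ⟨B1, hB1⟩ := hb1
      obtain ⟨B2, hB2⟩ := hb3
      exact ⟨B1 + B2, fun m => (abs_add_le _ _).trans (add_le_add (hB1 m) (hB2 m))⟩
    · intro ε hε
      filter_upwards [line_pow K ε hε] with m hm
      have h1 := line_S_lip hK ha x x' m
      have e2 : line_S a x m + (-1) * line_S a x' m = line_S a x m - line_S a x' m := by ring
      rw [e2]
      linarith
  have hP0 : ∀ a : ℕ → ℝ, Lim (line_S a 0) = 0 := by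
    intro a
    refine hlim _ _ ?_
    have e : line_S a 0 = fun _ => 0 := funext fun m => line_S_zero a m
    rw [e]
    exact tendsto_const_nhds
  refine ⟨
    { toFun := fun f => ⟨fun n => line_d f.1 (line_e n).1 (line_e n).2, ?_⟩
      map_add' := ?_
      map_smul' := ?_ },
    { toFun := fun a => ⟨fun x => Lim (line_S a.1 x), hP0 a.1, ?_⟩
      map_add' := ?_
      map_smul' := ?_ }, ?_, ?_, ?_⟩
  · obtain ⟨K, hK⟩ := f.2.2
    exact ⟨K, hK.1, fun n => hd K f.1 hK _ _⟩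
  · intro f g
    apply Subtype.ext
    funext n
    show line_d (f.1 + g.1) _ _ = line_d f.1 _ _ + line_d g.1 _ _
    unfold line_d
    simp only [Pi.add_apply]
    ring
  · intro c f
    apply Subtype.ext
    funext n
    show line_d (c • f.1) _ _ = c * line_d f.1 _ _
    unfold line_d
    simp only [Pi.smul_apply, smul_eq_mul]
    ring
  · obtain ⟨K, hK, ha⟩ := hEll a
    exact ⟨K, hP a.1 K hK ha⟩
  · intro a a'
    apply Subtype.ext
    funext x
    show Lim (line_S (a + a').1 x) = Lim (line_S a.1 x) + Lim (line_S a'.1 x)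
    rw [← hadd _ _ (hSb a x) (hSb a' x)]
    congr 1
    funext m
    unfold line_S
    rw [← mul_add, ← line_s_add]
    rfl
  · intro c a
    apply Subtype.ext
    funext x
    show Lim (line_S (c • a).1 x) = c * Lim (line_S a.1 x)
    rw [← hsmul _ _ (hSb a x)]
    congr 1
    funext m
    show (2 ^ m)⁻¹ * line_s (fun k => c * a.1 (line_idx m k)) ⌊2 ^ m * x⌋ =
      c * ((2 ^ m)⁻¹ * line_s (fun k => a.1 (line_idx m k)) ⌊2 ^ m * x⌋)
    rw [line_s_smul]
    ring
  · intro f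
    apply Subtype.ext
    funext x
    show Lim (line_S (fun n => line_d f.1 (line_e n).1 (line_e n).2) x) = f.1 x
    obtain ⟨K, hK⟩ := f.2.2
    have e : ∀ m, line_S (fun n => line_d f.1 (line_e n).1 (line_e n).2) x m =
        f.1 ((⌊2 ^ m * x⌋ : ℝ) / 2 ^ m) := by
      intro m
      have h2 : (0 : ℝ) < 2 ^ m := by positivity
      unfold line_S
      rw [line_s_tel (fun k : ℤ => 2 ^ m * f.1 ((k : ℝ) / 2 ^ m)) _ (by
        intro k
        show line_d f.1 (line_e (line_idx m k)).1 (line_e (line_idx m k)).2 = _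
        rw [line_e_idx]
        unfold line_d
        ring) ⌊2 ^ m * x⌋]
      have h0 : f.1 (((0 : ℤ) : ℝ) / 2 ^ m) = 0 := by
        rw [Int.cast_zero, zero_div]
        exact f.2.1
      rw [h0, mul_zero, sub_zero, inv_mul_cancel_left₀ h2.ne']
    refine hlim _ _ ?_
    rw [Metric.tendsto_atTop]
    intro ε hε
    have h3 := line_pow K (ε / 2) (by positivity)
    rw [Filter.eventually_atTop] at h3
    obtain ⟨N, hN⟩ := h3
    refine ⟨N, fun m hm => ?_⟩
    rw [e, Real.dist_eq]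
    have h2 : (0 : ℝ) < 2 ^ m := by positivity
    have h4 := hK.2 ((⌊2 ^ m * x⌋ : ℝ) / 2 ^ m) x
    have h5 : |(⌊2 ^ m * x⌋ : ℝ) / 2 ^ m - x| ≤ (2 ^ m)⁻¹ := by
      have h6 := Int.floor_le (2 ^ m * x)
      have h7 := Int.lt_floor_add_one (2 ^ m * x)
      have e2 : (⌊2 ^ m * x⌋ : ℝ) / 2 ^ m - x = (2 ^ m)⁻¹ * ((⌊2 ^ m * x⌋ : ℝ) - 2 ^ m * x) := by
        field_simp
      rw [e2, abs_mul, abs_of_pos (inv_pos.2 h2)]
      refine mul_le_of_le_one_right (inv_pos.2 h2).le ?_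
      rw [abs_le]
      constructor <;> linarith
    have h8 := mul_le_mul_of_nonneg_left h5 hK.1
    have h9 := hN m hm
    linarith
  · intro K f hf
    rw [one_mul]
    exact ⟨hf.1, fun n => hd K f.1 hf _ _⟩
  · intro K a ha
    rw [one_mul]
    exact hP a.1 K ha.1 ha.2

end H50LP
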