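import Pool.Agent.H50.LP.CplBasic

/-!
MP_b365ef_an [H50 LP LIP]. The spaces Lip_0(M) of the problem and the function spaces used in the proof.
`lipIso_iff`: Lipschitz constants in `NNReal` versus real: `LipschitzWith K f ↔ ∀ x y, |f x - f y| ≤ K * dist x y` (`LipschitzWith.of_dist_le_mul`,
`LipschitzWith.dist_le_mul`, `Real.dist_eq`); for a real constant `K ≥ 0` use `Real.toNNReal K`. From `Iso` with constant `C` take `Real.toNNReal C` (`Bdd.mono`
with `max C 0`), conversely the coercion.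
`iso_strip`: for `f : strip A → ℝ` let `(T f) x a = f (point x a) - f (point 0 a0)`, `point x a = ⟨!₂[x, a], _⟩ ∈ strip A` (`EuclideanSpace`, `WithLp.toLp 2 ![x, a]`), inverse
`(S g) z = g (z 0) (z 1) - g (p 0) (p 1)`. `|x - x'|, |a - a'| ≤ dist ≤ |x - x'| + |a - a'|` (`EuclideanSpace.dist_eq`, `Real.sqrt`): so `T` has constant 1 and
`S` constant 2 (`|g x a - g x' a'| ≤ K (|x - x'| + |a - a'|) ≤ 2 K dist`). `T (S g) = g` since `g 0 a0 = 0`; `S (T f) = f` since `f p = 0`.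
`iso_line`: the same function. `iso_plane`: from `iso_strip` for `univ` or directly in the same way.
-/

set_option autoImplicit false

namespace H50LP

/-- The real vector space of Lipschitz functions on `M` vanishing at `p`. -/
def Lip0 (M : Type) [MetricSpace M] (p : M) : Submodule ℝ (M → ℝ) where
  carrier := {f | f p = 0 ∧ ∃ K : NNReal, LipschitzWith K f}
  add_mem' := by
    rintro f g ⟨h0, K, h⟩ ⟨h0', L, h'⟩
    exact ⟨by simp [h0, h0'], K + L, h.add h'⟩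
  zero_mem' := ⟨rfl, 0, LipschitzWith.const 0⟩
  smul_mem' := by
    rintro c f ⟨h0, K, h⟩
    refine ⟨by simp [h0], ‖c‖₊ * K, LipschitzWith.of_dist_le_mul fun x y => ?_⟩
    have h1 : dist ((c • f) x) ((c • f) y) = |c| * dist (f x) (f y) := by
      rw [Real.dist_eq, Real.dist_eq, ← abs_mul]
      congr 1
      simp only [Pi.smul_apply, smul_eq_mul]
      ring
    rw [h1]
    have h2 := h.dist_le_mul x y
    have h3 : ((‖c‖₊ * K : NNReal) : ℝ) = |c| * K := by simp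
    rw [h3, mul_assoc]
    exact mul_le_mul_of_nonneg_left h2 (abs_nonneg c)

/-- `Lip0 M p` and `Lip0 N q` are linearly isomorphic, with bounds both ways for the best
Lipschitz constants. -/
def LipIso (M N : Type) [MetricSpace M] [MetricSpace N] (p : M) (q : N) : Prop :=
  ∃ (T : Lip0 M p ≃ₗ[ℝ] Lip0 N q) (C : NNReal),
    (∀ (f : Lip0 M p) (K : NNReal), LipschitzWith K f.1 → LipschitzWith (C * K) (T f).1) ∧
    ∀ (g : Lip0 N q) (K : NNReal), LipschitzWith K g.1 → LipschitzWith (C * K) (T.symm g).1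

/-- The product `ℝ × A` as a subset of the Euclidean plane. -/
def strip (A : Set ℝ) : Set (EuclideanSpace ℝ (Fin 2)) := {z | z 1 ∈ A}

instance (M : Type) [MetricSpace M] (p : M) : BD (Lip0 M p) where
  bd K f := 0 ≤ K ∧ ∀ x y, |f.1 x - f.1 y| ≤ K * dist x y
  nonneg h := h.1
  mono h h' := ⟨h.1.trans h', fun x y => (h.2 x y).trans
    (mul_le_mul_of_nonneg_right h' dist_nonneg)⟩
  add {K L f g} h h' := by
    refine ⟨add_nonneg h.1 h'.1, fun x y => ?_⟩
    have e : (f + g).1 x - (f + g).1 y = (f.1 x - f.1 y) + (g.1 x - g.1 y) := by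
      simp only [Submodule.coe_add, Pi.add_apply]; ring
    rw [e, add_mul]
    exact (abs_add_le _ _).trans (add_le_add (h.2 x y) (h'.2 x y))
  smul {K f} c h := by
    refine ⟨mul_nonneg (abs_nonneg c) h.1, fun x y => ?_⟩
    have e : (c • f).1 x - (c • f).1 y = c * (f.1 x - f.1 y) := by
      simp only [Submodule.coe_smul, Pi.smul_apply, smul_eq_mul]; ring
    rw [e, abs_mul, mul_assoc]
    exact mul_le_mul_of_nonneg_left (h.2 x y) (abs_nonneg c)
  zero := ⟨le_rfl, by simp⟩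
  ex f := by
    obtain ⟨K, hK⟩ := f.2.2
    exact ⟨K, K.2, fun x y => by simpa [Real.dist_eq] using hK.dist_le_mul x y⟩

private theorem Lip0_lip {M : Type} [MetricSpace M] (f : M → ℝ) (K : NNReal) :
    LipschitzWith K f ↔ ∀ x y, |f x - f y| ≤ K * dist x y := by
  constructor
  · intro h x y
    rw [← Real.dist_eq]
    exact h.dist_le_mul x y
  · intro h
    apply LipschitzWith.of_dist_le_mul
    intro x y
    rw [Real.dist_eq]
    exact h x y

theorem lipIso_iff (M N : Type) [MetricSpace M] [MetricSpace N] (p : M) (q : N) :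
    LipIso M N p q ↔ Iso (Lip0 M p) (Lip0 N q) := by
  constructor
  · rintro ⟨T, C, h1, h2⟩
    refine ⟨T, C, ?_, ?_⟩
    · intro K f hf
      refine ⟨mul_nonneg C.2 hf.1, ?_⟩
      exact (Lip0_lip _ _).1 (h1 f ⟨K, hf.1⟩ ((Lip0_lip f.1 ⟨K, hf.1⟩).2 hf.2))
    · intro K f hf
      refine ⟨mul_nonneg C.2 hf.1, ?_⟩
      exact (Lip0_lip _ _).1 (h2 f ⟨K, hf.1⟩ ((Lip0_lip f.1 ⟨K, hf.1⟩).2 hf.2))
  · rintro ⟨T, C, h1, h2⟩
    refine ⟨T, Real.toNNReal C, ?_, ?_⟩
    · intro f K hf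
      have h3 := (h1.mono (le_max_left C 0)) K f ⟨K.2, (Lip0_lip _ _).1 hf⟩
      refine (Lip0_lip _ _).2 fun x y => ?_
      have h4 := h3.2 x y
      rw [NNReal.coe_mul, Real.coe_toNNReal']
      exact h4
    · intro f K hf
      have h3 := (h2.mono (le_max_left C 0)) K f ⟨K.2, (Lip0_lip _ _).1 hf⟩
      refine (Lip0_lip _ _).2 fun x y => ?_
      have h4 := h3.2 x y
      rw [NNReal.coe_mul, Real.coe_toNNReal']
      exact h4

private theorem Lip0_dist {A : Set ℝ} (z z' : strip A) :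
    dist z z' = Real.sqrt (|z.1 0 - z'.1 0| ^ 2 + |z.1 1 - z'.1 1| ^ 2) := by
  rw [Subtype.dist_eq, EuclideanSpace.dist_eq, Fin.sum_univ_two, Real.dist_eq, Real.dist_eq]

private theorem Lip0_le0 {A : Set ℝ} (z z' : strip A) : |z.1 0 - z'.1 0| ≤ dist z z' := by
  rw [Lip0_dist]
  apply Real.le_sqrt_of_sq_le
  have := sq_nonneg |z.1 1 - z'.1 1|
  linarith

private theorem Lip0_le1 {A : Set ℝ} (z z' : strip A) : |z.1 1 - z'.1 1| ≤ dist z z' := by
  rw [Lip0_dist]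
  apply Real.le_sqrt_of_sq_le
  have := sq_nonneg |z.1 0 - z'.1 0|
  linarith

/-- the point `(x, a)` -/
private noncomputable def Lip0_pt {A : Set ℝ} (x : ℝ) (a : A) : strip A :=
  ⟨WithLp.toLp 2 ![x, (a : ℝ)], a.2⟩

private theorem Lip0_pt0 {A : Set ℝ} (x : ℝ) (a : A) : (Lip0_pt x a).1 0 = x := rfl

private theorem Lip0_pt1 {A : Set ℝ} (x : ℝ) (a : A) : (Lip0_pt x a).1 1 = a := rfl

private theorem Lip0_pt_eq {A : Set ℝ} (z : strip A) : Lip0_pt (z.1 0) ⟨z.1 1, z.2⟩ = z := by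
  apply Subtype.ext
  ext i
  fin_cases i
  · rfl
  · rfl

private theorem Lip0_dx {A : Set ℝ} (x x' : ℝ) (a : A) :
    dist (Lip0_pt x a) (Lip0_pt x' a) = |x - x'| := by
  rw [Lip0_dist, Lip0_pt0, Lip0_pt0, Lip0_pt1, Lip0_pt1, sub_self, abs_zero]
  rw [zero_pow (by norm_num), add_zero, Real.sqrt_sq (abs_nonneg _)]

private theorem Lip0_da {A : Set ℝ} (x : ℝ) (a a' : A) :
    dist (Lip0_pt x a) (Lip0_pt x a') = |(a : ℝ) - a'| := by
  rw [Lip0_dist, Lip0_pt0, Lip0_pt0, Lip0_pt1, Lip0_pt1, sub_self, abs_zero]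
  rw [zero_pow (by norm_num), zero_add, Real.sqrt_sq (abs_nonneg _)]

private theorem Lip0_T_bd {A : Set ℝ} (a0 : A) {K : ℝ} {f : strip A → ℝ} (hK : 0 ≤ K)
    (h : ∀ x y, |f x - f y| ≤ K * dist x y) :
    lipB K (fun x a => f (Lip0_pt x a) - f (Lip0_pt 0 a0)) := by
  refine ⟨hK, fun x x' a => ?_, fun x a a' => ?_⟩
  · rw [sub_sub_sub_cancel_right, ← Lip0_dx x x' a]
    exact h _ _
  · rw [sub_sub_sub_cancel_right, ← Lip0_da x a a']
    exact h _ _

private theorem Lip0_S_bd {A : Set ℝ} (p : strip A) {K : ℝ} {g : ℝ → A → ℝ} (h : lipB K g)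
    (z z' : strip A) :
    |(g (z.1 0) ⟨z.1 1, z.2⟩ - g (p.1 0) ⟨p.1 1, p.2⟩) -
      (g (z'.1 0) ⟨z'.1 1, z'.2⟩ - g (p.1 0) ⟨p.1 1, p.2⟩)| ≤ 2 * K * dist z z' := by
  rw [sub_sub_sub_cancel_right]
  have h1 := h.2.1 (z.1 0) (z'.1 0) ⟨z.1 1, z.2⟩
  have h2 := h.2.2 (z'.1 0) ⟨z.1 1, z.2⟩ ⟨z'.1 1, z'.2⟩
  have h3 := mul_le_mul_of_nonneg_left (Lip0_le0 z z') h.1
  have h4 := mul_le_mul_of_nonneg_left (Lip0_le1 z z') h.1
  have h5 := abs_sub_le (g (z.1 0) ⟨z.1 1, z.2⟩) (g (z'.1 0) ⟨z.1 1, z.2⟩)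
    (g (z'.1 0) ⟨z'.1 1, z'.2⟩)
  have h6 : |((⟨z.1 1, z.2⟩ : A) : ℝ) - ((⟨z'.1 1, z'.2⟩ : A) : ℝ)| = |z.1 1 - z'.1 1| := rfl
  rw [h6] at h2
  linarith

private theorem Lip0_ex {M : Type} [MetricSpace M] {f : M → ℝ} {K : ℝ} (hK : 0 ≤ K)
    (h : ∀ x y, |f x - f y| ≤ K * dist x y) : ∃ K : NNReal, LipschitzWith K f :=
  ⟨⟨K, hK⟩, (Lip0_lip _ _).2 h⟩

private noncomputable def Lip0_T (A : Set ℝ) (p : strip A) (a0 : A) :
    Lip0 (strip A) p ≃ₗ[ℝ] LX A a0 where
  toFun f := ⟨fun x a => f.1 (Lip0_pt x a) - f.1 (Lip0_pt 0 a0), sub_self _, by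
    obtain ⟨K, hK⟩ := f.2.2
    exact ⟨K, Lip0_T_bd a0 K.2 ((Lip0_lip _ _).1 hK)⟩⟩
  map_add' f g := by
    apply Subtype.ext
    funext x a
    simp only [Submodule.coe_add, Pi.add_apply]
    ring
  map_smul' c f := by
    apply Subtype.ext
    funext x a
    simp only [Submodule.coe_smul, Pi.smul_apply, smul_eq_mul, RingHom.id_apply]
    ring
  invFun g := ⟨fun z => g.1 (z.1 0) ⟨z.1 1, z.2⟩ - g.1 (p.1 0) ⟨p.1 1, p.2⟩, sub_self _, by
    obtain ⟨K, hK⟩ := g.2.2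
    exact Lip0_ex (by linarith [hK.1]) (Lip0_S_bd p hK)⟩
  left_inv f := by
    apply Subtype.ext
    funext z
    show (f.1 (Lip0_pt (z.1 0) ⟨z.1 1, z.2⟩) - f.1 (Lip0_pt 0 a0)) -
      (f.1 (Lip0_pt (p.1 0) ⟨p.1 1, p.2⟩) - f.1 (Lip0_pt 0 a0)) = f.1 z
    rw [Lip0_pt_eq, Lip0_pt_eq, f.2.1]
    ring
  right_inv g := by
    apply Subtype.ext
    funext x a
    show (g.1 x a - g.1 (p.1 0) ⟨p.1 1, p.2⟩) - (g.1 0 a0 - g.1 (p.1 0) ⟨p.1 1, p.2⟩) = g.1 x a
    rw [g.2.1]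
    ring

theorem iso_strip (A : Set ℝ) (p : strip A) (a0 : A) : Iso (Lip0 (strip A) p) (LX A a0) := by
  refine ⟨Lip0_T A p a0, 2, ?_, ?_⟩
  · intro K f hf
    have h1 : lipB K (fun x a => f.1 (Lip0_pt x a) - f.1 (Lip0_pt 0 a0)) :=
      Lip0_T_bd a0 hf.1 hf.2
    exact h1.mono (by linarith [hf.1])
  · intro K g hg
    exact ⟨mul_nonneg (by norm_num) (hg : lipB K g.1).1, Lip0_S_bd p hg⟩

theorem iso_line : Iso (Lip0 ℝ 0) L1 := by
  let T : Lip0 ℝ 0 ≃ₗ[ℝ] L1 :=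
    { toFun := fun f => ⟨f.1, f.2.1, by
        obtain ⟨K, hK⟩ := f.2.2
        exact ⟨K, K.2, fun x y => by
          rw [← Real.dist_eq x y]
          exact (Lip0_lip _ _).1 hK x y⟩⟩
      map_add' := fun f g => rfl
      map_smul' := fun c f => rfl
      invFun := fun g => ⟨g.1, g.2.1, by
        obtain ⟨K, hK⟩ := g.2.2
        exact Lip0_ex hK.1 hK.2⟩
      left_inv := fun f => rfl
      right_inv := fun g => rfl }
  refine ⟨T, 1, ?_, ?_⟩
  · intro K f hf
    rw [one_mul]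
    exact hf
  · intro K g hg
    rw [one_mul]
    exact hg

private theorem Lip0_transport {M N : Type} [MetricSpace M] [MetricSpace N] (p : M) (q : N)
    (e : M ≃ N) (he : ∀ x y, dist (e x) (e y) = dist x y) (hp : e p = q) :
    Iso (Lip0 M p) (Lip0 N q) := by
  have he' : ∀ x y, dist (e.symm x) (e.symm y) = dist x y := by
    intro x y
    rw [← he, e.apply_symm_apply, e.apply_symm_apply]
  have hq : e.symm q = p := by
    rw [← hp, e.symm_apply_apply]
  let T : Lip0 M p ≃ₗ[ℝ] Lip0 N q :=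
    { toFun := fun f => ⟨fun y => f.1 (e.symm y), (congrArg f.1 hq).trans f.2.1, by
        obtain ⟨K, hK⟩ := f.2.2
        exact Lip0_ex K.2 fun x y => by
          rw [← he' x y]
          exact (Lip0_lip _ _).1 hK _ _⟩
      map_add' := fun f g => rfl
      map_smul' := fun c f => rfl
      invFun := fun g => ⟨fun x => g.1 (e x), (congrArg g.1 hp).trans g.2.1, by
        obtain ⟨K, hK⟩ := g.2.2
        exact Lip0_ex K.2 fun x y => by
          rw [← he x y]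
          exact (Lip0_lip _ _).1 hK _ _⟩
      left_inv := fun f => by
        apply Subtype.ext
        funext x
        exact congrArg f.1 (e.symm_apply_apply x)
      right_inv := fun g => by
        apply Subtype.ext
        funext y
        exact congrArg g.1 (e.apply_symm_apply y) }
  refine ⟨T, 1, ?_, ?_⟩
  · intro K f hf
    rw [one_mul]
    refine ⟨hf.1, fun x y => ?_⟩
    rw [← he' x y]
    exact hf.2 _ _
  · intro K g hg
    rw [one_mul]
    refine ⟨hg.1, fun x y => ?_⟩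
    rw [← he x y]
    exact hg.2 _ _

theorem iso_plane : Iso (Lip0 (EuclideanSpace ℝ (Fin 2)) 0) (LX Set.univ o1) := by
  let e : EuclideanSpace ℝ (Fin 2) ≃ strip Set.univ :=
    { toFun := fun z => ⟨z, Set.mem_univ _⟩
      invFun := fun z => z.1
      left_inv := fun z => rfl
      right_inv := fun z => rfl }
  exact (Lip0_transport (0 : EuclideanSpace ℝ (Fin 2)) (⟨0, Set.mem_univ _⟩ : strip Set.univ) e
    (fun x y => rfl) rfl).trans (iso_strip Set.univ _ o1)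

end H50LP
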