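import Pool.Agent.H50.LP.OoBasic

/-!
MP_b365ef_an [H50 LP LOW]. The lower bound for the norm of the martingale transform `Oo K` on l_infty: at least `K / 4`.
For `i : Fin K` let `D_i` be the set of `(c, x)` with `c k = 0` for `k ≤ i`, `x k = 0` for `k < i`, `x i = 1`. These sets are disjoint (the
first index with `x ≠ 0` is `i`); `h = - ∑ i, 1_{D_i}`, so `|h| ≤ 1`. By linearity `Oo K h 0 = - ∑ i, Oo K 1_{D_i} 0`. Counting (cylinder sets:
the number of words with `m` prescribed letters is `2^(K-m)`, so `(V j).card = 2^(K-j)` for `j ≤ K`, and for `i ≥ j`: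
`#{u ∈ V j : u k = 0 for k ≤ i} = 2^(K-i-1)`, `#{v ∈ V j : v k = 0 for k < i, v i = 1} = 2^(K-i-1)`; for `i < j` the last set is empty):
`Ee m m 1_{D_i} 0 = 4^(-(i+1-m))` if `m ≤ i`, `0` if `m > i`;
`Ee (j+1) j 1_{D_i} 0 = (1/2) 4^(-(i-j))` if `j ≤ i` (for `j = i` this is `1/2`), `0` if `j > i`.
So `Oo K 1_{D_i} 0 = 4^(-(i+1)) + ∑_{j < i} (4^(-(i-j)) - (1/2) 4^(-(i-j))) - 1/2 = 4^(-(i+1)) + (1/6) (1 - 4^(-i)) - 1/2
= -1/3 + 4^(-i) / 12 ≤ -1/4`. Hence `Oo K h 0 ≥ K / 4`.
(Numerically checked for K ≤ 4.)
-/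

set_option autoImplicit false

namespace H50LP

theorem low_card {K : ℕ} (j : ℕ) (hj : j ≤ K) :
    ((V j : Finset (D K)).card : ℝ) = 2 ^ K / 2 ^ j := by
  induction j with
  | zero =>
    have h1 : (V 0 : Finset (D K)) = Finset.univ := by
      ext u
      rw [oo_mem_V]
      simp
    rw [h1, Finset.card_univ, Fintype.card_fun, ZMod.card, Fintype.card_fin]
    push_cast
    simp
  | succ j ih =>
    have ih' := ih (by omega)
    set k : Fin K := ⟨j, by omega⟩ with hk
    -- V j is the disjoint union of V (j+1) and its translate by single k 1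
    have h1 : (V j : Finset (D K)) = (V (j + 1) : Finset (D K)) ∪
        (V (j + 1) : Finset (D K)).image (fun u => Pi.single k 1 + u) := by
      ext u
      rw [Finset.mem_union, Finset.mem_image, oo_mem_V, oo_mem_V]
      constructor
      · intro h
        have hvk : u k = 0 ∨ u k = 1 := by
          generalize u k = z
          revert z
          decide
        rcases hvk with hvk | hvk
        · left
          intro i hi
          by_cases hij : i.1 < j
          · exact h i hij
          · have : i = k := Fin.ext (by simp only [hk]; omega)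
            rw [this]
            exact hvk
        · right
          refine ⟨Pi.single k 1 + u, oo_mem_V.2 fun i hi => ?_, ?_⟩
          · rw [Pi.add_apply]
            by_cases hij : i.1 < j
            · have hne : i ≠ k := fun h => by
                rw [h] at hij
                simp only [hk] at hij
                omega
              rw [Pi.single_eq_of_ne hne, h i hij, add_zero]
            · have : i = k := Fin.ext (by simp only [hk]; omega)
              rw [this, Pi.single_eq_same, hvk]
              decide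
          · rw [← add_assoc, oo_two, zero_add]
      · rintro (h | ⟨w, hw, rfl⟩)
        · intro i hi
          exact h i (by omega)
        · intro i hi
          have hne : i ≠ k := fun h => by
            rw [h] at hi
            simp only [hk] at hi
            omega
          rw [Pi.add_apply, Pi.single_eq_of_ne hne, oo_mem_V.1 hw i (by omega), add_zero]
    have h2 : Disjoint (V (j + 1) : Finset (D K))
        ((V (j + 1) : Finset (D K)).image (fun u => Pi.single k 1 + u)) := by
      rw [Finset.disjoint_left]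
      intro u hu hu'
      rw [Finset.mem_image] at hu'
      obtain ⟨w, hw, rfl⟩ := hu'
      have e1 := oo_mem_V.1 hu k (by simp only [hk]; omega)
      have e2 := oo_mem_V.1 hw k (by simp only [hk]; omega)
      rw [Pi.add_apply, Pi.single_eq_same, e2, add_zero] at e1
      exact absurd e1 (by decide)
    have h3 : ((V j : Finset (D K)).card : ℝ) = 2 * ((V (j + 1) : Finset (D K)).card : ℝ) := by
      have h4 : (V j : Finset (D K)).card =
          (V (j + 1) : Finset (D K)).card + (V (j + 1) : Finset (D K)).card := by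
        conv_lhs => rw [h1]
        rw [Finset.card_union_of_disjoint h2,
          Finset.card_image_of_injective _ (add_right_injective _)]
      rw [h4]
      push_cast
      ring
    rw [h3] at ih'
    have e3 : (2 : ℝ) ^ K / 2 ^ (j + 1) = (2 ^ K / 2 ^ j) / 2 := by
      rw [pow_succ, div_div]
    rw [e3, ← ih']
    ring

/-- the indicator of `V (i+1) × (V i \ V (i+1))` -/
noncomputable def lowf {K : ℕ} (i : ℕ) (p : D K × D K) : ℝ :=
  (if p.1 ∈ (V (i + 1) : Finset (D K)) then 1 else 0) *
    ((if p.2 ∈ (V i : Finset (D K)) then 1 else 0) -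
      (if p.2 ∈ (V (i + 1) : Finset (D K)) then 1 else 0))

theorem low_ind {K : ℕ} (j i : ℕ) (f : D K → ℝ) (hf : ∀ u, f u = if u ∈ (V i : Finset (D K)) then 1 else 0) :
    ∑ u ∈ (V j : Finset (D K)), f u = ((V (max j i) : Finset (D K)).card : ℝ) := by
  have h1 : ∀ u ∈ (V j : Finset (D K)), f u = if u ∈ (V i : Finset (D K)) then 1 else 0 :=
    fun u _ => hf u
  rw [Finset.sum_congr rfl h1, Finset.sum_boole]
  congr 2
  ext u
  rw [Finset.mem_filter, oo_mem_V, oo_mem_V, oo_mem_V]
  constructor
  · rintro ⟨g1, g2⟩ k hk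
    rcases lt_max_iff.1 hk with h | h
    · exact g1 k h
    · exact g2 k h
  · intro g
    exact ⟨fun k hk => g k (lt_max_of_lt_left hk), fun k hk => g k (lt_max_of_lt_right hk)⟩

theorem low_Ee {K : ℕ} (j l i : ℕ) : Ee j l (lowf (K := K) i) 0 =
    ((V (max j (i + 1)) : Finset (D K)).card : ℝ) *
      (((V (max l i) : Finset (D K)).card : ℝ) - ((V (max l (i + 1)) : Finset (D K)).card : ℝ)) /
      (((V j : Finset (D K)).card : ℝ) * ((V l : Finset (D K)).card : ℝ)) := by
  rw [oo_Ee]
  congr 1
  unfold lowf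
  simp only [Prod.fst_zero, Prod.snd_zero, zero_add]
  rw [← low_ind j (i + 1) _ (fun u => rfl), ← low_ind l i _ (fun u => rfl),
    ← low_ind l (i + 1) _ (fun u => rfl), ← Finset.sum_sub_distrib, Finset.sum_mul]
  refine Finset.sum_congr rfl fun u _ => ?_
  rw [Finset.mul_sum]

theorem low_val {K : ℕ} (i : ℕ) (hi : i < K) : Oo K (lowf (K := K) i) 0 ≤ -(1 / 4) := by
  have hK : (0 : ℝ) < 2 ^ K := by positivity
  have hmm : ∀ m, m ≤ i → Ee m m (lowf (K := K) i) 0 = 4 ^ m / (4 * 4 ^ i) := by
    intro m hm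
    rw [low_Ee, max_eq_right (by omega : m ≤ i + 1), max_eq_right hm,
      low_card (i + 1) (by omega), low_card i (by omega), low_card m (by omega)]
    have e1 : (4 : ℝ) ^ m = 2 ^ m * 2 ^ m := by rw [← mul_pow]; norm_num
    have e2 : (4 : ℝ) ^ i = 2 ^ i * 2 ^ i := by rw [← mul_pow]; norm_num
    rw [e1, e2, pow_succ]
    field_simp
    ring
  have hmm0 : ∀ m, i < m → Ee m m (lowf (K := K) i) 0 = 0 := by
    intro m hm
    rw [low_Ee, max_eq_left (by omega : i ≤ m), max_eq_left (by omega : i + 1 ≤ m), sub_self,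
      mul_zero, zero_div]
  have hmj : ∀ m, m ≤ i → Ee (m + 1) m (lowf (K := K) i) 0 = 4 ^ m / (2 * 4 ^ i) := by
    intro m hm
    rw [low_Ee, max_eq_right (by omega : m + 1 ≤ i + 1), max_eq_right hm,
      max_eq_right (by omega : m ≤ i + 1),
      low_card (i + 1) (by omega), low_card i (by omega), low_card m (by omega),
      low_card (m + 1) (by omega)]
    have e1 : (4 : ℝ) ^ m = 2 ^ m * 2 ^ m := by rw [← mul_pow]; norm_num
    have e2 : (4 : ℝ) ^ i = 2 ^ i * 2 ^ i := by rw [← mul_pow]; norm_num
    rw [e1, e2, pow_succ, pow_succ]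
    field_simp
    ring
  have hmj0 : ∀ m, i < m → Ee (m + 1) m (lowf (K := K) i) 0 = 0 := by
    intro m hm
    rw [low_Ee, max_eq_left (by omega : i ≤ m), max_eq_left (by omega : i + 1 ≤ m), sub_self,
      mul_zero, zero_div]
  rw [oo_Oo]
  rw [Fin.sum_univ_eq_sum_range (fun j => Ee (j + 1) (j + 1) (lowf (K := K) i) 0 -
    Ee (j + 1) j (lowf (K := K) i) 0) K]
  have hsplit : ∑ j ∈ Finset.range K, (Ee (j + 1) (j + 1) (lowf (K := K) i) 0 -
      Ee (j + 1) j (lowf (K := K) i) 0) =
      ∑ j ∈ Finset.range (i + 1), (Ee (j + 1) (j + 1) (lowf (K := K) i) 0 -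
      Ee (j + 1) j (lowf (K := K) i) 0) := by
    symm
    refine Finset.sum_subset ?_ ?_
    · intro j hj
      rw [Finset.mem_range] at *
      omega
    · intro j _ hj
      rw [Finset.mem_range, not_lt] at hj
      rw [hmm0 (j + 1) (by omega), hmj0 j (by omega), sub_self]
  rw [hsplit, Finset.sum_range_succ, hmm0 (i + 1) (by omega), hmj i le_rfl]
  have h4 : ∑ j ∈ Finset.range i, (Ee (j + 1) (j + 1) (lowf (K := K) i) 0 -
      Ee (j + 1) j (lowf (K := K) i) 0) = ((4 : ℝ) ^ i - 1) / (6 * 4 ^ i) := by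
    have h5 : ∀ j ∈ Finset.range i, (Ee (j + 1) (j + 1) (lowf (K := K) i) 0 -
      Ee (j + 1) j (lowf (K := K) i) 0) = 4 ^ j * (1 / (2 * 4 ^ i)) := by
      intro j hj
      rw [Finset.mem_range] at hj
      rw [hmm (j + 1) (by omega), hmj j (by omega), pow_succ]
      field_simp
      ring
    rw [Finset.sum_congr rfl h5, ← Finset.sum_mul, geom_sum_eq (by norm_num)]
    field_simp
    ring
  rw [h4, hmm 0 (by omega), pow_zero]
  have hi4 : (0 : ℝ) < 4 ^ i := by positivity
  have hi41 : (1 : ℝ) ≤ 4 ^ i := one_le_pow₀ (by norm_num)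
  have e : 1 / (4 * (4 : ℝ) ^ i) + ((4 ^ i - 1) / (6 * 4 ^ i) + (0 - 4 ^ i / (2 * 4 ^ i))) =
      -(1 / 3) + 1 / (12 * 4 ^ i) := by
    field_simp
    ring
  rw [e]
  have h6 : 1 / (12 * (4 : ℝ) ^ i) ≤ 1 / 12 := by
    apply one_div_le_one_div_of_le (by norm_num)
    linarith
  linarith

theorem Oo_low (K : ℕ) : ∃ h : D K × D K → ℝ, (∀ p, |h p| ≤ 1) ∧ (K : ℝ) / 4 ≤ Oo K h 0 := by
  refine ⟨-∑ i ∈ Finset.range K, lowf (K := K) i, ?_, ?_⟩
  · intro p
    rw [Pi.neg_apply, abs_neg, Finset.sum_apply]
    have hval : ∀ i, lowf i p = 1 ∧ (p.2 ∈ (V i : Finset (D K)) ∧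
        p.2 ∉ (V (i + 1) : Finset (D K))) ∨ lowf i p = 0 := by
      intro i
      unfold lowf
      by_cases h1 : p.1 ∈ (V (i + 1) : Finset (D K))
      · by_cases h2 : p.2 ∈ (V (i + 1) : Finset (D K))
        · right
          rw [if_pos h2, if_pos (oo_mono_V (by omega : i ≤ i + 1) h2)]
          ring
        · by_cases h3 : p.2 ∈ (V i : Finset (D K))
          · left
            rw [if_pos h1, if_pos h3, if_neg h2]
            exact ⟨by ring, h3, h2⟩
          · right
            rw [if_neg h2, if_neg h3]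
            ring
      · right
        rw [if_neg h1]
        ring
    by_cases hex : ∃ i ∈ Finset.range K, lowf i p ≠ 0
    · obtain ⟨i, hi, hne⟩ := hex
      have hi1 : lowf i p = 1 ∧ (p.2 ∈ (V i : Finset (D K)) ∧
        p.2 ∉ (V (i + 1) : Finset (D K))) := by
        rcases hval i with h | h
        · exact h
        · exact absurd h hne
      rw [Finset.sum_eq_single i]
      · rw [hi1.1]
        simp
      · intro j _ hji
        rcases hval j with h | h
        · exfalso
          rcases lt_or_gt_of_ne hji with h1 | h1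
          · exact h.2.2 (oo_mono_V (by omega : j + 1 ≤ i) hi1.2.1)
          · exact hi1.2.2 (oo_mono_V (by omega : i + 1 ≤ j) h.2.1)
        · exact h
      · intro h
        exact absurd hi h
    · push Not at hex
      rw [Finset.sum_eq_zero hex]
      simp
  · rw [map_neg, map_sum, Pi.neg_apply, Finset.sum_apply]
    have h1 : ∑ i ∈ Finset.range K, Oo K (lowf (K := K) i) 0 ≤
        ∑ i ∈ Finset.range K, (-(1 / 4) : ℝ) :=
      Finset.sum_le_sum fun i hi => low_val i (Finset.mem_range.1 hi)
    rw [Finset.sum_const, Finset.card_range, nsmul_eq_mul] at h1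
    linarith

end H50LP
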