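import Pool.Agent.H50.LP.Emb
import Pool.Agent.H50.LP.Avg
import Pool.Agent.H50.LP.Low
import Pool.Agent.H50.LP.HahnB
import Pool.Agent.H50.LP.CplBasic

/-!
MP_b365ef_an [H50 LP NISO]. If `A` is fat then `LX A a0` is not isomorphic (not even complemented) in `ℓ_∞`.
Proof. Let `j : LX → Ell`, `q : Ell → LX`, `q ∘ j = id`, both bounded by `C`; replace `C` by `max C 0`. Take `K : ℕ` with `K / 4 > 8 C²` and `J, P` from `emb`. `T = j ∘ J` on
`E = Tri K`: `bd (C * (4 M)) (T g)`. `hahnB`: `S : (D K × D K → ℝ) → Ell` extending `T` with constant `4 C`. `Q = P ∘ q ∘ S` as a linear map on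
`D K × D K → ℝ`: `Q f ∈ Tri K`, `Q g = P (q (j (J g))) = P (J g) = g` for `g ∈ Tri K`, and `|Q f| ≤ 2 (C (4 C M)) = 8 C² M` if `|f| ≤ M` (then `M ≥ 0` since the group is
nonempty). `avg_projection` with `G = D K × D K` (`g + g = 0` in characteristic 2: `CharTwo.add_self_eq_zero` coordinatewise), `E = Tri K`, `O = Oo K` (`Tri_trans`,
`Oo_mem`, `Oo_id`, `Oo_trans`): `|Oo K h 0| ≤ 8 C²` for the `h` of `Oo_low`, contradiction to `K / 4 ≤ Oo K h 0`.
-/

set_option autoImplicit false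

namespace H50LP

theorem not_cpl (A : Set ℝ) (a0 : A) (hA : ∀ K, Fat 2 K A) (C : ℝ) : ¬ Cpl C (LX A a0) Ell := by
  rintro ⟨j, q, hqj, hj, hq⟩
  set C' : ℝ := max C 0 with hC'
  have hC0 : 0 ≤ C' := le_max_right _ _
  have hj' : Bdd C' j := hj.mono (le_max_left _ _)
  have hq' : Bdd C' q := hq.mono (le_max_left _ _)
  obtain ⟨K, hK⟩ := exists_nat_gt (32 * C' ^ 2)
  obtain ⟨J, P, hP, hPJ, hJb, hPb⟩ := emb A a0 hA K
  obtain ⟨S, hS1, hS2⟩ := hahnB (Tri K) (j.comp J) (4 * C') (by positivity) (by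
    intro f M hM hf
    have h1 := hJb f M hM hf
    have h2 := hj' _ _ h1
    exact BD.mono h2 (le_of_eq (by ring)))
  have hQb : ∀ (f : D K × D K → ℝ) (M : ℝ), (∀ g, |f g| ≤ M) →
      ∀ g, |(P.comp (q.comp S)) f g| ≤ (8 * C' ^ 2) * M := by
    intro f M hf g
    have hM : 0 ≤ M := (abs_nonneg _).trans (hf 0)
    have h1 := hS2 f M hM hf
    have h2 := hq' _ _ h1
    have h3 := hPb _ _ h2 g
    refine h3.trans (le_of_eq ?_)
    ring
  have key := avg_projection (G := D K × D K) (by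
      intro g
      ext i
      · show g.1 i + g.1 i = 0
        exact CharTwo.add_self_eq_zero _
      · show g.2 i + g.2 i = 0
        exact CharTwo.add_self_eq_zero _) (Tri K) (fun f hf t => Tri_trans f hf t)
    (P.comp (q.comp S)) (Oo K) (fun f => hP _) (by
      intro f hf
      show P (q (S f)) = f
      rw [hS1 ⟨f, hf⟩]
      show P (q (j (J ⟨f, hf⟩))) = f
      rw [hqj, hPJ]) (fun f => Oo_mem f) (fun f hf => Oo_id f hf) (fun f t => Oo_trans f t)
    (8 * C' ^ 2) hQb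
  obtain ⟨h, hh1, hh2⟩ := Oo_low K
  have h3 := key h 1 hh1 0
  have h4 := le_abs_self (Oo K h 0)
  linarith

end H50LP
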