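import Pool.Agent.H50.LP.CplBasic

/-!
MP_b365ef_an [H50 LP PLACE]. Placing countably many local spaces at disjoint places of the x-axis.
Proof. `T i = ∑ n ∈ Finset.range (e i), L (e.symm n)`; `T i + L i = T i'` if `e i' = e i + 1`; so the open intervals `(T i, T i + L i)` are pairwise
disjoint (for `e i < e i'`: `T i + L i ≤ T i'`, monotone sums) and `T i ≥ 0`. For `v` in the l_infty sum with all `bd K (v i)`:
`J v x a = ∑ᶠ i, J i (v i) (x - T i) a`: for given `x` at most one `i` has a nonzero term (`hs`), so the finsum is that term (or `0`); linear.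
Lipschitz in `x`: only the at most two indices belonging to `x` and `x'` contribute and each term is `C K`-Lipschitz: `2 C K`. In `a`: one term, `C K`.
`J v 0 a0 = 0` because `0 - T i ≤ 0`. Membership in `LX` clear. `P f = (i ↦ P i (fun x a => f (x + T i) a))`, `bd (C K)` by `hP` (a translate of a
function with `lipB K` has `lipB K`). `P (J v) i = v i`: for `x ∈ [0, L i]` the function `J v (x + T i) a` equals `J i (v i) x a` (the terms of the other
indices vanish on the closed interval `[T i, T i + L i]` by `hs` and disjointness), so `hPl` and `hPJ`.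
Use e.g. the explicit formula with `if h : ∃ i, T i < x ∧ x < T i + L i then J _ (v h.choose) (x - T h.choose) a else 0` if the finsum is
inconvenient.
-/

set_option autoImplicit false

namespace H50LP

private noncomputable def plT {ι : Type} (e : ι ≃ ℕ) (L : ι → ℝ) (i : ι) : ℝ :=
  ∑ n ∈ Finset.range (e i), L (e.symm n)

private theorem plT_nonneg {ι : Type} (e : ι ≃ ℕ) {L : ι → ℝ} (hL : ∀ i, 1 ≤ L i) (i : ι) :
    0 ≤ plT e L i :=
  Finset.sum_nonneg fun n _ => zero_le_one.trans (hL (e.symm n))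

private theorem plT_lt {ι : Type} (e : ι ≃ ℕ) {L : ι → ℝ} (hL : ∀ i, 1 ≤ L i) {i j : ι}
    (h : e i < e j) : plT e L i + L i ≤ plT e L j := by
  have h1 : plT e L i + L i = ∑ n ∈ Finset.range (e i + 1), L (e.symm n) := by
    rw [Finset.sum_range_succ, e.symm_apply_apply]
    rfl
  rw [h1]
  refine Finset.sum_le_sum_of_subset_of_nonneg ?_ fun n _ _ => zero_le_one.trans (hL (e.symm n))
  intro n hn
  rw [Finset.mem_range] at hn ⊢
  omega

private theorem plT_uniq {ι : Type} (e : ι ≃ ℕ) {L : ι → ℝ} (hL : ∀ i, 1 ≤ L i) {i j : ι} {x : ℝ}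
    (h1 : plT e L i ≤ x) (h2 : x ≤ plT e L i + L i) (h3 : plT e L j < x)
    (h4 : x < plT e L j + L j) : j = i := by
  rcases lt_trichotomy (e i) (e j) with h | h | h
  · have := plT_lt e hL h
    linarith
  · exact (e.injective h).symm
  · have := plT_lt e hL h
    linarith

open Classical in
private noncomputable def plJ {ι : Type} (e : ι ≃ ℕ) {V : ι → Type} [∀ i, AddCommGroup (V i)]
    [∀ i, Module ℝ (V i)] {A : Set ℝ} (L : ι → ℝ) (J : ∀ i, V i →ₗ[ℝ] (ℝ → A → ℝ))
    (v : ∀ i, V i) (x : ℝ) (a : A) : ℝ :=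
  if h : ∃ i, plT e L i < x ∧ x < plT e L i + L i then
    J h.choose (v h.choose) (x - plT e L h.choose) a else 0

section
variable {ι : Type} (e : ι ≃ ℕ) {V : ι → Type} [∀ i, AddCommGroup (V i)]
    [∀ i, Module ℝ (V i)] [∀ i, BD (V i)] {A : Set ℝ} {L : ι → ℝ}
    {J : ∀ i, V i →ₗ[ℝ] (ℝ → A → ℝ)}

omit [∀ i, BD (V i)] in
private theorem plJ_val (hL : ∀ i, 1 ≤ L i)
    (hs : ∀ i (v : V i) (x : ℝ) (a : A), (x ≤ 0 ∨ L i ≤ x) → J i v x a = 0)
    (v : ∀ i, V i) (i : ι) {x : ℝ} (h1 : plT e L i ≤ x) (h2 : x ≤ plT e L i + L i) (a : A) :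
    plJ e L J v x a = J i (v i) (x - plT e L i) a := by
  unfold plJ
  split_ifs with h
  · have h3 := h.choose_spec
    have h4 : h.choose = i := plT_uniq e hL h1 h2 h3.1 h3.2
    rw [h4]
  · refine (hs i (v i) _ a ?_).symm
    by_contra hcon
    push Not at hcon
    exact h ⟨i, by linarith [hcon.1], by linarith [hcon.2]⟩

omit [∀ i, BD (V i)] in
private theorem plJ_out (v : ∀ i, V i) {x : ℝ}
    (h : ¬ ∃ i, plT e L i < x ∧ x < plT e L i + L i) (a : A) : plJ e L J v x a = 0 := by
  unfold plJ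
  rw [dif_neg h]

private theorem plJ_lip (hL : ∀ i, 1 ≤ L i) {C : ℝ} (hC : 0 ≤ C)
    (hJ : ∀ i (v : V i) (K : ℝ), bd K v → lipB (C * K) (J i v))
    (hs : ∀ i (v : V i) (x : ℝ) (a : A), (x ≤ 0 ∨ L i ≤ x) → J i v x a = 0)
    (v : ∀ i, V i) {K : ℝ} (hK : 0 ≤ K) (hv : ∀ i, bd K (v i)) :
    lipB (2 * C * K) (plJ e L J v) := by
  have hCK : 0 ≤ C * K := mul_nonneg hC hK
  refine ⟨by nlinarith, fun x x' a => ?_, fun x a a' => ?_⟩
  · have hb : ∀ x x' : ℝ, (∃ i, (plT e L i < x ∧ x < plT e L i + L i) ∧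
        (plT e L i < x' ∧ x' < plT e L i + L i)) ∨ |plJ e L J v x a| ≤ C * K * |x - x'| := by
      intro x x'
      by_cases h : ∃ i, plT e L i < x ∧ x < plT e L i + L i
      · obtain ⟨i, hi⟩ := h
        by_cases h' : plT e L i < x' ∧ x' < plT e L i + L i
        · exact Or.inl ⟨i, hi, h'⟩
        · right
          rw [plJ_val e hL hs v i hi.1.le hi.2.le]
          have h0 : J i (v i) (x' - plT e L i) a = 0 := by
            refine hs i (v i) _ a ?_
            by_contra hcon
            push Not at hcon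
            exact h' ⟨by linarith [hcon.1], by linarith [hcon.2]⟩
          have h1 := (hJ i (v i) K (hv i)).2.1 (x - plT e L i) (x' - plT e L i) a
          rw [h0, sub_zero] at h1
          have h2 : x - plT e L i - (x' - plT e L i) = x - x' := by ring
          rw [h2] at h1
          exact h1
      · right
        rw [plJ_out e v h, abs_zero]
        positivity
    have hnn : 0 ≤ C * K * |x - x'| := by positivity
    rcases hb x x' with h | h
    · obtain ⟨i, hi, hi'⟩ := h
      rw [plJ_val e hL hs v i hi.1.le hi.2.le, plJ_val e hL hs v i hi'.1.le hi'.2.le]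
      have h1 := (hJ i (v i) K (hv i)).2.1 (x - plT e L i) (x' - plT e L i) a
      have h2 : x - plT e L i - (x' - plT e L i) = x - x' := by ring
      rw [h2] at h1
      nlinarith
    · rcases hb x' x with h' | h'
      · obtain ⟨i, hi, hi'⟩ := h'
        rw [plJ_val e hL hs v i hi.1.le hi.2.le, plJ_val e hL hs v i hi'.1.le hi'.2.le]
        have h1 := (hJ i (v i) K (hv i)).2.1 (x - plT e L i) (x' - plT e L i) a
        have h2 : x - plT e L i - (x' - plT e L i) = x - x' := by ring
        rw [h2] at h1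
        nlinarith
      · rw [abs_sub_comm x' x] at h'
        calc |plJ e L J v x a - plJ e L J v x' a| ≤ |plJ e L J v x a| + |plJ e L J v x' a| :=
              abs_sub _ _
          _ ≤ 2 * C * K * |x - x'| := by linarith
  · by_cases h : ∃ i, plT e L i < x ∧ x < plT e L i + L i
    · obtain ⟨i, hi⟩ := h
      rw [plJ_val e hL hs v i hi.1.le hi.2.le, plJ_val e hL hs v i hi.1.le hi.2.le]
      have h1 := (hJ i (v i) K (hv i)).2.2 (x - plT e L i) a a'
      have hnn : 0 ≤ C * K * |(a : ℝ) - a'| := by positivity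
      nlinarith
    · rw [plJ_out e v h, plJ_out e v h, sub_zero, abs_zero]
      positivity

end

theorem place {ι : Type} (e : ι ≃ ℕ) (V : ι → Type) [∀ i, AddCommGroup (V i)]
    [∀ i, Module ℝ (V i)] [∀ i, BD (V i)] (A : Set ℝ) (a0 : A) (L : ι → ℝ) (hL : ∀ i, 1 ≤ L i)
    (C : ℝ) (hC : 0 ≤ C) (J : ∀ i, V i →ₗ[ℝ] (ℝ → A → ℝ)) (P : ∀ i, (ℝ → A → ℝ) →ₗ[ℝ] V i)
    (hJ : ∀ i (v : V i) (K : ℝ), bd K v → lipB (C * K) (J i v))
    (hs : ∀ i (v : V i) (x : ℝ) (a : A), (x ≤ 0 ∨ L i ≤ x) → J i v x a = 0)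
    (hP : ∀ i (f : ℝ → A → ℝ) (K : ℝ), lipB K f → bd (C * K) (P i f))
    (hPJ : ∀ i (v : V i), P i (J i v) = v)
    (hPl : ∀ i (f g : ℝ → A → ℝ), (∀ x ∈ Set.Icc 0 (L i), ∀ a, f x a = g x a) →
      P i f = P i g) : Cpl (2 * C) (Linf ι V) (LX A a0) := by
  have hzero : ∀ v : ∀ i, V i, plJ e L J v 0 a0 = 0 := by
    intro v
    refine plJ_out e v ?_ a0
    rintro ⟨i, hi, _⟩
    linarith [plT_nonneg e hL i]
  let J' : Linf ι V →ₗ[ℝ] LX A a0 :=
    { toFun := fun v => ⟨plJ e L J v.1, hzero v.1, by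
        obtain ⟨K, hK, hv⟩ := v.2
        exact ⟨2 * C * K, plJ_lip e hL hC hJ hs v.1 hK hv⟩⟩
      map_add' := by
        intro v w
        apply Subtype.ext
        funext x a
        show plJ e L J (v.1 + w.1) x a = plJ e L J v.1 x a + plJ e L J w.1 x a
        unfold plJ
        split_ifs with h
        · rw [Pi.add_apply, map_add]
          rfl
        · rw [add_zero]
      map_smul' := by
        intro c v
        apply Subtype.ext
        funext x a
        show plJ e L J (c • v.1) x a = c * plJ e L J v.1 x a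
        unfold plJ
        split_ifs with h
        · rw [Pi.smul_apply, map_smul]
          rfl
        · rw [mul_zero] }
  have hshift : ∀ (t : ℝ) (f : ℝ → A → ℝ) (K : ℝ), lipB K f →
      lipB K (fun x a => f (x + t) a) := by
    intro t f K hf
    refine ⟨hf.1, fun x x' a => ?_, fun x a a' => hf.2.2 (x + t) a a'⟩
    have h1 := hf.2.1 (x + t) (x' + t) a
    have h2 : x + t - (x' + t) = x - x' := by ring
    rw [h2] at h1
    exact h1
  let P' : LX A a0 →ₗ[ℝ] Linf ι V :=
    { toFun := fun f => ⟨fun i => P i (fun x a => f.1 (x + plT e L i) a), by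
        obtain ⟨K, hK⟩ := f.2.2
        exact ⟨C * K, mul_nonneg hC hK.1, fun i => hP i _ K (hshift _ _ _ hK)⟩⟩
      map_add' := by
        intro f g
        apply Subtype.ext
        funext i
        show P i (fun x a => (f + g).1 (x + plT e L i) a) =
          P i (fun x a => f.1 (x + plT e L i) a) + P i (fun x a => g.1 (x + plT e L i) a)
        rw [← map_add]
        rfl
      map_smul' := by
        intro c f
        apply Subtype.ext
        funext i
        show P i (fun x a => (c • f).1 (x + plT e L i) a) =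
          c • P i (fun x a => f.1 (x + plT e L i) a)
        rw [← map_smul]
        rfl }
  refine ⟨J', P', ?_, ?_, ?_⟩
  · intro v
    apply Subtype.ext
    funext i
    show P i (fun x a => plJ e L J v.1 (x + plT e L i) a) = v.1 i
    refine (hPl i _ (J i (v.1 i)) ?_).trans (hPJ i (v.1 i))
    rintro x ⟨hx0, hxL⟩ a
    rw [plJ_val e hL hs v.1 i (by linarith) (by linarith), add_sub_cancel_right]
  · intro K v hv
    exact plJ_lip e hL hC hJ hs v.1 hv.1 hv.2
  · intro K f hf
    have hf' : lipB K f.1 := hf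
    refine BD.mono (K := C * K) ?_ ?_
    · exact ⟨mul_nonneg hC hf'.1, fun i => hP i _ K (hshift _ _ _ hf')⟩
    · have := mul_nonneg hC hf'.1
      linarith

end H50LP
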