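import Pool.Agent.H50.LP.Sel

/-!
MP_b365ef_an [H50 LP UNC]. Uncountable sets, and sets with all derived sets nonempty, are `K`-fat for all `K`.
`fat_of_uncountable`: induction on `K`, for all uncountable `A`. `K = 0`: nonempty. Step: there are two different points `p < q` such that `A ∩ (p - ε, p + ε)` and
`A ∩ (q - ε, q + ε)` are uncountable for all `ε > 0`: the set of `x ∈ A` which have a neighbourhood `U` with `A ∩ U` countable is countable (second countable
space: choose `U` from a countable basis; in Mathlib e.g. `Set.countable_of_isolated_...` or a direct argument with `TopologicalSpace.countableBasis`), so its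
complement in `A` is uncountable, in particular has two points. Put `ε = |p - q| / 8`, `r = 2 ε`, `B = A ∩ Icc (p - ε) (p + ε)`, `C = A ∩ Icc (q - ε) (q + ε)`:
`|b - c| ≥ 8 ε - 2 ε = 6 ε ≥ 2 r`, diameters `≤ 2 ε = r`, both uncountable, hence `K`-fat.
`fat_of_derived`: Claim: if `p ∈ derivedSet^[k] A` then for all `ε > 0` the set `A ∩ (p - ε, p + ε)` (closed intervals are fine) is `k`-fat, provided `A` is
closed (so that `derivedSet^[k] A ⊆ A`), or: for `k ≥ 1` it is enough that `p` is a limit. Induction on `k`: `k = 0`: `p ∈ A`. `k + 1`: `p ∈ derivedSet (derivedSet^[k] A)`, so there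
are two different points `q1, q2` of `derivedSet^[k] A` in `(p - ε/2, p + ε/2)` (an accumulation point has a point `q1 ≠ p` nearby and then `q2 ≠ p` with
`|q2 - p| < |q1 - p|`); apply the claim to `q1, q2` with a small `ε'` (`8 ε' ≤ |q1 - q2|`, `ε' ≤ ε / 2`). Note `derivedSet^[k+1] A = derivedSet (derivedSet^[k] A)`
(`Function.iterate_succ_apply'`). No closedness is needed: in the claim for `k = 0` the point `p` is in `A` by assumption.
-/

set_option autoImplicit false

namespace H50LP

private theorem unc_step {K : ℕ} {A B C : Set ℝ} {p q ε : ℝ} (hε : 0 < ε)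
    (h8 : 8 * ε ≤ |p - q|) (hBA : B ⊆ A) (hCA : C ⊆ A) (hBp : B ⊆ Set.Icc (p - ε) (p + ε))
    (hCq : C ⊆ Set.Icc (q - ε) (q + ε)) (hB : Fat 2 K B) (hC : Fat 2 K C) :
    Fat 2 (K + 1) A := by
  have hd : ∀ (x : ℝ) (D : Set ℝ), D ⊆ Set.Icc (x - ε) (x + ε) →
      ∀ b ∈ D, ∀ b' ∈ D, |b - b'| ≤ 2 * ε := by
    intro x D hD b hb b' hb'
    obtain ⟨h1, h2⟩ := hD hb
    obtain ⟨h3, h4⟩ := hD hb'
    rw [abs_le]
    constructor <;> linarith
  refine ⟨2 * ε, by positivity, B, hBA, C, hCA, hB, hC, hd p B hBp, hd q C hCq, ?_⟩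
  intro b hb c hc
  obtain ⟨h1, h2⟩ := hBp hb
  obtain ⟨h3, h4⟩ := hCq hc
  have h5 : |p - q| ≤ |b - c| + 2 * ε := by
    have e : p - q = (b - c) + ((p - b) + (c - q)) := by ring
    rw [e]
    refine (abs_add_le _ _).trans (add_le_add le_rfl ?_)
    rw [abs_le]
    constructor <;> linarith
  linarith

private theorem unc_two {A : Set ℝ} (h : ¬ A.Countable) : ∃ p q : ℝ, p ≠ q ∧
    (∀ ε > 0, ¬ (A ∩ Set.Icc (p - ε) (p + ε)).Countable) ∧
    (∀ ε > 0, ¬ (A ∩ Set.Icc (q - ε) (q + ε)).Countable) := by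
  set S : Set ℝ := {x | x ∈ A ∧ ∃ ε > 0, (A ∩ Set.Icc (x - ε) (x + ε)).Countable} with hS
  have hSc : S.Countable := by
    have h1 : (⋃ U ∈ {U ∈ TopologicalSpace.countableBasis ℝ | (A ∩ U).Countable},
        (A ∩ U)).Countable := by
      refine Set.Countable.biUnion ?_ fun U hU => hU.2
      exact (TopologicalSpace.countable_countableBasis ℝ).mono (fun U hU => hU.1)
    refine h1.mono fun x hx => ?_
    obtain ⟨hxA, ε, hε, hc⟩ := hx
    obtain ⟨U, hU, hxU, hUb⟩ := (TopologicalSpace.isBasis_countableBasis ℝ).exists_subset_of_mem_open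
      (Metric.mem_ball_self hε : x ∈ Metric.ball x ε) Metric.isOpen_ball
    have hUc : (A ∩ U).Countable := by
      refine hc.mono (Set.inter_subset_inter_right A (hUb.trans ?_))
      rw [← Real.closedBall_eq_Icc]
      exact Metric.ball_subset_closedBall
    have hUm : U ∈ {U ∈ TopologicalSpace.countableBasis ℝ | (A ∩ U).Countable} := ⟨hU, hUc⟩
    exact Set.mem_biUnion hUm ⟨hxA, hxU⟩
  have hN : (A \ S).Nontrivial := by
    rw [← Set.not_subsingleton_iff]
    intro hs
    refine h ((hSc.union hs.countable).mono fun x hx => ?_)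
    by_cases hxS : x ∈ S
    · exact Or.inl hxS
    · exact Or.inr ⟨hx, hxS⟩
  obtain ⟨p, hp, q, hq, hpq⟩ := hN
  refine ⟨p, q, hpq, fun ε hε hc => hp.2 ⟨hp.1, ε, hε, hc⟩, fun ε hε hc => hq.2 ⟨hq.1, ε, hε, hc⟩⟩

theorem fat_of_uncountable (K : ℕ) (A : Set ℝ) (h : ¬ A.Countable) : Fat 2 K A := by
  induction K generalizing A with
  | zero =>
    rcases A.eq_empty_or_nonempty with rfl | hA
    · exact absurd Set.countable_empty h
    · exact hA
  | succ K ih =>
    obtain ⟨p, q, hpq, hp, hq⟩ := unc_two h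
    have hε : 0 < |p - q| / 8 := by
      have : 0 < |p - q| := abs_pos.2 (sub_ne_zero.2 hpq)
      positivity
    exact unc_step hε (by linarith) Set.inter_subset_left Set.inter_subset_left
      Set.inter_subset_right Set.inter_subset_right (ih _ (hp _ hε)) (ih _ (hq _ hε))

theorem fat_of_derived (A : Set ℝ) (h : ∀ k, (derivedSet^[k] A).Nonempty) (K : ℕ) :
    Fat 2 K A := by
  have key : ∀ k : ℕ, ∀ p ∈ derivedSet^[k] A, ∀ ε > 0,
      Fat 2 k (A ∩ Set.Icc (p - ε) (p + ε)) := by
    intro k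
    induction k with
    | zero =>
      intro p hp ε hε
      exact ⟨p, hp, by linarith, by linarith⟩
    | succ k ih =>
      intro p hp ε hε
      rw [Function.iterate_succ_apply'] at hp
      have hacc : AccPt p (Filter.principal (derivedSet^[k] A)) := hp
      rw [accPt_iff_nhds] at hacc
      obtain ⟨q1, ⟨hq1, hq1m⟩, hq1p⟩ := hacc (Metric.ball p (ε / 2))
        (Metric.ball_mem_nhds p (by positivity))
      have hq1' : 0 < |q1 - p| := abs_pos.2 (sub_ne_zero.2 hq1p)
      obtain ⟨q2, ⟨hq2, hq2m⟩, hq2p⟩ := hacc (Metric.ball p |q1 - p|)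
        (Metric.ball_mem_nhds p hq1')
      rw [Metric.mem_ball, Real.dist_eq] at hq1 hq2
      have h12 : q1 ≠ q2 := by
        intro h
        rw [h] at hq2
        exact lt_irrefl _ hq2
      have h12' : 0 < |q1 - q2| := abs_pos.2 (sub_ne_zero.2 h12)
      have hε' : 0 < min (|q1 - q2| / 8) (ε / 2) := by positivity
      have hle1 := min_le_left (|q1 - q2| / 8) (ε / 2)
      have hle2 := min_le_right (|q1 - q2| / 8) (ε / 2)
      have hsub : ∀ q : ℝ, |q - p| < ε / 2 →
          Set.Icc (q - min (|q1 - q2| / 8) (ε / 2)) (q + min (|q1 - q2| / 8) (ε / 2)) ⊆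
            Set.Icc (p - ε) (p + ε) := by
        intro q hq x hx
        rw [abs_lt] at hq
        obtain ⟨h1, h2⟩ := hx
        constructor <;> linarith [hq.1, hq.2]
      exact unc_step hε' (by linarith)
        (Set.inter_subset_inter_right A (hsub q1 hq1))
        (Set.inter_subset_inter_right A (hsub q2 (hq2.trans hq1)))
        Set.inter_subset_right Set.inter_subset_right (ih q1 hq1m _ hε') (ih q2 hq2m _ hε')
  obtain ⟨p, hp⟩ := h K
  have h1 := key K p hp 1 one_pos
  have hmono : ∀ (k : ℕ) (B C : Set ℝ), B ⊆ C → Fat 2 k B → Fat 2 k C := by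
    intro k B C hBC hB
    cases k with
    | zero => exact Set.Nonempty.mono hBC hB
    | succ k =>
      obtain ⟨r, hr, B1, hB1, B2, hB2, h⟩ := hB
      exact ⟨r, hr, B1, hB1.trans hBC, B2, hB2.trans hBC, h⟩
  exact hmono K _ _ Set.inter_subset_left h1

end H50LP
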