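import Pool.Agent.H50.LP.Fin1
import Pool.Agent.H50.LP.Fin3
import Pool.Agent.H50.LP.NotIso
import Pool.Agent.H50.LP.Unc
import Pool.Agent.H50.LP.Lip0

/-!
MP_b365ef_an, Lip_0(R x A): the final theorem (draft of the hand-in, by the architect).
-/

set_option autoImplicit false

namespace H50LP

theorem final (A : Set ℝ) (p : strip A) :
    (LipIso (strip A) ℝ p 0 ↔ ∃ K, ¬ Fat 2 K A) ∧
    (¬ A.Countable → ¬ LipIso (strip A) ℝ p 0) ∧
    ((∀ k, (derivedSet^[k] A).Nonempty) → ¬ LipIso (strip A) ℝ p 0) ∧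
    (HasAP A → LipIso (strip A) (EuclideanSpace ℝ (Fin 2)) p 0) := by
  have a0 : A := ⟨p.1 1, p.2⟩
  have h1 : LipIso (strip A) ℝ p 0 ↔ ∃ K, ¬ Fat 2 K A := by
    constructor
    · intro h
      by_contra hA
      push Not at hA
      have h2 : Iso (LX A a0) Ell :=
        (iso_strip A p a0).symm.trans (((lipIso_iff _ _ _ _).1 h).trans
          (iso_line.trans iso_L1_ell))
      obtain ⟨C, -, hC⟩ := h2.cpl
      exact not_cpl A a0 hA C hC
    · rintro ⟨K, hK⟩
      exact (lipIso_iff _ _ _ _).2 ((iso_strip A p a0).trans ((iso_LX_ell A a0 K hK).trans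
        (iso_line.trans iso_L1_ell).symm))
  refine ⟨h1, fun hA h => ?_, fun hA h => ?_, fun hA => ?_⟩
  · obtain ⟨K, hK⟩ := h1.1 h
    exact hK (fat_of_uncountable K A hA)
  · obtain ⟨K, hK⟩ := h1.1 h
    exact hK (fat_of_derived A hA K)
  · exact (lipIso_iff _ _ _ _).2 ((iso_strip A p a0).trans ((iso_LX_univ A a0 hA).trans
      iso_plane.symm))

end H50LP
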