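import Pool.Agent.H50.LP.Dig

/-!
MP_b365ef_an, Lip_0(R x A): tree data (definitions, by the architect). `a s` are the points of the tree, `δ 2^(N j s)` the scale of the node
`(s_0, ..., s_(j-1))`, `δ 2^n` a top scale.
-/

set_option autoImplicit false

namespace H50LP

structure TData (ε δ : ℝ) (K n : ℕ) (A : Set ℝ) (a : D K → A) (N : Fin K → D K → ℕ) : Prop where
  dpos : 0 < δ
  dep : ∀ (k : Fin K) (s s' : D K), (∀ i : Fin K, i < k → s i = s' i) → N k s = N k s'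
  dec : ∀ s : D K, StrictAnti fun k => N k s
  top : ∀ (k : Fin K) (s : D K), N k s < n
  low : ∀ (j : Fin K) (s s' : D K), (∀ i : Fin K, i < j → s i = s' i) → s j ≠ s' j →
    δ * 2 ^ (N j s) ≤ |(a s : ℝ) - a s'|
  upp : ∀ (j : Fin K) (s s' : D K), (∀ i : Fin K, i ≤ j → s i = s' i) →
    |(a s : ℝ) - a s'| ≤ ε * (δ * 2 ^ (N j s))
  all : ∀ s s' : D K, |(a s : ℝ) - a s'| ≤ ε * (δ * 2 ^ n)

/-- The function with increments `g (s, digits)`. -/
def Fg {K : ℕ} (N : Fin K → D K → ℕ) (g : D K × D K → ℝ) (s : D K) (m : ℕ) : ℝ :=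
  ∑ i ∈ Finset.range m, g (s, dg (fun k => N k s) i)

/-- The average of the increments over the digit classes. -/
noncomputable def Gf {K : ℕ} (N : Fin K → D K → ℕ) (n : ℕ) (f : D K → ℕ → ℝ) :
    D K × D K → ℝ := fun p =>
  (∑ i ∈ (Finset.range (2 ^ n)).filter (fun i => dg (fun k => N k p.1) i = p.2),
    (f p.1 (i + 1) - f p.1 i)) * 2 ^ K / 2 ^ n

end H50LP
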