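import Pool.Agent.H50.LP.Defs

/-!
MP_b365ef_an [H50 LP ULIM]. A generalised limit for bounded sequences (ultrafilter limit).
Proof. Let `U = Filter.hyperfilter ℕ` (a free ultrafilter, `U ≤ Filter.cofinite = atTop` by `Filter.hyperfilter_le_cofinite`,
`Nat.cofinite_eq_atTop`). For a bounded sequence `u` (`|u n| ≤ B`) the ultrafilter `U.map u` contains the compact set
`Set.Icc (-B) B`, so it converges (`IsCompact.ultrafilter_le_nhds`): there is `l` with `Tendsto u U (𝓝 l)`. Put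
`Lim u = limUnder U u` (`Filter.Tendsto.limUnder_eq`), then for bounded `u` we have `Tendsto u U (𝓝 (Lim u))`. Additivity and
homogeneity by `Tendsto.add`, `Tendsto.const_mul` and uniqueness of limits (`tendsto_nhds_unique`; `U` is `NeBot`);
`Tendsto u atTop (𝓝 l)` implies `Tendsto u U (𝓝 l)`. Last claim: if `|u n| ≤ K + ε` eventually for every `ε > 0` then `u` is
bounded?? (the hypothesis `∃ B, ∀ n, |u n| ≤ B` is included) and `|Lim u| ≤ K + ε` by `le_of_tendsto` for `|u|`, for all `ε`.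
-/

set_option autoImplicit false

namespace H50LP

private theorem ulim_key (u : ℕ → ℝ) (h : ∃ B, ∀ n, |u n| ≤ B) :
    Filter.Tendsto u (Filter.hyperfilter ℕ : Filter ℕ)
      (nhds (Filter.limUnder (Filter.hyperfilter ℕ : Filter ℕ) u)) := by
  obtain ⟨B, hB⟩ := h
  obtain ⟨x, -, hx⟩ := (isCompact_Icc (a := -B) (b := B)).ultrafilter_le_nhds
    ((Filter.hyperfilter ℕ).map u) (by
      rw [Filter.le_principal_iff]
      show u ⁻¹' Set.Icc (-B) B ∈ (Filter.hyperfilter ℕ : Filter ℕ)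
      exact Filter.Eventually.of_forall fun n => abs_le.1 (hB n))
  have h1 : Filter.Tendsto u (Filter.hyperfilter ℕ : Filter ℕ) (nhds x) := hx
  rw [h1.limUnder_eq]
  exact h1

theorem exists_ulim : ∃ Lim : (ℕ → ℝ) → ℝ,
    (∀ u v : ℕ → ℝ, (∃ B, ∀ n, |u n| ≤ B) → (∃ B, ∀ n, |v n| ≤ B) →
      Lim (fun n => u n + v n) = Lim u + Lim v) ∧
    (∀ (c : ℝ) (u : ℕ → ℝ), (∃ B, ∀ n, |u n| ≤ B) → Lim (fun n => c * u n) = c * Lim u) ∧
    (∀ (u : ℕ → ℝ) (l : ℝ), Filter.Tendsto u Filter.atTop (nhds l) → Lim u = l) ∧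
    (∀ (u : ℕ → ℝ) (K : ℝ), (∃ B, ∀ n, |u n| ≤ B) →
      (∀ ε > 0, ∀ᶠ n in Filter.atTop, |u n| ≤ K + ε) → |Lim u| ≤ K) := by
  have hle : (Filter.hyperfilter ℕ : Filter ℕ) ≤ Filter.atTop := by
    have h := Filter.hyperfilter_le_cofinite (α := ℕ)
    rwa [Nat.cofinite_eq_atTop] at h
  refine ⟨fun u => Filter.limUnder (Filter.hyperfilter ℕ : Filter ℕ) u, ?_, ?_, ?_, ?_⟩
  · intro u v hu hv
    exact ((ulim_key u hu).add (ulim_key v hv)).limUnder_eq
  · intro c u hu
    exact ((ulim_key u hu).const_mul c).limUnder_eq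
  · intro u l h
    exact (h.mono_left hle).limUnder_eq
  · intro u K hu h
    refine le_of_forall_pos_le_add fun ε hε => ?_
    exact le_of_tendsto (ulim_key u hu).abs (hle (h ε hε))

end H50LP
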