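import Pool.Agent.H50.LP.Defs

/-!
MP_b365ef_an [H50 LP WHIT]. Whitney decomposition of the line minus a point, ratio `q = 21/20`, with a partition of unity.
For `i = (j, s) ∈ ℤ × Bool` let `σ = 1` or `-1` according to `s`, `c i = q^(j-1)` (zpow),
`W i = {y | q^(j-1) ≤ σ (y - b0) ≤ q^(j+1)}` and `φ i y = hat_j (σ (y - b0))` with
`hat_j t = max 0 (min ((t - q^(j-1)) / (q^j - q^(j-1))) ((q^(j+1) - t) / (q^(j+1) - q^j)))`.
On `W i`: `c ≤ |y - b0| ≤ q² c ≤ 2 c`, and `|y - y'| ≤ (q² - 1) c = (41/400) c ≤ c / 8`. `hat_j` has values in `[0, 1]`, vanishes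
outside `[q^(j-1), q^(j+1)]`, and has Lipschitz constant `1 / (q^j - q^(j-1)) = 20 / c` (the other slope is smaller); a max / min of
`L`-Lipschitz functions is `L`-Lipschitz (`|max 0 u - max 0 v| ≤ |u - v|`, `abs_min_sub_min_le_max`). Partition of unity: let `y ≠ b0`,
`s` the sign, `t = |y - b0| > 0`; there is a unique `j` with `q^j ≤ t < q^(j+1)` (`exists_mem_Ico_zpow`); then
`hat_j t = (q^(j+1) - t) / (q^(j+1) - q^j)`, `hat_(j+1) t = (t - q^j) / (q^(j+1) - q^j)`, sum 1, and all other `φ i y` vanish
(for `j' ≥ j + 2`: `t < q^(j+1) ≤ q^(j'-1)`; for `j' ≤ j - 1`: `t ≥ q^j ≥ q^(j'+1)`; for the other sign: `σ (y - b0) < 0`).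
So `s = {(j, s), (j+1, s)}`. For `y = b0` all `φ i b0` vanish, take `s = ∅`.
-/

set_option autoImplicit false

namespace H50LP

/-- The properties of the Whitney data used below. -/
structure Whitney (b0 : ℝ) (W : ℤ × Bool → Set ℝ) (c : ℤ × Bool → ℝ)
    (φ : ℤ × Bool → ℝ → ℝ) : Prop where
  cpos : ∀ i, 0 < c i
  low : ∀ i, ∀ y ∈ W i, c i ≤ |y - b0|
  upp : ∀ i, ∀ y ∈ W i, |y - b0| ≤ 2 * c i
  diam : ∀ i, ∀ y ∈ W i, ∀ y' ∈ W i, |y - y'| ≤ c i / 8
  nonneg : ∀ i y, 0 ≤ φ i y
  le_one : ∀ i y, φ i y ≤ 1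
  supp : ∀ i y, y ∉ W i → φ i y = 0
  lip : ∀ i y y', |φ i y - φ i y'| ≤ 21 / c i * |y - y'|
  fin : ∀ y, ∃ s : Finset (ℤ × Bool), s.card ≤ 2 ∧ (∀ i ∉ s, φ i y = 0) ∧
    (y ≠ b0 → ∑ i ∈ s, φ i y = 1)

private noncomputable def whHat (c t : ℝ) : ℝ :=
  max 0 (min ((t - c) / (c / 20)) ((441 / 400 * c - t) / (21 / 400 * c)))

private lemma whHat_nonneg (c t : ℝ) : 0 ≤ whHat c t := le_max_left _ _

private lemma whHat_le_one {c : ℝ} (hc : 0 < c) (t : ℝ) : whHat c t ≤ 1 := by
  unfold whHat
  refine max_le zero_le_one ?_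
  rcases le_total t (21 / 20 * c) with h | h
  · refine (min_le_left _ _).trans ?_
    rw [div_le_one (by positivity)]
    linarith
  · refine (min_le_right _ _).trans ?_
    rw [div_le_one (by positivity)]
    linarith

private lemma whHat_left {c : ℝ} (hc : 0 < c) {t : ℝ} (ht : t ≤ c) : whHat c t = 0 := by
  unfold whHat
  refine max_eq_left ((min_le_left _ _).trans ?_)
  exact div_nonpos_of_nonpos_of_nonneg (by linarith) (by positivity)

private lemma whHat_right {c : ℝ} (hc : 0 < c) {t : ℝ} (ht : 441 / 400 * c ≤ t) :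
    whHat c t = 0 := by
  unfold whHat
  refine max_eq_left ((min_le_right _ _).trans ?_)
  exact div_nonpos_of_nonpos_of_nonneg (by linarith) (by positivity)

private lemma whHat_up {c : ℝ} (hc : 0 < c) {t : ℝ} (h1 : c ≤ t) (h2 : t ≤ 21 / 20 * c) :
    whHat c t = (t - c) / (c / 20) := by
  unfold whHat
  have h3 : (t - c) / (c / 20) ≤ (441 / 400 * c - t) / (21 / 400 * c) := by
    refine le_trans (b := 1) ?_ ?_
    · rw [div_le_one (by positivity)]
      linarith
    · rw [one_le_div (by positivity)]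
      linarith
  rw [min_eq_left h3]
  exact max_eq_right (div_nonneg (by linarith) (by positivity))

private lemma whHat_down {c : ℝ} (hc : 0 < c) {t : ℝ} (h1 : 21 / 20 * c ≤ t)
    (h2 : t ≤ 441 / 400 * c) : whHat c t = (441 / 400 * c - t) / (21 / 400 * c) := by
  unfold whHat
  have h3 : (441 / 400 * c - t) / (21 / 400 * c) ≤ (t - c) / (c / 20) := by
    refine le_trans (b := 1) ?_ ?_
    · rw [div_le_one (by positivity)]
      linarith
    · rw [one_le_div (by positivity)]
      linarith
  rw [min_eq_right h3]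
  exact max_eq_right (div_nonneg (by linarith) (by positivity))

private lemma whHat_lip {c : ℝ} (hc : 0 < c) (t t' : ℝ) :
    |whHat c t - whHat c t'| ≤ 21 / c * |t - t'| := by
  unfold whHat
  refine (abs_max_sub_max_le_max _ _ _ _).trans ?_
  refine max_le ?_ ?_
  · rw [sub_self, abs_zero]
    positivity
  · refine (abs_min_sub_min_le_max _ _ _ _).trans ?_
    refine max_le ?_ ?_
    · rw [← sub_div, abs_div, abs_of_pos (show (0 : ℝ) < c / 20 by positivity)]
      rw [show t - c - (t' - c) = t - t' by ring]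
      rw [div_le_iff₀ (by positivity)]
      have h : 21 / c * |t - t'| * (c / 20) = 21 / 20 * |t - t'| := by
        field_simp
      rw [h]
      linarith [abs_nonneg (t - t')]
    · rw [← sub_div, abs_div, abs_of_pos (show (0 : ℝ) < 21 / 400 * c by positivity)]
      rw [show 441 / 400 * c - t - (441 / 400 * c - t') = -(t - t') by ring, abs_neg]
      rw [div_le_iff₀ (by positivity)]
      have h : 21 / c * |t - t'| * (21 / 400 * c) = 441 / 400 * |t - t'| := by
        field_simp
        ring
      rw [h]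
      linarith [abs_nonneg (t - t')]

private noncomputable def whSg (s : Bool) : ℝ := if s then 1 else -1

private lemma whSg_sq (s : Bool) : whSg s * whSg s = 1 := by
  cases s <;> simp [whSg]

private lemma whSg_abs (s : Bool) : |whSg s| = 1 := by
  cases s <;> simp [whSg]

private lemma whSg_abs_mul (s : Bool) (x : ℝ) : |whSg s * x| = |x| := by
  rw [abs_mul, whSg_abs, one_mul]

private noncomputable def whC (i : ℤ × Bool) : ℝ := (21 / 20 : ℝ) ^ (i.1 - 1)

private lemma whC_pos (i : ℤ × Bool) : 0 < whC i := by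
  unfold whC
  positivity

private lemma whC_q (i : ℤ × Bool) : 21 / 20 * whC i = (21 / 20 : ℝ) ^ i.1 := by
  unfold whC
  have h := zpow_add_one₀ (show (21 / 20 : ℝ) ≠ 0 by norm_num) (i.1 - 1)
  rw [sub_add_cancel] at h
  rw [h]
  ring

private lemma whC_qq (i : ℤ × Bool) : 441 / 400 * whC i = (21 / 20 : ℝ) ^ (i.1 + 1) := by
  have h := zpow_add_one₀ (show (21 / 20 : ℝ) ≠ 0 by norm_num) i.1
  rw [h, ← whC_q]
  ring

theorem whit (b0 : ℝ) : ∃ W c φ, Whitney b0 W c φ := by
  refine ⟨fun i => {y | whC i ≤ whSg i.2 * (y - b0) ∧ whSg i.2 * (y - b0) ≤ 441 / 400 * whC i},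
    whC, fun i y => whHat (whC i) (whSg i.2 * (y - b0)), ?_⟩
  constructor
  · exact whC_pos
  · intro i y hy
    have h1 : whC i ≤ whSg i.2 * (y - b0) := hy.1
    rw [← whSg_abs_mul i.2]
    exact h1.trans (le_abs_self _)
  · intro i y hy
    have h1 : whC i ≤ whSg i.2 * (y - b0) := hy.1
    have h2 : whSg i.2 * (y - b0) ≤ 441 / 400 * whC i := hy.2
    have h3 := whC_pos i
    rw [← whSg_abs_mul i.2, abs_of_nonneg (h3.le.trans h1)]
    linarith
  · intro i y hy y' hy'
    have h1 : whC i ≤ whSg i.2 * (y - b0) := hy.1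
    have h2 : whSg i.2 * (y - b0) ≤ 441 / 400 * whC i := hy.2
    have h1' : whC i ≤ whSg i.2 * (y' - b0) := hy'.1
    have h2' : whSg i.2 * (y' - b0) ≤ 441 / 400 * whC i := hy'.2
    have h3 := whC_pos i
    rw [← whSg_abs_mul i.2]
    rw [show whSg i.2 * (y - y') = whSg i.2 * (y - b0) - whSg i.2 * (y' - b0) by ring]
    rw [abs_le]
    constructor <;> linarith
  · intro i y
    exact whHat_nonneg _ _
  · intro i y
    exact whHat_le_one (whC_pos i) _
  · intro i y hy
    by_cases h : whC i ≤ whSg i.2 * (y - b0)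
    · have h2 : ¬ whSg i.2 * (y - b0) ≤ 441 / 400 * whC i := fun h2 => hy ⟨h, h2⟩
      exact whHat_right (whC_pos i) (not_le.mp h2).le
    · exact whHat_left (whC_pos i) (not_le.mp h).le
  · intro i y y'
    refine (whHat_lip (whC_pos i) _ _).trans (le_of_eq ?_)
    rw [← mul_sub, whSg_abs_mul, sub_sub_sub_cancel_right]
  · intro y
    rcases eq_or_ne y b0 with hy | hy
    · refine ⟨∅, by simp, fun i _ => ?_, fun h => absurd hy h⟩
      refine whHat_left (whC_pos i) ?_
      rw [hy, sub_self, mul_zero]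
      exact (whC_pos i).le
    · obtain ⟨s, hs⟩ : ∃ s : Bool, whSg s * (y - b0) = |y - b0| := by
        rcases le_total 0 (y - b0) with h | h
        · exact ⟨true, by simp [whSg, abs_of_nonneg h]⟩
        · exact ⟨false, by simp [whSg, abs_of_nonpos h]⟩
      have ht : 0 < |y - b0| := abs_pos.mpr (sub_ne_zero.mpr hy)
      have hother : ∀ s' : Bool, s' ≠ s → whSg s' * (y - b0) = - |y - b0| := by
        intro s' hs'
        rw [← hs]
        have h1 : whSg s' = - whSg s := by
          cases s' <;> cases s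
          · exact absurd rfl hs'
          · simp [whSg]
          · simp [whSg]
          · exact absurd rfl hs'
        rw [h1, neg_mul]
      obtain ⟨j, hj1, hj2⟩ := exists_mem_Ico_zpow ht (show (1 : ℝ) < 21 / 20 by norm_num)
      refine ⟨{(j, s), (j + 1, s)}, Finset.card_le_two, ?_, fun _ => ?_⟩
      · rintro ⟨j', s'⟩ hi
        by_cases hss : s' = s
        · subst hss
          have hne1 : j' ≠ j := by
            rintro rfl
            exact hi (by simp)
          have hne2 : j' ≠ j + 1 := by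
            rintro rfl
            exact hi (by simp)
          show whHat (whC (j', s')) (whSg s' * (y - b0)) = 0
          rw [hs]
          rcases lt_or_gt_of_ne hne1 with h | h
          · refine whHat_right (whC_pos _) ?_
            rw [whC_qq]
            refine le_trans ?_ hj1
            exact zpow_le_zpow_right₀ (by norm_num) (by show j' + 1 ≤ j; omega)
          · refine whHat_left (whC_pos _) ?_
            refine hj2.le.trans ?_
            unfold whC
            exact zpow_le_zpow_right₀ (by norm_num) (by show j + 1 ≤ j' - 1; omega)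
        · refine whHat_left (whC_pos _) ?_
          show whSg s' * (y - b0) ≤ _
          rw [hother s' hss]
          linarith [whC_pos (j', s')]
      · rw [Finset.sum_pair (fun h => by have h' := (Prod.mk.inj h).1; omega)]
        show whHat (whC (j, s)) (whSg s * (y - b0)) + whHat (whC (j + 1, s)) (whSg s * (y - b0)) = 1
        rw [hs]
        have hc := whC_pos (j, s)
        have e0 : whC (j + 1, s) = 21 / 20 * whC (j, s) := by
          rw [whC_q]
          unfold whC
          show (21 / 20 : ℝ) ^ (j + 1 - 1) = (21 / 20 : ℝ) ^ j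
          rw [add_sub_cancel_right]
        have e1 : 21 / 20 * whC (j, s) ≤ |y - b0| := by
          rw [whC_q]
          exact hj1
        have e2 : |y - b0| ≤ 441 / 400 * whC (j, s) := by
          rw [whC_qq]
          exact hj2.le
        rw [whHat_down hc e1 e2]
        rw [whHat_up (whC_pos (j + 1, s)) (by rw [e0]; exact e1) (by rw [e0]; linarith)]
        rw [e0]
        rw [show 21 / 20 * whC (j, s) / 20 = 21 / 400 * whC (j, s) by ring]
        rw [← add_div, div_eq_one_iff_eq (by positivity)]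
        ring

end H50LP
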